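import Pool.Agent.V8H21.MCG.Perm

set_option autoImplicit false

/-!
# Finite quotients of extensions of surface groups, and lifts of automorphisms
-/

namespace Pool.Agent.V8H21.MCG

open Equiv

universe u v w

/-- The fundamental group of the closed orientable surface of genus `g`. -/
abbrev SurfaceGroup (g : ℕ) : Type := PresentedGroup ({rel g} : Set (FreeGroup (Fin g ⊕ Fin g)))

/-- the action of the middle group of an extension on the kernel -/
noncomputable def cact {N : Type u} [Group N] {E : Type v} [Group E] (ι : N →* E)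
    (hι : Function.Injective ι) [ι.range.Normal] : E →* MulAut N :=
  (MulAut.congr (MonoidHom.ofInjective hι).symm).toMonoidHom.comp (MulAut.conjNormal (H := ι.range))

theorem cact_spec {N : Type u} [Group N] {E : Type v} [Group E] (ι : N →* E)
    (hι : Function.Injective ι) [ι.range.Normal] (e : E) (n : N) :
    ι (cact ι hι e n) = e * ι n * e⁻¹ := by
  have h : cact ι hι e n = (MonoidHom.ofInjective hι).symm
      (MulAut.conjNormal e (MonoidHom.ofInjective hι n)) := rfl
  have h2 : ∀ y : ι.range, ι ((MonoidHom.ofInjective hι).symm y) = y := by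
    intro y
    have h3 := congrArg Subtype.val ((MonoidHom.ofInjective hι).apply_symm_apply y)
    rw [MonoidHom.ofInjective_apply] at h3
    exact h3
  rw [h, h2, MulAut.conjNormal_apply, MonoidHom.ofInjective_apply]

section ext

variable {g : ℕ} {N : Type u} [Group N] {E : Type v} [Group E]

/-- A finite permutation representation of `E` which is faithful on `N`. -/
theorem exists_q [Finite N] (ι : N →* E) (p : E →* SurfaceGroup (g + 2))
    (hι : Function.Injective ι) (hp : Function.Surjective p) (hr : ι.range = p.ker) :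
    ∃ q : E →* Perm (N × ZMod (Nat.card (Perm N)) × ZMod (Nat.card (Perm N))),
      ∀ n, q (ι n) = pj _ n := by
  classical
  have hnorm : ι.range.Normal := by
    rw [hr]
    infer_instance
  have hmem : ∀ e : E, p e = 1 → ∃ n, ι n = e := by
    intro e he
    have : e ∈ ι.range := by
      rw [hr]
      exact he
    exact this
  have hpi : ∀ n, p (ι n) = 1 := by
    intro n
    have : ι n ∈ p.ker := by
      rw [← hr]
      exact ⟨n, rfl⟩
    exact this
  let fc : FreeGroup (Fin (g + 2) ⊕ Fin (g + 2)) →* E :=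
    FreeGroup.lift (fun i => Function.surjInv hp (PresentedGroup.of i))
  have hfc : ∀ w, p (fc w) = PresentedGroup.mk {rel (g + 2)} w := by
    intro w
    have h1 : p.comp fc = PresentedGroup.mk {rel (g + 2)} := by
      ext i
      show p (fc (FreeGroup.of i)) = _
      have : fc (FreeGroup.of i) = Function.surjInv hp (PresentedGroup.of i) :=
        FreeGroup.lift_apply_of
      rw [this]
      exact Function.surjInv_eq hp _
    exact DFunLike.congr_fun h1 w
  have hrel : PresentedGroup.mk {rel (g + 2)} (rel (g + 2)) = 1 :=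
    PresentedGroup.one_of_mem (Set.mem_singleton _)
  obtain ⟨r, hr1⟩ := hmem (fc (rel (g + 2))) (by rw [hfc, hrel])
  let α : FreeGroup (Fin (g + 2) ⊕ Fin (g + 2)) →* MulAut N := (cact ι hι).comp fc
  have hα : ∀ w n, ι (α w n) = fc w * ι n * (fc w)⁻¹ := fun w n => cact_spec ι hι (fc w) n
  have hαr : α (rel (g + 2)) = MulAut.conj r := by
    ext n
    apply hι
    rw [hα, ← hr1, MulAut.conj_apply, map_mul, map_mul, map_inv]
  let f := ff g α r (Nat.card (Perm N))
  have hf1 : f (rel (g + 2)) = pj _ r := ff_rel g α r rfl hαr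
  have hf2 : ∀ w n, f w * pj _ n = pj _ (α w n) * f w := fun w n => ff_conj g α r _ w n
  -- the elements of the kernel
  have hker : ∀ v : FreeGroup (Fin (g + 2) ⊕ Fin (g + 2)), PresentedGroup.mk {rel (g + 2)} v = 1 →
      ∃ n, fc v = ι n ∧ f v = pj _ n := by
    intro v hv
    let K : Subgroup (FreeGroup (Fin (g + 2) ⊕ Fin (g + 2))) :=
      { carrier := {v | ∃ n, fc v = ι n ∧ f v = pj _ n}
        one_mem' := ⟨1, by simp, by simp⟩
        mul_mem' := by
          rintro a b ⟨n, h1, h2⟩ ⟨n', h3, h4⟩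
          exact ⟨n * n', by rw [map_mul, map_mul, h1, h3], by rw [map_mul, map_mul, h2, h4]⟩
        inv_mem' := by
          rintro a ⟨n, h1, h2⟩
          exact ⟨n⁻¹, by rw [map_inv, map_inv, h1], by rw [map_inv, map_inv, h2]⟩ }
    have hK : K.Normal := by
      constructor
      rintro a ⟨n, h1, h2⟩ w
      refine ⟨α w n, ?_, ?_⟩
      · rw [hα, map_mul, map_mul, map_inv, h1]
      · rw [map_mul, map_mul, map_inv, h2, hf2, mul_inv_cancel_right]
    have h1 : Subgroup.normalClosure ({rel (g + 2)} : Set (FreeGroup (Fin (g + 2) ⊕ Fin (g + 2)))) ≤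
        K := by
      apply Subgroup.normalClosure_le_normal
      intro x hx
      rw [Set.mem_singleton_iff] at hx
      rw [hx]
      exact ⟨r, hr1.symm, hf1⟩
    apply h1
    exact (QuotientGroup.eq_one_iff _).1 hv
  -- decomposition
  have hdec : ∀ e : E, ∃ (n : N) (w : FreeGroup (Fin (g + 2) ⊕ Fin (g + 2))), e = ι n * fc w := by
    intro e
    obtain ⟨w, hw⟩ := QuotientGroup.mk_surjective (p e)
    have h1 : p (e * (fc w)⁻¹) = 1 := by
      rw [map_mul, map_inv, hfc]
      have : PresentedGroup.mk {rel (g + 2)} w = p e := hw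
      rw [this, mul_inv_cancel]
    obtain ⟨n, hn⟩ := hmem _ h1
    exact ⟨n, w, by rw [hn, inv_mul_cancel_right]⟩
  have huniq : ∀ (n n' : N) (w w' : FreeGroup (Fin (g + 2) ⊕ Fin (g + 2))),
      ι n * fc w = ι n' * fc w' → pj (Nat.card (Perm N)) n * f w = pj _ n' * f w' := by
    intro n n' w w' h
    have h1 : fc (w * w'⁻¹) = ι (n⁻¹ * n') := by
      rw [map_mul, map_inv, map_mul, map_inv, mul_inv_eq_iff_eq_mul, eq_comm, mul_assoc,
        inv_mul_eq_iff_eq_mul]
      exact h.symm
    have h2 : PresentedGroup.mk {rel (g + 2)} (w * w'⁻¹) = 1 := by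
      rw [← hfc, h1, hpi]
    obtain ⟨n'', h3, h4⟩ := hker _ h2
    have h5 : n'' = n⁻¹ * n' := hι (by rw [← h3, h1])
    rw [h5, map_mul, map_inv, map_mul, map_inv, mul_inv_eq_iff_eq_mul] at h4
    rw [h4]
    group
  choose cn cw hcw using hdec
  refine ⟨MonoidHom.mk' (fun e => pj _ (cn e) * f (cw e)) ?_, ?_⟩
  · intro a b
    have h1 : ι (cn (a * b)) * fc (cw (a * b)) = ι (cn a * α (cw a) (cn b)) * fc (cw a * cw b) := by
      rw [← hcw, map_mul, hα, map_mul]
      conv_lhs => rw [hcw a, hcw b]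
      group
    rw [huniq _ _ _ _ h1, map_mul, map_mul]
    calc pj _ (cn a) * pj _ (α (cw a) (cn b)) * (f (cw a) * f (cw b))
        = pj _ (cn a) * (pj _ (α (cw a) (cn b)) * f (cw a)) * f (cw b) := by
          simp only [mul_assoc]
      _ = pj _ (cn a) * (f (cw a) * pj _ (cn b)) * f (cw b) := by rw [hf2]
      _ = _ := by simp only [mul_assoc]
  · intro n
    show pj _ (cn (ι n)) * f (cw (ι n)) = _
    have h1 : ι (cn (ι n)) * fc (cw (ι n)) = ι n * fc 1 := by
      rw [← hcw, map_one, mul_one]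
    rw [huniq _ _ _ _ h1, map_one, mul_one]

end ext

/-- the intersection of the kernels of all homomorphisms to the symmetric group of degree `n` -/
def cker (K : Type u) [Group K] (n : ℕ) : Subgroup K := ⨅ f : K →* Perm (Fin n), f.ker

theorem mem_cker {K : Type u} [Group K] {n : ℕ} {x : K} :
    x ∈ cker K n ↔ ∀ f : K →* Perm (Fin n), f x = 1 := by
  unfold cker
  rw [Subgroup.mem_iInf]
  rfl

instance cker_char (K : Type u) [Group K] (n : ℕ) : (cker K n).Characteristic := by
  refine ⟨fun φ => ?_⟩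
  ext x
  rw [Subgroup.mem_comap, mem_cker, mem_cker]
  constructor
  · intro h f
    have := h (f.comp φ.symm.toMonoidHom)
    simpa using this
  · intro h f
    exact h (f.comp φ.toMonoidHom)

theorem finite_hom {R : Type u} [Group R] [hR : Group.FG R] (H : Type v) [Group H] [Finite H] :
    Finite (R →* H) := by
  obtain ⟨S', hS, hfin⟩ := Group.fg_iff.mp hR
  have : Finite S' := hfin
  refine Finite.of_injective (fun (f : R →* H) (s : S') => f s) ?_
  intro f g hfg
  apply MonoidHom.eq_of_eqOn_dense hS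
  intro x hx
  exact congrFun hfg ⟨x, hx⟩

instance cker_fin (K : Type u) [Group K] [Group.FG K] (n : ℕ) : (cker K n).FiniteIndex := by
  have hfin : Finite (K →* Perm (Fin n)) := finite_hom _
  unfold cker
  apply Subgroup.finiteIndex_iInf
  intro f
  infer_instance

/-- subgroups of index at most `n` contain `cker K n` -/
theorem cker_le {K : Type u} [Group K] {n : ℕ} (S : Subgroup K) (h0 : S.index ≠ 0)
    (hn : S.index ≤ n) : cker K n ≤ S := by
  have hS : S.FiniteIndex := ⟨h0⟩
  have hq : Finite (K ⧸ S) := Subgroup.finite_quotient_of_finiteIndex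
  intro x hx
  rw [mem_cker] at hx
  let e : K ⧸ S ≃ Fin (S.index) := Finite.equivFin _
  let i : K ⧸ S ↪ Fin n := e.toEmbedding.trans (Fin.castLEEmb hn)
  have h1 := hx ((Perm.viaEmbeddingHom i).comp (MulAction.toPermHom K (K ⧸ S)))
  have h2 : MulAction.toPermHom K (K ⧸ S) x = 1 :=
    Perm.viaEmbeddingHom_injective i (by rw [map_one]; exact h1)
  have h3 := congrArg (fun p => p ((1 : K) : K ⧸ S)) h2
  simp only [MulAction.toPermHom_apply, MulAction.toPerm_apply, Equiv.Perm.one_apply] at h3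
  have h4 : ((x * 1 : K) : K ⧸ S) = ((1 : K) : K ⧸ S) := h3
  rw [mul_one, eq_comm, QuotientGroup.eq] at h4
  simpa using h4

theorem surface_fg (g : ℕ) : Group.FG (SurfaceGroup g) :=
  QuotientGroup.fg _

/-- Lifts: an automorphism acting trivially modulo the image of the kernel of `Q`. -/
theorem exists_lift {K : Type u} [Group K] {E : Type v} [Group E] {H : Type w} [Group H]
    (p : E →* K) (hp : Function.Surjective p) (Q : E →* H)
    (hinj : ∀ e, p e = 1 → Q e = 1 → e = 1) (φ : MulAut K)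
    (hφ : ∀ x, φ x * x⁻¹ ∈ Q.ker.map p) :
    ∃ Φ : E →* E, (∀ e, p (Φ e) = φ (p e)) ∧ ∀ e, Q (Φ e) = Q e := by
  have hex : ∀ e, ∃ e', p e' = φ (p e) ∧ Q e' = Q e := by
    intro e
    obtain ⟨m, hm, hm2⟩ := hφ (p e)
    refine ⟨m * e, ?_, ?_⟩
    · rw [map_mul, hm2, inv_mul_cancel_right]
    · rw [map_mul, MonoidHom.mem_ker.1 hm, one_mul]
  have huniq : ∀ a b, p a = p b → Q a = Q b → a = b := by
    intro a b h1 h2
    rw [← mul_inv_eq_one]
    apply hinj
    · rw [map_mul, map_inv, h1, mul_inv_cancel]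
    · rw [map_mul, map_inv, h2, mul_inv_cancel]
  choose F hF1 hF2 using hex
  refine ⟨MonoidHom.mk' F (fun a b => huniq _ _ ?_ ?_), hF1, hF2⟩
  · rw [hF1, map_mul, map_mul, map_mul, hF1, hF1]
  · rw [hF2, map_mul, map_mul, hF2, hF2]

theorem exists_lift_equiv {K : Type u} [Group K] {E : Type v} [Group E] {H : Type w} [Group H]
    (p : E →* K) (hp : Function.Surjective p) (Q : E →* H)
    (hinj : ∀ e, p e = 1 → Q e = 1 → e = 1) (φ : MulAut K)
    (hφ : ∀ x, φ x * x⁻¹ ∈ Q.ker.map p) :
    ∃ Φ : MulAut E, (∀ e, p (Φ e) = φ (p e)) ∧ ∀ e, Q (Φ e) = Q e := by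
  have huniq : ∀ a b, p a = p b → Q a = Q b → a = b := by
    intro a b h1 h2
    rw [← mul_inv_eq_one]
    apply hinj
    · rw [map_mul, map_inv, h1, mul_inv_cancel]
    · rw [map_mul, map_inv, h2, mul_inv_cancel]
  obtain ⟨Φ, h1, h2⟩ := exists_lift p hp Q hinj φ hφ
  obtain ⟨Ψ, h3, h4⟩ := exists_lift p hp Q hinj φ⁻¹ (by
    intro x
    have h := (Q.ker.map p).inv_mem (hφ (φ⁻¹ x))
    rwa [MulAut.apply_inv_self, mul_inv_rev, inv_inv] at h)
  refine ⟨MonoidHom.toMulEquiv Φ Ψ ?_ ?_, h1, h2⟩
  · ext e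
    apply huniq
    · show p (Ψ (Φ e)) = p e
      rw [h3, h1, MulAut.inv_apply_self]
    · show Q (Ψ (Φ e)) = Q e
      rw [h4, h2]
  · ext e
    apply huniq
    · show p (Φ (Ψ e)) = p e
      rw [h1, h3, MulAut.apply_inv_self]
    · show Q (Φ (Ψ e)) = Q e
      rw [h2, h4]

/-- the degree -/
noncomputable def deg (N : Type u) (G : Type v) : ℕ :=
  Nat.card (Perm (N × ZMod (Nat.card (Perm N)) × ZMod (Nat.card (Perm N))) × G)

/-- Automorphisms which act trivially modulo `cker` lift to all extensions. -/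
theorem lift_main {g : ℕ} (hg : 2 ≤ g) (N : Type u) [Group N] [Finite N] (G : Type v) [Group G]
    [Finite G] (φ : MulAut (SurfaceGroup g))
    (hφ : ∀ x, φ x * x⁻¹ ∈ cker (SurfaceGroup g) (deg N G))
    (E : Type w) [Group E] (ι : N →* E) (p : E →* SurfaceGroup g) (κ : E →* G)
    (hι : Function.Injective ι) (hp : Function.Surjective p) (hr : ι.range = p.ker) :
    ∃ Φ : MulAut E, (∀ n, Φ (ι n) = ι n) ∧ (∀ e, p (Φ e) = φ (p e)) ∧ ∀ e, κ (Φ e) = κ e := by
  obtain ⟨g, rfl⟩ := Nat.exists_eq_add_of_le' hg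
  obtain ⟨q, hq⟩ := exists_q ι p hι hp hr
  have hm0 : NeZero (Nat.card (Perm N)) := ⟨Nat.card_pos.ne'⟩
  have hm1 : ∀ k : ℕ, k ≠ 0 → Finite (ZMod k) := by
    intro k hk
    have : NeZero k := ⟨hk⟩
    infer_instance
  have hm2 : Finite (ZMod (Nat.card (Perm N))) := hm1 _ hm0.ne
  let Q : E →* Perm (N × ZMod (Nat.card (Perm N)) × ZMod (Nat.card (Perm N))) × G := q.prod κ
  have hinj : ∀ e, p e = 1 → Q e = 1 → e = 1 := by
    intro e he hQ
    have h1 : e ∈ ι.range := by
      rw [hr]
      exact he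
    obtain ⟨n, rfl⟩ := h1
    have h2 : q (ι n) = 1 := congrArg Prod.fst hQ
    rw [hq] at h2
    have h3 : n = 1 := pj_inj _ (by rw [h2, map_one])
    rw [h3, map_one]
  have hidx : Q.ker.index ≠ 0 ∧ Q.ker.index ≤ deg N G := by
    rw [Subgroup.index_ker]
    constructor
    · exact Nat.card_pos.ne'
    · exact Nat.card_le_card_of_injective _ Subtype.val_injective
  have hdvd : (Q.ker.map p).index ∣ Q.ker.index := Subgroup.index_map_dvd _ hp
  have h5 : cker (SurfaceGroup (g + 2)) (deg N G) ≤ Q.ker.map p := by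
    apply cker_le
    · intro h0
      rw [h0, zero_dvd_iff] at hdvd
      exact hidx.1 hdvd
    · exact (Nat.le_of_dvd (Nat.pos_of_ne_zero hidx.1) hdvd).trans hidx.2
  obtain ⟨Φ, h1, h2⟩ := exists_lift_equiv p hp Q hinj φ (fun x => h5 (hφ x))
  refine ⟨Φ, ?_, h1, fun e => congrArg Prod.snd (h2 e)⟩
  intro n
  rw [← mul_inv_eq_one]
  have hpi : p (ι n) = 1 := by
    have : ι n ∈ p.ker := by
      rw [← hr]
      exact ⟨n, rfl⟩
    exact this
  apply hinj
  · rw [map_mul, map_inv, h1, hpi, map_one, inv_one, mul_one]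
  · rw [map_mul, map_inv, h2, mul_inv_cancel]

end Pool.Agent.V8H21.MCG
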