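import Pool.Agent.H698R4.Malcev
import Pool.Agent.V8H21.MCG.Quot

set_option autoImplicit false

/-!
# Algebraic subsets of representation varieties
-/

namespace Pool.Agent.V8H21.MCG

open MvPolynomial

section general

variable {G : Type} [Group G] {K : Type} [Field K] {n : ℕ}

/-- the coordinates of a representation -/
def crd (x : G →* Matrix.GeneralLinearGroup (Fin n) K) (u : G × Fin n × Fin n) : K :=
  (x u.1 : Matrix (Fin n) (Fin n) K) u.2.1 u.2.2

/-- A value of a polynomial which is not zero stays nonzero under the automorphisms which act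
trivially modulo a suitable subgroup of finite index. -/
theorem eval_ne_zero [hG : Group.FG G] (x : G →* Matrix.GeneralLinearGroup (Fin n) K)
    (P : MvPolynomial (G × Fin n × Fin n) K) (hP : eval (crd x) P ≠ 0) :
    ∃ Γ : Subgroup G, Γ.FiniteIndex ∧ ∀ φ : G →* G, (∀ g, φ g * g⁻¹ ∈ Γ) →
      eval (crd (x.comp φ)) P ≠ 0 := by
  classical
  obtain ⟨S, hS, hfin⟩ := Group.fg_iff.mp hG
  have hfinS : Finite S := hfin
  let ψ : G →* Matrix (Fin n) (Fin n) K :=
    (Units.coeHom _).comp x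
  let T : Set K := Set.range (fun p : (S × Bool) × (Fin n × Fin n) =>
    ψ (if p.1.2 then (p.1.1 : G) else (p.1.1 : G)⁻¹) p.2.1 p.2.2) ∪
      ((P.coeffs : Set K) ∪ {(eval (crd x) P)⁻¹})
  have hT : T.Finite := (Set.finite_range _).union
    (P.coeffs.finite_toSet.union (Set.finite_singleton _))
  let A := Algebra.adjoin ℤ T
  have hfg : A.FG := Subalgebra.fg_def.mpr ⟨T, hT, rfl⟩
  have hft : Algebra.FiniteType ℤ A := (Subalgebra.fg_iff_finiteType A).mp hfg
  have hent : ∀ x : G, (∀ a b, ψ x a b ∈ A) ∧ (∀ a b, ψ x⁻¹ a b ∈ A) := by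
    intro x
    have hx : x ∈ Subgroup.closure S := by
      rw [hS]
      trivial
    induction hx using Subgroup.closure_induction with
    | mem x hx =>
      exact ⟨fun a b => Algebra.subset_adjoin (Or.inl ⟨((⟨x, hx⟩, true), (a, b)), rfl⟩),
        fun a b => Algebra.subset_adjoin (Or.inl ⟨((⟨x, hx⟩, false), (a, b)), rfl⟩)⟩
    | one =>
      have h1 : ∀ a b, (1 : Matrix (Fin n) (Fin n) K) a b ∈ A := by
        intro a b
        rw [Matrix.one_apply]
        split_ifs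
        · exact A.one_mem
        · exact A.zero_mem
      rw [inv_one, map_one]
      exact ⟨h1, h1⟩
    | mul x y _ _ hx hy =>
      rw [mul_inv_rev, map_mul, map_mul]
      refine ⟨fun a b => ?_, fun a b => ?_⟩
      · rw [Matrix.mul_apply]
        exact A.sum_mem fun c _ => A.mul_mem (hx.1 a c) (hy.1 c b)
      · rw [Matrix.mul_apply]
        exact A.sum_mem fun c _ => A.mul_mem (hy.2 a c) (hx.2 c b)
    | inv x _ hx =>
      rw [inv_inv]
      exact ⟨hx.2, hx.1⟩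
  let M : G →* Matrix (Fin n) (Fin n) A :=
    { toFun := fun x => Matrix.of fun a b => ⟨ψ x a b, (hent x).1 a b⟩
      map_one' := by
        ext a b
        show ψ 1 a b = (((1 : Matrix (Fin n) (Fin n) A) a b : A) : K)
        rw [map_one, Matrix.one_apply, Matrix.one_apply]
        split_ifs <;> simp
      map_mul' := fun x y => by
        ext a b
        show ψ (x * y) a b = _
        rw [map_mul, Matrix.mul_apply, Matrix.mul_apply]
        simp }
  -- a finite residue field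
  obtain ⟨m, hm⟩ := Ideal.exists_maximal A
  have hk : IsField (A ⧸ m) := (Ideal.Quotient.maximal_ideal_iff_isField_quotient m).1 hm
  have hft2 : Algebra.FiniteType ℤ (A ⧸ m) := inferInstance
  have hkfin : Finite (A ⧸ m) := H698R4.finite_field_of_finiteType (A ⧸ m) hk
  let M' : G →* Matrix (Fin n) (Fin n) (A ⧸ m) :=
    (((Ideal.Quotient.mk m).mapMatrix : Matrix (Fin n) (Fin n) A →+*
      Matrix (Fin n) (Fin n) (A ⧸ m)) : Matrix (Fin n) (Fin n) A →* Matrix (Fin n) (Fin n) (A ⧸ m)).comp M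
  let M2 : G →* (Matrix (Fin n) (Fin n) (A ⧸ m))ˣ := M'.toHomUnits
  refine ⟨M2.ker, inferInstance, ?_⟩
  intro φ hφ h0
  have hMφ : ∀ g, M' (φ g) = M' g := by
    intro g
    have h1 : M2 (φ g) = M2 g := by
      have h2 := MonoidHom.mem_ker.1 (hφ g)
      rwa [map_mul, map_inv, mul_inv_eq_one] at h2
    have h3 := congrArg Units.val h1
    exact h3
  -- the polynomial over the subring
  have hPc : P ∈ (MvPolynomial.map (σ := G × Fin n × Fin n) (algebraMap A K)).range := by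
    rw [RingHom.mem_range]
    have : P ∈ Set.range (MvPolynomial.map (σ := G × Fin n × Fin n) (algebraMap A K)) := by
      rw [MvPolynomial.mem_range_map_iff_coeffs_subset]
      intro c hc
      exact ⟨⟨c, Algebra.subset_adjoin (Or.inr (Or.inl hc))⟩, rfl⟩
    exact this
  obtain ⟨PR, hPR⟩ := RingHom.mem_range.1 hPc
  have hev : ∀ y : G → G, ∀ z : G × Fin n × Fin n → A,
      (∀ u, (z u : K) = ψ (y u.1) u.2.1 u.2.2) →
      ((eval z PR : A) : K) = eval (fun u => ψ (y u.1) u.2.1 u.2.2) P := by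
    intro y z hz
    rw [← hPR, eval_map]
    have h1 : (algebraMap A K) (eval z PR) = eval₂ (algebraMap A K) (fun u => algebraMap A K (z u)) PR := by
      rw [← eval₂_id, hom_eval₂, RingHom.comp_id]
    have h2 : (fun u => algebraMap A K (z u)) = fun u => ψ (y u.1) u.2.1 u.2.2 := by
      funext u
      exact hz u
    rw [← h2, ← h1]
    rfl
  let z1 : G × Fin n × Fin n → A := fun u => M u.1 u.2.1 u.2.2
  let z2 : G × Fin n × Fin n → A := fun u => M (φ u.1) u.2.1 u.2.2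
  have e1 : ((eval z1 PR : A) : K) = eval (crd x) P := hev id z1 (fun u => rfl)
  have e2 : ((eval z2 PR : A) : K) = eval (crd (x.comp φ)) P := hev φ z2 (fun u => rfl)
  have e3 : eval z2 PR = 0 := by
    apply Subtype.ext
    rw [e2, h0]
    rfl
  have e4 : Ideal.Quotient.mk m (eval z1 PR) = Ideal.Quotient.mk m (eval z2 PR) := by
    rw [← eval₂_id, ← eval₂_id, hom_eval₂, hom_eval₂]
    congr 1
    funext u
    have h1 := congrFun (congrFun (hMφ u.1) u.2.1) u.2.2
    exact h1.symm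
  rw [e3, map_zero, Ideal.Quotient.eq_zero_iff_mem] at e4
  have hinv : (eval (crd x) P)⁻¹ ∈ A := Algebra.subset_adjoin (Or.inr (Or.inr rfl))
  have e5 : (⟨(eval (crd x) P)⁻¹, hinv⟩ : A) * eval z1 PR = 1 := by
    apply Subtype.ext
    show (eval (crd x) P)⁻¹ * ((eval z1 PR : A) : K) = 1
    rw [e1, inv_mul_cancel₀ hP]
  have e6 : (1 : A) ∈ m := by
    rw [← e5]
    exact m.mul_mem_left _ e4
  exact hm.ne_top ((Ideal.eq_top_iff_one m).2 e6)

/-- algebraic subsets of the representation variety -/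
def IsAlg (Z : Set (G →* Matrix.GeneralLinearGroup (Fin n) K)) : Prop :=
  ∃ F : Set (MvPolynomial (G × Fin n × Fin n) K), ∀ x, x ∈ Z ↔ ∀ P ∈ F, eval (crd x) P = 0

/-- the inverse image under an automorphism -/
def pull (φ : MulAut G) (Z : Set (G →* Matrix.GeneralLinearGroup (Fin n) K)) :
    Set (G →* Matrix.GeneralLinearGroup (Fin n) K) :=
  {x | x.comp φ.toMonoidHom ∈ Z}

theorem exists_sep [hG : Group.FG G] {Z Z' : Set (G →* Matrix.GeneralLinearGroup (Fin n) K)}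
    (hZ' : IsAlg Z') (h : ¬ Z ⊆ Z') :
    ∃ Γ : Subgroup G, Γ.FiniteIndex ∧ ∀ φ : MulAut G, (∀ g, φ g * g⁻¹ ∈ Γ) →
      ¬ Z ⊆ pull φ Z' := by
  obtain ⟨F, hF⟩ := hZ'
  rw [Set.not_subset] at h
  obtain ⟨x, hx, hx'⟩ := h
  rw [hF] at hx'
  push Not at hx'
  obtain ⟨P, hP, hne⟩ := hx'
  obtain ⟨Γ, hΓ, h1⟩ := eval_ne_zero x P hne
  refine ⟨Γ, hΓ, fun φ hφ hsub => ?_⟩
  have h2 : x.comp φ.toMonoidHom ∈ Z' := hsub hx
  rw [hF] at h2
  exact h1 φ.toMonoidHom hφ (h2 P hP)

/-- Finite sets of algebraic sets. -/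
theorem alg_fixed [hG : Group.FG G] (X : Set (Set (G →* Matrix.GeneralLinearGroup (Fin n) K)))
    (hX : X.Finite) (hXa : ∀ Z ∈ X, IsAlg Z) :
    ∃ Γ : Subgroup G, Γ.FiniteIndex ∧ ∀ φ : MulAut G, (∀ g, φ g * g⁻¹ ∈ Γ) →
      (∀ Z ∈ X, pull φ Z ∈ X) → ∀ Z ∈ X, pull φ Z = Z := by
  classical
  have hfin : Finite X := hX
  have hex : ∀ u : X × X, ∃ Γ : Subgroup G, Γ.FiniteIndex ∧ (¬ u.1.1 ⊆ u.2.1 →
      ∀ φ : MulAut G, (∀ g, φ g * g⁻¹ ∈ Γ) → ¬ u.1.1 ⊆ pull φ u.2.1) := by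
    intro u
    by_cases h : u.1.1 ⊆ u.2.1
    · exact ⟨⊤, inferInstance, fun h' => absurd h h'⟩
    · obtain ⟨Γ, h1, h2⟩ := exists_sep (hXa _ u.2.2) h
      exact ⟨Γ, h1, fun _ => h2⟩
  choose Γ hΓ hΓ2 using hex
  let Δ : Subgroup G := ⨅ u, Γ u
  have hΔ : Δ.FiniteIndex := by
    have := fun u => hΓ u
    exact Subgroup.finiteIndex_iInf this
  have hnorm : Δ.normalCore.FiniteIndex := inferInstance
  refine ⟨Δ.normalCore, hnorm, fun φ hφ hXφ Z hZ => ?_⟩
  have hφ1 : ∀ u : X × X, ∀ g, φ g * g⁻¹ ∈ Γ u := fun u g =>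
    (iInf_le Γ u) (Δ.normalCore_le (hφ g))
  have hφ2 : ∀ u : X × X, ∀ g, φ⁻¹ g * g⁻¹ ∈ Γ u := by
    intro u g
    have h := Δ.normalCore.inv_mem (hφ (φ⁻¹ g))
    rw [MulAut.apply_inv_self, mul_inv_rev, inv_inv] at h
    exact (iInf_le Γ u) (Δ.normalCore_le h)
  apply Set.Subset.antisymm
  · by_contra h
    exact hΓ2 (⟨_, hXφ Z hZ⟩, ⟨Z, hZ⟩) h φ (hφ1 _) (Set.Subset.refl _)
  · by_contra h
    have h1 := hΓ2 (⟨Z, hZ⟩, ⟨_, hXφ Z hZ⟩) h φ⁻¹ (hφ2 _)
    apply h1
    intro x hx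
    show (x.comp (φ⁻¹).toMonoidHom).comp φ.toMonoidHom ∈ Z
    have h2 : (x.comp (φ⁻¹).toMonoidHom).comp φ.toMonoidHom = x := by
      ext g
      show (x (φ⁻¹ (φ g)) : Matrix (Fin n) (Fin n) K) _ _ = _
      rw [MulAut.inv_apply_self]
    rw [h2]
    exact hx

end general

end Pool.Agent.V8H21.MCG
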