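import Pool.Agent.V8H21.MCG.Bra

set_option autoImplicit false

/-!
# Transfer of the congruence subgroup property
-/

namespace Pool.Agent.V8H21.MCG

/-- the congruence subgroup property of the outer automorphism group -/
def CSP (G : Type) [Group G] : Prop :=
  ∀ H : Subgroup (MulAut G), H.FiniteIndex → (∀ x : G, MulAut.conj x ∈ H) →
    ∃ Γ : Subgroup G, Γ.Characteristic ∧ Γ.FiniteIndex ∧
      ∀ φ : MulAut G, (∃ c : G, ∀ x : G, φ x * (c * x * c⁻¹)⁻¹ ∈ Γ) → φ ∈ H

section general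

variable {G : Type} [Group G]

/-- the action of the automorphisms on a characteristic quotient -/
def qact (C : Subgroup G) [hC : C.Characteristic] : MulAut G →* MulAut (G ⧸ C) where
  toFun φ := QuotientGroup.congr C C φ (Subgroup.characteristic_iff_map_eq.1 hC φ)
  map_one' := by
    ext x
    obtain ⟨y, rfl⟩ := QuotientGroup.mk_surjective x
    rfl
  map_mul' a b := by
    ext x
    obtain ⟨y, rfl⟩ := QuotientGroup.mk_surjective x
    rfl

theorem mem_qact_ker (C : Subgroup G) [C.Characteristic] (φ : MulAut G) :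
    φ ∈ (qact C).ker ↔ ∀ y, φ y * y⁻¹ ∈ C := by
  have key : ∀ y, (qact C φ) (QuotientGroup.mk y) = QuotientGroup.mk (φ y) := fun y => rfl
  have key2 : ∀ a b : G, (QuotientGroup.mk a : G ⧸ C) = QuotientGroup.mk b ↔ a * b⁻¹ ∈ C := by
    intro a b
    rw [← QuotientGroup.eq_one_iff, QuotientGroup.mk_mul, QuotientGroup.mk_inv, mul_inv_eq_one]
  constructor
  · intro h y
    have h1 : qact C φ = 1 := h
    have h2 := key y
    rw [h1] at h2
    exact (key2 _ _).1 h2.symm
  · intro h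
    rw [MonoidHom.mem_ker]
    ext x
    obtain ⟨y, rfl⟩ := QuotientGroup.mk_surjective x
    rw [key]
    exact (key2 _ _).2 (h y)

theorem qact_ker_fin (C : Subgroup G) [C.Characteristic] [C.FiniteIndex] :
    (qact C).ker.FiniteIndex := by
  have h1 : Finite (G ⧸ C) := Subgroup.finite_quotient_of_finiteIndex
  have h2 : Finite (MulAut (G ⧸ C)) := Finite.of_injective
    (fun (f : MulAut (G ⧸ C)) => (f : G ⧸ C → G ⧸ C)) DFunLike.coe_injective
  infer_instance

variable {S : Type} [Group S] (ι : S →* G) (hι : Function.Injective ι)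

include hι in
theorem exists_res (φ : MulAut G) (h1 : ∀ p ∈ ι.range, φ p ∈ ι.range)
    (h2 : ∀ p ∈ ι.range, φ⁻¹ p ∈ ι.range) : ∃ φ' : MulAut S, ∀ a, φ (ι a) = ι (φ' a) := by
  have key : ∀ ψ : MulAut G, (∀ p ∈ ι.range, ψ p ∈ ι.range) →
      ∃ ψ' : S →* S, ∀ a, ψ (ι a) = ι (ψ' a) := by
    intro ψ hψ
    have h3 : ∀ a, ∃ b, ι b = ψ (ι a) := fun a => hψ _ ⟨a, rfl⟩
    choose F hF using h3
    refine ⟨MonoidHom.mk' F (fun a b => hι ?_), fun a => (hF a).symm⟩
    rw [map_mul, hF, hF, hF, map_mul, map_mul]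
  obtain ⟨A, hA⟩ := key φ h1
  obtain ⟨B, hB⟩ := key φ⁻¹ h2
  refine ⟨MonoidHom.toMulEquiv A B ?_ ?_, hA⟩
  · ext a
    apply hι
    show ι (B (A a)) = ι a
    rw [← hB, ← hA]
    exact φ.symm_apply_apply _
  · ext a
    apply hι
    show ι (A (B a)) = ι a
    rw [← hA, ← hB]
    exact φ.apply_symm_apply _

/-- the automorphisms of `G` which restrict to automorphisms of `S` -/
def AutP : Subgroup (MulAut G) where
  carrier := {φ | ∃ φ' : MulAut S, ∀ a, φ (ι a) = ι (φ' a)}
  one_mem' := ⟨1, fun a => rfl⟩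
  mul_mem' := by
    rintro φ ψ ⟨φ', h1⟩ ⟨ψ', h2⟩
    refine ⟨φ' * ψ', fun a => ?_⟩
    rw [MulAut.mul_apply, h2, h1, MulAut.mul_apply]
  inv_mem' := by
    rintro φ ⟨φ', h1⟩
    refine ⟨φ'⁻¹, fun a => ?_⟩
    apply φ.injective
    rw [h1, MulAut.apply_inv_self, MulAut.apply_inv_self]

include hι in
theorem autP_fin [Group.FG G] (hf : ι.range.FiniteIndex) : (AutP ι).FiniteIndex := by
  have h1 : cker G ι.range.index ≤ ι.range := cker_le _ hf.index_ne_zero le_rfl
  have h2 := qact_ker_fin (cker G ι.range.index)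
  have h3 : (qact (cker G ι.range.index)).ker ≤ AutP ι := by
    intro φ hφ
    have h5 : ∀ ψ ∈ (qact (cker G ι.range.index)).ker, ∀ p ∈ ι.range, ψ p ∈ ι.range := by
      intro ψ hψ p hp
      have h6 := h1 ((mem_qact_ker _ ψ).1 hψ p)
      have h7 := Subgroup.mul_mem _ h6 hp
      rwa [inv_mul_cancel_right] at h7
    exact exists_res ι hι φ (h5 φ hφ) (h5 φ⁻¹ (Subgroup.inv_mem _ hφ))
  exact Subgroup.finiteIndex_of_le h3

/-- the restriction -/
noncomputable def resP : AutP ι →* MulAut S :=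
  MonoidHom.mk' (fun φ => φ.2.choose) (fun φ ψ => by
    ext a
    apply hι
    have h1 := φ.2.choose_spec
    have h2 := ψ.2.choose_spec
    have h3 := (φ * ψ).2.choose_spec
    rw [MulAut.mul_apply, ← h1, ← h2, ← h3]
    rfl)

theorem resP_spec (φ : AutP ι) (a : S) : φ.1 (ι a) = ι (resP ι hι φ a) := φ.2.choose_spec a

/-- the automorphisms of `S` which are restrictions of automorphisms of `G` -/
def SymP : Subgroup (MulAut S) where
  carrier := {φ' | ∃ φ : MulAut G, ∀ a, φ (ι a) = ι (φ' a)}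
  one_mem' := ⟨1, fun a => rfl⟩
  mul_mem' := by
    rintro φ' ψ' ⟨φ, h1⟩ ⟨ψ, h2⟩
    refine ⟨φ * ψ, fun a => ?_⟩
    rw [MulAut.mul_apply, h2, h1, MulAut.mul_apply]
  inv_mem' := by
    rintro φ' ⟨φ, h1⟩
    refine ⟨φ⁻¹, fun a => ?_⟩
    apply φ.injective
    rw [h1, MulAut.apply_inv_self, MulAut.apply_inv_self]

theorem resP_range : (resP ι hι).range = SymP ι := by
  ext φ'
  constructor
  · rintro ⟨x, rfl⟩
    exact ⟨x.1, resP_spec ι hι x⟩
  · rintro ⟨φ, hφ⟩
    refine ⟨⟨φ, φ', hφ⟩, ?_⟩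
    ext a
    apply hι
    rw [← resP_spec, ← hφ]

/-- The transfer of the congruence subgroup property. -/
theorem transfer_general [hfg : Group.FG G] (hn : ι.range.Normal) (hf : ι.range.FiniteIndex)
    (hι : Function.Injective ι)
    (htop : ∀ L : Subgroup G, L.Normal → L.FiniteIndex →
      ∃ K : Subgroup S, K.Characteristic ∧ K.FiniteIndex ∧
        ∀ (φ : MulAut G) (φ' : MulAut S), (∀ a, φ (ι a) = ι (φ' a)) →
          ∀ z, (∀ a, φ' a * (z * a * z⁻¹)⁻¹ ∈ K) → ∀ y, φ y * (ι z * y * (ι z)⁻¹)⁻¹ ∈ L)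
    (C : Subgroup G) [C.Characteristic] [C.FiniteIndex]
    (hcen : ∀ y, (∀ p, y * p * y⁻¹ * p⁻¹ ∈ C) → y ∈ ι.range)
    (hcsp : CSP G) (H : Subgroup (MulAut S)) (hH : (H.subgroupOf (SymP ι)).FiniteIndex)
    (hinn : ∀ x : S, MulAut.conj x ∈ H) :
    ∃ K : Subgroup S, K.Characteristic ∧ K.FiniteIndex ∧
      ∀ (φ : MulAut G) (φ' : MulAut S), (∀ a, φ (ι a) = ι (φ' a)) →
        (∃ z, ∀ a, φ' a * (z * a * z⁻¹)⁻¹ ∈ K) → φ' ∈ H := by
  have hA := autP_fin ι hι hf
  let W : Subgroup (MulAut G) := (H.comap (resP ι hι)).map (AutP ι).subtype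
  have hW : W.FiniteIndex := by
    have h1 : (H.comap (resP ι hι)).FiniteIndex := by
      refine ⟨?_⟩
      rw [Subgroup.index_comap, resP_range]
      exact hH.index_ne_zero
    refine ⟨?_⟩
    rw [Subgroup.index_map_subtype]
    exact mul_ne_zero h1.index_ne_zero hA.index_ne_zero
  have hWmem : ∀ (φ : MulAut G) (φ' : MulAut S), (∀ a, φ (ι a) = ι (φ' a)) →
      (φ ∈ W ↔ φ' ∈ H) := by
    intro φ φ' hφ
    have huniq : ∀ x : AutP ι, x.1 = φ → resP ι hι x = φ' := by
      rintro x rfl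
      ext a
      apply hι
      rw [← resP_spec, hφ]
    constructor
    · rintro ⟨x, hx, hxφ⟩
      have h1 := huniq x hxφ
      have h2 : resP ι hι x ∈ H := hx
      rwa [h1] at h2
    · intro h
      refine ⟨⟨φ, φ', hφ⟩, ?_, rfl⟩
      show resP ι hι _ ∈ H
      rw [huniq _ rfl]
      exact h
  have hC := qact_ker_fin C
  let W₁ : Subgroup (MulAut G) := W.normalCore ⊓ (qact C).ker
  have hW₁n : W₁.Normal := inferInstance
  have hW₁f : W₁.FiniteIndex := inferInstance
  let U : Subgroup (MulAut G) := W₁ ⊔ (MulAut.conj : G →* MulAut G).range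
  have hU : U.FiniteIndex := Subgroup.finiteIndex_of_le (H := W₁) le_sup_left
  obtain ⟨Γ, hΓ1, hΓ2, hΓ⟩ := hcsp U hU (fun x => Subgroup.mem_sup_right ⟨x, rfl⟩)
  obtain ⟨K, hK1, hK2, hK⟩ := htop (Γ ⊓ C) inferInstance inferInstance
  refine ⟨K, hK1, hK2, ?_⟩
  rintro φ φ' hφ ⟨z, hz⟩
  have h1 := hK φ φ' hφ z hz
  have h2 : φ ∈ U := hΓ φ ⟨ι z, fun x => (h1 x).1⟩
  rw [Subgroup.mem_sup_of_normal_left] at h2
  obtain ⟨w, hw, _, ⟨c, rfl⟩, hwc⟩ := h2
  -- `c` lies in the range
  have h3 := (mem_qact_ker C w).1 hw.2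
  have h4 : c⁻¹ * ι z ∈ ι.range := by
    apply hcen
    intro p
    let π := QuotientGroup.mk' C
    have e1 : ∀ p, π (φ p) = π (ι z) * π p * (π (ι z))⁻¹ := by
      intro p
      have : π (φ p * (ι z * p * (ι z)⁻¹)⁻¹) = 1 := (QuotientGroup.eq_one_iff _).2 (h1 p).2
      rw [map_mul, map_inv, mul_inv_eq_one] at this
      rw [this, map_mul, map_mul, map_inv]
    have e2 : ∀ p, π (φ p) = π c * π p * (π c)⁻¹ := by
      intro p
      have : π (w (c * p * c⁻¹) * (c * p * c⁻¹)⁻¹) = 1 := (QuotientGroup.eq_one_iff _).2 (h3 _)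
      rw [map_mul, map_inv π, mul_inv_eq_one] at this
      rw [← hwc, MulAut.mul_apply, MulAut.conj_apply, this, map_mul, map_mul, map_inv]
    have e3 : π (c⁻¹ * ι z * p * (c⁻¹ * ι z)⁻¹ * p⁻¹) = 1 := by
      have e4 := (e1 p).symm.trans (e2 p)
      simp only [map_mul, map_inv]
      have e5 : (π c)⁻¹ * π (ι z) * π p * ((π c)⁻¹ * π (ι z))⁻¹ * (π p)⁻¹ =
          (π c)⁻¹ * (π (ι z) * π p * (π (ι z))⁻¹) * π c * (π p)⁻¹ := by group
      rw [e5, e4]
      group
    exact (QuotientGroup.eq_one_iff _).1 e3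
  obtain ⟨b, hb⟩ := h4
  have h5 : c = ι (z * b⁻¹) := by
    rw [map_mul, map_inv, hb]
    group
  have h6 : φ ∈ W := by
    rw [← hwc]
    apply Subgroup.mul_mem
    · exact W.normalCore_le hw.1
    · rw [hWmem (MulAut.conj c) (MulAut.conj (z * b⁻¹)) (by
        intro a
        rw [MulAut.conj_apply, MulAut.conj_apply, map_mul ι, map_mul ι, map_inv ι, h5])]
      exact hinn _
  exact (hWmem φ φ' hφ).1 h6

end general

section main

variable {h n g' : ℕ} {m : Fin n → ℕ} (ι : SurfaceGroup g' →* Orb h n m)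

theorem transfer (hh : 2 ≤ h) (hι : Function.Injective ι) (hn : ι.range.Normal)
    (hf : ι.range.FiniteIndex) (hc : ∀ j, cone h n m j ∉ ι.range)
    (hcsp : CSP (Orb h n m)) (H : Subgroup (MulAut (SurfaceGroup g')))
    (hH : (H.subgroupOf (SymP ι)).FiniteIndex) (hinn : ∀ x, MulAut.conj x ∈ H) :
    ∃ K : Subgroup (SurfaceGroup g'), K.Characteristic ∧ K.FiniteIndex ∧
      ∀ (φ : MulAut (Orb h n m)) (φ' : MulAut (SurfaceGroup g')), (∀ a, φ (ι a) = ι (φ' a)) →
        (∃ z, ∀ a, φ' a * (z * a * z⁻¹)⁻¹ ∈ K) → φ' ∈ H := by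
  have hfgO := orb_fg h n m
  refine transfer_general ι hn hf hι ?_ (cker (Orb h n m) (2 * ι.range.index)) ?_ hcsp H hH hinn
  · intro L hL1 hL2
    obtain ⟨K, hK1, hK2, hK⟩ := topology ι hh hn hf hc L
    exact ⟨K, hK1, hK2, fun φ φ' hφ z hz y => hK φ.toMonoidHom φ'.toMonoidHom hφ z hz y⟩
  · intro y hy
    exact centr hh ι.range ι.range le_rfl hc y (fun p _ => hy p)

/-- The easy direction of the comparison of the congruence topologies. -/
theorem topology_conv (hι : Function.Injective ι) (hf : ι.range.FiniteIndex)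
    (K : Subgroup (SurfaceGroup g')) [K.FiniteIndex] :
    ∃ L : Subgroup (Orb h n m), L.Characteristic ∧ L.FiniteIndex ∧
      ∀ (φ : MulAut (Orb h n m)) (φ' : MulAut (SurfaceGroup g')), (∀ a, φ (ι a) = ι (φ' a)) →
        ∀ z, (∀ y, φ y * (ι z * y * (ι z)⁻¹)⁻¹ ∈ L) → ∀ a, φ' a * (z * a * z⁻¹)⁻¹ ∈ K := by
  have hfgO := orb_fg h n m
  have hK0 : K.index ≠ 0 := Subgroup.FiniteIndex.index_ne_zero
  have h1 : (K.map ι).index ≠ 0 := by
    have h2 : K ≤ (K.map ι).comap ι := Subgroup.le_comap_map _ _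
    have h3 : (K.map ι).index = (K ⊔ ι.ker).index * ι.range.index := Subgroup.index_map K ι
    rw [h3, (MonoidHom.ker_eq_bot_iff ι).2 hι, sup_bot_eq]
    exact mul_ne_zero hK0 hf.index_ne_zero
  refine ⟨cker (Orb h n m) (K.map ι).index, inferInstance, inferInstance, ?_⟩
  intro φ φ' hφ z hz a
  obtain ⟨k, hk, hka⟩ := cker_le (K.map ι) h1 le_rfl (hz (ι a))
  have h4 : k = φ' a * (z * a * z⁻¹)⁻¹ := by
    apply hι
    rw [hka, hφ]
    simp only [map_mul, map_inv]
  rwa [← h4]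

end main

/-- The congruence subgroup property is invariant under isomorphisms. -/
theorem csp_congr {G G' : Type} [Group G] [Group G'] (e : G ≃* G') (hG : CSP G) : CSP G' := by
  intro H hH hinn
  let E : MulAut G ≃* MulAut G' := MulAut.congr e
  have hE : ∀ (φ : MulAut G) (x : G), E φ (e x) = e (φ x) := by
    intro φ x
    show e (φ (e.symm (e x))) = _
    rw [e.symm_apply_apply]
  have h1 : (H.comap E.toMonoidHom).FiniteIndex := by
    refine ⟨?_⟩
    rw [Subgroup.index_comap]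
    exact Subgroup.FiniteIndex.index_ne_zero (H := H.subgroupOf (E.toMonoidHom).range)
  obtain ⟨Γ, hΓ1, hΓ2, hΓ⟩ := hG (H.comap E.toMonoidHom) h1 (by
    intro x
    have : E (MulAut.conj x) = MulAut.conj (e x) := by
      ext y
      obtain ⟨y, rfl⟩ := e.surjective y
      rw [hE, MulAut.conj_apply, MulAut.conj_apply, map_mul, map_mul, map_inv]
    show E (MulAut.conj x) ∈ H
    rw [this]
    exact hinn _)
  have hmem : ∀ x, e x ∈ Γ.map e.toMonoidHom ↔ x ∈ Γ := by
    intro x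
    constructor
    · rintro ⟨y, hy, hyx⟩
      have : y = x := e.injective hyx
      rwa [← this]
    · intro h
      exact ⟨x, h, rfl⟩
  refine ⟨Γ.map e.toMonoidHom, ?_, ?_, ?_⟩
  · rw [Subgroup.characteristic_iff_le_comap]
    intro φ y hy
    obtain ⟨x, hx, rfl⟩ := hy
    rw [Subgroup.mem_comap]
    have h2 : φ (e x) = e (E.symm φ x) := by
      rw [← hE, E.apply_symm_apply]
    show φ (e x) ∈ _
    rw [h2, hmem]
    exact (Subgroup.characteristic_iff_le_comap.1 hΓ1 (E.symm φ)) hx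
  · refine ⟨?_⟩
    have h3 : (Γ.map e.toMonoidHom).index = (Γ ⊔ e.toMonoidHom.ker).index *
        e.toMonoidHom.range.index := Subgroup.index_map _ _
    rw [h3, (MonoidHom.ker_eq_bot_iff _).2 e.injective, sup_bot_eq,
      MonoidHom.range_eq_top.2 e.surjective, Subgroup.index_top, mul_one]
    exact hΓ2.index_ne_zero
  · rintro φ ⟨c, hc⟩
    have h4 : E.symm φ ∈ H.comap E.toMonoidHom := by
      apply hΓ
      refine ⟨e.symm c, fun x => ?_⟩
      have h5 := hc (e x)
      have h6 : φ (e x) * (c * e x * c⁻¹)⁻¹ =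
          e (E.symm φ x * (e.symm c * x * (e.symm c)⁻¹)⁻¹) := by
        rw [map_mul, map_inv, map_mul, map_mul, map_inv, e.apply_symm_apply, ← hE,
          E.apply_symm_apply]
      rw [h6, hmem] at h5
      exact h5
    have h7 : E (E.symm φ) ∈ H := h4
    rwa [E.apply_symm_apply] at h7

/-- without cone points -/
theorem fill_zero_inj (h : ℕ) (m : Fin 0 → ℕ) : Function.Injective (fill h 0 m) := by
  have hr : orel h 0 = FreeGroup.map Sum.inl (rel h) := by
    unfold orel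
    rw [List.ofFn_zero, List.prod_nil, inv_one, mul_one]
  let b : SurfaceGroup h →* Orb h 0 m :=
    QuotientGroup.lift _ ((PresentedGroup.mk (orels h 0 m)).comp (FreeGroup.map Sum.inl)) (by
      intro x hx
      have h1 : Subgroup.normalClosure ({rel h} : Set (FreeGroup (Fin h ⊕ Fin h))) ≤
          ((PresentedGroup.mk (orels h 0 m)).comp (FreeGroup.map Sum.inl)).ker := by
        apply Subgroup.normalClosure_le_normal
        rintro x rfl
        show PresentedGroup.mk _ (FreeGroup.map Sum.inl (rel h)) = 1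
        rw [← hr]
        exact PresentedGroup.one_of_mem (Or.inl rfl)
      exact h1 hx)
  have hb : b.comp (fill h 0 m) = MonoidHom.id _ := by
    apply PresentedGroup.ext
    rintro (u | j)
    · show b (fill h 0 m (PresentedGroup.mk _ (FreeGroup.of (Sum.inl u)))) = _
      have : FreeGroup.of (Sum.inl u : OGen h 0) = FreeGroup.map Sum.inl (FreeGroup.of u) := by
        rw [FreeGroup.map.of]
      rw [this, fill_mk]
      rfl
    · exact j.elim0
  intro x y hxy
  have h1 := DFunLike.congr_fun hb x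
  have h2 := DFunLike.congr_fun hb y
  rw [MonoidHom.comp_apply, MonoidHom.id_apply] at h1 h2
  rw [← h1, ← h2, hxy]

theorem csp_zero (h : ℕ) (m : Fin 0 → ℕ) (hG : CSP (SurfaceGroup h)) : CSP (Orb h 0 m) :=
  csp_congr (MulEquiv.ofBijective (fill h 0 m) ⟨fill_zero_inj h m, fill_surj h 0 m⟩).symm hG

end Pool.Agent.V8H21.MCG
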