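import Pool.Agent.V8H21.MCG.Sep2
import Pool.Agent.V8H21.MCG.Tra

set_option autoImplicit false

/-!
# Finite group actions on closed surfaces with any quotient
-/

namespace Pool.Agent.V8H21.MCG

/-- Comparison of the congruence topologies for a normal subgroup of finite index whose centralizer
is trivial in a strong sense. -/
theorem topology_gen {G S : Type} [Group G] [Group S] [Group.FG G] [Group.FG S] (ι : S →* G)
    (hn : ι.range.Normal) (hf : ι.range.FiniteIndex)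
    (hcen : ∀ N : Subgroup G, N.Normal → N.FiniteIndex → N ≤ ι.range →
      ∃ k, ∀ y, (∀ p ∈ ι.range, y * p * y⁻¹ * p⁻¹ ∈ cker G k) → y ∈ N)
    (L : Subgroup G) (hL1 : L.Normal) (hL2 : L.FiniteIndex) :
    ∃ K : Subgroup S, K.Characteristic ∧ K.FiniteIndex ∧
      ∀ (φ : MulAut G) (φ' : MulAut S), (∀ a, φ (ι a) = ι (φ' a)) →
        ∀ z, (∀ a, φ' a * (z * a * z⁻¹)⁻¹ ∈ K) → ∀ y, φ y * (ι z * y * (ι z)⁻¹)⁻¹ ∈ L := by
  let N := L ⊓ ι.range
  have hN1 : N.Normal := inferInstance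
  have hN2 : N.FiniteIndex := inferInstance
  obtain ⟨k, hk⟩ := hcen N hN1 hN2 inf_le_right
  let C := cker G k
  have hC1 : C.Characteristic := inferInstance
  have hC2 : C.FiniteIndex := inferInstance
  have hC3 : C.Normal := inferInstance
  have hcom : (C.comap ι).FiniteIndex := comap_fin ι C
  refine ⟨cker S (C.comap ι).index, inferInstance, inferInstance, ?_⟩
  intro φ φ' hφ z hz y
  have hK : cker S (C.comap ι).index ≤ C.comap ι := cker_le _ hcom.index_ne_zero le_rfl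
  let π := QuotientGroup.mk' C
  have hπ : ∀ a, π (φ (ι a)) = π (ι z) * π (ι a) * (π (ι z))⁻¹ := by
    intro a
    have h1 : φ' a * (z * a * z⁻¹)⁻¹ ∈ C.comap ι := hK (hz a)
    have h2 : π (ι (φ' a * (z * a * z⁻¹)⁻¹)) = 1 := (QuotientGroup.eq_one_iff _).2 h1
    rw [map_mul, map_mul, map_inv, map_inv, mul_inv_eq_one, ← hφ] at h2
    rw [h2, map_mul, map_mul, map_inv, map_mul, map_mul, map_inv]
  let u := y⁻¹ * ((ι z)⁻¹ * φ y * ι z)
  have hu : u ∈ N := by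
    apply hk
    rintro _ ⟨a, rfl⟩
    obtain ⟨b, hb⟩ := hn.conj_mem (ι a) ⟨a, rfl⟩ y
    have h1 := hπ a
    have h2 := hπ b
    rw [hb] at h2
    simp only [map_mul, map_inv] at h2
    rw [h1] at h2
    have h3 : π (u * ι a * u⁻¹ * (ι a)⁻¹) = 1 := by
      simp only [u, map_mul, map_inv]
      generalize π (φ y) = A at *
      generalize π (ι z) = B at *
      generalize π (ι a) = X at *
      generalize π y = Y at *
      have h4 : A * (B * X * B⁻¹) * A⁻¹ = B * (Y * X * Y⁻¹) * B⁻¹ := h2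
      have h5 : Y⁻¹ * (B⁻¹ * A * B) * X * (Y⁻¹ * (B⁻¹ * A * B))⁻¹ * X⁻¹ =
          Y⁻¹ * B⁻¹ * (A * (B * X * B⁻¹) * A⁻¹) * B * Y * X⁻¹ := by group
      rw [h5, h4]
      group
    exact (QuotientGroup.eq_one_iff _).1 h3
  have hu2 : u ∈ L := hu.1
  have h6 := hL1.conj_mem u hu2 (ι z * y)
  have h7 : ι z * y * u * (ι z * y)⁻¹ = φ y * (ι z * y * (ι z)⁻¹)⁻¹ := by
    simp only [u]
    group
  rwa [h7] at h6

section conv

variable {G S : Type} [Group G] [Group S] (ι : S →* G) (hι : Function.Injective ι)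

include hι in
/-- From the subgroup to the group. -/
theorem transfer_conv [hfgG : Group.FG G] (hn : ι.range.Normal) (hf : ι.range.FiniteIndex)
    (heff : ∀ y, (∀ a, y * ι a = ι a * y) → y = 1)
    (hsym : ∀ H : Subgroup (MulAut S), (H.subgroupOf (SymP ι)).FiniteIndex →
      (∀ x, MulAut.conj x ∈ H) → ∃ K : Subgroup S, K.Characteristic ∧ K.FiniteIndex ∧
        ∀ φ' ∈ SymP ι, (∃ z, ∀ a, φ' a * (z * a * z⁻¹)⁻¹ ∈ K) → φ' ∈ H) : CSP G := by
  intro H hH hinn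
  let f := resP ι hι
  have hA := autP_fin ι hι hf
  -- an automorphism is determined by its restriction
  have hdet : ∀ (φ ψ : MulAut G) (φ' : MulAut S), (∀ a, φ (ι a) = ι (φ' a)) →
      (∀ a, ψ (ι a) = ι (φ' a)) → φ = ψ := by
    intro φ ψ φ' h1 h2
    ext y
    rw [← inv_mul_eq_one]
    apply heff
    intro a
    obtain ⟨b, hb⟩ := φ'.surjective a
    obtain ⟨c, hc⟩ := hn.conj_mem (ι b) ⟨b, rfl⟩ y
    have e1 : φ y * ι a * (φ y)⁻¹ = ι (φ' c) := by
      rw [← h1 c, hc, map_mul, map_mul, map_inv, h1, hb]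
    have e2 : ψ y * ι a * (ψ y)⁻¹ = ι (φ' c) := by
      rw [← h2 c, hc, map_mul, map_mul, map_inv, h2, hb]
    have e3 : φ y * ι a * (φ y)⁻¹ = ψ y * ι a * (ψ y)⁻¹ := e1.trans e2.symm
    have e4 : (φ y)⁻¹ * ψ y * ι a = ι a * ((φ y)⁻¹ * ψ y) := by
      calc (φ y)⁻¹ * ψ y * ι a = (φ y)⁻¹ * (ψ y * ι a * (ψ y)⁻¹) * ψ y := by group
        _ = (φ y)⁻¹ * (φ y * ι a * (φ y)⁻¹) * ψ y := by rw [e3]
        _ = _ := by group
    exact e4
  let H' : Subgroup (MulAut S) := (H.subgroupOf (AutP ι)).map f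
  have hmem : ∀ (φ : MulAut G) (φ' : MulAut S), (∀ a, φ (ι a) = ι (φ' a)) →
      (φ' ∈ H' ↔ φ ∈ H) := by
    intro φ φ' hφ
    constructor
    · rintro ⟨x, hx, hxφ⟩
      have h1 : x.1 = φ := hdet x.1 φ φ' (fun a => by rw [resP_spec ι hι x a]; rw [← hxφ]) hφ
      rw [← h1]
      exact hx
    · intro h
      refine ⟨⟨φ, φ', hφ⟩, h, ?_⟩
      ext a
      apply hι
      rw [← resP_spec, ← hφ]
  have hfin : (H'.subgroupOf (SymP ι)).FiniteIndex := by
    rw [← resP_range ι hι]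
    have h1 : ((H.subgroupOf (AutP ι)).map f.rangeRestrict).FiniteIndex := by
      refine ⟨?_⟩
      have h2 : ((H.subgroupOf (AutP ι)).map f.rangeRestrict).index ∣
          (H.subgroupOf (AutP ι)).index :=
        Subgroup.index_map_dvd _ f.rangeRestrict_surjective
      have h3 : (H.subgroupOf (AutP ι)).index ≠ 0 := Subgroup.FiniteIndex.index_ne_zero
      intro h4
      rw [h4, zero_dvd_iff] at h2
      exact h3 h2
    refine Subgroup.finiteIndex_of_le (H := (H.subgroupOf (AutP ι)).map f.rangeRestrict) ?_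
    rintro _ ⟨x, hx, rfl⟩
    exact ⟨x, hx, rfl⟩
  obtain ⟨K, hK1, hK2, hK⟩ := hsym H' hfin (by
    intro z
    rw [hmem (MulAut.conj (ι z)) (MulAut.conj z) (by
      intro a
      rw [MulAut.conj_apply, MulAut.conj_apply, map_mul ι, map_mul ι, map_inv ι])]
    exact hinn _)
  -- a characteristic subgroup inside `ι K`
  have hK0 : K.index ≠ 0 := hK2.index_ne_zero
  have hKi : (K.map ι).index ≠ 0 := by
    have h3 : (K.map ι).index = (K ⊔ ι.ker).index * ι.range.index := Subgroup.index_map K ι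
    rw [h3, (MonoidHom.ker_eq_bot_iff ι).2 hι, sup_bot_eq]
    exact mul_ne_zero hK0 hf.index_ne_zero
  refine ⟨cker G (K.map ι).index, inferInstance, inferInstance, ?_⟩
  rintro φ ⟨c, hc⟩
  have hle : cker G (K.map ι).index ≤ K.map ι := cker_le _ hKi le_rfl
  let C := cker G (K.map ι).index
  have hC : C.Normal := inferInstance
  have hCc : C.Characteristic := inferInstance
  let ψ := MulAut.conj c⁻¹ * φ
  have hψ : ∀ y, ψ y * y⁻¹ ∈ C := by
    intro y
    have h1 := hC.conj_mem _ (hc y) c⁻¹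
    have h2 : c⁻¹ * (φ y * (c * y * c⁻¹)⁻¹) * c⁻¹⁻¹ = ψ y * y⁻¹ := by
      show _ = MulAut.conj c⁻¹ (φ y) * y⁻¹
      rw [MulAut.conj_apply]
      group
    rwa [h2] at h1
  have hψP : ∀ p ∈ ι.range, ψ p ∈ ι.range := by
    intro p hp
    obtain ⟨k, hk, hk2⟩ := hle (hψ p)
    have h3 : ψ p = ι k * p := by rw [hk2, inv_mul_cancel_right]
    rw [h3]
    exact Subgroup.mul_mem _ ⟨k, rfl⟩ hp
  have hψ' : ∀ y, ψ⁻¹ y * y⁻¹ ∈ C := by
    intro y
    have h1 := hψ (ψ⁻¹ y)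
    rw [MulAut.apply_inv_self] at h1
    have h2 := Subgroup.inv_mem _ h1
    rwa [mul_inv_rev, inv_inv] at h2
  have hψP' : ∀ p ∈ ι.range, ψ⁻¹ p ∈ ι.range := by
    intro p hp
    obtain ⟨k, hk, hk2⟩ := hle (hψ' p)
    have h3 : ψ⁻¹ p = ι k * p := by rw [hk2, inv_mul_cancel_right]
    rw [h3]
    exact Subgroup.mul_mem _ ⟨k, rfl⟩ hp
  obtain ⟨ψ₀, hψ₀⟩ := exists_res ι hι ψ hψP hψP'
  have h4 : ψ₀ ∈ H' := by
    apply hK ψ₀ ⟨ψ, hψ₀⟩
    refine ⟨1, fun a => ?_⟩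
    obtain ⟨k, hk, hk2⟩ := hle (hψ (ι a))
    have h5 : k = ψ₀ a * (1 * a * 1⁻¹)⁻¹ := by
      apply hι
      rw [hk2, hψ₀]
      simp
    rw [← h5]
    exact hk
  have h5 : ψ ∈ H := (hmem ψ ψ₀ hψ₀).1 h4
  have h6 : φ = MulAut.conj c * ψ := by
    show φ = MulAut.conj c * (MulAut.conj c⁻¹ * φ)
    rw [← mul_assoc, ← map_mul, mul_inv_cancel, map_one, one_mul]
  rw [h6]
  exact Subgroup.mul_mem _ (hinn c) h5

end conv

section main

variable {h n : ℕ} {m : Fin n → ℕ}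

/-- the centralizer of a torsion-free normal subgroup, modulo a characteristic subgroup -/
theorem centr2 (hm : ∀ j, 2 ≤ m j)
    (hyp : (∑ j, (1 : ℚ) / (m j)) < ((2 * h + n : ℕ) : ℚ) - 2) (P N : Subgroup (Orb h n m))
    (hN1 : N.Normal) (hN2 : N.FiniteIndex) (hNP : N ≤ P)
    (hP : ∀ j k, cone h n m j ^ k ∈ P → m j ∣ k) :
    ∃ k, ∀ y, (∀ p ∈ P, y * p * y⁻¹ * p⁻¹ ∈ cker (Orb h n m) k) → y ∈ N := by
  obtain ⟨p, hpN, hp⟩ := Nat.exists_infinite_primes (N.index + 1)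
  have hpz : NeZero p := ⟨hp.ne_zero⟩
  have hpQ : ¬ p ∣ N.index := by
    intro h1
    have := Nat.le_of_dvd (Nat.pos_of_ne_zero hN2.index_ne_zero) h1
    omega
  refine ⟨p * N.index, fun y hy => ?_⟩
  by_contra hcon
  -- an element of prime order modulo `N`
  have hQ : Finite (Orb h n m ⧸ N) := Subgroup.finite_quotient_of_finiteIndex
  have hy1 : (QuotientGroup.mk' N) y ≠ 1 := fun h1 => hcon ((QuotientGroup.eq_one_iff _).1 h1)
  have ho : orderOf ((QuotientGroup.mk' N) y) ≠ 1 := fun h1 => hy1 (orderOf_eq_one_iff.1 h1)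
  obtain ⟨l, hl, hlo⟩ := Nat.exists_prime_and_dvd ho
  obtain ⟨i, hi⟩ := hlo
  have hpos : 0 < orderOf ((QuotientGroup.mk' N) y) := orderOf_pos _
  have hy2 : y ^ i ∉ N := by
    intro h1
    have h2 : (QuotientGroup.mk' N) y ^ i = 1 := by
      rw [← map_pow]
      exact (QuotientGroup.eq_one_iff _).2 h1
    have h3 := orderOf_dvd_of_pow_eq_one h2
    have hi0 : 0 < i := by
      rcases Nat.eq_zero_or_pos i with h4 | h4
      · rw [h4, mul_zero] at hi
        omega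
      · exact h4
    have h4 := Nat.le_of_dvd hi0 h3
    rw [hi] at h4
    have := hl.two_le
    nlinarith
  have hy3 : (y ^ i) ^ l ∈ N := by
    rw [← pow_mul, mul_comm, ← hi]
    apply (QuotientGroup.eq_one_iff _).1
    show (QuotientGroup.mk' N) (y ^ _) = 1
    rw [map_pow]
    exact pow_orderOf_eq_one _
  have hy4 : ∀ q ∈ P, y ^ i * q * (y ^ i)⁻¹ * q⁻¹ ∈ cker (Orb h n m) (p * N.index) := by
    intro q hq
    have h1 := hy q hq
    rw [← QuotientGroup.eq_one_iff] at h1 ⊢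
    have h2 : Commute ((QuotientGroup.mk' (cker (Orb h n m) (p * N.index))) y)
        ((QuotientGroup.mk' (cker (Orb h n m) (p * N.index))) q) := by
      have h3 : (QuotientGroup.mk' (cker (Orb h n m) (p * N.index)))
        (y * q * y⁻¹ * q⁻¹) = 1 := h1
      rw [map_mul, map_inv _ q, mul_inv_eq_one, map_mul, map_mul, map_inv,
        mul_inv_eq_iff_eq_mul] at h3
      exact h3
    have h4 := h2.pow_left i
    show (QuotientGroup.mk' (cker (Orb h n m) (p * N.index)))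
        (y ^ i * q * (y ^ i)⁻¹ * q⁻¹) = 1
    rw [map_mul, map_inv _ q, mul_inv_eq_one, map_mul, map_mul, map_inv, mul_inv_eq_iff_eq_mul,
      map_pow]
    exact h4
  obtain ⟨f, x, hf⟩ := exists_hom2 p hp N hpQ (fun j => by have := hm j; omega)
    (fun j k hk => hP j k (hNP hk)) hyp (y ^ i) hy2 hl hy3
  apply hf
  obtain ⟨hmem, h1⟩ := cker_hom N f (k := p * N.index) (by
    have : Nat.card (Multiplicative (ZMod p)) = p := Nat.card_zmod _
    rw [this]) (hy4 x (hNP x.2))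
  have h2 : (⟨y ^ i * x * (y ^ i)⁻¹ * (x : Orb h n m)⁻¹, hmem⟩ : N) =
      ⟨y ^ i * x * (y ^ i)⁻¹, hN1.conj_mem x x.2 (y ^ i)⟩ * x⁻¹ := rfl
  rw [h2, map_mul, map_inv, mul_inv_eq_one] at h1
  exact h1

variable {g' : ℕ} (ι : SurfaceGroup g' →* Orb h n m)

theorem topology2 (hm : ∀ j, 2 ≤ m j)
    (hyp : (∑ j, (1 : ℚ) / (m j)) < ((2 * h + n : ℕ) : ℚ) - 2) (hn : ι.range.Normal)
    (hf : ι.range.FiniteIndex) (hc : ∀ j k, cone h n m j ^ k ∈ ι.range → m j ∣ k)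
    (L : Subgroup (Orb h n m)) (hL1 : L.Normal) (hL2 : L.FiniteIndex) :
    ∃ K : Subgroup (SurfaceGroup g'), K.Characteristic ∧ K.FiniteIndex ∧
      ∀ (φ : MulAut (Orb h n m)) (φ' : MulAut (SurfaceGroup g')), (∀ a, φ (ι a) = ι (φ' a)) →
        ∀ z, (∀ a, φ' a * (z * a * z⁻¹)⁻¹ ∈ K) → ∀ y, φ y * (ι z * y * (ι z)⁻¹)⁻¹ ∈ L := by
  have hfgO := orb_fg h n m
  have hfgS := surface_fg g'
  exact topology_gen ι hn hf (fun N h1 h2 h3 => centr2 hm hyp ι.range N h1 h2 h3 hc) L hL1 hL2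

theorem transfer2 (hm : ∀ j, 2 ≤ m j)
    (hyp : (∑ j, (1 : ℚ) / (m j)) < ((2 * h + n : ℕ) : ℚ) - 2) (hι : Function.Injective ι)
    (hn : ι.range.Normal) (hf : ι.range.FiniteIndex)
    (hc : ∀ j k, cone h n m j ^ k ∈ ι.range → m j ∣ k)
    (hcsp : CSP (Orb h n m)) (H : Subgroup (MulAut (SurfaceGroup g')))
    (hH : (H.subgroupOf (SymP ι)).FiniteIndex) (hinn : ∀ x, MulAut.conj x ∈ H) :
    ∃ K : Subgroup (SurfaceGroup g'), K.Characteristic ∧ K.FiniteIndex ∧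
      ∀ (φ : MulAut (Orb h n m)) (φ' : MulAut (SurfaceGroup g')), (∀ a, φ (ι a) = ι (φ' a)) →
        (∃ z, ∀ a, φ' a * (z * a * z⁻¹)⁻¹ ∈ K) → φ' ∈ H := by
  have hfgO := orb_fg h n m
  obtain ⟨k, hk⟩ := centr2 hm hyp ι.range ι.range hn hf le_rfl hc
  exact transfer_general ι hn hf hι (fun L h1 h2 => topology2 ι hm hyp hn hf hc L h1 h2)
    (cker (Orb h n m) k) (fun y hy => hk y (fun p _ => hy p)) hcsp H hH hinn

end main

end Pool.Agent.V8H21.MCG
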