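import Mathlib

set_option autoImplicit false

/-!
# The centralizer of the factors of an amalgamated product
-/

namespace Pool.Agent.V8H21.MCG.Amal

open Monoid Monoid.PushoutI

variable {J : Type} {G : J → Type} [∀ i, Group (G i)] {H : Type} [Group H] {φ : ∀ i, H →* G i}

/-- the product of a list of letters -/
def lp (φ : ∀ i, H →* G i) (l : List (Σ i, G i)) : PushoutI φ :=
  (l.map fun x => of (φ := φ) x.1 x.2).prod

/-- a reduced list -/
def Red (φ : ∀ i, H →* G i) (l : List (Σ i, G i)) : Prop :=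
  (∀ x ∈ l, x.2 ∉ (φ x.1).range) ∧ l.IsChain (fun a b => a.1 ≠ b.1)

theorem red_nil (hφ : ∀ i, Function.Injective (φ i)) (l : List (Σ i, G i)) (h : Red φ l)
    (hb : lp φ l ∈ (base φ).range) : l = [] := by
  let w : CoprodI.Word G := ⟨l, fun x hx h1 => h.1 x hx (h1 ▸ one_mem _), h.2⟩
  have hw : Reduced φ w := h.1
  have h1 : ofCoprodI (φ := φ) w.prod = lp φ l := by
    show ofCoprodI (List.prod (l.map fun x => CoprodI.of x.snd)) = _
    rw [map_list_prod, List.map_map]
    rfl
  have h2 := hw.eq_empty_of_mem_range hφ (by rw [h1]; exact hb)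
  exact congrArg CoprodI.Word.toList h2

theorem exists_form (hφ : ∀ i, Function.Injective (φ i)) (z : PushoutI φ) :
    ∃ (b : H) (l : List (Σ i, G i)), Red φ l ∧ z = base φ b * lp φ l := by
  classical
  obtain ⟨d⟩ := NormalWord.transversal_nonempty φ hφ
  obtain ⟨w, rfl⟩ := (NormalWord.equiv (d := d)).symm.surjective z
  refine ⟨w.head, w.toList, ⟨?_, w.chain_ne⟩, ?_⟩
  · rintro ⟨i, g⟩ hx ⟨b, hb⟩
    have h1 := w.normalized i g hx
    have h2 := (d.compl i).1
    have h3 : (⟨⟨φ i b, ⟨b, rfl⟩⟩, ⟨1, d.one_mem i⟩⟩ :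
        ((φ i).range : Set (G i)) × (d.set i)) = ⟨⟨1, one_mem _⟩, ⟨g, h1⟩⟩ := by
      apply h2
      show φ i b * 1 = 1 * g
      rw [mul_one, one_mul]
      exact hb
    have h4 := congrArg (fun x => (x.2 : G i)) h3
    exact w.ne_one _ hx h4.symm
  · show w.prod = _
    unfold NormalWord.prod CoprodI.Word.prod lp
    rw [map_list_prod, List.map_map]
    rfl

/-- the inverse letter -/
def il (x : Σ i, G i) : Σ i, G i := ⟨x.1, x.2⁻¹⟩

theorem lp_append (l l' : List (Σ i, G i)) : lp φ (l ++ l') = lp φ l * lp φ l' := by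
  unfold lp
  rw [List.map_append, List.prod_append]

theorem lp_single (i : J) (g : G i) : lp φ [⟨i, g⟩] = of (φ := φ) i g := by
  unfold lp
  simp

theorem lp_inv (l : List (Σ i, G i)) : lp φ (l.reverse.map il) = (lp φ l)⁻¹ := by
  induction l with
  | nil => simp [lp]
  | cons x l ih =>
    rw [List.reverse_cons, List.map_append, lp_append, ih]
    have h1 : lp φ (x :: l) = of (φ := φ) x.1 x.2 * lp φ l := by
      unfold lp
      rw [List.map_cons, List.prod_cons]
    have h2 : lp φ [⟨x.1, x.2⁻¹⟩] = (of (φ := φ) x.1 x.2)⁻¹ := by rw [lp_single, map_inv]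
    rw [h1, mul_inv_rev, ← h2]
    rfl

theorem red_inv {l : List (Σ i, G i)} (h : Red φ l) : Red φ (l.reverse.map il) := by
  refine ⟨?_, ?_⟩
  · intro x hx hx2
    rw [List.mem_map] at hx
    obtain ⟨y, hy, rfl⟩ := hx
    apply h.1 y (List.mem_reverse.1 hy)
    exact inv_mem_iff.1 hx2
  · rw [List.isChain_map, List.isChain_reverse]
    exact h.2.imp (fun a b hab => fun h2 => hab h2.symm)

theorem red_append {l l' : List (Σ i, G i)} (h : Red φ l) (h' : Red φ l')
    (hl : ∀ x ∈ l.getLast?, ∀ y ∈ l'.head?, x.1 ≠ y.1) : Red φ (l ++ l') := by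
  refine ⟨?_, List.isChain_append.2 ⟨h.2, h'.2, hl⟩⟩
  intro x hx
  rcases List.mem_append.1 hx with h1 | h1
  · exact h.1 x h1
  · exact h'.1 x h1

theorem red_single {i : J} {g : G i} (hg : g ∉ (φ i).range) : Red φ [⟨i, g⟩] := by
  refine ⟨?_, List.isChain_singleton _⟩
  intro x hx
  rw [List.mem_singleton] at hx
  subst hx
  exact hg

theorem conj_ne (hφ : ∀ i, Function.Injective (φ i)) {l : List (Σ i, G i)} (hl : Red φ l)
    (hl0 : l ≠ []) {k : J} {g : G k} (hg : g ∉ (φ k).range) (h1 : ∀ x ∈ l.getLast?, x.1 ≠ k)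
    (h2 : ∀ x ∈ l.head?, x.1 ≠ k) (g' : G k) :
    lp φ l * of (φ := φ) k g * (lp φ l)⁻¹ ≠ of (φ := φ) k g' := by
  intro hcon
  have hr1 : Red φ (l ++ [⟨k, g⟩]) := by
    apply red_append hl (red_single hg)
    intro x hx y hy
    have : y = ⟨k, g⟩ := by simpa using hy.symm
    subst this
    exact h1 x hx
  have hr2 : Red φ (l ++ [⟨k, g⟩] ++ l.reverse.map il) := by
    apply red_append hr1 (red_inv hl)
    intro x hx y hy
    have hx2 : x = ⟨k, g⟩ := by simpa using hx.symm
    subst hx2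
    rw [List.head?_map, List.head?_reverse, Option.mem_map] at hy
    obtain ⟨y', hy', rfl⟩ := hy
    exact fun h3 => h1 y' hy' h3.symm
  have hlp : lp φ (l ++ [⟨k, g⟩] ++ l.reverse.map il) = of (φ := φ) k g' := by
    rw [lp_append, lp_append, lp_single, lp_inv, hcon]
  by_cases hg' : g' ∈ (φ k).range
  · obtain ⟨b, rfl⟩ := hg'
    have h3 := red_nil hφ _ hr2 (by
      rw [hlp, of_apply_eq_base]
      exact ⟨b, rfl⟩)
    simp at h3
  · have hr3 : Red φ (l ++ [⟨k, g⟩] ++ l.reverse.map il ++ [⟨k, g'⁻¹⟩]) := by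
      apply red_append hr2 (red_single (fun h3 => hg' (inv_mem_iff.1 h3)))
      intro x hx y hy
      have hy2 : y = ⟨k, g'⁻¹⟩ := by simpa using hy.symm
      subst hy2
      have hne : l.reverse.map il ≠ [] := by simpa using hl0
      rw [List.getLast?_append_of_ne_nil _ hne, List.getLast?_map, List.getLast?_reverse,
        Option.mem_map] at hx
      obtain ⟨x', hx', rfl⟩ := hx
      exact h2 x' hx'
    have h3 := red_nil hφ _ hr3 (by
      rw [lp_append, hlp, lp_single, map_inv, mul_inv_cancel]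
      exact one_mem _)
    simp at h3

/-- an element commuting with the factors lies in the amalgamated subgroup -/
theorem central_mem (hφ : ∀ i, Function.Injective (φ i)) (hne : ∀ i, ∃ g, g ∉ (φ i).range)
    (hJ : ∀ i : J, ∃ k, k ≠ i) (z : PushoutI φ)
    (hz : ∀ i g, z * of (φ := φ) i g = of (φ := φ) i g * z) : z ∈ (base φ).range := by
  obtain ⟨b, l, hl, rfl⟩ := exists_form hφ z
  rcases l with _ | ⟨x, l⟩
  · refine ⟨b, ?_⟩
    simp [lp]
  exfalso
  have hcomm : ∀ i g, lp φ (x :: l) * of (φ := φ) i g * (lp φ (x :: l))⁻¹ =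
      of (φ := φ) i ((φ i b)⁻¹ * g * φ i b) := by
    intro i g
    have h1 := hz i g
    rw [map_mul, map_mul, map_inv, of_apply_eq_base]
    rw [mul_inv_eq_iff_eq_mul]
    calc lp φ (x :: l) * of (φ := φ) i g
        = (base φ b)⁻¹ * (base φ b * lp φ (x :: l) * of (φ := φ) i g) := by group
      _ = _ := by
        rw [h1]
        group
  by_cases hlast : ∃ y ∈ (x :: l).getLast?, y.1 ≠ x.1
  · -- different ends
    obtain ⟨y, hy, hyx⟩ := hlast
    have hl0 : l ≠ [] := by
      rintro rfl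
      have : y = x := by simpa using hy.symm
      exact hyx (by rw [this])
    obtain ⟨g, hg⟩ := hne x.1
    have hl' : Red φ l := ⟨fun u hu => hl.1 u (List.mem_cons_of_mem _ hu), hl.2.tail⟩
    have h2 : ∀ u ∈ l.head?, u.1 ≠ x.1 := by
      intro u hu h3
      exact (List.isChain_cons.1 hl.2).1 u hu h3.symm
    have h1 : ∀ u ∈ l.getLast?, u.1 ≠ x.1 := by
      intro u hu
      have h3 : (x :: l).getLast? = l.getLast? := by
        rcases l with _ | ⟨v, l⟩
        · exact absurd rfl hl0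
        · rw [List.getLast?_cons_cons]
      rw [h3] at hy
      have h4 : u = y := Option.mem_unique hu hy
      rw [h4]
      exact hyx
    refine conj_ne hφ hl' hl0 hg h1 h2 (x.2⁻¹ * ((φ x.1 b)⁻¹ * g * φ x.1 b) * x.2) ?_
    have h3 := hcomm x.1 g
    have h4 : lp φ (x :: l) = of (φ := φ) x.1 x.2 * lp φ l := by
      unfold lp
      rw [List.map_cons, List.prod_cons]
    rw [h4] at h3
    rw [map_mul _ _ x.2, map_mul _ x.2⁻¹, map_inv _ x.2, ← h3]
    group
  · -- the same ends
    have hlast2 : ∀ y ∈ (x :: l).getLast?, y.1 = x.1 := by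
      intro y hy
      by_contra h1
      exact hlast ⟨y, hy, h1⟩
    obtain ⟨k, hk⟩ := hJ x.1
    obtain ⟨g, hg⟩ := hne k
    refine conj_ne hφ hl (by simp) hg ?_ ?_ _ (hcomm k g)
    · intro u hu h3
      rw [hlast2 u hu] at h3
      exact hk h3.symm
    · intro u hu h3
      have : u = x := by simpa using hu.symm
      rw [this] at h3
      exact hk h3.symm

end Pool.Agent.V8H21.MCG.Amal
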