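import Mathlib

set_option autoImplicit false

/-!
# Congruence subgroups and the exact sequence of Birman: definitions
-/

namespace Pool.Agent.V8H21.MCG

open Equiv

section rel

variable {G G' : Type} [Group G] [Group G']

/-- The congruence subgroup property of the group of the outer automorphisms given by `A`, for the
subgroups `H` which satisfy `P`. -/
def RelCSP (A : Subgroup (MulAut G)) (P : Subgroup (MulAut G) → Prop) : Prop :=
  ∀ H : Subgroup (MulAut G), (H.subgroupOf A).FiniteIndex → (∀ x : G, MulAut.conj x ∈ H) → P H →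
    ∃ Γ : Subgroup G, Γ.Characteristic ∧ Γ.FiniteIndex ∧
      ∀ φ ∈ A, (∃ c : G, ∀ x : G, φ x * (c * x * c⁻¹)⁻¹ ∈ Γ) → φ ∈ H

/-- the automorphisms of `G'` which are induced by elements of `A` -/
def ind (f : G →* G') (A : Subgroup (MulAut G)) : Subgroup (MulAut G') where
  carrier := {ψ | ∃ φ ∈ A, ∀ y, f (φ y) = ψ (f y)}
  mul_mem' := by
    rintro ψ₁ ψ₂ ⟨φ₁, h1, h2⟩ ⟨φ₂, h3, h4⟩
    exact ⟨φ₁ * φ₂, A.mul_mem h1 h3, fun y => by
      rw [MulAut.mul_apply, MulAut.mul_apply, h2, h4]⟩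
  one_mem' := ⟨1, A.one_mem, fun y => rfl⟩
  inv_mem' := by
    rintro ψ ⟨φ, h1, h2⟩
    refine ⟨φ⁻¹, A.inv_mem h1, fun y => ?_⟩
    rw [MulAut.inv_def, MulAut.inv_def, MulEquiv.eq_symm_apply, ← h2, MulEquiv.apply_symm_apply]

/-- the loops along which `x` can be pushed by elements of `A` -/
def push (f : G →* G') (x : G) (A : Subgroup (MulAut G)) : Subgroup G' where
  carrier := {c | ∃ φ ∈ A, φ x = x ∧ ∀ y, f (φ y) = c * f y * c⁻¹}
  mul_mem' := by
    rintro c₁ c₂ ⟨φ₁, h1, h2, h3⟩ ⟨φ₂, h4, h5, h6⟩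
    refine ⟨φ₁ * φ₂, A.mul_mem h1 h4, by rw [MulAut.mul_apply, h5, h2], fun y => ?_⟩
    rw [MulAut.mul_apply, h3, h6]
    group
  one_mem' := ⟨1, A.one_mem, rfl, fun y => by simp⟩
  inv_mem' := by
    rintro c ⟨φ, h1, h2, h3⟩
    refine ⟨φ⁻¹, A.inv_mem h1, ?_, fun y => ?_⟩
    · rw [MulAut.inv_def, MulEquiv.symm_apply_eq, h2]
    · have h4 := h3 (φ⁻¹ y)
      rw [MulAut.inv_def, MulEquiv.apply_symm_apply] at h4
      rw [MulAut.inv_def, h4]
      group

end rel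

end Pool.Agent.V8H21.MCG
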