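import Pool.Agent.V8H21.MCG.Tf2
import Pool.Agent.V8H21.MCG.Bir0

set_option autoImplicit false

/-!
# Congruence subgroups and the exact sequence of Birman
-/

namespace Pool.Agent.V8H21.MCG

open Equiv

section rel

variable {G G' : Type} [Group G] [Group G']

theorem fi_of_rel {X Y : Type} [Group X] [Group Y] (A D : Subgroup X)
    (hD : (D.subgroupOf A).FiniteIndex) (B E : Subgroup Y) (s : B → A)
    (hs : ∀ b₁ b₂ : B, (s b₁)⁻¹ * s b₂ ∈ D.subgroupOf A → b₁⁻¹ * b₂ ∈ E.subgroupOf B) :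
    (E.subgroupOf B).FiniteIndex := by
  have hfin : Finite (A ⧸ D.subgroupOf A) := Subgroup.finite_quotient_of_finiteIndex
  have hinj : Function.Injective
      (fun q : B ⧸ E.subgroupOf B => (QuotientGroup.mk (s q.out) : A ⧸ D.subgroupOf A)) := by
    intro q₁ q₂ h
    have h1 := hs _ _ (QuotientGroup.eq.1 h)
    have h2 := QuotientGroup.eq.2 h1
    rwa [QuotientGroup.out_eq', QuotientGroup.out_eq'] at h2
  have hfin2 : Finite (B ⧸ E.subgroupOf B) := Finite.of_injective _ hinj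
  exact Subgroup.finiteIndex_of_finite_quotient

/-- the congruence subgroup of the automorphisms which are inner modulo `C` -/
def cong (C : Subgroup G) [C.Characteristic] : Subgroup (MulAut G) :=
  (MulAut.conj (G := G ⧸ C)).range.comap (qact C)

theorem mem_cong (C : Subgroup G) [hC : C.Characteristic] (φ : MulAut G) :
    φ ∈ cong C ↔ ∃ c : G, ∀ x : G, φ x * (c * x * c⁻¹)⁻¹ ∈ C := by
  have key2 : ∀ a b : G, (QuotientGroup.mk a : G ⧸ C) = QuotientGroup.mk b ↔ a * b⁻¹ ∈ C := by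
    intro a b
    rw [← QuotientGroup.eq_one_iff, QuotientGroup.mk_mul, QuotientGroup.mk_inv, mul_inv_eq_one]
  constructor
  · rintro ⟨c, hc⟩
    obtain ⟨c, rfl⟩ := QuotientGroup.mk_surjective c
    refine ⟨c, fun x => (key2 _ _).1 ?_⟩
    have h1 := DFunLike.congr_fun hc (QuotientGroup.mk x)
    exact h1.symm
  · rintro ⟨c, hc⟩
    refine ⟨QuotientGroup.mk c, ?_⟩
    ext x
    obtain ⟨x, rfl⟩ := QuotientGroup.mk_surjective x
    exact ((key2 _ _).2 (hc x)).symm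

theorem cong_fin (C : Subgroup G) [hC : C.Characteristic] [hf : C.FiniteIndex] :
    (cong C).FiniteIndex := by
  have h1 := qact_ker_fin C
  apply Subgroup.finiteIndex_of_le (H := (qact C).ker)
  intro φ hφ
  refine ⟨1, ?_⟩
  rw [map_one]
  exact (show qact C φ = 1 from hφ).symm

/-- The step from `G'` to `G` in the exact sequence of Birman. -/
theorem birman_step (f : G →* G') (hfs : Function.Surjective f) (x : G) (hfx : f x = 1)
    (hchar : ∀ N : Subgroup G, N.Normal → N.FiniteIndex →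
      ∃ C : Subgroup G, C.Characteristic ∧ C.FiniteIndex ∧ C ≤ N)
    (hrot : ∀ N : Subgroup G, N.Normal → N.FiniteIndex →
      ∃ C : Subgroup G, C.Characteristic ∧ C.FiniteIndex ∧ ∀ z : G, z * x * z⁻¹ * x⁻¹ ∈ C →
        ∃ a : ℤ, z * x ^ a ∈ N)
    (hcen : ∀ V : Subgroup G', V.FiniteIndex → ∃ V' : Subgroup G', V'.Characteristic ∧
      V'.FiniteIndex ∧ ∀ c, (∀ y, c * y * c⁻¹ * y⁻¹ ∈ V') → c ∈ V)
    (A : Subgroup (MulAut G)) (hInn : ∀ g, MulAut.conj g ∈ A)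
    (hAx : ∀ φ ∈ A, ∃ w, φ x = w * x * w⁻¹)
    (hAf : ∀ φ ∈ A, ∃ ψ : MulAut G', ∀ y, f (φ y) = ψ (f y))
    (hpush : (push f x A).FiniteIndex) (hcsp : RelCSP (ind f A) (fun _ => True)) :
    RelCSP A (fun H => ∀ φ ∈ A, φ x = x → (∀ y, f (φ y) = f y) → φ ∈ H) := by
  intro H hH hHinn hHT
  -- the loops of `H`
  have hVfin : (push f x (H ⊓ A)).FiniteIndex := by
    have h1 : ((push f x (H ⊓ A)).subgroupOf (push f x A)).FiniteIndex := by
      have h2 : ∀ c : push f x A, ∃ φ : A, (φ : MulAut G) x = x ∧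
          ∀ y, f ((φ : MulAut G) y) = c * f y * (c : G')⁻¹ := by
        rintro ⟨c, φ, h1, h2, h3⟩
        exact ⟨⟨φ, h1⟩, h2, h3⟩
      choose s hs1 hs2 using h2
      refine fi_of_rel A H hH _ _ s ?_
      intro c₁ c₂ h
      have h3 : ((s c₁)⁻¹ * s c₂ : MulAut G) ∈ H := h
      refine ⟨(s c₁ : MulAut G)⁻¹ * (s c₂ : MulAut G),
        ⟨h3, A.mul_mem (A.inv_mem (s c₁).2) (s c₂).2⟩, ?_, fun y => ?_⟩
      · rw [MulAut.mul_apply, hs1, MulAut.inv_def, MulEquiv.symm_apply_eq, hs1]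
      · have h4 := hs2 c₁ ((s c₁ : MulAut G)⁻¹ ((s c₂ : MulAut G) y))
        rw [MulAut.inv_def, MulEquiv.apply_symm_apply, hs2 c₂] at h4
        rw [MulAut.mul_apply, MulAut.inv_def]
        show _ = ((c₁ : G')⁻¹ * c₂) * f y * ((c₁ : G')⁻¹ * c₂)⁻¹
        have h5 : f ((s c₁ : MulAut G).symm ((s c₂ : MulAut G) y)) =
            (c₁ : G')⁻¹ * ((c₁ : G') * f ((s c₁ : MulAut G).symm ((s c₂ : MulAut G) y)) *
              (c₁ : G')⁻¹) * c₁ := by group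
        rw [h5, ← h4]
        group
    have h2 : push f x (H ⊓ A) ≤ push f x A := by
      rintro c ⟨φ, h3, h4⟩
      exact ⟨φ, h3.2, h4⟩
    refine ⟨?_⟩
    rw [← Subgroup.relIndex_mul_index h2]
    exact mul_ne_zero h1.index_ne_zero hpush.index_ne_zero
  obtain ⟨V', hV'1, hV'2, hV'⟩ := hcen _ hVfin
  have hN : (V'.comap f).FiniteIndex := comap_fin f V'
  have hNn : (V'.comap f).Normal := inferInstance
  obtain ⟨C₁, hC₁1, hC₁2, hC₁⟩ := hrot (V'.comap f) hNn hN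
  obtain ⟨C₂, hC₂1, hC₂2, hC₂⟩ := hchar (V'.comap f) hNn hN
  have hCc : (C₁ ⊓ C₂).Characteristic := inferInstance
  have hCf : (C₁ ⊓ C₂).FiniteIndex := inferInstance
  have hcf := cong_fin (C₁ ⊓ C₂)
  set D := (H ⊓ cong (C₁ ⊓ C₂)) ⊓ A with hD
  have hDfin : (D.subgroupOf A).FiniteIndex := by
    rw [hD, Subgroup.inf_subgroupOf_right]
    have h1 : (H ⊓ cong (C₁ ⊓ C₂)).subgroupOf A = H.subgroupOf A ⊓
        (cong (C₁ ⊓ C₂)).subgroupOf A := rfl
    rw [h1]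
    infer_instance
  have hDinn : ∀ g, MulAut.conj g ∈ D := by
    intro g
    refine ⟨⟨hHinn g, (mem_cong _ _).2 ⟨g, fun y => ?_⟩⟩, hInn g⟩
    rw [MulAut.conj_apply, mul_inv_cancel]
    exact Subgroup.one_mem _
  have hEfin : ((ind f D).subgroupOf (ind f A)).FiniteIndex := by
    have h2 : ∀ ψ : ind f A, ∃ φ : A, ∀ y, f ((φ : MulAut G) y) = (ψ : MulAut G') (f y) := by
      rintro ⟨ψ, φ, h1, h2⟩
      exact ⟨⟨φ, h1⟩, h2⟩
    choose s hs using h2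
    refine fi_of_rel A D hDfin _ _ s ?_
    intro ψ₁ ψ₂ h
    refine ⟨(s ψ₁ : MulAut G)⁻¹ * (s ψ₂ : MulAut G), h, fun y => ?_⟩
    show _ = ((ψ₁ : MulAut G')⁻¹ * ψ₂) (f y)
    rw [MulAut.mul_apply, MulAut.mul_apply, ← hs ψ₂, MulAut.inv_def, MulAut.inv_def,
      MulEquiv.eq_symm_apply, ← hs ψ₁, MulEquiv.apply_symm_apply]
  obtain ⟨Γ', hΓ'1, hΓ'2, hΓ'⟩ := hcsp (ind f D) hEfin (fun g => by
    obtain ⟨g, rfl⟩ := hfs g
    exact ⟨MulAut.conj g, hDinn g, fun y => by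
      rw [MulAut.conj_apply, MulAut.conj_apply, map_mul, map_mul, map_inv]⟩) trivial
  have hΓ'f : (Γ'.comap f).FiniteIndex := comap_fin f Γ'
  obtain ⟨C₃, hC₃1, hC₃2, hC₃⟩ := hchar (Γ'.comap f) inferInstance hΓ'f
  refine ⟨C₁ ⊓ C₂ ⊓ C₃, inferInstance, inferInstance, ?_⟩
  rintro φ hφA ⟨z, hz⟩
  obtain ⟨ψ, hψ⟩ := hAf φ hφA
  have hψD : ψ ∈ ind f D := by
    apply hΓ' ψ ⟨φ, hφA, hψ⟩
    refine ⟨f z, fun y => ?_⟩
    obtain ⟨y, rfl⟩ := hfs y
    have h1 := hC₃ (hz y).2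
    rw [Subgroup.mem_comap, map_mul, map_inv, map_mul, map_mul, map_inv, hψ] at h1
    exact h1
  obtain ⟨η, hη, hη2⟩ := hψD
  -- the quotient
  have hfid : ∀ y, f ((η⁻¹ * φ) y) = f y := by
    intro y
    have h1 := hη2 ((η⁻¹ * φ) y)
    rw [MulAut.mul_apply, MulAut.inv_def, MulEquiv.apply_symm_apply, hψ] at h1
    rw [MulAut.mul_apply, MulAut.inv_def]
    exact (ψ.injective h1).symm
  have hmemA : η⁻¹ * φ ∈ A := A.mul_mem (A.inv_mem hη.2) hφA
  have hmemC : η⁻¹ * φ ∈ cong (C₁ ⊓ C₂) :=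
    Subgroup.mul_mem _ (Subgroup.inv_mem _ hη.1.2) ((mem_cong _ _).2 ⟨z, fun y => (hz y).1⟩)
  obtain ⟨u, hu⟩ := (mem_cong _ _).1 hmemC
  obtain ⟨w, hw⟩ := hAx _ hmemA
  obtain ⟨a, ha⟩ := hC₁ (u⁻¹ * w) (by
    have h1 := (hu x).1
    rw [hw] at h1
    have h2 := (inferInstance : C₁.Normal).conj_mem _ h1 u⁻¹
    have h3 : u⁻¹ * (w * x * w⁻¹ * (u * x * u⁻¹)⁻¹) * u⁻¹⁻¹ =
        u⁻¹ * w * x * (u⁻¹ * w)⁻¹ * x⁻¹ := by group
    rwa [h3] at h2)
  have ha' : (f u)⁻¹ * f w ∈ V' := by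
    have h1 : f (u⁻¹ * w * x ^ a) ∈ V' := ha
    rwa [map_mul, map_mul, map_zpow, hfx, one_zpow, mul_one, map_inv] at h1
  have hcV : (f w)⁻¹ ∈ push f x (H ⊓ A) := by
    apply hV'
    intro y
    obtain ⟨y, rfl⟩ := hfs y
    have h1 := hC₂ (hu y).2
    rw [Subgroup.mem_comap, map_mul, hfid, map_inv, map_mul, map_mul, map_inv] at h1
    have key2 : ∀ a b : G', (QuotientGroup.mk a : G' ⧸ V') = QuotientGroup.mk b ↔
        a * b⁻¹ ∈ V' := by
      intro a b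
      rw [← QuotientGroup.eq_one_iff, QuotientGroup.mk_mul, QuotientGroup.mk_inv, mul_inv_eq_one]
    have h2 := (key2 _ _).2 h1
    have h3 : (QuotientGroup.mk (f w) : G' ⧸ V') = QuotientGroup.mk (f u) :=
      (QuotientGroup.eq.2 ha').symm
    have h4 : (f w)⁻¹ * f y * (f w)⁻¹⁻¹ * (f y)⁻¹ ∈ V' := by
      apply (key2 _ _).1
      rw [QuotientGroup.mk_mul, QuotientGroup.mk_mul, QuotientGroup.mk_inv] at h2
      rw [← h3] at h2
      rw [inv_inv, QuotientGroup.mk_mul, QuotientGroup.mk_mul, QuotientGroup.mk_inv]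
      have h5 : ((QuotientGroup.mk (f w) : G' ⧸ V')⁻¹ * QuotientGroup.mk (f y) *
          QuotientGroup.mk (f w)) = (QuotientGroup.mk (f w) : G' ⧸ V')⁻¹ *
          (QuotientGroup.mk (f w) * QuotientGroup.mk (f y) * (QuotientGroup.mk (f w))⁻¹) *
          QuotientGroup.mk (f w) := by rw [← h2]
      rw [h5]
      group
    exact h4
  obtain ⟨χ, hχ1, hχ2, hχ3⟩ := hcV
  have hθ : χ⁻¹ * (MulAut.conj w⁻¹ * (η⁻¹ * φ)) ∈ H := by
    apply hHT
    · exact A.mul_mem (A.inv_mem hχ1.2) (A.mul_mem (hInn _) hmemA)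
    · rw [MulAut.mul_apply, MulAut.mul_apply, hw, MulAut.conj_apply, MulAut.inv_def,
        MulEquiv.symm_apply_eq, hχ2]
      group
    · intro y
      have h1 := hχ3 ((χ⁻¹ * (MulAut.conj w⁻¹ * (η⁻¹ * φ))) y)
      rw [MulAut.mul_apply, MulAut.inv_def, MulEquiv.apply_symm_apply, MulAut.mul_apply,
        MulAut.conj_apply, map_mul, map_mul, map_inv, map_inv, map_inv, hfid] at h1
      rw [MulAut.mul_apply, MulAut.inv_def]
      have h2 := mul_right_cancel h1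
      exact (mul_left_cancel h2).symm
  have e1 : φ = η * (MulAut.conj w * (χ * (χ⁻¹ * (MulAut.conj w⁻¹ * (η⁻¹ * φ))))) := by
    rw [map_inv]
    group
  rw [e1]
  exact H.mul_mem hη.1.1 (H.mul_mem (hHinn w) (H.mul_mem hχ1.1 hθ))

end rel

end Pool.Agent.V8H21.MCG
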