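import Pool.Agent.V8H21.MCG.Bir

set_option autoImplicit false

/-!
# Congruence subgroups and the exact sequence of Birman for orbifold groups
-/

namespace Pool.Agent.V8H21.MCG

open Equiv

variable {h n : ℕ} {m m' : Fin n → ℕ}

theorem red_hom (hd : ∀ i, m' i ∣ m i) (f : Orb h n m →* Orb h n m')
    (hf' : ∀ u, f (PresentedGroup.of u) = PresentedGroup.of u) (φ : MulAut (Orb h n m))
    (hφ : ∀ i, ∃ w, φ (cone h n m i) = w * cone h n m i * w⁻¹) :
    ∃ ψ : Orb h n m' →* Orb h n m', ∀ y, ψ (f y) = f (φ y) := by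
  have hF : ∀ w : FreeGroup (OGen h n),
      FreeGroup.lift (fun u => f (φ (PresentedGroup.of u))) w = f (φ (PresentedGroup.mk _ w)) := by
    intro w
    have : FreeGroup.lift (fun u => f (φ (PresentedGroup.of u))) =
        (f.comp φ.toMonoidHom).comp (PresentedGroup.mk (orels h n m)) := by
      ext u
      rw [FreeGroup.lift_apply_of]
      rfl
    exact DFunLike.congr_fun this w
  have hrel : ∀ x ∈ orels h n m', FreeGroup.lift (fun u => f (φ (PresentedGroup.of u))) x = 1 := by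
    intro x hx
    rcases hx with rfl | ⟨k, rfl⟩
    · rw [hF, show (PresentedGroup.mk (orels h n m)) (orel h n) = 1 from
        PresentedGroup.one_of_mem (Or.inl rfl), map_one, map_one]
    · obtain ⟨w, hw⟩ := hφ k
      have h1 : (PresentedGroup.mk (orels h n m)) (og h n k) = cone h n m k := rfl
      have h2 : f (cone h n m k) = cone h n m' k := hf' _
      have h3 : cone h n m' k ^ m' k = 1 := by
        have h4 : (PresentedGroup.mk (orels h n m')) (og h n k ^ m' k) = 1 :=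
          PresentedGroup.one_of_mem (Or.inr ⟨k, rfl⟩)
        rwa [map_pow] at h4
      rw [hF, map_pow, h1, map_pow, hw, map_pow, map_mul, map_mul, map_inv, h2, conj_pow, h3]
      group
  refine ⟨PresentedGroup.toGroup hrel, fun y => ?_⟩
  obtain ⟨w, rfl⟩ := QuotientGroup.mk_surjective y
  have h1 : f (PresentedGroup.mk (orels h n m) w) = PresentedGroup.mk (orels h n m') w :=
    red_mk f hf' w
  show PresentedGroup.toGroup hrel (f (PresentedGroup.mk (orels h n m) w)) =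
    f (φ (PresentedGroup.mk (orels h n m) w))
  rw [h1, ← hF]
  rfl

theorem red_aut (hd : ∀ i, m' i ∣ m i) (f : Orb h n m →* Orb h n m')
    (hf' : ∀ u, f (PresentedGroup.of u) = PresentedGroup.of u) (hfs : Function.Surjective f)
    (φ : MulAut (Orb h n m))
    (hφ : ∀ i, ∃ w, φ (cone h n m i) = w * cone h n m i * w⁻¹) :
    ∃ ψ : MulAut (Orb h n m'), ∀ y, f (φ y) = ψ (f y) := by
  have hφ' : ∀ i, ∃ w, φ⁻¹ (cone h n m i) = w * cone h n m i * w⁻¹ := by
    intro i
    obtain ⟨w, hw⟩ := hφ i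
    refine ⟨(φ⁻¹ w)⁻¹, ?_⟩
    have h1 := congrArg (fun y => φ⁻¹ y) hw
    simp only [map_mul, map_inv] at h1
    rw [MulAut.inv_apply_self] at h1
    rw [inv_inv]
    calc φ⁻¹ (cone h n m i) = (φ⁻¹ w)⁻¹ * (φ⁻¹ w * φ⁻¹ (cone h n m i) * (φ⁻¹ w)⁻¹) * φ⁻¹ w := by
          group
      _ = _ := by rw [← h1]
  obtain ⟨ψ, hψ⟩ := red_hom hd f hf' φ hφ
  obtain ⟨ψ', hψ'⟩ := red_hom hd f hf' φ⁻¹ hφ'
  refine ⟨MonoidHom.toMulEquiv ψ ψ' ?_ ?_, fun y => (hψ y).symm⟩
  · ext u
    obtain ⟨y, hy⟩ := hfs (PresentedGroup.of u)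
    rw [MonoidHom.comp_apply, MonoidHom.id_apply, ← hy, hψ, hψ', MulAut.inv_apply_self]
  · ext u
    obtain ⟨y, hy⟩ := hfs (PresentedGroup.of u)
    rw [MonoidHom.comp_apply, MonoidHom.id_apply, ← hy, hψ', hψ, MulAut.apply_inv_self]

/-- The step from `O'` to `O`. -/
theorem birman_orb (hm : ∀ j, 2 ≤ m j) (hd : ∀ i, m' i ∣ m i)
    (hyp : (∑ j, (1 : ℚ) / (m j)) < ((2 * h + n : ℕ) : ℚ) - 2)
    (hyp' : (∑ j, (1 : ℚ) / (m' j)) < ((2 * h + n : ℕ) : ℚ) - 2)
    (f : Orb h n m →* Orb h n m')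
    (hf' : ∀ u, f (PresentedGroup.of u) = PresentedGroup.of u) (j : Fin n) (hj : m' j = 1)
    (A : Subgroup (MulAut (Orb h n m))) (hInn : ∀ g, MulAut.conj g ∈ A)
    (hA : ∀ φ ∈ A, ∀ i, ∃ w, φ (cone h n m i) = w * cone h n m i * w⁻¹)
    (hpush : (push f (cone h n m j) A).FiniteIndex)
    (hcsp : RelCSP (ind f A) (fun _ => True)) :
    RelCSP A (fun H => ∀ φ ∈ A, φ (cone h n m j) = cone h n m j → (∀ y, f (φ y) = f y) →
      φ ∈ H) := by
  have hm0 : ∀ j, m j ≠ 0 := fun j => by have := hm j; omega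
  have hm' : ∀ j, m' j ≠ 0 := fun i hi => by
    have h1 := hd i
    rw [hi, zero_dvd_iff] at h1
    exact hm0 i h1
  have hfs : Function.Surjective f := by
    intro q
    obtain ⟨u, rfl⟩ := QuotientGroup.mk_surjective q
    exact ⟨PresentedGroup.mk _ u, red_mk f hf' u⟩
  have hfx : f (cone h n m j) = 1 := by
    have h1 : f (cone h n m j) = cone h n m' j := hf' _
    have h4 : (PresentedGroup.mk (orels h n m')) (og h n j ^ m' j) = 1 :=
      PresentedGroup.one_of_mem (Or.inr ⟨j, rfl⟩)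
    rw [hj, pow_one] at h4
    rw [h1]
    exact h4
  have hfgO := orb_fg h n m
  have hfgO' := orb_fg h n m'
  obtain ⟨T, hT1, hT2, hT3⟩ := exists_tf (h := h) hm0 hyp
  obtain ⟨T', hT'1, hT'2, hT'3⟩ := exists_tf (h := h) hm' hyp'
  refine birman_step f hfs (cone h n m j) hfx ?_ ?_ ?_ A hInn (fun φ hφ => hA φ hφ j)
    (fun φ hφ => red_aut hd f hf' hfs φ (hA φ hφ)) hpush hcsp
  · intro N _ hN2
    exact ⟨cker _ N.index, inferInstance, inferInstance, cker_le N hN2.index_ne_zero le_rfl⟩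
  · intro N hN1 hN2
    obtain ⟨k, hk⟩ := rot_main hm hyp (N ⊓ T) (fun i k hik => hT3 i k hik.2) j
    refine ⟨cker _ k, inferInstance, inferInstance, fun z hz => ?_⟩
    obtain ⟨-, -, a, ha⟩ := hk j 1 z (Nat.coprime_one_left _) (by rwa [pow_one])
    exact ⟨a, ha.1⟩
  · intro V hV
    obtain ⟨k, hk⟩ := centr3 hm' hyp' (V.normalCore ⊓ T') inferInstance inferInstance
      (fun i k hik => hT'3 i k hik.2)
    refine ⟨cker _ k, inferInstance, inferInstance, fun c hc => ?_⟩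
    exact V.normalCore_le (hk c (fun p _ => hc p)).1

end Pool.Agent.V8H21.MCG
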