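import Pool.Agent.V8H21.MCG.Orb

set_option autoImplicit false

/-!
# Automorphisms of orbifold groups and of their torsion-free normal subgroups
-/

namespace Pool.Agent.V8H21.MCG

theorem comap_fin {G H : Type} [Group G] [Group H] (f : G →* H) (S : Subgroup H)
    [S.FiniteIndex] : (S.comap f).FiniteIndex :=
  ⟨by
    rw [Subgroup.index_comap]
    exact Subgroup.FiniteIndex.index_ne_zero (H := S.subgroupOf f.range)⟩

section main

variable {h n g' : ℕ} {m : Fin n → ℕ} (ι : SurfaceGroup g' →* Orb h n m)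

/-- Comparison of the congruence topologies. -/
theorem topology (hh : 2 ≤ h) (hn : ι.range.Normal) (hf : ι.range.FiniteIndex)
    (hc : ∀ j, cone h n m j ∉ ι.range) (L : Subgroup (Orb h n m)) [L.Normal] [L.FiniteIndex] :
    ∃ K : Subgroup (SurfaceGroup g'), K.Characteristic ∧ K.FiniteIndex ∧
      ∀ (φ : Orb h n m →* Orb h n m) (φ' : SurfaceGroup g' →* SurfaceGroup g'),
        (∀ a, φ (ι a) = ι (φ' a)) → ∀ z, (∀ a, φ' a * (z * a * z⁻¹)⁻¹ ∈ K) →
          ∀ y, φ y * (ι z * y * (ι z)⁻¹)⁻¹ ∈ L := by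
  have hfgO := orb_fg h n m
  have hfgS := surface_fg g'
  let N := L ⊓ ι.range
  have hN1 : N.Normal := inferInstance
  have hN2 : N.FiniteIndex := inferInstance
  let C := cker (Orb h n m) (2 * N.index)
  have hC1 : C.Characteristic := inferInstance
  have hC2 : C.FiniteIndex := inferInstance
  have hC3 : C.Normal := inferInstance
  have hcom : (C.comap ι).FiniteIndex := comap_fin ι C
  refine ⟨cker (SurfaceGroup g') (C.comap ι).index, inferInstance, inferInstance, ?_⟩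
  intro φ φ' hφ z hz y
  have hK : cker (SurfaceGroup g') (C.comap ι).index ≤ C.comap ι :=
    cker_le _ hcom.index_ne_zero le_rfl
  -- modulo `C`
  let π := QuotientGroup.mk' C
  have hπ : ∀ a, π (φ (ι a)) = π (ι z) * π (ι a) * (π (ι z))⁻¹ := by
    intro a
    have h1 : φ' a * (z * a * z⁻¹)⁻¹ ∈ C.comap ι := hK (hz a)
    have h2 : π (ι (φ' a * (z * a * z⁻¹)⁻¹)) = 1 := (QuotientGroup.eq_one_iff _).2 h1
    rw [map_mul, map_mul, map_inv, map_inv, mul_inv_eq_one, ← hφ] at h2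
    rw [h2, map_mul, map_mul, map_inv, map_mul, map_mul, map_inv]
  let u := y⁻¹ * ((ι z)⁻¹ * φ y * ι z)
  have hu : u ∈ N := by
    apply centr hh ι.range N inf_le_right hc
    rintro _ ⟨a, rfl⟩
    obtain ⟨b, hb⟩ := hn.conj_mem (ι a) ⟨a, rfl⟩ y
    have h1 := hπ a
    have h2 := hπ b
    rw [hb] at h2
    simp only [map_mul, map_inv] at h2
    rw [h1] at h2
    have h3 : π (u * ι a * u⁻¹ * (ι a)⁻¹) = 1 := by
      simp only [u, map_mul, map_inv]
      generalize π (φ y) = A at *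
      generalize π (ι z) = B at *
      generalize π (ι a) = X at *
      generalize π y = Y at *
      have h4 : A * (B * X * B⁻¹) * A⁻¹ = B * (Y * X * Y⁻¹) * B⁻¹ := h2
      have h5 : Y⁻¹ * (B⁻¹ * A * B) * X * (Y⁻¹ * (B⁻¹ * A * B))⁻¹ * X⁻¹ =
          Y⁻¹ * B⁻¹ * (A * (B * X * B⁻¹) * A⁻¹) * B * Y * X⁻¹ := by group
      rw [h5, h4]
      group
    exact (QuotientGroup.eq_one_iff _).1 h3
  have hu2 : u ∈ L := hu.1
  have h6 := (inferInstance : L.Normal).conj_mem u hu2 (ι z * y)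
  have h7 : ι z * y * u * (ι z * y)⁻¹ = φ y * (ι z * y * (ι z)⁻¹)⁻¹ := by
    simp only [u]
    group
  rwa [h7] at h6

/-- The pointed mapping classes. -/
theorem pointed (hh : 2 ≤ h) (hm : ∀ j, 2 ≤ m j) (hn : ι.range.Normal) (hf : ι.range.FiniteIndex)
    (hc : ∀ j, cone h n m j ∉ ι.range) (Γ : Subgroup (SurfaceGroup h)) [Γ.Normal] [Γ.FiniteIndex] :
    ∃ K : Subgroup (SurfaceGroup g'), K.Characteristic ∧ K.FiniteIndex ∧
      ∀ (φ : Orb h n m →* Orb h n m) (φ' : SurfaceGroup g' →* SurfaceGroup g'),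
        (∀ a, φ (ι a) = ι (φ' a)) → (∃ z, ∀ a, φ' a * (z * a * z⁻¹)⁻¹ ∈ K) →
          ∀ j i w, φ (cone h n m j) = w * cone h n m i * w⁻¹ → i = j ∧
            ∀ y, fill h n m (φ y) * (fill h n m w * fill h n m y * (fill h n m w)⁻¹)⁻¹ ∈ Γ := by
  have hfgO := orb_fg h n m
  have hfgS := surface_fg g'
  choose k hk using fun j => sep_cone (m := m) hm Γ hh j
  have hcf : (Γ.comap (fill h n m)).FiniteIndex := comap_fin _ Γ
  let L : Subgroup (Orb h n m) := Γ.comap (fill h n m) ⊓ ⨅ j, cker (Orb h n m) (k j)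
  have hL2 : (⨅ j, cker (Orb h n m) (k j)).FiniteIndex := Subgroup.finiteIndex_iInf (fun j => inferInstance)
  have hL3 : (⨅ j, cker (Orb h n m) (k j)).Normal := Subgroup.normal_iInf_normal (fun j => inferInstance)
  have hL4 : L.FiniteIndex := inferInstance
  have hL5 : L.Normal := inferInstance
  obtain ⟨K, hK1, hK2, hK⟩ := topology ι hh hn hf hc L
  refine ⟨K, hK1, hK2, ?_⟩
  rintro φ φ' hφ ⟨z, hz⟩ j i w hw
  have h1 := hK φ φ' hφ z hz
  have h2 : i = j ∧ fill h n m ((ι z)⁻¹ * w) ∈ Γ := by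
    apply hk j
    have h3 := h1 (cone h n m j)
    rw [hw] at h3
    have h4 : w * cone h n m i * w⁻¹ * (ι z * cone h n m j * (ι z)⁻¹)⁻¹ ∈
        cker (Orb h n m) (k j) := (Subgroup.mem_iInf.1 h3.2) j
    have h5 := (inferInstance : (cker (Orb h n m) (k j)).Normal).conj_mem _ h4 (ι z)⁻¹
    have h6 : (ι z)⁻¹ * (w * cone h n m i * w⁻¹ * (ι z * cone h n m j * (ι z)⁻¹)⁻¹) * (ι z)⁻¹⁻¹ =
        (ι z)⁻¹ * w * cone h n m i * ((ι z)⁻¹ * w)⁻¹ * (cone h n m j)⁻¹ := by group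
    rwa [h6] at h5
  obtain ⟨hij, h2⟩ := h2
  refine ⟨hij, fun y => ?_⟩
  have h3 : fill h n m (φ y * (ι z * y * (ι z)⁻¹)⁻¹) ∈ Γ := (h1 y).1
  -- in the quotient
  let π := QuotientGroup.mk' Γ
  have e1 : π (fill h n m w) = π (fill h n m (ι z)) := by
    have : π (fill h n m ((ι z)⁻¹ * w)) = 1 := (QuotientGroup.eq_one_iff _).2 h2
    rw [map_mul, map_inv, map_mul, map_inv, inv_mul_eq_one] at this
    exact this.symm
  have e2 : π (fill h n m (φ y)) =
      π (fill h n m (ι z)) * π (fill h n m y) * (π (fill h n m (ι z)))⁻¹ := by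
    have : π (fill h n m (φ y * (ι z * y * (ι z)⁻¹)⁻¹)) = 1 := (QuotientGroup.eq_one_iff _).2 h3
    rw [map_mul, map_inv, map_mul, map_inv, mul_inv_eq_one] at this
    rw [this]
    simp only [map_mul, map_inv]
  apply (QuotientGroup.eq_one_iff _).1
  show π _ = 1
  simp only [map_mul, map_inv]
  rw [e1, e2, mul_inv_cancel]

/-- Point pushing. -/
theorem pushing (hh : 2 ≤ h) (hm : ∀ j, 2 ≤ m j) (hn : ι.range.Normal) (hf : ι.range.FiniteIndex)
    (hc : ∀ j, cone h n m j ∉ ι.range) (V : Subgroup (SurfaceGroup h)) [V.FiniteIndex] :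
    ∃ K : Subgroup (SurfaceGroup g'), K.Characteristic ∧ K.FiniteIndex ∧
      ∀ (φ : Orb h n m →* Orb h n m) (φ' : SurfaceGroup g' →* SurfaceGroup g'),
        (∀ a, φ (ι a) = ι (φ' a)) → (∃ z, ∀ a, φ' a * (z * a * z⁻¹)⁻¹ ∈ K) →
          ∀ j w, φ (cone h n m j) = w * cone h n m j * w⁻¹ →
            ∀ γ, (∀ y, fill h n m (φ y) = fill h n m w * (γ * fill h n m y * γ⁻¹) *
              (fill h n m w)⁻¹) → γ ∈ V := by
  have hfgS := surface_fg h
  let Γ := cker (SurfaceGroup h) (2 * V.normalCore.index)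
  have hΓ1 : Γ.Normal := inferInstance
  have hΓ2 : Γ.FiniteIndex := inferInstance
  obtain ⟨K, hK1, hK2, hK⟩ := pointed ι hh hm hn hf hc Γ
  refine ⟨K, hK1, hK2, ?_⟩
  intro φ φ' hφ hz j w hw γ hγ
  have h1 := (hK φ φ' hφ hz j j w hw).2
  apply V.normalCore_le
  apply center_mod hh
  intro p
  obtain ⟨y, rfl⟩ := fill_surj h n m p
  have h2 := h1 y
  rw [hγ] at h2
  have h3 := hΓ1.conj_mem _ h2 (fill h n m w)⁻¹
  have h4 : (fill h n m w)⁻¹ * (fill h n m w * (γ * fill h n m y * γ⁻¹) * (fill h n m w)⁻¹ *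
      (fill h n m w * fill h n m y * (fill h n m w)⁻¹)⁻¹) * (fill h n m w)⁻¹⁻¹ =
      γ * fill h n m y * γ⁻¹ * (fill h n m y)⁻¹ := by group
  rwa [h4] at h3

end main

end Pool.Agent.V8H21.MCG
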