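import Pool.Agent.V8H21.MCG.Amal
import Pool.Agent.V8H21.MCG.All

set_option autoImplicit false

/-!
# The center of a surface group is trivial
-/

namespace Pool.Agent.V8H21.MCG

open Monoid Monoid.PushoutI

/-- a representation of the free group by affine maps -/
noncomputable def rho (k : ℕ) : FreeGroup (Fin k ⊕ Fin k) →* Equiv.Perm ℚ :=
  FreeGroup.lift (Sum.elim (fun i => if (i : ℕ) = 0 then Equiv.mulLeft₀ 2 (by norm_num) else 1)
    (fun i => if (i : ℕ) = 0 then Equiv.addRight 1 else 1))

theorem rho_inl (k : ℕ) (x : ℚ) :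
    rho (k + 1) (FreeGroup.of (Sum.inl 0)) x = 2 * x := by
  unfold rho
  rw [FreeGroup.lift_apply_of]
  simp

theorem rho_rel (k : ℕ) : rho (k + 1) (rel (k + 1)) = Equiv.addRight 1 := by
  have h0 : rho (k + 1) (List.ofFn fun i : Fin k => cm (k + 1) i.succ).prod = 1 := by
    rw [map_list_prod]
    apply List.prod_eq_one
    intro y hy
    rw [List.mem_map] at hy
    obtain ⟨z, hz, rfl⟩ := hy
    rw [List.mem_ofFn] at hz
    obtain ⟨j, rfl⟩ := hz
    unfold cm rho
    simp
  have h1 : rho (k + 1) (cm (k + 1) 0) = Equiv.addRight 1 := by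
    unfold cm rho
    simp only [map_mul, map_inv, FreeGroup.lift_apply_of]
    ext x
    simp [Equiv.Perm.mul_apply]
    ring
  unfold rel
  rw [List.ofFn_succ, List.prod_cons, map_mul, h0, h1, mul_one]

theorem add_zpow' (t : ℤ) (x : ℚ) : ((Equiv.addRight (1 : ℚ) : Equiv.Perm ℚ) ^ t) x = x + t := by
  induction t using Int.induction_on generalizing x with
  | zero => simp
  | succ i ih =>
    rw [zpow_add_one, Equiv.Perm.mul_apply, ih, Equiv.coe_addRight]
    push_cast
    ring
  | pred i ih =>
    have h1 : (Equiv.addRight (1 : ℚ) : Equiv.Perm ℚ)⁻¹ x = x - 1 := by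
      rw [Equiv.Perm.inv_eq_iff_eq, Equiv.coe_addRight]
      ring
    rw [zpow_sub_one, Equiv.Perm.mul_apply, h1, ih]
    push_cast
    ring

theorem rho_pow (k : ℕ) (t : ℤ) (x : ℚ) :
    rho (k + 1) (rel (k + 1) ^ t) x = x + t := by
  rw [map_zpow, rho_rel, add_zpow']

/-- the genera of the two pieces -/
abbrev kk (g : ℕ) (b : Bool) : ℕ := cond b 0 g + 1

/-- the signs -/
def eps (b : Bool) : ℤ := cond b 1 (-1)

theorem eps_ne (b : Bool) : (eps b : ℚ) ≠ 0 := by
  cases b <;> simp [eps]

/-- the pieces -/
abbrev Pc (g : ℕ) (b : Bool) : Type := FreeGroup (Fin (kk g b) ⊕ Fin (kk g b))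

/-- the boundary -/
noncomputable def bd (g : ℕ) (b : Bool) : Multiplicative ℤ →* Pc g b :=
  zpowersHom _ (rel (kk g b) ^ eps b)

theorem bd_apply (g : ℕ) (b : Bool) (t : Multiplicative ℤ) :
    bd g b t = rel (kk g b) ^ (eps b * t.toAdd) := by
  unfold bd
  rw [zpowersHom_apply, zpow_mul]

theorem rho_bd (g : ℕ) (b : Bool) (t : Multiplicative ℤ) (x : ℚ) :
    rho (kk g b) (bd g b t) x = x + eps b * (t.toAdd : ℚ) := by
  rw [bd_apply, rho_pow]
  push_cast
  rfl

theorem bd_inj (g : ℕ) (b : Bool) : Function.Injective (bd g b) := by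
  intro t s h
  have h1 := congrArg (fun y => rho (kk g b) y 0) h
  simp only [rho_bd, zero_add] at h1
  have h2 := mul_left_cancel₀ (eps_ne b) h1
  have h3 : t.toAdd = s.toAdd := by exact_mod_cast h2
  exact h3

theorem bd_ne (g : ℕ) (b : Bool) : ∃ y, y ∉ (bd g b).range := by
  refine ⟨FreeGroup.of (Sum.inl 0), ?_⟩
  rintro ⟨t, ht⟩
  have h0 := congrArg (fun y => rho (kk g b) y 0) ht
  have h1 := congrArg (fun y => rho (kk g b) y 1) ht
  simp only [rho_bd, rho_inl] at h0 h1
  rw [zero_add, mul_zero] at h0
  rw [h0] at h1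
  norm_num at h1

/-- the indices -/
def em (g : ℕ) : (b : Bool) → Fin (kk g b) → Fin (g + 2)
  | true => fun _ => 0
  | false => Fin.succ

/-- the generators in the surface group -/
noncomputable def bk (g : ℕ) (b : Bool) : Pc g b →* SurfaceGroup (g + 2) :=
  (PresentedGroup.mk _).comp (FreeGroup.map (Sum.map (em g b) (em g b)))

theorem map_cm {k l : ℕ} (f : Fin k → Fin l) (i : Fin k) :
    FreeGroup.map (Sum.map f f) (cm k i) = cm l (f i) := by
  unfold cm
  simp

theorem rel_split (g : ℕ) : rel (g + 2) =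
    FreeGroup.map (Sum.map (em g true) (em g true)) (rel 1) *
      FreeGroup.map (Sum.map (em g false) (em g false)) (rel (g + 1)) := by
  have h1 : FreeGroup.map (Sum.map (em g true) (em g true)) (rel 1) = cm (g + 2) 0 := by
    unfold rel
    rw [List.ofFn_succ, List.ofFn_zero, List.prod_cons, List.prod_nil, mul_one]
    exact map_cm _ _
  have h2 : FreeGroup.map (Sum.map (em g false) (em g false)) (rel (g + 1)) =
      (List.ofFn fun i : Fin (g + 1) => cm (g + 2) i.succ).prod := by
    unfold rel
    rw [map_list_prod, List.map_ofFn]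
    have h3 : (⇑(FreeGroup.map (Sum.map (em g false) (em g false))) ∘ cm (g + 1)) =
        fun i : Fin (g + 1) => cm (g + 2) i.succ := by
      funext i
      exact map_cm _ _
    rw [h3]
  rw [h1, h2]
  unfold rel
  rw [List.ofFn_succ, List.prod_cons]

theorem bk_rel (g : ℕ) : bk g true (rel 1) * bk g false (rel (g + 1)) = 1 := by
  have h1 : (PresentedGroup.mk ({rel (g + 2)} : Set (FreeGroup (Fin (g + 2) ⊕ Fin (g + 2)))))
      (rel (g + 2)) = 1 := PresentedGroup.one_of_mem (Set.mem_singleton _)
  have h2 := congrArg (PresentedGroup.mk ({rel (g + 2)} :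
    Set (FreeGroup (Fin (g + 2) ⊕ Fin (g + 2))))) (rel_split g)
  rw [h1, map_mul] at h2
  exact h2.symm

theorem bk_comp (g : ℕ) (b : Bool) : (bk g b).comp (bd g b) = (bk g true).comp (bd g true) := by
  cases b
  · apply MonoidHom.ext_mint
    show bk g false (bd g false _) = bk g true (bd g true _)
    rw [bd_apply, bd_apply, map_zpow, map_zpow]
    have h1 := bk_rel g
    have h2 : bk g false (rel (kk g false)) = (bk g true (rel (kk g true)))⁻¹ :=
      (eq_inv_of_mul_eq_one_right h1)
    rw [h2]
    simp [eps]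
  · rfl

/-- the inverse homomorphism -/
noncomputable def inv' (g : ℕ) : PushoutI (bd g) →* SurfaceGroup (g + 2) :=
  PushoutI.lift (bk g) ((bk g true).comp (bd g true)) (bk_comp g)

/-- the images of the generators -/
noncomputable def gn (g : ℕ) : Fin (g + 2) ⊕ Fin (g + 2) → PushoutI (bd g) :=
  Sum.elim
    (Fin.cases (of (φ := bd g) true (FreeGroup.of (Sum.inl 0)))
      (fun i => of (φ := bd g) false (FreeGroup.of (Sum.inl i))))
    (Fin.cases (of (φ := bd g) true (FreeGroup.of (Sum.inr 0)))
      (fun i => of (φ := bd g) false (FreeGroup.of (Sum.inr i))))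

theorem gn_comp (g : ℕ) (b : Bool) (y : Pc g b) :
    FreeGroup.lift (gn g) (FreeGroup.map (Sum.map (em g b) (em g b)) y) = of (φ := bd g) b y := by
  have : (FreeGroup.lift (gn g)).comp (FreeGroup.map (Sum.map (em g b) (em g b))) =
      of (φ := bd g) b := by
    ext u
    show FreeGroup.lift (gn g) (FreeGroup.map _ (FreeGroup.of u)) = _
    rw [FreeGroup.map.of, FreeGroup.lift_apply_of]
    cases b
    · rcases u with u | u <;> rfl
    · rcases u with u | u
      · have h1 : u = (0 : Fin 1) := Subsingleton.elim (α := Fin 1) _ _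
        subst h1
        rfl
      · have h1 : u = (0 : Fin 1) := Subsingleton.elim (α := Fin 1) _ _
        subst h1
        rfl
  exact DFunLike.congr_fun this y

theorem gn_rel (g : ℕ) : ∀ r ∈ ({rel (g + 2)} : Set (FreeGroup (Fin (g + 2) ⊕ Fin (g + 2)))),
    FreeGroup.lift (gn g) r = 1 := by
  intro r hr
  rw [Set.mem_singleton_iff] at hr
  subst hr
  rw [rel_split, map_mul]
  have h1 := gn_comp g true (rel 1)
  have h2 := gn_comp g false (rel (g + 1))
  rw [h1, h2]
  have h3 : rel 1 = bd g true (Multiplicative.ofAdd 1) := by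
    rw [bd_apply]
    simp [eps]
    rfl
  have h4 : rel (g + 1) = (bd g false (Multiplicative.ofAdd 1))⁻¹ := by
    rw [bd_apply]
    simp [eps]
    rfl
  rw [h3, h4, map_inv, of_apply_eq_base, of_apply_eq_base, mul_inv_cancel]

/-- the homomorphism to the amalgamated product -/
noncomputable def toP (g : ℕ) : SurfaceGroup (g + 2) →* PushoutI (bd g) :=
  PresentedGroup.toGroup (gn_rel g)

theorem inv_toP (g : ℕ) (z : SurfaceGroup (g + 2)) : inv' g (toP g z) = z := by
  have : (inv' g).comp (toP g) = MonoidHom.id _ := by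
    apply PresentedGroup.ext
    intro u
    show inv' g (toP g (PresentedGroup.of u)) = PresentedGroup.of u
    unfold toP
    rw [PresentedGroup.toGroup.of]
    rcases u with u | u
    · refine Fin.cases ?_ (fun i => ?_) u
      · show inv' g (of (φ := bd g) true (FreeGroup.of (Sum.inl 0))) = _
        unfold inv'
        rw [lift_of]
        rfl
      · show inv' g (of (φ := bd g) false (FreeGroup.of (Sum.inl i))) = _
        unfold inv'
        rw [lift_of]
        rfl
    · refine Fin.cases ?_ (fun i => ?_) u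
      · show inv' g (of (φ := bd g) true (FreeGroup.of (Sum.inr 0))) = _
        unfold inv'
        rw [lift_of]
        rfl
      · show inv' g (of (φ := bd g) false (FreeGroup.of (Sum.inr i))) = _
        unfold inv'
        rw [lift_of]
        rfl
  exact DFunLike.congr_fun this z

theorem toP_bk (g : ℕ) (b : Bool) (y : Pc g b) : toP g (bk g b y) = of (φ := bd g) b y :=
  gn_comp g b y

/-- the center of a surface group of genus at least two is trivial -/
theorem center_two (g : ℕ) (z : SurfaceGroup (g + 2)) (hz : ∀ y, z * y = y * z) : z = 1 := by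
  obtain ⟨t, ht⟩ := Amal.central_mem (bd_inj g) (bd_ne g) (fun i => ⟨!i, by cases i <;> simp⟩)
    (toP g z) (fun b y => by rw [← toP_bk, ← map_mul, ← map_mul, hz])
  have h1 : bd g true t * FreeGroup.of (Sum.inl 0) = FreeGroup.of (Sum.inl 0) * bd g true t := by
    apply of_injective (bd_inj g) true
    rw [map_mul, map_mul, of_apply_eq_base, ht, ← toP_bk, ← map_mul, ← map_mul, hz]
  have h2 := congrArg (fun y => rho (kk g true) y 0) h1
  simp only [map_mul, Equiv.Perm.mul_apply, rho_bd, rho_inl] at h2
  have h3 : (eps true : ℚ) * (t.toAdd : ℚ) = 0 := by linarith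
  have h4 : (t.toAdd : ℚ) = 0 := (mul_eq_zero.1 h3).resolve_left (eps_ne true)
  have h5 : t = 1 := by
    have h6 : t.toAdd = 0 := by exact_mod_cast h4
    exact h6
  rw [h5, map_one] at ht
  rw [← inv_toP g z, ← ht, map_one]

theorem surface_zero (z : SurfaceGroup 0) : z = 1 := by
  obtain ⟨w, rfl⟩ := QuotientGroup.mk_surjective z
  have : w = 1 := Subsingleton.elim _ _
  rw [this]
  rfl

theorem surface_one (y z : SurfaceGroup 1) : y * z = z * y := by
  have h0 : (PresentedGroup.of (Sum.inl 0) : SurfaceGroup 1) * PresentedGroup.of (Sum.inr 0) =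
      PresentedGroup.of (Sum.inr 0) * PresentedGroup.of (Sum.inl 0) := by
    have h1 : (PresentedGroup.mk ({rel 1} : Set (FreeGroup (Fin 1 ⊕ Fin 1)))) (rel 1) = 1 :=
      PresentedGroup.one_of_mem (Set.mem_singleton _)
    have h2 : rel 1 = cm 1 0 := by
      unfold rel
      rw [List.ofFn_succ, List.ofFn_zero, List.prod_cons, List.prod_nil, mul_one]
    rw [h2] at h1
    unfold cm at h1
    rw [map_mul, map_mul, map_mul, map_inv, map_inv, mul_inv_eq_one, mul_inv_eq_iff_eq_mul] at h1
    exact h1
  have h1 : ∀ u v : Fin 1 ⊕ Fin 1, (PresentedGroup.of u : SurfaceGroup 1) * PresentedGroup.of v =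
      PresentedGroup.of v * PresentedGroup.of u := by
    intro u v
    rcases u with u | u <;> rcases v with v | v <;>
      (rw [Subsingleton.elim u 0, Subsingleton.elim v 0])
    · exact h0
    · exact h0.symm
  have h2 : ∀ u : Fin 1 ⊕ Fin 1, ∀ z : SurfaceGroup 1,
      PresentedGroup.of u * z = z * PresentedGroup.of u := by
    intro u z
    have h3 : z ∈ Subgroup.centralizer ({PresentedGroup.of u} : Set (SurfaceGroup 1)) := by
      have h4 : Subgroup.closure (Set.range
          (PresentedGroup.of : Fin 1 ⊕ Fin 1 → SurfaceGroup 1)) ≤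
          Subgroup.centralizer ({PresentedGroup.of u} : Set (SurfaceGroup 1)) := by
        rw [Subgroup.closure_le]
        rintro _ ⟨v, rfl⟩
        rw [SetLike.mem_coe, Subgroup.mem_centralizer_singleton_iff]
        exact h1 v u
      rw [PresentedGroup.closure_range_of] at h4
      exact h4 trivial
    rw [Subgroup.mem_centralizer_singleton_iff] at h3
    exact h3.symm
  have h3 : z ∈ Subgroup.centralizer ({y} : Set (SurfaceGroup 1)) := by
    have h4 : Subgroup.closure (Set.range
        (PresentedGroup.of : Fin 1 ⊕ Fin 1 → SurfaceGroup 1)) ≤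
        Subgroup.centralizer ({y} : Set (SurfaceGroup 1)) := by
      rw [Subgroup.closure_le]
      rintro _ ⟨v, rfl⟩
      rw [SetLike.mem_coe, Subgroup.mem_centralizer_singleton_iff]
      exact h2 v y
    rw [PresentedGroup.closure_range_of] at h4
    exact h4 trivial
  rw [Subgroup.mem_centralizer_singleton_iff] at h3
  exact h3.symm

end Pool.Agent.V8H21.MCG
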