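import Pool.Agent.V8H21.MCG.Psh

set_option autoImplicit false

/-!
# Centralizers of subgroups of finite index in surface groups
-/

namespace Pool.Agent.V8H21.MCG

open Monoid Monoid.PushoutI

namespace Amal

variable {J : Type} {G : J → Type} [∀ i, Group (G i)] {H : Type} [Group H] {φ : ∀ i, H →* G i}

/-- an element commuting with elements of the factors lies in the amalgamated subgroup -/
theorem central_mem2 (hφ : ∀ i, Function.Injective (φ i))
    (hJ : ∀ i : J, ∃ k, k ≠ i) (z : PushoutI φ)
    (hne : ∀ i, ∃ g, g ∉ (φ i).range ∧ z * of (φ := φ) i g = of (φ := φ) i g * z) :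
    z ∈ (base φ).range := by
  obtain ⟨b, l, hl, rfl⟩ := exists_form hφ z
  rcases l with _ | ⟨x, l⟩
  · refine ⟨b, ?_⟩
    simp [lp]
  exfalso
  have hcomm : ∀ i g, base φ b * lp φ (x :: l) * of (φ := φ) i g =
      of (φ := φ) i g * (base φ b * lp φ (x :: l)) →
      lp φ (x :: l) * of (φ := φ) i g * (lp φ (x :: l))⁻¹ =
      of (φ := φ) i ((φ i b)⁻¹ * g * φ i b) := by
    intro i g h1
    rw [map_mul, map_mul, map_inv, of_apply_eq_base]
    rw [mul_inv_eq_iff_eq_mul]
    calc lp φ (x :: l) * of (φ := φ) i g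
        = (base φ b)⁻¹ * (base φ b * lp φ (x :: l) * of (φ := φ) i g) := by group
      _ = _ := by
        rw [h1]
        group
  by_cases hlast : ∃ y ∈ (x :: l).getLast?, y.1 ≠ x.1
  · -- different ends
    obtain ⟨y, hy, hyx⟩ := hlast
    have hl0 : l ≠ [] := by
      rintro rfl
      have : y = x := by simpa using hy.symm
      exact hyx (by rw [this])
    obtain ⟨g, hg, hgc⟩ := hne x.1
    have hl' : Red φ l := ⟨fun u hu => hl.1 u (List.mem_cons_of_mem _ hu), hl.2.tail⟩
    have h2 : ∀ u ∈ l.head?, u.1 ≠ x.1 := by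
      intro u hu h3
      exact (List.isChain_cons.1 hl.2).1 u hu h3.symm
    have h1 : ∀ u ∈ l.getLast?, u.1 ≠ x.1 := by
      intro u hu
      have h3 : (x :: l).getLast? = l.getLast? := by
        rcases l with _ | ⟨v, l⟩
        · exact absurd rfl hl0
        · rw [List.getLast?_cons_cons]
      rw [h3] at hy
      have h4 : u = y := Option.mem_unique hu hy
      rw [h4]
      exact hyx
    refine conj_ne hφ hl' hl0 hg h1 h2 (x.2⁻¹ * ((φ x.1 b)⁻¹ * g * φ x.1 b) * x.2) ?_
    have h3 := hcomm x.1 g hgc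
    have h4 : lp φ (x :: l) = of (φ := φ) x.1 x.2 * lp φ l := by
      unfold lp
      rw [List.map_cons, List.prod_cons]
    rw [h4] at h3
    rw [map_mul _ _ x.2, map_mul _ x.2⁻¹, map_inv _ x.2, ← h3]
    group
  · -- the same ends
    have hlast2 : ∀ y ∈ (x :: l).getLast?, y.1 = x.1 := by
      intro y hy
      by_contra h1
      exact hlast ⟨y, hy, h1⟩
    obtain ⟨k, hk⟩ := hJ x.1
    obtain ⟨g, hg, hgc⟩ := hne k
    refine conj_ne hφ hl (by simp) hg ?_ ?_ _ (hcomm k g hgc)
    · intro u hu h3
      rw [hlast2 u hu] at h3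
      exact hk h3.symm
    · intro u hu h3
      have : u = x := by simpa using hu.symm
      rw [this] at h3
      exact hk h3.symm

end Amal

theorem rho_inl_pow (k l : ℕ) (x : ℚ) :
    rho (k + 1) (FreeGroup.of (Sum.inl 0) ^ l) x = 2 ^ l * x := by
  induction l generalizing x with
  | zero => simp
  | succ l ih =>
    rw [pow_succ, map_mul, Equiv.Perm.mul_apply, rho_inl, ih, pow_succ]
    ring

/-- an element which commutes with all powers of a fixed exponent -/
theorem center_pow (g : ℕ) (z : SurfaceGroup (g + 2)) (k : ℕ) (hk : k ≠ 0)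
    (hz : ∀ y, z * y ^ k = y ^ k * z) : z = 1 := by
  have hpow : (1 : ℚ) < 2 ^ k := one_lt_pow₀ (by norm_num) hk
  have hcom : ∀ b, toP g z * of (φ := bd g) b (FreeGroup.of (Sum.inl 0) ^ k) =
      of (φ := bd g) b (FreeGroup.of (Sum.inl 0) ^ k) * toP g z := by
    intro b
    rw [← toP_bk, ← map_mul, ← map_mul, map_pow, hz]
  obtain ⟨t, ht⟩ := Amal.central_mem2 (bd_inj g) (fun i => ⟨!i, by cases i <;> simp⟩)
    (toP g z) (fun b => ⟨FreeGroup.of (Sum.inl 0) ^ k, by
      rintro ⟨t, ht⟩
      have h0 := congrArg (fun y => rho (kk g b) y 0) ht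
      have h1 := congrArg (fun y => rho (kk g b) y 1) ht
      simp only [rho_bd, rho_inl_pow] at h0 h1
      rw [zero_add, mul_zero] at h0
      rw [h0] at h1
      linarith, hcom b⟩)
  have h1 : bd g true t * FreeGroup.of (Sum.inl 0) ^ k =
      FreeGroup.of (Sum.inl 0) ^ k * bd g true t := by
    apply of_injective (bd_inj g) true
    rw [map_mul, map_mul, of_apply_eq_base, ht]
    exact hcom true
  have h2 := congrArg (fun y => rho (kk g true) y 0) h1
  simp only [map_mul, Equiv.Perm.mul_apply, rho_bd, rho_inl_pow] at h2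
  have h3 : (eps true : ℚ) * (t.toAdd : ℚ) = 0 := by
    have h4 : (2 ^ k - 1 : ℚ) * ((eps true : ℚ) * (t.toAdd : ℚ)) = 0 := by linarith
    exact (mul_eq_zero.1 h4).resolve_left (by linarith)
  have h4 : (t.toAdd : ℚ) = 0 := (mul_eq_zero.1 h3).resolve_left (eps_ne true)
  have h5 : t = 1 := by
    have h6 : t.toAdd = 0 := by exact_mod_cast h4
    exact h6
  rw [h5, map_one] at ht
  rw [← inv_toP g z, ← ht, map_one]

section main

variable {h n : ℕ} {m : Fin n → ℕ} {g' : ℕ} (ι : SurfaceGroup g' →* Orb h n m)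

/-- the centralizer of the normal core is trivial -/
theorem effective3 (hm : ∀ j, m j ≠ 0)
    (hyp : (∑ j, (1 : ℚ) / (m j)) < ((2 * h + n : ℕ) : ℚ) - 2) (hι : Function.Injective ι)
    (hf : ι.range.FiniteIndex)
    (hc : ∀ j k, cone h n m j ^ k ∈ ι.range → m j ∣ k) (y : Orb h n m)
    (hy : ∀ p ∈ ι.range.normalCore, y * p = p * y) : y = 1 := by
  have hP1 : ι.range.normalCore.Normal := inferInstance
  have hP2 : ι.range.normalCore.FiniteIndex := inferInstance
  obtain ⟨k, hk⟩ := centr3 hm hyp ι.range.normalCore hP1 hP2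
    (fun j k hjk => hc j k (ι.range.normalCore_le hjk))
  have hyP := hk y (by
    intro p hp
    rw [hy p hp, mul_inv_cancel_right, mul_inv_cancel]
    exact one_mem _)
  obtain ⟨z, rfl⟩ := ι.range.normalCore_le hyP
  let T := ι.range.normalCore.comap ι
  have hT1 : T.Normal := inferInstance
  have hT2 : T.FiniteIndex := by
    refine ⟨?_⟩
    rw [Subgroup.index_comap]
    exact Subgroup.FiniteIndex.index_ne_zero (H := ι.range.normalCore.subgroupOf ι.range)
  have hz : ∀ a ∈ T, z * a = a * z := by
    intro a ha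
    apply hι
    rw [map_mul, map_mul, hy _ ha]
  suffices z = 1 by rw [this, map_one]
  rcases g' with _ | _ | g'
  · exact surface_zero z
  · -- genus one does not occur
    exfalso
    let U : Subgroup (SurfaceGroup 1) := chi1.ker
    have hU : U.index ≠ 0 := by
      have : Finite (Multiplicative (ZMod 2)) := inferInstance
      have h1 : U.index = Nat.card chi1.range := Subgroup.index_ker chi1
      rw [h1]
      exact Nat.card_pos.ne'
    have hUi : (U.map ι).index ≠ 0 := by
      have h3 : (U.map ι).index = (U ⊔ ι.ker).index * ι.range.index := Subgroup.index_map U ι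
      rw [h3, (MonoidHom.ker_eq_bot_iff ι).2 hι, sup_bot_eq]
      exact mul_ne_zero hU hf.index_ne_zero
    have hfi : (U.map ι).FiniteIndex := ⟨hUi⟩
    let N := (U.map ι).normalCore
    have hN1 : N.Normal := inferInstance
    have hN2 : N.FiniteIndex := inferInstance
    have hN3 : N ≤ U.map ι := Subgroup.normalCore_le _
    have hN4 : N ≤ ι.range := hN3.trans (Subgroup.map_le_range _ _)
    obtain ⟨k', hk'⟩ := centr3 hm hyp N hN1 hN2 (fun j k hjk => hc j k (hN4 hjk))
    have h1 := hk' (ι (PresentedGroup.of (Sum.inl 0))) (by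
      intro p hp
      obtain ⟨a, rfl⟩ := hN4 hp
      rw [← map_mul, surface_one, map_mul, mul_inv_cancel_right, mul_inv_cancel]
      exact one_mem _)
    obtain ⟨u, hu, hu2⟩ := hN3 h1
    have h2 := hι hu2
    rw [h2] at hu
    exact chi1_of hu
  · refine center_pow g' z T.index hT2.index_ne_zero (fun y => hz _ ?_)
    exact Subgroup.pow_index_mem T y

end main

end Pool.Agent.V8H21.MCG
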