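import Pool.Agent.V8H21.MCG.Ori

set_option autoImplicit false

/-!
# Divisible coefficients
-/

namespace Pool.Agent.V8H21.MCG

section fixed

variable {g : ℕ}

theorem nu_congr {D : Type} [AddCommGroup D] {c c' : SurfaceGroup g → SurfaceGroup g → D}
    (hc : (triv (SurfaceGroup g) D).IsCoc c) (hc' : (triv (SurfaceGroup g) D).IsCoc c')
    (h : ∀ x y, c x y = c' x y) : nu c hc = nu c' hc' := by
  have h1 : c = c' := by
    funext x y
    exact h x y
  subst h1
  rfl

/-- homomorphisms to `ℤ/3` do not see automorphisms which act trivially modulo `cker` -/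
theorem hom_three {n : ℕ} (hn : 3 ≤ n) (φ : MulAut (SurfaceGroup g))
    (hφ : ∀ x, φ x * x⁻¹ ∈ cker (SurfaceGroup g) n)
    (a : SurfaceGroup g →* Multiplicative (ZMod 3)) (x : SurfaceGroup g) : a (φ x) = a x := by
  have h1 : cker (SurfaceGroup g) n ≤ a.ker := by
    apply cker_le
    · rw [Subgroup.index_ker]
      exact Nat.card_pos.ne'
    · rw [Subgroup.index_ker]
      refine le_trans (Nat.card_le_card_of_injective _ Subtype.val_injective) ?_
      rw [Nat.card_congr Multiplicative.toAdd, Nat.card_zmod]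
      exact hn
  have h2 := MonoidHom.mem_ker.1 (h1 (hφ x))
  rwa [map_mul, map_inv, mul_inv_eq_one] at h2

/-- automorphisms which act trivially modulo `cker` preserve the classes of two-cocycles with
trivial coefficients -/
theorem coh_fixed {n : ℕ} (hn : 3 ≤ n) (φ : MulAut (SurfaceGroup (g + 1)))
    (hφ : ∀ x, φ x * x⁻¹ ∈ cker (SurfaceGroup (g + 1)) n)
    {D : Type} [AddCommGroup D] (c : SurfaceGroup (g + 1) → SurfaceGroup (g + 1) → D)
    (hc : (triv (SurfaceGroup (g + 1)) D).IsCoc c) :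
    ∃ l : SurfaceGroup (g + 1) → D, ∀ x y,
      c (φ x) (φ y) - c x y = (triv (SurfaceGroup (g + 1)) D).bd l x y := by
  obtain ⟨k, hk⟩ := exists_degree.{0} φ
  obtain ⟨k', hk'⟩ := exists_degree.{0} φ⁻¹
  have h1 : k = 1 := by
    obtain ⟨a, b, hab, h1⟩ := exists_unit.{0} (g := g) ℤ
    have h2 : k' • k • (1 : ℤ) = 1 := by
      rw [← h1, ← hk ℤ _ hab, ← hk' ℤ _ (coc_pull hab φ)]
      apply nu_congr
      intro x y
      rw [MulAut.apply_inv_self, MulAut.apply_inv_self]
    have h3 : k' * k = 1 := by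
      simpa using h2
    have h4 : k = 1 ∨ k = -1 := Int.isUnit_iff.1 (isUnit_iff_exists_inv'.2 ⟨k', h3⟩)
    obtain ⟨a3, b3, hab3, h5⟩ := exists_unit.{0} (g := g) (ZMod 3)
    have h6 : k • (1 : ZMod 3) = 1 := by
      rw [← h5, ← hk (ZMod 3) _ hab3]
      apply nu_congr
      intro x y
      rw [hom_three hn φ hφ, hom_three hn φ hφ]
    rcases h4 with h4 | h4
    · exact h4
    · exfalso
      rw [h4] at h6
      revert h6
      decide
  have h7 : nu _ (coc_sub (coc_pull hc φ) hc) = 0 := by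
    rw [nu_sub (coc_pull hc φ) hc, hk D c hc, h1, one_smul, sub_self]
  exact bd_of_nu _ h7

end fixed

section circle

variable {G : Type} [Group G] {D : Type} [AddCommGroup D]

theorem Act.bd3_bd2 (S : Act G D) (β : G → G → D) : S.IsCoc3 (S.bd2 β) := by
  intro x y z t
  simp only [Act.bd2]
  simp only [S.add, S.sub, ← S.mul, mul_assoc]
  abel

/-- Reduction to a finite group of coefficients. -/
theorem reduce [Finite G] (hD : ∀ n : ℕ, n ≠ 0 → ∀ d : D, ∃ e : D, n • e = d)
    (ω : G → G → G → D) (hω : (triv G D).IsCoc3 ω) :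
    ∃ (A : AddSubgroup D) (_ : Finite A) (ω' : G → G → G → A) (β : G → G → D),
      (triv G A).IsCoc3 ω' ∧ ∀ x y z, ω x y z = (ω' x y z : D) + (triv G D).bd2 β x y z := by
  classical
  have : Fintype G := Fintype.ofFinite G
  let n := Fintype.card G
  have hn : n ≠ 0 := Fintype.card_ne_zero
  let β0 : G → G → D := fun x y => ∑ k, ω k x y
  have h0 : ∀ x y z, (triv G D).bd2 β0 x y z = n • ω x y z := by
    intro x y z
    have h1 : ∀ k, ω (k * x) y z - ω k (x * y) z + ω k x (y * z) - ω k x y = ω x y z := by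
      intro k
      have h := hω k x y z
      change ω x y z - ω (k * x) y z + ω k (x * y) z - ω k x (y * z) + ω k x y = 0 at h
      rw [← sub_eq_zero, ← neg_eq_zero, ← h]
      abel
    have h2 : ∑ k, ω (k * x) y z = ∑ k, ω k y z :=
      Fintype.sum_equiv (Equiv.mulRight x) _ _ (fun k => rfl)
    show (∑ k, ω k y z) - (∑ k, ω k (x * y) z) + (∑ k, ω k x (y * z)) - (∑ k, ω k x y) = _
    rw [← h2, ← Finset.sum_sub_distrib, ← Finset.sum_add_distrib, ← Finset.sum_sub_distrib,
      Finset.sum_congr rfl (fun k _ => h1 k), Finset.sum_const, Finset.card_univ]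
  choose β hβ using fun x y => hD n hn (β0 x y)
  have h3 : ∀ x y z, n • (ω x y z - (triv G D).bd2 β x y z) = 0 := by
    intro x y z
    rw [smul_sub, ← h0]
    unfold Act.bd2
    rw [smul_sub, smul_add, smul_sub]
    show _ - (n • β y z - n • β (x * y) z + n • β x (y * z) - n • β x y) = 0
    rw [hβ, hβ, hβ, hβ]
    show (β0 y z - β0 (x * y) z + β0 x (y * z) - β0 x y) - _ = 0
    exact sub_self _
  let w : G × G × G → D := fun u => ω u.1 u.2.1 u.2.2 - (triv G D).bd2 β u.1 u.2.1 u.2.2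
  let A : AddSubgroup D := AddSubgroup.closure (Set.range w)
  have hfg : AddGroup.FG A := by
    rw [AddGroup.fg_iff_addSubgroup_fg]
    exact ⟨(Set.finite_range w).toFinset, by rw [Set.Finite.coe_toFinset]⟩
  have htor : ∀ d ∈ A, n • d = 0 := by
    intro d hd
    induction hd using AddSubgroup.closure_induction with
    | mem x hx =>
      obtain ⟨u, rfl⟩ := hx
      exact h3 _ _ _
    | zero => exact smul_zero _
    | add x y _ _ hx hy => rw [smul_add, hx, hy, add_zero]
    | neg x _ hx => rw [smul_neg, hx, neg_zero]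
  have hfin : Finite A := by
    apply AddCommGroup.finite_of_fg_isAddTorsion
    intro d
    rw [isOfFinAddOrder_iff_nsmul_eq_zero]
    refine ⟨n, Nat.pos_of_ne_zero hn, ?_⟩
    apply Subtype.ext
    exact htor d.1 d.2
  refine ⟨A, hfin, fun x y z => ⟨w (x, y, z), AddSubgroup.subset_closure ⟨_, rfl⟩⟩, β, ?_, ?_⟩
  · intro x y z t
    apply Subtype.ext
    have h4 := (triv G D).bd3_bd2 β x y z t
    have h5 := hω x y z t
    change (triv G D).bd2 β y z t - (triv G D).bd2 β (x * y) z t + (triv G D).bd2 β x (y * z) t -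
      (triv G D).bd2 β x y (z * t) + (triv G D).bd2 β x y z = 0 at h4
    change ω y z t - ω (x * y) z t + ω x (y * z) t - ω x y (z * t) + ω x y z = 0 at h5
    show (ω y z t - (triv G D).bd2 β y z t) - (ω (x * y) z t - (triv G D).bd2 β (x * y) z t) +
      (ω x (y * z) t - (triv G D).bd2 β x (y * z) t) -
      (ω x y (z * t) - (triv G D).bd2 β x y (z * t)) +
      (ω x y z - (triv G D).bd2 β x y z) = 0
    calc _ = (ω y z t - ω (x * y) z t + ω x (y * z) t - ω x y (z * t) + ω x y z) -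
        ((triv G D).bd2 β y z t - (triv G D).bd2 β (x * y) z t + (triv G D).bd2 β x (y * z) t -
      (triv G D).bd2 β x y (z * t) + (triv G D).bd2 β x y z) := by abel
      _ = 0 := by rw [h4, h5, sub_zero]
  · intro x y z
    exact (sub_add_cancel _ _).symm

/-- Divisible coefficients: fields exist for every homomorphism, and their classes are fixed by the
automorphisms which act trivially modulo `cker`. -/
theorem circle_main {g : ℕ} (hg : 2 ≤ g) [Finite G]
    (hD : ∀ n : ℕ, n ≠ 0 → ∀ d : D, ∃ e : D, n • e = d)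
    (ω : G → G → G → D) (hω : (triv G D).IsCoc3 ω) :
    ∃ n, (∀ ρ : SurfaceGroup g →* G, ∃ η, IsField (triv G D) ω ρ η) ∧
      ∀ φ : MulAut (SurfaceGroup g), (∀ x, φ x * x⁻¹ ∈ cker (SurfaceGroup g) n) →
        ∀ (ρ : SurfaceGroup g →* G) (η : SurfaceGroup g → SurfaceGroup g → D),
          IsField (triv G D) ω ρ η → (∀ x, ρ (φ x) = ρ x) ∧
            ∃ l : SurfaceGroup g → D, ∀ x y,
              η (φ x) (φ y) - η x y = (triv (SurfaceGroup g) D).bd l x y := by
  obtain ⟨g, rfl⟩ := Nat.exists_eq_add_of_le' hg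
  obtain ⟨A, hA, ω', β, hω', hωω'⟩ := reduce hD ω hω
  let n0 := dg (Nat.card A ^ Nat.card G) (Nat.card A ^ (Nat.card G * Nat.card G) * Nat.card G)
  have hadd : ∀ (ρ : SurfaceGroup (g + 2) →* G) (η : SurfaceGroup (g + 2) → SurfaceGroup (g + 2) → A),
      IsField (triv G A) ω' ρ η →
      IsField (triv G D) ω ρ (fun x y => (η x y : D) + β (ρ x) (ρ y)) := by
    intro ρ η h x y z
    have h1 := congrArg Subtype.val (h x y z)
    change (η y z : D) - (η (x * y) z : D) + (η x (y * z) : D) - (η x y : D) =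
      (ω' (ρ x) (ρ y) (ρ z) : D) at h1
    rw [hωω', ← h1]
    show ((η y z : D) + β (ρ y) (ρ z)) - ((η (x * y) z : D) + β (ρ (x * y)) (ρ z)) +
      ((η x (y * z) : D) + β (ρ x) (ρ (y * z))) - ((η x y : D) + β (ρ x) (ρ y)) =
      _ + (β (ρ y) (ρ z) - β (ρ x * ρ y) (ρ z) + β (ρ x) (ρ y * ρ z) - β (ρ x) (ρ y))
    rw [map_mul, map_mul]
    abel
  have hex : ∀ ρ : SurfaceGroup (g + 2) →* G, ∃ η, IsField (triv G A) ω' ρ η :=
    fun ρ => exists_field (triv G A) hω' ρ
  refine ⟨max n0 3, fun ρ => ?_, fun φ hφ ρ η hη => ?_⟩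
  · obtain ⟨η, hη⟩ := hex ρ
    exact ⟨_, hadd ρ η hη⟩
  · have hmono : ∀ m, m ≤ max n0 3 →
        cker (SurfaceGroup (g + 2)) (max n0 3) ≤ cker (SurfaceGroup (g + 2)) m := by
      intro m hm x hx
      rw [mem_cker] at hx ⊢
      intro f
      have h1 := hx ((Equiv.Perm.viaEmbeddingHom (Fin.castLEEmb hm)).comp f)
      exact Equiv.Perm.viaEmbeddingHom_injective (Fin.castLEEmb hm) (by rw [map_one]; exact h1)
    obtain ⟨η0, hη0⟩ := hex ρ
    obtain ⟨h1, l0, hl0⟩ := field_main (S := triv G A) (by omega) hω' φ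
      (fun x => hmono n0 (le_max_left _ _) (hφ x)) ρ η0 hη0
    refine ⟨h1, ?_⟩
    have hc : (triv (SurfaceGroup (g + 2)) D).IsCoc
        fun x y => η x y - ((η0 x y : D) + β (ρ x) (ρ y)) := by
      intro x y z
      have h2 := hη x y z
      have h3 := hadd ρ η0 hη0 x y z
      have h4 := (triv (SurfaceGroup (g + 2)) D).bd2_sub η
        (fun x y => (η0 x y : D) + β (ρ x) (ρ y)) x y z
      have h5 : (triv (SurfaceGroup (g + 2)) D).bd2 η x y z = ω (ρ x) (ρ y) (ρ z) := h2
      have h6 : (triv (SurfaceGroup (g + 2)) D).bd2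
        (fun x y => (η0 x y : D) + β (ρ x) (ρ y)) x y z = ω (ρ x) (ρ y) (ρ z) := h3
      rw [h5, h6, sub_self] at h4
      exact h4
    obtain ⟨l1, hl1⟩ := coh_fixed (g := g + 1) (le_max_right n0 3) φ hφ _ hc
    refine ⟨fun x => l1 x + (l0 x : D), fun x y => ?_⟩
    have h7 := hl1 x y
    simp only [h1] at h7
    have h8 := congrArg Subtype.val (hl0 x y)
    change (η0 (φ x) (φ y) : D) - (η0 x y : D) = (l0 y : D) - (l0 (x * y) : D) + (l0 x : D) at h8
    change (η (φ x) (φ y) - ((η0 (φ x) (φ y) : D) + β (ρ x) (ρ y))) -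
      (η x y - ((η0 x y : D) + β (ρ x) (ρ y))) = l1 y - l1 (x * y) + l1 x at h7
    show η (φ x) (φ y) - η x y = (l1 y + (l0 y : D)) - (l1 (x * y) + (l0 (x * y) : D)) +
      (l1 x + (l0 x : D))
    calc η (φ x) (φ y) - η x y
        = ((η (φ x) (φ y) - ((η0 (φ x) (φ y) : D) + β (ρ x) (ρ y))) -
      (η x y - ((η0 x y : D) + β (ρ x) (ρ y)))) + ((η0 (φ x) (φ y) : D) - (η0 x y : D)) := by abel
      _ = _ := by
        rw [h7, h8]
        abel

end circle

end Pool.Agent.V8H21.MCG
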