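import Pool.Agent.V8H21.MCG.Lab2

set_option autoImplicit false

/-!
# Counting labels
-/

namespace Pool.Agent.V8H21.MCG

open Equiv

section inv

variable {Q : Type} [Group Q] [Finite Q] (p : ℕ) [NeZero p]

/-- functions invariant on the right -/
def invR (C : Subgroup Q) : AddSubgroup (Q → ZMod p) where
  carrier := {f | ∀ x, ∀ c ∈ C, f (x * c) = f x}
  zero_mem' := fun _ _ _ => rfl
  add_mem' := by
    intro f g hf hg x c hc
    show f (x * c) + g (x * c) = f x + g x
    rw [hf x c hc, hg x c hc]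
  neg_mem' := by
    intro f hf x c hc
    show - f (x * c) = - f x
    rw [hf x c hc]

theorem card_invR_ge (C : Subgroup Q) : p ^ Nat.card (Q ⧸ C) ≤ Nat.card (invR p C) := by
  have h1 : Nat.card ((Q ⧸ C) → ZMod p) = p ^ Nat.card (Q ⧸ C) := by
    rw [Nat.card_fun, Nat.card_zmod]
  rw [← h1]
  apply Nat.card_le_card_of_injective (fun f : (Q ⧸ C) → ZMod p =>
    (⟨fun x => f (QuotientGroup.mk x), fun x c hc => by
      have : (QuotientGroup.mk (x * c) : Q ⧸ C) = QuotientGroup.mk x := by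
        rw [QuotientGroup.eq, mul_inv_rev, mul_assoc, inv_mul_cancel, mul_one]
        exact Subgroup.inv_mem _ hc
      exact congrArg f this⟩ : invR p C))
  intro f g hfg
  funext x
  obtain ⟨y, rfl⟩ := QuotientGroup.mk_surjective x
  exact congrFun (congrArg Subtype.val hfg) y

/-- functions invariant on both sides -/
def invB (B C : Subgroup Q) : AddSubgroup (Q → ZMod p) where
  carrier := {f | (∀ x, ∀ c ∈ C, f (x * c) = f x) ∧ ∀ x, ∀ b ∈ B, f (b * x) = f x}
  zero_mem' := ⟨fun _ _ _ => rfl, fun _ _ _ => rfl⟩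
  add_mem' := by
    rintro f g ⟨hf, hf'⟩ ⟨hg, hg'⟩
    refine ⟨fun x c hc => ?_, fun x b hb => ?_⟩
    · show f (x * c) + g (x * c) = f x + g x
      rw [hf x c hc, hg x c hc]
    · show f (b * x) + g (b * x) = f x + g x
      rw [hf' x b hb, hg' x b hb]
  neg_mem' := by
    rintro f ⟨hf, hf'⟩
    refine ⟨fun x c hc => ?_, fun x b hb => ?_⟩
    · show - f (x * c) = - f x
      rw [hf x c hc]
    · show - f (b * x) = - f x
      rw [hf' x b hb]

theorem card_invB (B C : Subgroup Q) : ∃ k : ℕ, p ^ k ≤ Nat.card (invB p B C) ∧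
    Nat.card Q ≤ k * (Nat.card B * Nat.card C) := by
  let DC := DoubleCoset.Quotient (B : Set Q) (C : Set Q)
  have hfin : Finite DC := Quotient.finite _
  refine ⟨Nat.card DC, ?_, ?_⟩
  · have h1 : Nat.card (DC → ZMod p) = p ^ Nat.card DC := by
      rw [Nat.card_fun, Nat.card_zmod]
    rw [← h1]
    apply Nat.card_le_card_of_injective (fun f : DC → ZMod p =>
      (⟨fun x => f (DoubleCoset.mk B C x), fun x c hc => by
        have : DoubleCoset.mk B C (x * c) = DoubleCoset.mk B C x := by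
          rw [DoubleCoset.eq]
          exact ⟨1, B.one_mem, c⁻¹, C.inv_mem hc, by group⟩
        exact congrArg f this, fun x b hb => by
        have : DoubleCoset.mk B C (b * x) = DoubleCoset.mk B C x := by
          rw [DoubleCoset.eq]
          exact ⟨b⁻¹, B.inv_mem hb, 1, C.one_mem, by group⟩
        exact congrArg f this⟩ : invB p B C))
    intro f g hfg
    funext x
    obtain ⟨y, rfl⟩ : ∃ y, DoubleCoset.mk B C y = x := Quotient.exists_rep x
    exact congrFun (congrArg Subtype.val hfg) y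
  · rw [← Nat.card_prod, ← Nat.card_prod]
    apply Nat.card_le_card_of_surjective (fun u : DC × B × C => (u.2.1 : Q) * u.1.out * u.2.2)
    intro x
    obtain ⟨b, c, hb, hc, h⟩ := DoubleCoset.mk_out_eq_mul B C x
    refine ⟨(DoubleCoset.mk B C x, ⟨b⁻¹, B.inv_mem hb⟩, ⟨c⁻¹, C.inv_mem hc⟩), ?_⟩
    show b⁻¹ * (DoubleCoset.mk B C x).out * c⁻¹ = x
    rw [h]
    group

/-- functions with value zero at one and constant sums over the orbits of `q` -/
def wsub (q : Q) (l : ℕ) : AddSubgroup (Q → ZMod p) where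
  carrier := {c | c 1 = 0 ∧ ∀ x, ∑ k ∈ Finset.range l, c (x * q ^ k) =
    ∑ k ∈ Finset.range l, c (1 * q ^ k)}
  zero_mem' := ⟨rfl, fun x => by simp⟩
  add_mem' := by
    rintro f g ⟨hf, hf'⟩ ⟨hg, hg'⟩
    refine ⟨?_, fun x => ?_⟩
    · show f 1 + g 1 = 0
      rw [hf, hg, add_zero]
    · show ∑ k ∈ Finset.range l, (f (x * q ^ k) + g (x * q ^ k)) =
        ∑ k ∈ Finset.range l, (f (1 * q ^ k) + g (1 * q ^ k))
      rw [Finset.sum_add_distrib, Finset.sum_add_distrib, hf', hg']
  neg_mem' := by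
    rintro f ⟨hf, hf'⟩
    refine ⟨?_, fun x => ?_⟩
    · show - f 1 = 0
      rw [hf, neg_zero]
    · show ∑ k ∈ Finset.range l, (- f (x * q ^ k)) = ∑ k ∈ Finset.range l, (- f (1 * q ^ k))
      rw [Finset.sum_neg_distrib, Finset.sum_neg_distrib, hf']

theorem card_wsub (hp : p.Prime) (q : Q) (l : ℕ) (hl : ¬ p ∣ l) :
    Nat.card (wsub p q l) * p ^ Nat.card (Q ⧸ Subgroup.zpowers q) ≤ p ^ Nat.card Q := by
  have hfact : Fact p.Prime := ⟨hp⟩
  have h1 : Nat.card (Q → ZMod p) = p ^ Nat.card Q := by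
    rw [Nat.card_fun, Nat.card_zmod]
  refine (Nat.mul_le_mul_left _ (card_invR_ge p (Subgroup.zpowers q))).trans ?_
  rw [← h1, ← Nat.card_prod]
  apply Nat.card_le_card_of_injective
    (fun u : wsub p q l × invR p (Subgroup.zpowers q) => u.1.1 + u.2.1)
  rintro ⟨c, g⟩ ⟨c', g'⟩ h2
  have h2' : c.1 + g.1 = c'.1 + g'.1 := h2
  have h3 : (c - c').1 = (g' - g).1 := by
    show c.1 - c'.1 = g'.1 - g.1
    rw [sub_eq_sub_iff_add_eq_add, add_comm g'.1, h2']
  have h4 : (c - c').1 = 0 := by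
    funext x
    have h5 : ∀ x, (l : ZMod p) * (c - c').1 x = ∑ k ∈ Finset.range l, (c - c').1 (x * q ^ k) := by
      intro x
      have h6 : ∀ k ∈ Finset.range l, (c - c').1 (x * q ^ k) = (c - c').1 x := by
        intro k _
        rw [h3]
        exact (g' - g).2 x _ (Subgroup.npow_mem_zpowers q k)
      rw [Finset.sum_congr rfl h6, Finset.sum_const, Finset.card_range, nsmul_eq_mul]
    have h7 : (l : ZMod p) * (c - c').1 x = (l : ZMod p) * (c - c').1 1 := by
      rw [h5, h5]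
      exact (c - c').2.2 x
    rw [(c - c').2.1, mul_zero] at h7
    have h8 : (l : ZMod p) ≠ 0 := by
      rw [Ne, ZMod.natCast_eq_zero_iff]
      exact hl
    exact (mul_eq_zero.1 h7).resolve_left h8
  have h5 : c = c' := by
    have : c - c' = 0 := Subtype.ext h4
    exact sub_eq_zero.1 this
  have h6 : g = g' := by
    rw [h4] at h3
    have : g' - g = 0 := Subtype.ext h3.symm
    exact (sub_eq_zero.1 this).symm
  rw [h5, h6]

/-- invariant labels -/
def lsub (ι : Type) (C : Subgroup Q) : AddSubgroup (ι → Q → ZMod p) where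
  carrier := {t | ∀ i x, ∀ c ∈ C, t i (x * c) = t i x}
  zero_mem' := fun _ _ _ _ => rfl
  add_mem' := by
    intro f g hf hg i x c hc
    show f i (x * c) + g i (x * c) = f i x + g i x
    rw [hf i x c hc, hg i x c hc]
  neg_mem' := by
    intro f hf i x c hc
    show - f i (x * c) = - f i x
    rw [hf i x c hc]

theorem card_lsub_le (ι : Type) [Finite ι] (C : Subgroup Q) :
    Nat.card (lsub p ι C) ≤ p ^ (Nat.card ι * Nat.card (Q ⧸ C)) := by
  have h1 : Nat.card (ι → (Q ⧸ C) → ZMod p) = p ^ (Nat.card ι * Nat.card (Q ⧸ C)) := by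
    rw [Nat.card_fun, Nat.card_fun, Nat.card_zmod, ← pow_mul, mul_comm]
  rw [← h1]
  apply Nat.card_le_card_of_injective (fun (t : lsub p ι C) i (x : Q ⧸ C) => t.1 i x.out)
  intro t t' htt
  apply Subtype.ext
  funext i x
  have h4 : ∃ c ∈ C, (QuotientGroup.mk x : Q ⧸ C).out = x * c := by
    refine ⟨x⁻¹ * (QuotientGroup.mk x : Q ⧸ C).out, ?_, by rw [mul_inv_cancel_left]⟩
    rw [← QuotientGroup.eq, QuotientGroup.out_eq']
  obtain ⟨c, hc, hxc⟩ := h4
  have h5 := congrFun (congrFun htt i) (QuotientGroup.mk x : Q ⧸ C)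
  simp only at h5
  rw [hxc, t.2 i x c hc, t'.2 i x c hc] at h5
  exact h5

theorem upper2 {ι : Type} [Finite ι] (ρ : FreeGroup ι →* Q) (hρ : Function.Surjective ρ)
    (Z : AddSubgroup (ι → Q → ZMod p)) {q : Q} (l : ℕ) (hl : q ^ l = 1)
    (hZ : ∀ t ∈ Z, ∀ u, ρ u = 1 → cyc ρ t u 1 = cyc ρ t u q) :
    Nat.card Z ≤ Nat.card (Z ⊓ lsub p ι (Subgroup.zpowers q) : AddSubgroup _) *
      Nat.card (wsub p q l) := by
  classical
  let s : Q → FreeGroup ι := Function.surjInv hρ
  have hs : ∀ x, ρ (s x) = x := Function.surjInv_eq hρ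
  -- the cocycle
  have hv2 : ∀ t ∈ Z, ∀ u, cyc ρ t u 1 - cyc ρ t u q =
      cyc ρ t (s (ρ u)) 1 - cyc ρ t (s (ρ u)) q := by
    intro t ht u
    have h4 : ρ ((s (ρ u))⁻¹ * u) = 1 := by rw [map_mul, map_inv, hs, inv_mul_cancel]
    have h5 : u = s (ρ u) * ((s (ρ u))⁻¹ * u) := by rw [mul_inv_cancel_left]
    have h6 := hZ t ht _ h4
    have h7 := cyc_mul ρ t (s (ρ u)) ((s (ρ u))⁻¹ * u) 1
    have h8 := cyc_mul ρ t (s (ρ u)) ((s (ρ u))⁻¹ * u) q
    rw [← h5, h4, one_mul] at h7 h8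
    rw [h7, h8, h6]
    abel
  have hstep : ∀ t ∈ Z, ∀ u x, cyc ρ t (s (ρ u * x)) 1 - cyc ρ t (s (ρ u * x)) q =
      (cyc ρ t (s x) 1 - cyc ρ t (s x) q) + (cyc ρ t u x - cyc ρ t u (x * q)) := by
    intro t ht u x
    have h1 := hv2 t ht (u * s x)
    rw [map_mul, hs, cyc_mul, cyc_mul, hs, mul_one] at h1
    rw [← h1]
    abel
  have hone : ∀ t ∈ Z, cyc ρ t (s 1) 1 - cyc ρ t (s 1) q = 0 := by
    intro t ht
    have h1 := hv2 t ht 1
    rw [map_one, cyc_one, cyc_one, sub_zero] at h1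
    exact h1.symm
  let E : Z →+ wsub p q l :=
    AddMonoidHom.mk' (fun t => ⟨fun x => cyc ρ t.1 (s x) 1 - cyc ρ t.1 (s x) q, hone t.1 t.2, by
      intro x
      obtain ⟨u, rfl⟩ := hρ x
      have h1 : ∀ k ∈ Finset.range l, (cyc ρ t.1 (s (ρ u * q ^ k)) 1 -
          cyc ρ t.1 (s (ρ u * q ^ k)) q) =
          (cyc ρ t.1 (s (1 * q ^ k)) 1 - cyc ρ t.1 (s (1 * q ^ k)) q) +
          (cyc ρ t.1 u (q ^ k) - cyc ρ t.1 u (q ^ (k + 1))) := by
        intro k _
        rw [hstep t.1 t.2, one_mul, pow_succ]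
      rw [Finset.sum_congr rfl h1, Finset.sum_add_distrib, Finset.sum_range_sub', hl, pow_zero,
        sub_self, add_zero]⟩) (by
      intro t t'
      apply Subtype.ext
      funext x
      show cyc ρ (t.1 + t'.1) (s x) 1 - cyc ρ (t.1 + t'.1) (s x) q =
        (cyc ρ t.1 (s x) 1 - cyc ρ t.1 (s x) q) + (cyc ρ t'.1 (s x) 1 - cyc ρ t'.1 (s x) q)
      rw [cyc_add, cyc_add]
      ring)
  have h1 : Nat.card Z ≤ Nat.card E.ker * Nat.card (wsub p q l) :=
    card_range_le E E (fun a a' h => h)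
  refine h1.trans (Nat.mul_le_mul_right _ ?_)
  have hker : ∀ t ∈ E.ker, ∀ i x, t.1 i (x * q) = t.1 i x := by
    intro t ht i x
    have h2 : ∀ x, cyc ρ t.1 (s x) 1 - cyc ρ t.1 (s x) q = 0 := by
      intro x
      have h3 : E t = 0 := ht
      exact congrFun (congrArg Subtype.val h3) x
    have h3 := hstep t.1 t.2 (FreeGroup.of i) x
    rw [h2, h2, zero_add, cyc_of, cyc_of] at h3
    exact (sub_eq_zero.1 h3.symm).symm
  apply Nat.card_le_card_of_injective (fun t : E.ker =>
    (⟨t.1.1, t.1.2, by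
      intro i x y hy
      obtain ⟨k, rfl⟩ := Subgroup.mem_zpowers_iff.1 hy
      induction k with
      | zero => simp
      | succ k ih =>
        rw [zpow_add_one, ← mul_assoc, hker t.1 t.2, ih (Subgroup.zpow_mem_zpowers _ _)]
      | pred k ih =>
        rw [← hker t.1 t.2 i (x * q ^ (-(k : ℤ) - 1)), mul_assoc, ← zpow_add_one, sub_add_cancel]
        exact ih (Subgroup.zpow_mem_zpowers _ _)⟩ :
      (Z ⊓ lsub p ι (Subgroup.zpowers q) : AddSubgroup _)))
  intro t t' htt
  apply Subtype.ext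
  apply Subtype.ext
  have h3 := congrArg (fun u => u.1) htt
  exact h3

end inv

section rs

variable {Q : Type} [Group Q] [Finite Q] (p : ℕ) [NeZero p] {h n : ℕ}
  (R : FreeGroup (OGen h n) →* Q) (m : Fin n → ℕ) (C : Subgroup Q)

theorem card_rsub_ge (hm : ∀ j, R (og h n j) ^ m j = 1) (hR : Function.Surjective R) :
    p ^ Nat.card (Q ⧸ C) ≤ p * Nat.card (rsub (ZMod p) R m C) := by
  classical
  have hX : Fintype (Q ⧸ C) := Fintype.ofFinite _
  have hsmul : ∀ (a : ZMod p) (g : Q → ZMod p), g ∈ rsub (ZMod p) R m C →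
      (fun x => a * g x) ∈ rsub (ZMod p) R m C := by
    intro a g hg
    have h1 := AddSubgroup.nsmul_mem _ hg a.val
    have h2 : a.val • g = fun x => a * g x := by
      funext x
      show a.val • g x = a * g x
      rw [nsmul_eq_mul, ZMod.natCast_zmod_val]
    rwa [h2] at h1
  have hmem : ∀ f : (Q ⧸ C) → ZMod p, (fun x : Q => f (QuotientGroup.mk x) -
      (∑ y, f y) * dc (ZMod p) C 1 x) ∈ rsub (ZMod p) R m C := by
    intro f
    have h1 : (fun x : Q => f (QuotientGroup.mk x) - (∑ y, f y) * dc (ZMod p) C 1 x) =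
        ∑ y : Q ⧸ C, fun x => f y * (dc (ZMod p) C y.out x - dc (ZMod p) C 1 x) := by
      funext x
      rw [Finset.sum_apply]
      simp only [mul_sub]
      rw [Finset.sum_sub_distrib, ← Finset.sum_mul]
      congr 1
      rw [Finset.sum_eq_single (QuotientGroup.mk x : Q ⧸ C)]
      · have : dc (ZMod p) C (QuotientGroup.mk x : Q ⧸ C).out x = 1 := by
          unfold dc
          rw [if_pos]
          rw [← QuotientGroup.eq, QuotientGroup.out_eq']
        rw [this, mul_one]
      · intro y _ hy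
        have : dc (ZMod p) C y.out x = 0 := by
          unfold dc
          rw [if_neg]
          intro h2
          apply hy
          rw [← QuotientGroup.eq, QuotientGroup.out_eq'] at h2
          exact h2.symm
        rw [this, mul_zero]
      · intro h2
        exact absurd (Finset.mem_univ _) h2
    rw [h1]
    apply AddSubgroup.sum_mem
    intro y _
    exact hsmul _ _ (diff_mem R m C hm hR _ _)
  have h1 : Nat.card ((Q ⧸ C) → ZMod p) = p ^ Nat.card (Q ⧸ C) := by
    rw [Nat.card_fun, Nat.card_zmod]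
  have h2 : Nat.card (ZMod p × rsub (ZMod p) R m C) = p * Nat.card (rsub (ZMod p) R m C) := by
    rw [Nat.card_prod, Nat.card_zmod]
  rw [← h1, ← h2]
  apply Nat.card_le_card_of_injective (fun f : (Q ⧸ C) → ZMod p =>
    ((∑ y, f y, ⟨_, hmem f⟩) : ZMod p × rsub (ZMod p) R m C))
  intro f g hfg
  have e1 : ∑ y, f y = ∑ y, g y := congrArg Prod.fst hfg
  have e2 := congrArg Subtype.val (congrArg Prod.snd hfg)
  funext y
  obtain ⟨x, rfl⟩ := QuotientGroup.mk_surjective y
  have e3 : f (QuotientGroup.mk x) - (∑ y, f y) * dc (ZMod p) C 1 x =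
    g (QuotientGroup.mk x) - (∑ y, g y) * dc (ZMod p) C 1 x := congrFun e2 x
  rw [e1] at e3
  exact sub_left_injective e3

end rs

end Pool.Agent.V8H21.MCG
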