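import Pool.Agent.V8H21.MCG.Sep2

set_option autoImplicit false

/-!
# Counting invariant cocycles
-/

namespace Pool.Agent.V8H21.MCG

open Equiv

section inv

variable {Q : Type} [Group Q] [Finite Q] (p : ℕ) [NeZero p]

theorem card_invR_le (C : Subgroup Q) : Nat.card (invR p C) ≤ p ^ Nat.card (Q ⧸ C) := by
  have h1 : Nat.card ((Q ⧸ C) → ZMod p) = p ^ Nat.card (Q ⧸ C) := by
    rw [Nat.card_fun, Nat.card_zmod]
  rw [← h1]
  apply Nat.card_le_card_of_injective (fun (f : invR p C) (x : Q ⧸ C) => f.1 x.out)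
  intro f g hfg
  apply Subtype.ext
  funext x
  obtain ⟨c, hc, hxc⟩ : ∃ c ∈ C, (QuotientGroup.mk x : Q ⧸ C).out = x * c := by
    refine ⟨x⁻¹ * (QuotientGroup.mk x : Q ⧸ C).out, ?_, by rw [mul_inv_cancel_left]⟩
    rw [← QuotientGroup.eq, QuotientGroup.out_eq']
  have h5 := congrFun hfg (QuotientGroup.mk x : Q ⧸ C)
  simp only at h5
  rw [hxc, f.2 x c hc, g.2 x c hc] at h5
  exact h5

theorem card_lsub_ge (ι : Type) [Finite ι] (C : Subgroup Q) :
    p ^ (Nat.card ι * Nat.card (Q ⧸ C)) ≤ Nat.card (lsub p ι C) := by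
  have h1 : Nat.card (ι → (Q ⧸ C) → ZMod p) = p ^ (Nat.card ι * Nat.card (Q ⧸ C)) := by
    rw [Nat.card_fun, Nat.card_fun, Nat.card_zmod, ← pow_mul, mul_comm]
  rw [← h1]
  apply Nat.card_le_card_of_injective (fun f : ι → (Q ⧸ C) → ZMod p =>
    (⟨fun i x => f i (QuotientGroup.mk x), fun i x c hc => by
      have : (QuotientGroup.mk (x * c) : Q ⧸ C) = QuotientGroup.mk x := by
        rw [QuotientGroup.eq, mul_inv_rev, mul_assoc, inv_mul_cancel, mul_one]
        exact Subgroup.inv_mem _ hc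
      exact congrArg (f i) this⟩ : lsub p ι C))
  intro f g hfg
  funext i x
  obtain ⟨y, rfl⟩ := QuotientGroup.mk_surjective x
  exact congrFun (congrFun (congrArg Subtype.val hfg) i) y

theorem card_invB_le (B C : Subgroup Q) : Nat.card (invB p B C) ≤
    p ^ Nat.card (DoubleCoset.Quotient (B : Set Q) (C : Set Q)) := by
  have hfin : Finite (DoubleCoset.Quotient (B : Set Q) (C : Set Q)) := Quotient.finite _
  have h1 : Nat.card (DoubleCoset.Quotient (B : Set Q) (C : Set Q) → ZMod p) =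
      p ^ Nat.card (DoubleCoset.Quotient (B : Set Q) (C : Set Q)) := by
    rw [Nat.card_fun, Nat.card_zmod]
  rw [← h1]
  apply Nat.card_le_card_of_injective
    (fun (f : invB p B C) (x : DoubleCoset.Quotient (B : Set Q) (C : Set Q)) => f.1 x.out)
  intro f g hfg
  apply Subtype.ext
  funext x
  obtain ⟨b, c, hb, hc, h⟩ := DoubleCoset.mk_out_eq_mul B C x
  have h5 := congrFun hfg (DoubleCoset.mk B C x)
  simp only at h5
  rw [h, f.2.1 _ c hc, f.2.2 _ b hb, g.2.1 _ c hc, g.2.2 _ b hb] at h5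
  exact h5

/-- the elements of the double cosets with a nontrivial stabilizer -/
def Irr (B C : Subgroup Q) : Set Q := {y | ∃ b ∈ B, b ≠ 1 ∧ y⁻¹ * b * y ∈ C}

theorem card_DC (B C : Subgroup Q) :
    Nat.card (DoubleCoset.Quotient (B : Set Q) (C : Set Q)) * (Nat.card B * Nat.card C) ≤
      Nat.card Q + Nat.card (Irr B C) * (Nat.card B * Nat.card C) := by
  classical
  have hfin : Finite (DoubleCoset.Quotient (B : Set Q) (C : Set Q)) := Quotient.finite _
  rw [← Nat.card_prod, ← Nat.card_prod, ← Nat.card_prod, ← Nat.card_sum]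
  apply Nat.card_le_card_of_injective
    (fun u : DoubleCoset.Quotient (B : Set Q) (C : Set Q) × B × C =>
      (if hy : u.1.out ∈ Irr B C then Sum.inr (⟨u.1.out, hy⟩, u.2)
        else Sum.inl ((u.2.1 : Q) * u.1.out * u.2.2) : Q ⊕ (Irr B C × B × C)))
  rintro ⟨D, b, c⟩ ⟨D', b', c'⟩ h
  simp only at h
  by_cases h1 : D.out ∈ Irr B C
  · by_cases h2 : D'.out ∈ Irr B C
    · rw [dif_pos h1, dif_pos h2] at h
      have h3 := Sum.inr_injective h
      have h4 : D.out = D'.out := congrArg (fun u => (u.1 : Q)) h3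
      have h5 : (b, c) = (b', c') := congrArg Prod.snd h3
      have h6 : D = D' := by
        rw [← Quotient.out_eq D, ← Quotient.out_eq D', h4]
      rw [h6, h5]
    · rw [dif_pos h1, dif_neg h2] at h
      exact absurd h (by simp)
  · by_cases h2 : D'.out ∈ Irr B C
    · rw [dif_neg h1, dif_pos h2] at h
      exact absurd h (by simp)
    · rw [dif_neg h1, dif_neg h2] at h
      have h3 : (b : Q) * D.out * c = b' * D'.out * c' := Sum.inl_injective h
      have h4 : DoubleCoset.mk B C D.out = DoubleCoset.mk B C D'.out := by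
        rw [DoubleCoset.eq]
        refine ⟨(b' : Q)⁻¹ * b, B.mul_mem (B.inv_mem b'.2) b.2, c * (c' : Q)⁻¹,
          C.mul_mem c.2 (C.inv_mem c'.2), ?_⟩
        have : (b' : Q)⁻¹ * b * D.out * (c * (c' : Q)⁻¹) =
            (b' : Q)⁻¹ * (b * D.out * c) * (c' : Q)⁻¹ := by group
        rw [this, h3]
        group
      have h5 : D = D' := by
        have e1 : DoubleCoset.mk B C D.out = D := Quotient.out_eq D
        have e2 : DoubleCoset.mk B C D'.out = D' := Quotient.out_eq D'
        rw [← e1, ← e2, h4]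
      subst h5
      have h6 : D.out⁻¹ * ((b' : Q)⁻¹ * b) * D.out = c' * (c : Q)⁻¹ := by
        have : D.out⁻¹ * ((b' : Q)⁻¹ * b) * D.out =
            D.out⁻¹ * (b' : Q)⁻¹ * (b * D.out * c) * (c : Q)⁻¹ := by group
        rw [this, h3]
        group
      have h7 : (b' : Q)⁻¹ * b = 1 := by
        by_contra h8
        apply h1
        refine ⟨(b' : Q)⁻¹ * b, B.mul_mem (B.inv_mem b'.2) b.2, h8, ?_⟩
        rw [h6]
        exact C.mul_mem c'.2 (C.inv_mem c.2)
      have h8 : (b : Q) = b' := (inv_mul_eq_one.1 h7).symm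
      rw [h7, mul_one, inv_mul_cancel] at h6
      have h9 : (c : Q) = c' := (mul_inv_eq_one.1 h6.symm).symm
      rw [Subtype.ext h8, Subtype.ext h9]

theorem card_Irr (B C : Subgroup Q) (P : ℕ)
    (hcent : ∀ c ∈ C, c ≠ 1 → P * Nat.card (Subgroup.centralizer {c}) ≤ Nat.card Q) :
    Nat.card (Irr B C) * P ≤ Nat.card B * Nat.card C * Nat.card Q := by
  classical
  have hQ : Fintype Q := Fintype.ofFinite Q
  have hB : Fintype B := Fintype.ofFinite B
  have hC : Fintype C := Fintype.ofFinite C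
  let S : B × C → Finset Q := fun u =>
    Finset.univ.filter (fun y => y⁻¹ * (u.1 : Q) * y = u.2 ∧ (u.2 : Q) ≠ 1)
  have h1 : Nat.card (Irr B C) ≤ ∑ u : B × C, (S u).card := by
    have h2 : Nat.card (Irr B C) = (Finset.univ.filter (fun y => y ∈ Irr B C)).card := by
      rw [Nat.card_eq_fintype_card, Fintype.card_subtype]
    rw [h2]
    refine (Finset.card_le_card ?_).trans Finset.card_biUnion_le
    intro y hy
    rw [Finset.mem_filter] at hy
    obtain ⟨b, hb, hb1, hbc⟩ := hy.2
    rw [Finset.mem_biUnion]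
    refine ⟨(⟨b, hb⟩, ⟨_, hbc⟩), Finset.mem_univ _, ?_⟩
    rw [Finset.mem_filter]
    refine ⟨Finset.mem_univ _, rfl, ?_⟩
    intro h3
    apply hb1
    have h4 : b = y * (y⁻¹ * b * y) * y⁻¹ := by group
    have h5 : y⁻¹ * b * y = 1 := h3
    rw [h4, h5]
    group
  have h3 : ∀ u : B × C, (S u).card * P ≤ Nat.card Q := by
    intro u
    rcases (S u).eq_empty_or_nonempty with h4 | ⟨y₀, hy₀⟩
    · rw [h4, Finset.card_empty, zero_mul]
      exact Nat.zero_le _
    · rw [Finset.mem_filter] at hy₀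
      obtain ⟨-, h5, h6⟩ := hy₀
      refine le_trans ?_ (hcent u.2 u.2.2 h6)
      rw [mul_comm]
      apply Nat.mul_le_mul_left
      have h7 : (S u).card = Nat.card (S u) := by simp
      rw [h7]
      apply Nat.card_le_card_of_injective (fun y : S u =>
        (⟨y₀⁻¹ * y, by
          have h8 := (Finset.mem_filter.1 y.2).2.1
          rw [Subgroup.mem_centralizer_singleton_iff]
          have h9 : (u.1 : Q) = y₀ * u.2 * y₀⁻¹ := by rw [← h5]; group
          rw [h9] at h8
          have h10 : (y₀⁻¹ * (y : Q))⁻¹ * u.2 * (y₀⁻¹ * y) = u.2 := by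
            refine Eq.trans ?_ h8
            group
          calc y₀⁻¹ * (y : Q) * u.2 = y₀⁻¹ * (y : Q) * ((y₀⁻¹ * (y : Q))⁻¹ * u.2 * (y₀⁻¹ * y)) := by
                rw [h10]
            _ = _ := by group⟩ : Subgroup.centralizer {(u.2 : Q)}))
      intro y y' hyy
      have h8 : y₀⁻¹ * (y : Q) = y₀⁻¹ * y' := congrArg Subtype.val hyy
      exact Subtype.ext (mul_left_cancel h8)
  calc Nat.card (Irr B C) * P ≤ (∑ u : B × C, (S u).card) * P := Nat.mul_le_mul_right _ h1
    _ = ∑ u : B × C, (S u).card * P := by rw [Finset.sum_mul]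
    _ ≤ ∑ _u : B × C, Nat.card Q := Finset.sum_le_sum (fun u _ => h3 u)
    _ = _ := by
      rw [Finset.sum_const, smul_eq_mul, Finset.card_univ, Fintype.card_prod,
        Nat.card_eq_fintype_card (α := B), Nat.card_eq_fintype_card (α := C)]

end inv

end Pool.Agent.V8H21.MCG
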