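import Pool.Agent.V8H21.MCG.Cnt2

set_option autoImplicit false

/-!
# Invariant homomorphisms
-/

namespace Pool.Agent.V8H21.MCG

open Equiv

section main

variable {Q : Type} [Group Q] [Finite Q] (p : ℕ) [NeZero p] {h n : ℕ}
  (R : FreeGroup (OGen h n) →* Q) (m : Fin n → ℕ) (C : Subgroup Q)

theorem card_triv (hp : p.Prime) (hR : Function.Surjective R) (hCp : ¬ p ∣ Nat.card C)
    (Z : AddSubgroup (OGen h n → Q → ZMod p)) (hZC : ∀ t ∈ Z, ∀ i x, ∀ c ∈ C, t i (x * c) = t i x)
    (triv : ∀ t ∈ Z, ∀ u, R u = 1 → cyc R t u 1 = 0) : Nat.card Z ≤ Nat.card (invR p C) := by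
  classical
  have hfact : Fact p.Prime := ⟨hp⟩
  let s : Q → FreeGroup (OGen h n) := Function.surjInv hR
  have hs : ∀ x, R (s x) = x := Function.surjInv_eq hR
  have hF : ∀ t ∈ Z, ∀ u, cyc R t (s (R u)) 1 = cyc R t u 1 := by
    intro t ht u
    have h4 : R ((s (R u))⁻¹ * u) = 1 := by rw [map_mul, map_inv, hs, inv_mul_cancel]
    have h5 : u = s (R u) * ((s (R u))⁻¹ * u) := by rw [mul_inv_cancel_left]
    have h7 := cyc_mul R t (s (R u)) ((s (R u))⁻¹ * u) 1
    rw [← h5, h4, one_mul, triv t ht _ h4, zero_add] at h7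
    exact h7.symm
  have hone : ∀ t ∈ Z, cyc R t (s 1) 1 = 0 := by
    intro t ht
    have h1 := hF t ht 1
    rw [map_one, cyc_one] at h1
    exact h1
  have hmulC : ∀ t ∈ Z, ∀ x, ∀ c ∈ C, cyc R t (s (x * c)) 1 = cyc R t (s c) 1 +
      cyc R t (s x) 1 := by
    intro t ht x c hc
    have h1 := hF t ht (s x * s c)
    rw [map_mul, hs, hs] at h1
    rw [h1, cyc_mul, hs, mul_one, ← one_mul c, cyc_right R t c (fun i x => hZC t ht i x c hc),
      one_mul]
  have hC0 : ∀ t ∈ Z, ∀ c ∈ C, cyc R t (s c) 1 = 0 := by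
    intro t ht c hc
    have h1 : ∀ k : ℕ, cyc R t (s (c ^ k)) 1 = k * cyc R t (s c) 1 := by
      intro k
      induction k with
      | zero => rw [pow_zero, hone t ht, Nat.cast_zero, zero_mul]
      | succ k ih =>
        rw [pow_succ, hmulC t ht _ c hc, ih]
        push_cast
        ring
    have h2 := h1 (Nat.card C)
    have h3 : c ^ Nat.card C = 1 := by
      have := pow_card_eq_one' (x := (⟨c, hc⟩ : C))
      exact congrArg Subtype.val this
    rw [h3, hone t ht] at h2
    rcases mul_eq_zero.1 h2.symm with h4 | h4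
    · exact absurd ((ZMod.natCast_eq_zero_iff _ _).1 h4) hCp
    · exact h4
  apply Nat.card_le_card_of_injective (fun t : Z =>
    (⟨fun x => cyc R t.1 (s x) 1, fun x c hc => by
      show cyc R t.1 (s (x * c)) 1 = cyc R t.1 (s x) 1
      rw [hmulC t.1 t.2 x c hc, hC0 t.1 t.2 c hc, zero_add]⟩ : invR p C))
  intro t t' htt
  have h1 : ∀ x, cyc R t.1 (s x) 1 = cyc R t'.1 (s x) 1 :=
    fun x => congrFun (congrArg Subtype.val htt) x
  have h2 : ∀ t ∈ Z, ∀ i x, t i x = cyc R t (s (R (FreeGroup.of i) * x)) 1 -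
      cyc R t (s x) 1 := by
    intro t ht i x
    have h3 := hF t ht (FreeGroup.of i * s x)
    rw [map_mul, hs, cyc_mul, hs, mul_one, cyc_of] at h3
    rw [h3]
    abel
  apply Subtype.ext
  funext i x
  rw [h2 t.1 t.2, h2 t'.1 t'.2, h1, h1]

theorem count_main (hp : p.Prime) (hR : Function.Surjective R)
    (hmR : ∀ j, R (og h n j) ^ m j = 1) (hCp : ¬ p ∣ Nat.card C)
    (triv : ∀ t ∈ (zsub p R m ⊓ lsub p (OGen h n) C : AddSubgroup _), ∀ u, R u = 1 →
      cyc R t u 1 = 0) :
    (2 * h + n) * Nat.card (Q ⧸ C) ≤ 2 * Nat.card (Q ⧸ C) +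
      ∑ j, Nat.card (DoubleCoset.Quotient (Subgroup.zpowers (R (og h n j)) : Set Q)
        (C : Set Q)) := by
  classical
  have hright : ∀ t ∈ lsub p (OGen h n) C, ∀ u x, ∀ c ∈ C, cyc R t u (x * c) = cyc R t u x :=
    fun t ht u x c hc => cyc_right R t c (fun i x => ht i x c hc) u x
  have hleft : ∀ (t : OGen h n → Q → ZMod p) j x, ∀ b ∈ Subgroup.zpowers (R (og h n j)),
      cyc R t (og h n j ^ m j) (b * x) = cyc R t (og h n j ^ m j) x := by
    intro t j x b hb
    obtain ⟨k, rfl⟩ := Subgroup.mem_zpowers_iff.1 hb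
    have h0 := fun y => cyc_pow_inv R t (og h n j) (m j) (hmR j) y
    induction k generalizing x with
    | zero => rw [zpow_zero, one_mul]
    | succ k ih =>
      rw [zpow_add_one, mul_assoc, ih _ (Subgroup.zpow_mem_zpowers _ _), h0]
    | pred k ih =>
      have h1 := h0 ((R (og h n j))⁻¹ * x)
      rw [mul_inv_cancel_left] at h1
      rw [zpow_sub_one, mul_assoc, ih _ (Subgroup.zpow_mem_zpowers _ _), ← h1]
  let Φ : lsub p (OGen h n) C →+ (invR p C ×
      ∀ j, invB p (Subgroup.zpowers (R (og h n j))) C) :=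
    AddMonoidHom.mk' (fun t => (⟨fun x => cyc R t.1 (orel h n) x, hright t.1 t.2 _⟩,
      fun j => ⟨fun x => cyc R t.1 (og h n j ^ m j) x, hright t.1 t.2 _, hleft t.1 j⟩)) (by
      intro t t'
      apply Prod.ext
      · apply Subtype.ext
        funext x
        exact cyc_add R t.1 t'.1 _ x
      · funext j
        apply Subtype.ext
        funext x
        exact cyc_add R t.1 t'.1 _ x)
  have h1 : Nat.card (lsub p (OGen h n) C) ≤ Nat.card Φ.ker * Nat.card (invR p C ×
      ∀ j, invB p (Subgroup.zpowers (R (og h n j))) C) :=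
    card_range_le Φ Φ (fun a a' h => h)
  have h2 : Nat.card Φ.ker ≤
      Nat.card (zsub p R m ⊓ lsub p (OGen h n) C : AddSubgroup _) := by
    apply Nat.card_le_card_of_injective (fun t : Φ.ker =>
      (⟨t.1.1, ⟨by
        have h3 : Φ t.1 = 0 := t.2
        refine ⟨fun x => ?_, fun j x => ?_⟩
        · exact congrFun (congrArg Subtype.val (congrArg Prod.fst h3)) x
        · exact congrFun (congrArg Subtype.val (congrFun (congrArg Prod.snd h3) j)) x, t.1.2⟩⟩ :
        (zsub p R m ⊓ lsub p (OGen h n) C : AddSubgroup _)))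
    intro t t' htt
    have h3 : t.1.1 = t'.1.1 := congrArg (fun u : (zsub p R m ⊓ lsub p (OGen h n) C :
      AddSubgroup _) => u.1) htt
    exact Subtype.ext (Subtype.ext h3)
  have h3 : Nat.card (zsub p R m ⊓ lsub p (OGen h n) C : AddSubgroup _) ≤
      Nat.card (invR p C) :=
    card_triv p R C hp hR hCp _ (fun t ht => ht.2) triv
  have h4 := card_invR_le p C
  have hcι : Nat.card (OGen h n) = 2 * h + n := by
    rw [Nat.card_eq_fintype_card, Fintype.card_sum, Fintype.card_sum, Fintype.card_fin,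
      Fintype.card_fin]
    ring
  have h5 := card_lsub_ge p (OGen h n) C
  rw [hcι] at h5
  rw [Nat.card_prod, Nat.card_pi] at h1
  have h6 : ∏ j, Nat.card (invB p (Subgroup.zpowers (R (og h n j))) C) ≤
      p ^ ∑ j, Nat.card (DoubleCoset.Quotient (Subgroup.zpowers (R (og h n j)) : Set Q)
        (C : Set Q)) := by
    rw [← Finset.prod_pow_eq_pow_sum]
    exact Finset.prod_le_prod' (fun j _ => card_invB_le p _ C)
  have h7 : p ^ ((2 * h + n) * Nat.card (Q ⧸ C)) ≤ p ^ (2 * Nat.card (Q ⧸ C) +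
      ∑ j, Nat.card (DoubleCoset.Quotient (Subgroup.zpowers (R (og h n j)) : Set Q)
        (C : Set Q))) := by
    calc _ ≤ Nat.card (lsub p (OGen h n) C) := h5
      _ ≤ Nat.card Φ.ker * (Nat.card (invR p C) *
          ∏ j, Nat.card (invB p (Subgroup.zpowers (R (og h n j))) C)) := h1
      _ ≤ p ^ Nat.card (Q ⧸ C) * (p ^ Nat.card (Q ⧸ C) *
          p ^ ∑ j, Nat.card (DoubleCoset.Quotient (Subgroup.zpowers (R (og h n j)) : Set Q)
            (C : Set Q))) :=
        Nat.mul_le_mul (h2.trans (h3.trans h4)) (Nat.mul_le_mul h4 h6)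
      _ = _ := by ring
  exact (Nat.pow_le_pow_iff_right hp.one_lt).1 h7

end main

section hom

variable {h n : ℕ} {m : Fin n → ℕ}

theorem exists_inv_hom (hm : ∀ j, m j ≠ 0) (j : Fin n) (N₁ : Subgroup (Orb h n m))
    [hN1 : N₁.Normal] [hN1f : N₁.FiniteIndex] (hP : ∀ j k, cone h n m j ^ k ∈ N₁ → m j ∣ k)
    (P : ℕ) (hP0 : 0 < P)
    (hcent : ∀ a : ℕ, ¬ m j ∣ a → P * Nat.card (Subgroup.centralizer
      {(QuotientGroup.mk' N₁) (cone h n m j ^ a)}) ≤ Nat.card (Orb h n m ⧸ N₁))
    (hyp : (∑ k, (1 : ℚ) / (m k)) + (m j : ℚ) ^ 2 * (∑ k, (m k : ℚ)) / P <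
      ((2 * h + n : ℕ) : ℚ) - 2) (l : ℕ) (hl : l.Prime) (hlm : ¬ l ∣ m j) :
    ∃ (f : N₁ →* Multiplicative (ZMod l)) (u : N₁),
      (∀ y : N₁, f ⟨cone h n m j * y * (cone h n m j)⁻¹, hN1.conj_mem y y.2 _⟩ = f y) ∧
        f u ≠ 1 := by
  classical
  by_contra hcon
  push Not at hcon
  have hlz : NeZero l := ⟨hl.ne_zero⟩
  let Q := Orb h n m ⧸ N₁
  have hQ : Finite Q := Subgroup.finite_quotient_of_finiteIndex
  let ρ' : Orb h n m →* Q := QuotientGroup.mk' N₁
  let R : FreeGroup (OGen h n) →* Q := ρ'.comp (PresentedGroup.mk (orels h n m))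
  have hR : Function.Surjective R :=
    (QuotientGroup.mk'_surjective N₁).comp (QuotientGroup.mk_surjective)
  have hker : ∀ g, ρ' g = 1 ↔ g ∈ N₁ := fun g => QuotientGroup.eq_one_iff g
  have hkerN : ρ'.ker = N₁ := QuotientGroup.ker_mk' N₁
  have hmR : ∀ k, R (og h n k) ^ m k = 1 := by
    intro k
    rw [← map_pow]
    show ρ' (PresentedGroup.mk (orels h n m) (og h n k ^ m k)) = 1
    have h1 : (PresentedGroup.mk (orels h n m)) (og h n k ^ m k) = 1 :=
      PresentedGroup.one_of_mem (Or.inr ⟨k, rfl⟩)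
    rw [h1, map_one]
  have hordR : ∀ k, orderOf (R (og h n k)) = m k := by
    intro k
    apply Nat.dvd_antisymm
    · exact orderOf_dvd_of_pow_eq_one (hmR k)
    · apply hP
      rw [← hker, map_pow]
      exact pow_orderOf_eq_one (R (og h n k))
  have hcard : ∀ k, Nat.card (Subgroup.zpowers (R (og h n k))) = m k := by
    intro k
    rw [Nat.card_zpowers, hordR]
  let C : Subgroup Q := Subgroup.zpowers (R (og h n j))
  have hCj : R (og h n j) ∈ C := Subgroup.mem_zpowers _
  have hcardC : Nat.card C = m j := hcard j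
  -- the centralizers
  have hcent' : ∀ c ∈ C, c ≠ 1 → P * Nat.card (Subgroup.centralizer {c}) ≤ Nat.card Q := by
    intro c hc hc1
    obtain ⟨a, rfl⟩ := (Subgroup.mem_zpowers_iff).1 hc
    obtain ⟨b, hb⟩ : ∃ b : ℕ, R (og h n j) ^ a = R (og h n j) ^ b := by
      have h1 : R (og h n j) ^ a ∈ Submonoid.powers (R (og h n j)) := by
        rw [mem_powers_iff_mem_zpowers]
        exact hc
      obtain ⟨b, hb⟩ := h1
      exact ⟨b, hb.symm⟩
    rw [hb] at hc1 ⊢
    have h2 : ¬ m j ∣ b := by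
      rintro ⟨c, rfl⟩
      apply hc1
      rw [pow_mul, hmR, one_pow]
    have h3 := hcent b h2
    rw [map_pow] at h3
    exact h3
  have hcount := count_main l R m C hl hR hmR (by rw [hcardC]; exact hlm) (by
    intro t ht u hu
    have htr : ∀ x ∈ orels h n m, ∀ z, cyc R t x z = 0 := by
      intro x hx z
      rcases hx with rfl | ⟨k, rfl⟩
      · exact ht.1.1 z
      · exact ht.1.2 k z
    have hmem : PresentedGroup.mk (orels h n m) u ∈ ρ'.ker := hu
    have hmemN : PresentedGroup.mk (orels h n m) u ∈ N₁ := (hker _).1 hu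
    let e : N₁ →* ρ'.ker := Subgroup.inclusion hkerN.ge
    have h1 := hcon ((fN (orels h n m) ρ' t htr).comp e) ⟨PresentedGroup.mk _ u, hmemN⟩ (by
      rintro ⟨y, hy⟩
      obtain ⟨w, rfl⟩ := QuotientGroup.mk_surjective y
      have hw1 : PresentedGroup.mk (orels h n m) w ∈ ρ'.ker := by rw [hkerN]; exact hy
      have hconj : cone h n m j * PresentedGroup.mk (orels h n m) w * (cone h n m j)⁻¹ =
          PresentedGroup.mk (orels h n m) (og h n j * w * (og h n j)⁻¹) := by
        rw [map_mul, map_mul, map_inv]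
        rfl
      have hw2 : PresentedGroup.mk (orels h n m) (og h n j * w * (og h n j)⁻¹) ∈ ρ'.ker := by
        rw [← hconj, hkerN]
        exact hN1.conj_mem _ hy _
      have e1 : (fN (orels h n m) ρ' t htr).comp e ⟨PresentedGroup.mk _ w, hy⟩ =
          Multiplicative.ofAdd (cyc R t w 1) := fN_mk (orels h n m) ρ' t htr w hw1
      have e2 : (fN (orels h n m) ρ' t htr).comp e ⟨cone h n m j * PresentedGroup.mk _ w *
          (cone h n m j)⁻¹, hN1.conj_mem _ hy _⟩ =
          Multiplicative.ofAdd (cyc R t (og h n j * w * (og h n j)⁻¹) 1) := by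
        rw [← fN_mk (orels h n m) ρ' t htr _ hw2]
        exact congrArg (fN (orels h n m) ρ' t htr) (Subtype.ext hconj)
      refine e2.trans (Eq.trans ?_ e1.symm)
      rw [cyc_conj R t w (og h n j) hw1]
      congr 1
      have e3 := cyc_right R t (R (og h n j))⁻¹ (fun i x => ht.2 i x _ (C.inv_mem hCj)) w 1
      rwa [one_mul] at e3)
    have h2 : (fN (orels h n m) ρ' t htr).comp e ⟨PresentedGroup.mk _ u, hmemN⟩ =
        Multiplicative.ofAdd (cyc R t u 1) := fN_mk (orels h n m) ρ' t htr u hmem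
    rw [h2] at h1
    exact h1)
  -- the inequality
  set X := Nat.card (Q ⧸ C) with hX
  have hXpos : 0 < X := Nat.card_pos
  have hcardQ : Nat.card Q = X * m j := by
    rw [← hcardC]
    exact Subgroup.card_eq_card_quotient_mul_card_subgroup _
  have hXQ : (0 : ℚ) < X := by exact_mod_cast hXpos
  have hPQ : (0 : ℚ) < P := by exact_mod_cast hP0
  have hmQ : ∀ k, (0 : ℚ) < m k := fun k => by
    have := Nat.pos_of_ne_zero (hm k)
    exact_mod_cast this
  have hDC : ∀ k, (Nat.card (DoubleCoset.Quotient (Subgroup.zpowers (R (og h n k)) : Set Q)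
      (C : Set Q)) : ℚ) ≤ X * (1 / m k) + X * ((m j : ℚ) ^ 2 * m k / P) := by
    intro k
    have h1 := card_DC (Subgroup.zpowers (R (og h n k))) C
    have h2 := card_Irr (Subgroup.zpowers (R (og h n k))) C P hcent'
    rw [hcard, hcardC, hcardQ] at h1 h2
    generalize Nat.card (DoubleCoset.Quotient (Subgroup.zpowers (R (og h n k)) : Set Q)
      (C : Set Q)) = D at *
    generalize Nat.card (Irr (Subgroup.zpowers (R (og h n k))) C) = I at *
    have h1' : (D : ℚ) * (m k * m j) ≤ X * m j + I * (m k * m j) := by exact_mod_cast h1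
    have h2' : (I : ℚ) * P ≤ m k * m j * (X * m j) := by exact_mod_cast h2
    have h3 : (I : ℚ) ≤ X * ((m j : ℚ) ^ 2 * m k / P) := by
      rw [← mul_div_assoc, le_div_iff₀ hPQ]
      calc (I : ℚ) * P ≤ m k * m j * (X * m j) := h2'
        _ = _ := by ring
    have h4 : (D : ℚ) ≤ X * (1 / m k) + I := by
      have h5 : (0 : ℚ) < m k * m j := mul_pos (hmQ k) (hmQ j)
      rw [← mul_le_mul_iff_left₀ h5]
      have h6 : ((X : ℚ) * (1 / m k) + I) * (m k * m j) = X * m j + I * (m k * m j) := by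
        have := (hmQ k).ne'
        field_simp
      rw [h6]
      exact h1'
    linarith
  have hcount' : (((2 * h + n : ℕ) : ℚ)) * X ≤ 2 * X + ∑ k, (Nat.card (DoubleCoset.Quotient
      (Subgroup.zpowers (R (og h n k)) : Set Q) (C : Set Q)) : ℚ) := by exact_mod_cast hcount
  have hsum : ∑ k, (Nat.card (DoubleCoset.Quotient
      (Subgroup.zpowers (R (og h n k)) : Set Q) (C : Set Q)) : ℚ) ≤
      X * ((∑ k, (1 : ℚ) / (m k)) + (m j : ℚ) ^ 2 * (∑ k, (m k : ℚ)) / P) := by
    refine (Finset.sum_le_sum (fun k _ => hDC k)).trans (le_of_eq ?_)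
    rw [Finset.sum_add_distrib, ← Finset.mul_sum, ← Finset.mul_sum, ← Finset.sum_div,
      ← Finset.mul_sum]
    ring
  have h9 : X * ((∑ k, (1 : ℚ) / (m k)) + (m j : ℚ) ^ 2 * (∑ k, (m k : ℚ)) / P) <
      X * (((2 * h + n : ℕ) : ℚ) - 2) := mul_lt_mul_of_pos_left hyp hXQ
  linarith

end hom

end Pool.Agent.V8H21.MCG
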