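import Pool.Agent.V8H21.MCG.Quot

set_option autoImplicit false

/-!
# Twisted products
-/

namespace Pool.Agent.V8H21.MCG

universe u v w

/-- an action of a group on an abelian group by automorphisms, as a function -/
structure Act (K : Type u) (B : Type v) [Group K] [AddCommGroup B] where
  s : K → B → B
  one : ∀ b, s 1 b = b
  mul : ∀ x y b, s (x * y) b = s x (s y b)
  add : ∀ x b b', s x (b + b') = s x b + s x b'

namespace Act

variable {K : Type u} {B : Type v} [Group K] [AddCommGroup B] (S : Act K B)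

theorem zero (x : K) : S.s x 0 = 0 := by
  have h := S.add x 0 0
  rw [add_zero] at h
  exact left_eq_add.1 h

theorem neg (x : K) (b : B) : S.s x (-b) = - S.s x b := by
  rw [eq_neg_iff_add_eq_zero, ← S.add, neg_add_cancel, S.zero]

theorem sub (x : K) (b b' : B) : S.s x (b - b') = S.s x b - S.s x b' := by
  rw [sub_eq_add_neg, S.add, S.neg, sub_eq_add_neg]

/-- the pullback -/
def comap {L : Type w} [Group L] (f : L →* K) : Act L B where
  s x := S.s (f x)
  one b := by rw [map_one, S.one]
  mul x y b := by rw [map_mul, S.mul]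
  add x := S.add (f x)

/-- two-cocycles -/
def IsCoc (c : K → K → B) : Prop :=
  ∀ x y z, S.s x (c y z) - c (x * y) z + c x (y * z) - c x y = 0

/-- coboundaries of functions -/
def bd (l : K → B) (x y : K) : B := S.s x (l y) - l (x * y) + l x

end Act

/-- the twisted product -/
structure TP {K : Type u} {B : Type v} [Group K] [AddCommGroup B] (S : Act K B)
    (c : K → K → B) (hc : S.IsCoc c) where
  b : B
  x : K

namespace TP

variable {K : Type u} {B : Type v} [Group K] [AddCommGroup B] {S : Act K B}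
  {c : K → K → B} {hc : S.IsCoc c}

theorem ext' {e e' : TP S c hc} (h1 : e.b = e'.b) (h2 : e.x = e'.x) : e = e' := by
  cases e
  cases e'
  simp only at h1 h2
  rw [h1, h2]

theorem c_one (hc : S.IsCoc c) (y : K) : c 1 y = c 1 1 := by
  have h := hc 1 1 y
  rw [S.one, one_mul, one_mul] at h
  have h2 : c 1 y - c 1 1 = 0 := by
    rw [← h]
    abel
  exact sub_eq_zero.1 h2

theorem c_one' (hc : S.IsCoc c) (x : K) : c x 1 = S.s x (c 1 1) := by
  have h := hc x 1 1
  rw [mul_one, mul_one] at h
  have h2 : S.s x (c 1 1) - c x 1 = 0 := by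
    rw [← h]
    abel
  exact (sub_eq_zero.1 h2).symm

instance : Mul (TP S c hc) := ⟨fun e e' => ⟨e.b + S.s e.x e'.b + c e.x e'.x, e.x * e'.x⟩⟩

theorem mul_b (e e' : TP S c hc) : (e * e').b = e.b + S.s e.x e'.b + c e.x e'.x := rfl

theorem mul_x (e e' : TP S c hc) : (e * e').x = e.x * e'.x := rfl

instance : One (TP S c hc) := ⟨⟨- c 1 1, 1⟩⟩

theorem one_b : (1 : TP S c hc).b = - c 1 1 := rfl

theorem one_x : (1 : TP S c hc).x = 1 := rfl

instance : Inv (TP S c hc) :=
  ⟨fun e => ⟨- c 1 1 - c e.x⁻¹ e.x - S.s e.x⁻¹ e.b, e.x⁻¹⟩⟩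

theorem inv_b (e : TP S c hc) : (e⁻¹).b = - c 1 1 - c e.x⁻¹ e.x - S.s e.x⁻¹ e.b := rfl

theorem inv_x (e : TP S c hc) : (e⁻¹).x = e.x⁻¹ := rfl

instance : Group (TP S c hc) := Group.ofLeftAxioms
  (by
    intro a b d
    apply ext'
    · rw [mul_b, mul_b, mul_b, mul_b, mul_x, mul_x, S.add, S.add, ← S.mul]
      have h := hc a.x b.x d.x
      have h2 : S.s a.x (c b.x d.x) + c a.x (b.x * d.x) = c (a.x * b.x) d.x + c a.x b.x := by
        rw [← sub_eq_zero, ← h]
        abel
      calc a.b + S.s a.x b.b + c a.x b.x + S.s (a.x * b.x) d.b + c (a.x * b.x) d.x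
          = a.b + S.s a.x b.b + S.s (a.x * b.x) d.b + (c (a.x * b.x) d.x + c a.x b.x) := by abel
        _ = a.b + S.s a.x b.b + S.s (a.x * b.x) d.b +
              (S.s a.x (c b.x d.x) + c a.x (b.x * d.x)) := by rw [h2]
        _ = _ := by abel
    · rw [mul_x, mul_x, mul_x, mul_x, mul_assoc])
  (by
    intro a
    apply ext'
    · rw [mul_b, one_b, one_x, S.one, c_one hc a.x]
      abel
    · rw [mul_x, one_x, one_mul])
  (by
    intro a
    apply ext'
    · rw [mul_b, inv_b, inv_x, one_b]
      abel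
    · rw [mul_x, inv_x, one_x, inv_mul_cancel])

variable (hc)

/-- the projection -/
def pr : TP S c hc →* K where
  toFun e := e.x
  map_one' := rfl
  map_mul' _ _ := rfl

/-- the inclusion -/
def inc : Multiplicative B →* TP S c hc where
  toFun b := ⟨b.toAdd - c 1 1, 1⟩
  map_one' := by
    apply ext'
    · show (0 : B) - c 1 1 = - c 1 1
      rw [zero_sub]
    · rfl
  map_mul' a b := by
    apply ext'
    · rw [mul_b]
      show a.toAdd + b.toAdd - c 1 1 = a.toAdd - c 1 1 + S.s 1 (b.toAdd - c 1 1) + c 1 1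
      rw [S.one]
      abel
    · rw [mul_x, mul_one]

theorem inc_b (b : Multiplicative B) : (inc hc b).b = b.toAdd - c 1 1 := rfl

theorem inc_x (b : Multiplicative B) : (inc hc b).x = 1 := rfl

theorem inc_inj : Function.Injective (inc hc) := by
  intro a b h
  have h1 := congrArg TP.b h
  rw [inc_b, inc_b, sub_left_inj] at h1
  exact Multiplicative.toAdd.injective h1

theorem pr_surj : Function.Surjective (pr hc) := fun x => ⟨⟨0, x⟩, rfl⟩

theorem range_inc : (inc hc).range = (pr hc).ker := by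
  ext e
  constructor
  · rintro ⟨b, rfl⟩
    rfl
  · intro h
    have h1 : e.x = 1 := h
    refine ⟨Multiplicative.ofAdd (e.b + c 1 1), ?_⟩
    apply ext'
    · rw [inc_b, toAdd_ofAdd, add_sub_cancel_right]
    · rw [inc_x, h1]

/-- `(b, x) = b · (0, x)` -/
theorem inc_mul (b : Multiplicative B) (x : K) : inc hc b * ⟨0, x⟩ = ⟨b.toAdd, x⟩ := by
  apply ext'
  · rw [mul_b, inc_b, inc_x, S.one, c_one hc x]
    show b.toAdd - c 1 1 + 0 + c 1 1 = b.toAdd
    abel
  · rw [mul_x, inc_x, one_mul]

/-- an equivariant homomorphism of the coefficients -/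
def map {B' : Type w} [AddCommGroup B'] {S' : Act K B'} {c' : K → K → B'} (hc' : S'.IsCoc c')
    (D : B →+ B') (h1 : ∀ x b, D (S.s x b) = S'.s x (D b)) (h2 : ∀ x y, D (c x y) = c' x y) :
    TP S c hc →* TP S' c' hc' where
  toFun e := ⟨D e.b, e.x⟩
  map_one' := by
    apply ext'
    · show D (- c 1 1) = - c' 1 1
      rw [map_neg, h2]
    · rfl
  map_mul' a b := by
    apply ext'
    · show D (a.b + S.s a.x b.b + c a.x b.x) = D a.b + S'.s a.x (D b.b) + c' a.x b.x
      rw [map_add, map_add, h1, h2]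
    · rfl

/-- the map to the twisted product over a quotient -/
def pull {L : Type w} [Group L] (f : L →* K) (hc' : (S.comap f).IsCoc fun x y => c (f x) (f y)) :
    TP (S.comap f) (fun x y => c (f x) (f y)) hc' →* TP S c hc where
  toFun e := ⟨e.b, f e.x⟩
  map_one' := by
    apply ext'
    · show - c (f 1) (f 1) = - c 1 1
      rw [map_one]
    · show f 1 = 1
      rw [map_one]
  map_mul' a b := by
    apply ext'
    · rfl
    · show f (a.x * b.x) = f a.x * f b.x
      rw [map_mul]

end TP

end Pool.Agent.V8H21.MCG
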