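import Mathlib

set_option autoImplicit false

/-!
# Sums of labels along paths in a Cayley graph, and a counting argument
-/

namespace Pool.Agent.V8H21.MCG

open Equiv

section basic

variable {ι Q A : Type*} [Group Q] [AddCommGroup A] (ρ : FreeGroup ι →* Q)

/-- one step -/
def stp (t : ι → Q → A) (i : ι) : Perm (Q × A) where
  toFun u := (ρ (FreeGroup.of i) * u.1, u.2 + t i u.1)
  invFun u := ((ρ (FreeGroup.of i))⁻¹ * u.1, u.2 - t i ((ρ (FreeGroup.of i))⁻¹ * u.1))
  left_inv u := by simp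
  right_inv u := by simp

/-- the action of the free group -/
def lp (t : ι → Q → A) : FreeGroup ι →* Perm (Q × A) := FreeGroup.lift (stp ρ t)

/-- the sum of the labels along the path `u` starting in `q` -/
def cyc (t : ι → Q → A) (u : FreeGroup ι) (q : Q) : A := (lp ρ t u (q, 0)).2

theorem lp_apply (t : ι → Q → A) (u : FreeGroup ι) (q : Q) (s : A) :
    lp ρ t u (q, s) = (ρ u * q, s + cyc ρ t u q) := by
  suffices h : ∀ q s, (lp ρ t u (q, s)).1 = ρ u * q ∧
      (lp ρ t u (q, s)).2 = s + (lp ρ t u (q, 0)).2 from Prod.ext (h q s).1 (h q s).2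
  induction u using FreeGroup.induction_on with
  | C1 => simp
  | of i =>
    intro q s
    have : lp ρ t (FreeGroup.of i) = stp ρ t i := FreeGroup.lift_apply_of
    rw [this]
    simp [stp]
  | inv_of i _ =>
    intro q s
    have : lp ρ t (FreeGroup.of i)⁻¹ = (stp ρ t i)⁻¹ := by
      rw [map_inv]
      exact congrArg _ FreeGroup.lift_apply_of
    rw [this, map_inv]
    constructor
    · rfl
    · show s - t i _ = s + (0 - t i _)
      rw [zero_sub, sub_eq_add_neg]
  | mul u v hu hv =>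
    intro q s
    rw [map_mul, Perm.mul_apply, Perm.mul_apply]
    have h1 : ∀ q s, lp ρ t v (q, s) = (ρ v * q, s + (lp ρ t v (q, 0)).2) :=
      fun q s => Prod.ext (hv q s).1 (hv q s).2
    rw [h1 q s, h1 q 0]
    constructor
    · rw [(hu _ _).1, map_mul, mul_assoc]
    · rw [(hu _ (s + _)).2, (hu _ (0 + _)).2, zero_add, add_assoc]

theorem cyc_one (t : ι → Q → A) (q : Q) : cyc ρ t 1 q = 0 := by
  unfold cyc
  rw [map_one]
  rfl

theorem cyc_of (t : ι → Q → A) (i : ι) (q : Q) : cyc ρ t (FreeGroup.of i) q = t i q := by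
  unfold cyc
  have : lp ρ t (FreeGroup.of i) = stp ρ t i := FreeGroup.lift_apply_of
  rw [this]
  simp [stp]

theorem cyc_mul (t : ι → Q → A) (u v : FreeGroup ι) (q : Q) :
    cyc ρ t (u * v) q = cyc ρ t v q + cyc ρ t u (ρ v * q) := by
  have h : lp ρ t (u * v) (q, 0) = lp ρ t u (lp ρ t v (q, 0)) := by
    rw [map_mul, Perm.mul_apply]
  rw [lp_apply, lp_apply, lp_apply] at h
  have h2 := congrArg Prod.snd h
  simp only [zero_add] at h2
  exact h2

theorem cyc_inv (t : ι → Q → A) (u : FreeGroup ι) (q : Q) :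
    cyc ρ t u⁻¹ q = - cyc ρ t u ((ρ u)⁻¹ * q) := by
  have h := cyc_mul ρ t u u⁻¹ q
  rw [mul_inv_cancel, cyc_one, map_inv] at h
  exact eq_neg_of_add_eq_zero_left h.symm

theorem cyc_add (t t' : ι → Q → A) (u : FreeGroup ι) (q : Q) :
    cyc ρ (t + t') u q = cyc ρ t u q + cyc ρ t' u q := by
  induction u using FreeGroup.induction_on generalizing q with
  | C1 => simp [cyc_one]
  | of i => simp [cyc_of]
  | inv_of i _ =>
    rw [cyc_inv, cyc_inv, cyc_inv, cyc_of, cyc_of, cyc_of]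
    simp only [Pi.add_apply, neg_add]
  | mul u v hu hv =>
    rw [cyc_mul, cyc_mul, cyc_mul, hu, hv]
    abel

/-- as an additive homomorphism in the labels -/
def cycHom (u : FreeGroup ι) (q : Q) : (ι → Q → A) →+ A :=
  AddMonoidHom.mk' (fun t => cyc ρ t u q) (fun t t' => cyc_add ρ t t' u q)

/-- powers of an element with trivial image -/
theorem cyc_pow (t : ι → Q → A) (u : FreeGroup ι) (hu : ρ u = 1) (n : ℕ) (q : Q) :
    cyc ρ t (u ^ n) q = n • cyc ρ t u q := by
  induction n with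
  | zero => simp [cyc_one]
  | succ n ih => rw [pow_succ, cyc_mul, hu, one_mul, ih, succ_nsmul, add_comm]

/-- invariance of the sum along a power which is trivial in `Q` -/
theorem cyc_pow_inv (t : ι → Q → A) (u : FreeGroup ι) (n : ℕ) (hu : ρ u ^ n = 1) (q : Q) :
    cyc ρ t (u ^ n) (ρ u * q) = cyc ρ t (u ^ n) q := by
  have h1 := cyc_mul ρ t (u ^ n) u q
  have h2 := cyc_mul ρ t u (u ^ n) q
  rw [map_pow, hu, one_mul, ← pow_succ'] at h2
  rw [← pow_succ, h2, add_comm] at h1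
  exact (add_left_cancel h1).symm

/-- conjugation -/
theorem cyc_conj (t : ι → Q → A) (u y : FreeGroup ι) (hu : ρ u = 1) :
    cyc ρ t (y * u * y⁻¹) 1 = cyc ρ t u (ρ y)⁻¹ := by
  rw [cyc_mul, cyc_mul, cyc_inv, hu, map_inv, mul_one, one_mul]
  abel

/-- If the labels of the letters of `u` are zero. -/
theorem cyc_zero_of (t : ι → Q → A) (S : Set ι) (hS : ∀ i ∈ S, t i = 0) (u : FreeGroup ι)
    (hu : u ∈ Subgroup.closure (FreeGroup.of '' S)) (q : Q) : cyc ρ t u q = 0 := by
  induction hu using Subgroup.closure_induction generalizing q with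
  | mem x hx =>
    obtain ⟨i, hi, rfl⟩ := hx
    rw [cyc_of, hS i hi]
    rfl
  | one => exact cyc_one ρ t q
  | mul x y _ _ hx hy => rw [cyc_mul, hx, hy, add_zero]
  | inv x _ hx => rw [cyc_inv, hx, neg_zero]

end basic

section count

variable {ι Q : Type} [Group Q] [Finite Q] [Finite ι] (ρ : FreeGroup ι →* Q) (p : ℕ) [NeZero p]

theorem card_range_le {A B C : Type} [AddCommGroup A] [AddCommGroup B] [Finite A] [Finite C]
    (Φ : A →+ B) (c : A → C) (h : ∀ a a', c a = c a' → Φ a = Φ a') :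
    Nat.card A ≤ Nat.card Φ.ker * Nat.card C := by
  classical
  have h1 : Nat.card A = Nat.card (A ⧸ Φ.ker) * Nat.card Φ.ker :=
    AddSubgroup.card_eq_card_quotient_mul_card_addSubgroup _
  have h2 : Nat.card (A ⧸ Φ.ker) ≤ Nat.card C := by
    apply Nat.card_le_card_of_injective (fun x : A ⧸ Φ.ker => c x.out)
    intro x y hxy
    have h3 := h _ _ hxy
    have h4 : (QuotientAddGroup.mk x.out : A ⧸ Φ.ker) = QuotientAddGroup.mk y.out := by
      rw [QuotientAddGroup.eq, AddMonoidHom.mem_ker, map_add, map_neg, h3, neg_add_cancel]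
    rwa [QuotientAddGroup.out_eq', QuotientAddGroup.out_eq'] at h4
  calc Nat.card A = Nat.card (A ⧸ Φ.ker) * Nat.card Φ.ker := h1
    _ ≤ Nat.card C * Nat.card Φ.ker := Nat.mul_le_mul_right _ h2
    _ = _ := mul_comm _ _

theorem two_mul_card {q : Q} (hq : q ≠ 1) : 2 * Nat.card (Q ⧸ Subgroup.zpowers q) ≤ Nat.card Q := by
  have h1 : Nat.card Q = Nat.card (Q ⧸ Subgroup.zpowers q) * Nat.card (Subgroup.zpowers q) :=
    Subgroup.card_eq_card_quotient_mul_card_subgroup _
  have h2 : 2 ≤ Nat.card (Subgroup.zpowers q) := by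
    have h3 : 1 < Nat.card (Subgroup.zpowers q) := by
      rw [Finite.one_lt_card_iff_nontrivial]
      exact ⟨⟨⟨1, Subgroup.one_mem _⟩, ⟨q, Subgroup.mem_zpowers q⟩, fun h =>
        hq (congrArg Subtype.val h).symm⟩⟩
    exact h3
  rw [h1, mul_comm 2]
  exact Nat.mul_le_mul_left _ h2

/-- The counting argument: the upper bound. -/
theorem upper (hρ : Function.Surjective ρ) (Z : AddSubgroup (ι → Q → ZMod p)) {q : Q}
    (hZ : ∀ t ∈ Z, ∀ u, ρ u = 1 → cyc ρ t u 1 = cyc ρ t u q) :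
    Nat.card Z ≤ p ^ (Nat.card Q - 1 + Nat.card ι * Nat.card (Q ⧸ Subgroup.zpowers q)) := by
  classical
  let s : Q → FreeGroup ι := Function.surjInv hρ
  have hs : ∀ x, ρ (s x) = x := Function.surjInv_eq hρ
  let E : Z →+ ({x : Q // x ≠ 1} → ZMod p) :=
    AddMonoidHom.mk' (fun t x => cyc ρ t.1 (s x) 1 - cyc ρ t.1 (s x) q) (by
      intro t t'
      funext x
      show cyc ρ (t.1 + t'.1) (s x) 1 - cyc ρ (t.1 + t'.1) (s x) q =
        (cyc ρ t.1 (s x) 1 - cyc ρ t.1 (s x) q) + (cyc ρ t'.1 (s x) 1 - cyc ρ t'.1 (s x) q)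
      rw [cyc_add, cyc_add]
      ring)
  have h1 : Nat.card Z ≤ Nat.card E.ker * Nat.card ({x : Q // x ≠ 1} → ZMod p) :=
    card_range_le E E (fun a a' h => h)
  have h2 : Nat.card ({x : Q // x ≠ 1} → ZMod p) = p ^ (Nat.card Q - 1) := by
    rw [Nat.card_fun, Nat.card_zmod]
    congr 1
    have : Fintype Q := Fintype.ofFinite Q
    rw [Nat.card_eq_fintype_card, Nat.card_eq_fintype_card, Fintype.card_subtype_compl,
      Fintype.card_subtype_eq]
  -- the kernel
  have hker : ∀ t ∈ E.ker, ∀ i x, t.1 i (x * q) = t.1 i x := by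
    intro t ht i x
    have hv : ∀ x, cyc ρ t.1 (s x) 1 = cyc ρ t.1 (s x) q := by
      intro x
      by_cases hx : x = 1
      · exact hZ t.1 t.2 _ (by rw [hs, hx])
      · have h3 := congrFun ht ⟨x, hx⟩
        exact sub_eq_zero.1 h3
    have hv2 : ∀ u, cyc ρ t.1 u 1 = cyc ρ t.1 u q := by
      intro u
      have h4 : ρ ((s (ρ u))⁻¹ * u) = 1 := by rw [map_mul, map_inv, hs, inv_mul_cancel]
      have h5 : u = s (ρ u) * ((s (ρ u))⁻¹ * u) := by rw [mul_inv_cancel_left]
      have h6 := hZ t.1 t.2 _ h4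
      have h7 := cyc_mul ρ t.1 (s (ρ u)) ((s (ρ u))⁻¹ * u) 1
      have h8 := cyc_mul ρ t.1 (s (ρ u)) ((s (ρ u))⁻¹ * u) q
      rw [← h5, h4, one_mul] at h7 h8
      rw [h7, h8, h6, hv]
    have h9 := cyc_mul ρ t.1 (FreeGroup.of i) (s x) 1
    have h10 := cyc_mul ρ t.1 (FreeGroup.of i) (s x) q
    rw [cyc_of, hs] at h9 h10
    rw [mul_one] at h9
    rw [← hv2, ← hv2, h9] at h10
    exact (add_left_cancel h10).symm
  have h3 : Nat.card E.ker ≤ Nat.card (ι → (Q ⧸ Subgroup.zpowers q) → ZMod p) := by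
    apply Nat.card_le_card_of_injective (fun (t : E.ker) i (x : Q ⧸ Subgroup.zpowers q) =>
      t.1.1 i x.out)
    intro t t' htt
    apply Subtype.ext
    apply Subtype.ext
    funext i x
    have hinv : ∀ t ∈ E.ker, ∀ i x, ∀ y ∈ Subgroup.zpowers q, t.1 i (x * y) = t.1 i x := by
      intro t ht i x y hy
      obtain ⟨k, rfl⟩ := Subgroup.mem_zpowers_iff.1 hy
      induction k with
      | zero => simp
      | succ k ih => rw [zpow_add_one, ← mul_assoc, hker t ht, ih (Subgroup.zpow_mem_zpowers _ _)]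
      | pred k ih =>
        rw [← hker t ht i (x * q ^ (-(k : ℤ) - 1)), mul_assoc, ← zpow_add_one, sub_add_cancel]
        exact ih (Subgroup.zpow_mem_zpowers _ _)
    have h4 : ∃ y ∈ Subgroup.zpowers q, (QuotientGroup.mk x : Q ⧸ Subgroup.zpowers q).out = x * y := by
      refine ⟨x⁻¹ * (QuotientGroup.mk x : Q ⧸ Subgroup.zpowers q).out, ?_, by
        rw [mul_inv_cancel_left]⟩
      rw [← QuotientGroup.eq, QuotientGroup.out_eq']
    obtain ⟨y, hy, hxy⟩ := h4
    have h5 := congrFun (congrFun htt i) (QuotientGroup.mk x : Q ⧸ Subgroup.zpowers q)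
    simp only at h5
    rw [hxy, hinv t.1 t.2 i x y hy, hinv t'.1 t'.2 i x y hy] at h5
    exact h5
  have h4 : Nat.card (ι → (Q ⧸ Subgroup.zpowers q) → ZMod p) =
      p ^ (Nat.card ι * Nat.card (Q ⧸ Subgroup.zpowers q)) := by
    rw [Nat.card_fun, Nat.card_fun, Nat.card_zmod, ← pow_mul, mul_comm]
  calc Nat.card Z ≤ Nat.card E.ker * Nat.card ({x : Q // x ≠ 1} → ZMod p) := h1
    _ ≤ p ^ (Nat.card ι * Nat.card (Q ⧸ Subgroup.zpowers q)) * p ^ (Nat.card Q - 1) := by
        rw [h2]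
        exact Nat.mul_le_mul_right _ (h3.trans h4.le)
    _ = _ := by rw [← pow_add, add_comm]

end count

end Pool.Agent.V8H21.MCG
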