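import Pool.Agent.V8H21.MCG.Cen

set_option autoImplicit false

/-!
# The centralizer of a surface group in a group of a hyperbolic orbifold
-/

namespace Pool.Agent.V8H21.MCG

variable {h n : ℕ} {m : Fin n → ℕ} {g' : ℕ} (ι : SurfaceGroup g' →* Orb h n m)

/-- the first coordinate modulo two -/
def chi1 : SurfaceGroup 1 →* Multiplicative (ZMod 2) :=
  PresentedGroup.toGroup (f := Sum.elim (fun _ => Multiplicative.ofAdd 1) (fun _ => 1)) (by
    intro r hr
    rw [Set.mem_singleton_iff] at hr
    subst hr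
    unfold rel
    rw [List.ofFn_succ, List.ofFn_zero, List.prod_cons, List.prod_nil, mul_one]
    exact cm_comm _ _)

theorem chi1_of : chi1 (PresentedGroup.of (Sum.inl 0)) ≠ 1 := by
  unfold chi1
  rw [PresentedGroup.toGroup.of]
  decide

theorem effective2 (hm : ∀ j, 2 ≤ m j)
    (hyp : (∑ j, (1 : ℚ) / (m j)) < ((2 * h + n : ℕ) : ℚ) - 2) (hι : Function.Injective ι)
    (hn : ι.range.Normal) (hf : ι.range.FiniteIndex)
    (hc : ∀ j k, cone h n m j ^ k ∈ ι.range → m j ∣ k) (y : Orb h n m)
    (hy : ∀ a, y * ι a = ι a * y) : y = 1 := by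
  obtain ⟨k, hk⟩ := centr2 hm hyp ι.range ι.range hn hf le_rfl hc
  obtain ⟨z, rfl⟩ := hk y (by
    rintro _ ⟨a, rfl⟩
    rw [hy a, mul_inv_cancel_right, mul_inv_cancel]
    exact one_mem _)
  have hz : ∀ a, z * a = a * z := by
    intro a
    apply hι
    rw [map_mul, map_mul, hy]
  suffices z = 1 by rw [this, map_one]
  rcases g' with _ | _ | g'
  · exact surface_zero z
  · -- genus one does not occur
    exfalso
    let U : Subgroup (SurfaceGroup 1) := chi1.ker
    have hU : U.index ≠ 0 := by
      have : Finite (Multiplicative (ZMod 2)) := inferInstance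
      have h1 : U.index = Nat.card chi1.range := Subgroup.index_ker chi1
      rw [h1]
      exact Nat.card_pos.ne'
    have hUi : (U.map ι).index ≠ 0 := by
      have h3 : (U.map ι).index = (U ⊔ ι.ker).index * ι.range.index := Subgroup.index_map U ι
      rw [h3, (MonoidHom.ker_eq_bot_iff ι).2 hι, sup_bot_eq]
      exact mul_ne_zero hU hf.index_ne_zero
    have hfi : (U.map ι).FiniteIndex := ⟨hUi⟩
    let N := (U.map ι).normalCore
    have hN1 : N.Normal := inferInstance
    have hN2 : N.FiniteIndex := inferInstance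
    have hN3 : N ≤ U.map ι := Subgroup.normalCore_le _
    have hN4 : N ≤ ι.range := hN3.trans (Subgroup.map_le_range _ _)
    obtain ⟨k', hk'⟩ := centr2 hm hyp ι.range N hN1 hN2 hN4 hc
    have h1 := hk' (ι (PresentedGroup.of (Sum.inl 0))) (by
      rintro _ ⟨a, rfl⟩
      rw [← map_mul, surface_one, map_mul, mul_inv_cancel_right, mul_inv_cancel]
      exact one_mem _)
    obtain ⟨u, hu, hu2⟩ := hN3 h1
    have h2 := hι hu2
    rw [h2] at hu
    exact chi1_of hu
  · exact center_two g' z hz

theorem csp_zero' (h : ℕ) (m : Fin 0 → ℕ) (hG : CSP (Orb h 0 m)) : CSP (SurfaceGroup h) :=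
  csp_congr (MulEquiv.ofBijective (fill h 0 m) ⟨fill_zero_inj h m, fill_surj h 0 m⟩) hG

end Pool.Agent.V8H21.MCG
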