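import Pool.Agent.V8H21.MCG.Fld

set_option autoImplicit false

/-!
# Existence of fields
-/

namespace Pool.Agent.V8H21.MCG

universe u v w

section general

variable {K : Type u} {B : Type v} [Group K] [AddCommGroup B] (S : Act K B)

theorem Act.bd2_bd (l : K → B) (x y z : K) : S.bd2 (S.bd l) x y z = 0 := by
  unfold Act.bd2 Act.bd
  rw [S.add, S.sub, ← S.mul, mul_assoc]
  abel

theorem Act.bd2_sub (η η' : K → K → B) (x y z : K) :
    S.bd2 (fun a b => η a b - η' a b) x y z = S.bd2 η x y z - S.bd2 η' x y z := by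
  simp only [Act.bd2, S.sub]
  abel

theorem Act.bd2_add (η η' : K → K → B) (x y z : K) :
    S.bd2 (fun a b => η a b + η' a b) x y z = S.bd2 η x y z + S.bd2 η' x y z := by
  simp only [Act.bd2, S.add]
  abel

/-- the action as a homomorphism -/
def Act.toMul : K →* MulAut (Multiplicative B) where
  toFun x :=
    { toFun := fun b => Multiplicative.ofAdd (S.s x b.toAdd)
      invFun := fun b => Multiplicative.ofAdd (S.s x⁻¹ b.toAdd)
      left_inv := fun b => by
        show Multiplicative.ofAdd (S.s x⁻¹ (S.s x b.toAdd)) = b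
        rw [← S.mul, inv_mul_cancel, S.one]
        rfl
      right_inv := fun b => by
        show Multiplicative.ofAdd (S.s x (S.s x⁻¹ b.toAdd)) = b
        rw [← S.mul, mul_inv_cancel, S.one]
        rfl
      map_mul' := fun a b => by
        show Multiplicative.ofAdd (S.s x (a.toAdd + b.toAdd)) = _
        rw [S.add]
        rfl }
  map_one' := by
    ext b
    show Multiplicative.ofAdd (S.s 1 b.toAdd) = b
    rw [S.one]
    rfl
  map_mul' x y := by
    ext b
    show Multiplicative.ofAdd (S.s (x * y) b.toAdd) = Multiplicative.ofAdd (S.s x (S.s y b.toAdd))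
    rw [S.mul]

theorem Act.toMul_apply (x : K) (b : Multiplicative B) :
    S.toMul x b = Multiplicative.ofAdd (S.s x b.toAdd) := rfl

end general

section cons

variable {g : ℕ} {B : Type v} [AddCommGroup B] [Finite B] (S : Act (SurfaceGroup (g + 2)) B)

/-- a cocycle with a given value at the relator -/
theorem exists_coc (b : B) :
    ∃ (c : SurfaceGroup (g + 2) → SurfaceGroup (g + 2) → B) (hc : S.IsCoc c)
      (h : FreeGroup (Fin (g + 2) ⊕ Fin (g + 2)) →* TP S c hc),
      (∀ w, (h w).x = PresentedGroup.mk {rel (g + 2)} w) ∧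
        h (rel (g + 2)) = TP.inc hc (Multiplicative.ofAdd b) := by
  classical
  have hfinB : Finite (Multiplicative B) := inferInstanceAs (Finite B)
  let α : FreeGroup (Fin (g + 2) ⊕ Fin (g + 2)) →* MulAut (Multiplicative B) :=
    S.toMul.comp (PresentedGroup.mk {rel (g + 2)})
  have hrel : PresentedGroup.mk {rel (g + 2)} (rel (g + 2)) = 1 :=
    PresentedGroup.one_of_mem (Set.mem_singleton _)
  have hαr : α (rel (g + 2)) = MulAut.conj (Multiplicative.ofAdd b) := by
    ext n
    show S.toMul (PresentedGroup.mk {rel (g + 2)} (rel (g + 2))) n = _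
    rw [hrel, map_one, MulAut.one_apply, MulAut.conj_apply, mul_comm _ n, mul_inv_cancel_right]
    rfl
  let m := Nat.card (Equiv.Perm (Multiplicative B))
  let f := ff g α (Multiplicative.ofAdd b) m
  have hf1 : f (rel (g + 2)) = pj m (Multiplicative.ofAdd b) := ff_rel g α _ rfl hαr
  have hf2 : ∀ w n, f w * pj m n = pj m (α w n) * f w := fun w n => ff_conj g α _ _ w n
  have hker : ∀ v : FreeGroup (Fin (g + 2) ⊕ Fin (g + 2)), PresentedGroup.mk {rel (g + 2)} v = 1 →
      ∃ n, f v = pj m n := by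
    intro v hv
    let K : Subgroup (FreeGroup (Fin (g + 2) ⊕ Fin (g + 2))) :=
      { carrier := {v | ∃ n, f v = pj m n}
        one_mem' := ⟨1, by simp⟩
        mul_mem' := by
          rintro a b ⟨n, h2⟩ ⟨n', h4⟩
          exact ⟨n * n', by rw [map_mul, map_mul, h2, h4]⟩
        inv_mem' := by
          rintro a ⟨n, h2⟩
          exact ⟨n⁻¹, by rw [map_inv, map_inv, h2]⟩ }
    have hK : K.Normal := by
      constructor
      rintro a ⟨n, h2⟩ w
      refine ⟨α w n, ?_⟩
      rw [map_mul, map_mul, map_inv, h2, hf2, mul_inv_cancel_right]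
    have h1 : Subgroup.normalClosure ({rel (g + 2)} : Set (FreeGroup (Fin (g + 2) ⊕ Fin (g + 2)))) ≤
        K := by
      apply Subgroup.normalClosure_le_normal
      intro x hx
      rw [Set.mem_singleton_iff] at hx
      rw [hx]
      exact ⟨_, hf1⟩
    apply h1
    exact (QuotientGroup.eq_one_iff _).1 hv
  have hsurj : ∀ x : SurfaceGroup (g + 2), ∃ w, PresentedGroup.mk {rel (g + 2)} w = x :=
    fun x => QuotientGroup.mk_surjective x
  choose wx hwx using hsurj
  have hex : ∀ x y, ∃ n : B, f (wx x) * f (wx y) = pj m (Multiplicative.ofAdd n) * f (wx (x * y)) := by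
    intro x y
    obtain ⟨n, hn⟩ := hker (wx x * wx y * (wx (x * y))⁻¹) (by
      rw [map_mul, map_mul, map_inv, hwx, hwx, hwx, mul_inv_cancel])
    refine ⟨n.toAdd, ?_⟩
    rw [map_mul, map_mul, map_inv, mul_inv_eq_iff_eq_mul] at hn
    exact hn
  choose c hc using hex
  have hact : ∀ (w : FreeGroup (Fin (g + 2) ⊕ Fin (g + 2))) (n : B),
      f w * pj m (Multiplicative.ofAdd n) =
        pj m (Multiplicative.ofAdd (S.s (PresentedGroup.mk {rel (g + 2)} w) n)) * f w := by
    intro w n
    rw [hf2]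
    rfl
  have hcoc : S.IsCoc c := by
    intro x y z
    have h1 : f (wx x) * f (wx y) * f (wx z) =
        pj m (Multiplicative.ofAdd (c x y + c (x * y) z)) * f (wx (x * y * z)) := by
      rw [hc, mul_assoc, hc, ← mul_assoc, ← map_mul]
      rfl
    have h2 : f (wx x) * f (wx y) * f (wx z) =
        pj m (Multiplicative.ofAdd (S.s x (c y z) + c x (y * z))) * f (wx (x * (y * z))) := by
      rw [mul_assoc, hc y z, ← mul_assoc, hact, hwx, mul_assoc, hc, ← mul_assoc, ← map_mul]
      rfl
    rw [← mul_assoc x y z, h1] at h2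
    have h3 := pj_inj m (mul_right_cancel h2)
    have h4 : c x y + c (x * y) z = S.s x (c y z) + c x (y * z) := Multiplicative.ofAdd.injective h3
    rw [← sub_eq_zero] at h4
    rw [← neg_eq_zero, ← h4]
    abel
  have hbex : ∀ w, ∃ n : B, f w = pj m (Multiplicative.ofAdd n) *
      f (wx (PresentedGroup.mk {rel (g + 2)} w)) := by
    intro w
    obtain ⟨n, hn⟩ := hker (w * (wx (PresentedGroup.mk {rel (g + 2)} w))⁻¹) (by
      rw [map_mul, map_inv, hwx, mul_inv_cancel])
    refine ⟨n.toAdd, ?_⟩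
    rw [map_mul, map_inv, mul_inv_eq_iff_eq_mul] at hn
    exact hn
  choose β hβ using hbex
  have hβm : ∀ w v, β (w * v) = β w + S.s (PresentedGroup.mk {rel (g + 2)} w) (β v) +
      c (PresentedGroup.mk {rel (g + 2)} w) (PresentedGroup.mk {rel (g + 2)} v) := by
    intro w v
    have h1 : f (w * v) = pj m (Multiplicative.ofAdd
        (β w + S.s (PresentedGroup.mk {rel (g + 2)} w) (β v) +
        c (PresentedGroup.mk {rel (g + 2)} w) (PresentedGroup.mk {rel (g + 2)} v))) *
        f (wx (PresentedGroup.mk {rel (g + 2)} (w * v))) := by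
      rw [map_mul f]
      conv_lhs => rw [hβ w, hβ v]
      rw [mul_assoc, ← mul_assoc (f _) (pj m _) (f _), hact, hwx, mul_assoc, hc, ← mul_assoc,
        ← mul_assoc, ← map_mul, ← map_mul, map_mul (PresentedGroup.mk {rel (g + 2)})]
      rfl
    have h2 := hβ (w * v)
    rw [h1] at h2
    exact (Multiplicative.ofAdd.injective (pj_inj m (mul_right_cancel h2))).symm
  refine ⟨c, hcoc, MonoidHom.mk' (fun w => ⟨β w, PresentedGroup.mk {rel (g + 2)} w⟩) ?_, ?_, ?_⟩
  · intro w v
    apply TP.ext'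
    · exact hβm w v
    · exact map_mul _ _ _
  · intro w
    rfl
  · apply TP.ext'
    · show β (rel (g + 2)) = b - c 1 1
      have h1 := hβ (rel (g + 2))
      rw [hf1, hrel] at h1
      have h2 := hc 1 1
      rw [mul_one] at h2
      have h3 : f (wx 1) = pj m (Multiplicative.ofAdd (c 1 1)) := mul_right_cancel h2
      rw [h3, ← map_mul] at h1
      have h4 : b = β (rel (g + 2)) + c 1 1 := Multiplicative.ofAdd.injective (pj_inj m h1)
      rw [h4, add_sub_cancel_right]
    · exact hrel

end cons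

section exi

variable {g : ℕ} {G : Type u} [Group G] {A : Type v} [AddCommGroup A] (S : Act G A)
  {ω : G → G → G → A}

/-- every homomorphism to `G` is part of a field -/
theorem exists_field [Finite G] [Finite A] (hω : S.IsCoc3 ω) (ρ : SurfaceGroup (g + 2) →* G) :
    ∃ η : SurfaceGroup (g + 2) → SurfaceGroup (g + 2) → A, IsField S ω ρ η := by
  classical
  let SP : Act (SurfaceGroup (g + 2)) (G → A) := (SB G A).comap ρ
  let S2P : Act (SurfaceGroup (g + 2)) (G → G → A) := (S2 S).comap ρ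
  let c0 : SurfaceGroup (g + 2) → SurfaceGroup (g + 2) → G → G → A :=
    fun x y => dd S (be ω (ρ x) (ρ y))
  have hc0 : S2P.IsCoc c0 := by
    intro x y z
    have h := coc_dd S hω (ρ x) (ρ y) (ρ z)
    show (S2 S).s (ρ x) (dd S (be ω (ρ y) (ρ z))) - dd S (be ω (ρ (x * y)) (ρ z)) +
      dd S (be ω (ρ x) (ρ (y * z))) - dd S (be ω (ρ x) (ρ y)) = 0
    rw [map_mul, map_mul]
    exact h
  have hrel : PresentedGroup.mk {rel (g + 2)} (rel (g + 2)) = 1 :=
    PresentedGroup.one_of_mem (Set.mem_singleton _)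
  let h' : FreeGroup (Fin (g + 2) ⊕ Fin (g + 2)) →* TP S2P c0 hc0 :=
    FreeGroup.lift (fun i => ⟨0, PresentedGroup.of i⟩)
  have hx' : ∀ w, (h' w).x = PresentedGroup.mk {rel (g + 2)} w := by
    intro w
    have h1 : (TP.pr hc0).comp h' = PresentedGroup.mk {rel (g + 2)} := by
      ext i
      show (h' (FreeGroup.of i)).x = _
      have : h' (FreeGroup.of i) = ⟨0, PresentedGroup.of i⟩ := FreeGroup.lift_apply_of
      rw [this]
      rfl
    exact DFunLike.congr_fun h1 w
  -- all values come from `G → A`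
  have hb' : ∀ w, ∃ b, (h' w).b = dd S b := by
    intro w
    let K2 : Subgroup (TP S2P c0 hc0) :=
      { carrier := {e | ∃ b, e.b = dd S b}
        one_mem' := ⟨- be ω (ρ 1) (ρ 1), by rw [TP.one_b, map_neg]⟩
        mul_mem' := by
          rintro e e' ⟨b, hb⟩ ⟨b', hb'⟩
          refine ⟨b + (SB G A).s (ρ e.x) b' + be ω (ρ e.x) (ρ e'.x), ?_⟩
          rw [TP.mul_b, hb, hb', map_add, map_add, dd_s]
          rfl
        inv_mem' := by
          rintro e ⟨b, hb⟩
          refine ⟨- be ω (ρ 1) (ρ 1) - be ω (ρ e.x⁻¹) (ρ e.x) - (SB G A).s (ρ e.x⁻¹) b, ?_⟩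
          rw [TP.inv_b, hb, map_sub, map_sub, map_neg, dd_s]
          rfl }
    have h1 : (⊤ : Subgroup (FreeGroup (Fin (g + 2) ⊕ Fin (g + 2)))) ≤ K2.comap h' := by
      rw [← FreeGroup.closure_range_of, Subgroup.closure_le]
      rintro _ ⟨i, rfl⟩
      have : h' (FreeGroup.of i) = ⟨0, PresentedGroup.of i⟩ := FreeGroup.lift_apply_of
      show ∃ b, (h' (FreeGroup.of i)).b = dd S b
      rw [this]
      exact ⟨0, by rw [map_zero]⟩
    exact h1 (Subgroup.mem_top w)
  obtain ⟨b1, hb1⟩ := hb' (rel (g + 2))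
  let b : G → A := b1 + be ω (ρ 1) (ρ 1)
  obtain ⟨c, hc, h, hx, hr⟩ := exists_coc SP b
  let c2 : SurfaceGroup (g + 2) → SurfaceGroup (g + 2) → G → G → A :=
    fun x y => dd S (c x y) - c0 x y
  have hddc : ∀ x y z, S2P.bd2 (fun x y => dd S (c x y)) x y z = 0 := by
    intro x y z
    have h1 := congrArg (dd S) (hc x y z)
    rw [map_sub, map_add, map_sub, map_zero] at h1
    have h2 : dd S (SP.s x (c y z)) = S2P.s x (dd S (c y z)) := dd_s S (ρ x) (c y z)
    rw [h2] at h1
    exact h1
  have hc2 : S2P.IsCoc c2 := by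
    intro x y z
    have h1 := S2P.bd2_sub (fun x y => dd S (c x y)) c0 x y z
    have h3 : S2P.bd2 c0 x y z = 0 := hc0 x y z
    rw [hddc, h3, sub_zero] at h1
    exact h1
  let h2 : FreeGroup (Fin (g + 2) ⊕ Fin (g + 2)) →* TP S2P c2 hc2 :=
    MonoidHom.mk' (fun w => ⟨dd S (h w).b - (h' w).b, PresentedGroup.mk {rel (g + 2)} w⟩) (by
      intro w v
      apply TP.ext'
      · rw [TP.mul_b]
        show dd S (h (w * v)).b - (h' (w * v)).b = dd S (h w).b - (h' w).b +
          S2P.s (PresentedGroup.mk {rel (g + 2)} w) (dd S (h v).b - (h' v).b) +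
          (dd S (c (PresentedGroup.mk {rel (g + 2)} w) (PresentedGroup.mk {rel (g + 2)} v)) -
            c0 (PresentedGroup.mk {rel (g + 2)} w) (PresentedGroup.mk {rel (g + 2)} v))
        rw [map_mul h, map_mul h', TP.mul_b, TP.mul_b, hx, hx, hx', hx', map_add, map_add, Act.sub]
        have h3 : dd S (SP.s (PresentedGroup.mk {rel (g + 2)} w) (h v).b) =
            S2P.s (PresentedGroup.mk {rel (g + 2)} w) (dd S (h v).b) := dd_s S _ _
        rw [h3]
        abel
      · exact map_mul _ _ _)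
  have hr2 : h2 (rel (g + 2)) = 1 := by
    apply TP.ext'
    · show dd S (h (rel (g + 2))).b - (h' (rel (g + 2))).b = - (dd S (c 1 1) - c0 1 1)
      rw [hr, hb1, TP.inc_b, toAdd_ofAdd, map_sub]
      show dd S (b1 + be ω (ρ 1) (ρ 1)) - dd S (c 1 1) - dd S b1 =
        - (dd S (c 1 1) - dd S (be ω (ρ 1) (ρ 1)))
      rw [map_add]
      abel
    · exact hrel
  have hrels : ∀ r ∈ ({rel (g + 2)} : Set (FreeGroup (Fin (g + 2) ⊕ Fin (g + 2)))),
      FreeGroup.lift (fun i => h2 (FreeGroup.of i)) r = 1 := by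
    intro r hr'
    rw [Set.mem_singleton_iff] at hr'
    rw [hr']
    have h3 : FreeGroup.lift (fun i => h2 (FreeGroup.of i)) = h2 := by
      ext i
      simp
    rw [h3, hr2]
  let s : SurfaceGroup (g + 2) →* TP S2P c2 hc2 := PresentedGroup.toGroup hrels
  have hs : ∀ w, s (PresentedGroup.mk {rel (g + 2)} w) = h2 w := by
    intro w
    have h3 : s.comp (PresentedGroup.mk {rel (g + 2)}) = h2 := by
      apply FreeGroup.ext_hom
      intro i
      exact PresentedGroup.toGroup.of hrels
    exact DFunLike.congr_fun h3 w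
  have hsx : ∀ x, (s x).x = x := by
    intro x
    obtain ⟨w, rfl⟩ := QuotientGroup.mk_surjective x
    exact congrArg TP.x (hs w)
  have hsb : ∀ x, ∃ m, (s x).b = dd S m := by
    intro x
    obtain ⟨w, rfl⟩ := QuotientGroup.mk_surjective x
    obtain ⟨b', hb''⟩ := hb' w
    refine ⟨(h w).b - b', ?_⟩
    have h3 : (s (PresentedGroup.mk {rel (g + 2)} w)).b = dd S (h w).b - (h' w).b :=
      congrArg TP.b (hs w)
    rw [map_sub, ← hb'']
    exact h3
  choose μ hμ using hsb
  have hmain : ∀ x y, dd S (be ω (ρ x) (ρ y) - c x y - SP.bd μ x y) = 0 := by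
    intro x y
    have h3 := congrArg TP.b (map_mul s x y)
    rw [TP.mul_b, hsx, hsx, hμ, hμ, hμ] at h3
    have h4 : dd S (SP.s x (μ y)) = S2P.s x (dd S (μ y)) := dd_s S (ρ x) (μ y)
    unfold Act.bd
    rw [map_sub, map_sub, map_add, map_sub, h4, h3]
    show _ - dd S (c x y) - (_ - (_ + _ + (dd S (c x y) - dd S (be ω (ρ x) (ρ y)))) + _) = _
    abel
  choose η hη using fun x y => dd_zero S (hmain x y)
  refine ⟨η, ?_⟩
  intro x y z
  apply io_inj S
  have h5 : io S ((S.comap ρ).bd2 η x y z) = SP.bd2 (fun a b => io S (η a b)) x y z := by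
    unfold Act.bd2
    rw [map_sub, map_add, map_sub]
    have h6 : io S ((S.comap ρ).s x (η y z)) = SP.s x (io S (η y z)) := io_s S (ρ x) (η y z)
    rw [h6]
  have h7 : (fun a b => io S (η a b)) = fun a b => (fun a b => (fun a b => be ω (ρ a) (ρ b)) a b -
      c a b) a b - SP.bd μ a b := by
    funext a b
    exact (hη a b).symm
  rw [h5, h7, SP.bd2_sub, SP.bd2_sub, SP.bd2_bd, sub_zero]
  have h8 : SP.bd2 c x y z = 0 := hc x y z
  rw [h8, sub_zero]
  have h9 := bd2_be S hω (ρ x) (ρ y) (ρ z)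
  show (SB G A).s (ρ x) (be ω (ρ y) (ρ z)) - be ω (ρ (x * y)) (ρ z) + be ω (ρ x) (ρ (y * z)) -
    be ω (ρ x) (ρ y) = _
  rw [map_mul, map_mul]
  exact h9

end exi

end Pool.Agent.V8H21.MCG
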