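import Pool.Agent.V8H21.MCG.Coc

set_option autoImplicit false

/-!
# Fields: trivialisations of pulled back three-cocycles
-/

namespace Pool.Agent.V8H21.MCG

universe u v w

/-- the degree -/
def dg (a b : ℕ) : ℕ := (a * (a.factorial * a.factorial)).factorial * b

theorem deg_eq (N : Type u) [Finite N] (G : Type v) :
    deg N G = dg (Nat.card N) (Nat.card G) := by
  have hm0 : NeZero (Nat.card (Equiv.Perm N)) := ⟨Nat.card_pos.ne'⟩
  have hm1 : ∀ k : ℕ, k ≠ 0 → Finite (ZMod k) := by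
    intro k hk
    have : NeZero k := ⟨hk⟩
    infer_instance
  have hm2 : Finite (ZMod (Nat.card (Equiv.Perm N))) := hm1 _ hm0.ne
  unfold deg dg
  rw [Nat.card_prod, Nat.card_perm, Nat.card_prod, Nat.card_prod, Nat.card_zmod, Nat.card_perm]

variable {G : Type u} [Group G] {A : Type v} [AddCommGroup A] (S : Act G A)

/-- three-cocycles -/
def Act.IsCoc3 (ω : G → G → G → A) : Prop :=
  ∀ x y z t, S.s x (ω y z t) - ω (x * y) z t + ω x (y * z) t - ω x y (z * t) + ω x y z = 0

/-- the coboundary of a function of two variables -/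
def Act.bd2 (η : G → G → A) (x y z : G) : A :=
  S.s x (η y z) - η (x * y) z + η x (y * z) - η x y

/-- the coinduced module -/
def SB (G : Type u) [Group G] (A : Type v) [AddCommGroup A] : Act G (G → A) where
  s h F := fun k => F (k * h)
  one b := by
    funext k
    rw [mul_one]
  mul x y b := by
    funext k
    show b (k * (x * y)) = b (k * x * y)
    rw [mul_assoc]
  add x b b' := rfl

/-- functions of two variables -/
def S2 : Act G (G → G → A) where
  s h F := fun k l => S.s h (F (k * h) (l * h))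
  one b := by
    funext k l
    rw [mul_one, mul_one, S.one]
  mul x y b := by
    funext k l
    show S.s (x * y) (b (k * (x * y)) (l * (x * y))) = S.s x (S.s y (b (k * x * y) (l * x * y)))
    rw [S.mul, mul_assoc, mul_assoc]
  add x b b' := by
    funext k l
    exact S.add _ _ _

/-- the embedding of `A` -/
def io : A →+ (G → A) where
  toFun a := fun k => S.s k a
  map_zero' := by
    funext k
    exact S.zero k
  map_add' a b := by
    funext k
    exact S.add k a b

theorem io_apply (a : A) (k : G) : io S a k = S.s k a := rfl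

theorem io_inj : Function.Injective (io S) := by
  intro a b h
  have h1 := congrFun h 1
  rw [io_apply, io_apply, S.one, S.one] at h1
  exact h1

theorem io_s (h : G) (a : A) : io S (S.s h a) = (SB G A).s h (io S a) := by
  funext k
  show S.s k (S.s h a) = S.s (k * h) a
  rw [S.mul]

/-- the differences -/
def dd : (G → A) →+ (G → G → A) where
  toFun b := fun k l => S.s k⁻¹ (b k) - S.s l⁻¹ (b l)
  map_zero' := by
    funext k l
    show S.s k⁻¹ 0 - S.s l⁻¹ 0 = 0
    rw [S.zero, S.zero, sub_zero]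
  map_add' a b := by
    funext k l
    show S.s k⁻¹ (a k + b k) - S.s l⁻¹ (a l + b l) =
      (S.s k⁻¹ (a k) - S.s l⁻¹ (a l)) + (S.s k⁻¹ (b k) - S.s l⁻¹ (b l))
    rw [S.add, S.add]
    abel

theorem dd_apply (b : G → A) (k l : G) : dd S b k l = S.s k⁻¹ (b k) - S.s l⁻¹ (b l) := rfl

theorem dd_s (h : G) (b : G → A) : dd S ((SB G A).s h b) = (S2 S).s h (dd S b) := by
  funext k l
  show S.s k⁻¹ (b (k * h)) - S.s l⁻¹ (b (l * h)) =
    S.s h (S.s (k * h)⁻¹ (b (k * h)) - S.s (l * h)⁻¹ (b (l * h)))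
  rw [S.sub, ← S.mul, ← S.mul, mul_inv_rev, mul_inv_rev, mul_inv_cancel_left, mul_inv_cancel_left]

theorem dd_io (a : A) : dd S (io S a) = 0 := by
  funext k l
  rw [dd_apply, io_apply, io_apply, ← S.mul, ← S.mul, inv_mul_cancel, inv_mul_cancel, sub_self]
  rfl

theorem dd_zero {b : G → A} (h : dd S b = 0) : ∃ a, b = io S a := by
  refine ⟨b 1, ?_⟩
  funext k
  have h1 := congrFun (congrFun h k) 1
  rw [dd_apply, inv_one, S.one] at h1
  have h2 : S.s k⁻¹ (b k) = b 1 := sub_eq_zero.1 h1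
  rw [io_apply, ← h2, ← S.mul, mul_inv_cancel, S.one]

variable (ω : G → G → G → A)

/-- the primitive of `ω` in the coinduced module -/
def be (x y : G) : G → A := fun k => ω k x y

theorem bd2_be {ω : G → G → G → A} (hω : S.IsCoc3 ω) (x y z : G) :
    (SB G A).bd2 (be ω) x y z = io S (ω x y z) := by
  funext k
  have h := hω k x y z
  show ω (k * x) y z - ω k (x * y) z + ω k x (y * z) - ω k x y = S.s k (ω x y z)
  rw [← sub_eq_zero, ← neg_eq_zero, ← h]
  abel

theorem coc_dd {ω : G → G → G → A} (hω : S.IsCoc3 ω) : (S2 S).IsCoc fun x y => dd S (be ω x y) := by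
  intro x y z
  have h := congrArg (dd S) (bd2_be S hω x y z)
  rw [dd_io] at h
  unfold Act.bd2 at h
  rw [map_sub, map_add, map_sub, dd_s] at h
  exact h

/-- a field: a homomorphism `ρ` and a trivialisation `η` of the pullback of `ω` -/
def IsField {K : Type w} [Group K] (ρ : K →* G) (η : K → K → A) : Prop :=
  ∀ x y z, (S.comap ρ).bd2 η x y z = ω (ρ x) (ρ y) (ρ z)

variable {ω}

/-- the cocycle of the extension -/
def cc {K : Type w} [Group K] (ω : G → G → G → A) (ρ : K →* G) (η : K → K → A) (x y : K) : G → A :=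
  be ω (ρ x) (ρ y) - io S (η x y)

theorem coc_cc {K : Type w} [Group K] (hω : S.IsCoc3 ω) {ρ : K →* G} {η : K → K → A}
    (h : IsField S ω ρ η) : ((SB G A).comap ρ).IsCoc (cc S ω ρ η) := by
  intro x y z
  have h1 := bd2_be S hω (ρ x) (ρ y) (ρ z)
  have h2 := congrArg (io S) (h x y z)
  unfold Act.bd2 at h1 h2
  rw [map_sub, map_add, map_sub] at h2
  have h3 : io S ((S.comap ρ).s x (η y z)) = ((SB G A).comap ρ).s x (io S (η y z)) :=
    io_s S (ρ x) (η y z)
  rw [h3] at h2
  unfold cc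
  rw [Act.sub]
  have h4 : ((SB G A).comap ρ).s x (be ω (ρ y) (ρ z)) = (SB G A).s (ρ x) (be ω (ρ y) (ρ z)) := rfl
  rw [h4, map_mul, map_mul]
  have h5 := h1.trans h2.symm
  rw [← sub_eq_zero] at h5
  rw [← h5]
  abel

theorem dd_cc {K : Type w} [Group K] {ρ : K →* G} {η : K → K → A} (x y : K) :
    dd S (cc S ω ρ η x y) = dd S (be ω (ρ x) (ρ y)) := by
  unfold cc
  rw [map_sub, dd_io, sub_zero]

instance {K : Type u} {B : Type v} [Group K] [AddCommGroup B] {S : Act K B}
    {c : K → K → B} {hc : S.IsCoc c} [Finite K] [Finite B] : Finite (TP S c hc) := by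
  refine Finite.of_injective (fun e : TP S c hc => (e.b, e.x)) ?_
  intro e e' h
  exact TP.ext' (congrArg Prod.fst h) (congrArg Prod.snd h)

theorem card_TP {K : Type u} {B : Type v} [Group K] [AddCommGroup B] {S : Act K B}
    {c : K → K → B} {hc : S.IsCoc c} : Nat.card (TP S c hc) = Nat.card B * Nat.card K := by
  rw [← Nat.card_prod]
  exact Nat.card_congr
    { toFun := fun e : TP S c hc => (e.b, e.x)
      invFun := fun u => ⟨u.1, u.2⟩
      left_inv := fun _ => rfl
      right_inv := fun _ => rfl }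

/-- the homomorphism to the finite group -/
def ka {K : Type w} [Group K] (hω : S.IsCoc3 ω) {ρ : K →* G} {η : K → K → A}
    (h : IsField S ω ρ η) :
    TP ((SB G A).comap ρ) (cc S ω ρ η) (coc_cc S hω h) →*
      TP (S2 S) (fun x y => dd S (be ω x y)) (coc_dd S hω) where
  toFun e := ⟨dd S e.b, ρ e.x⟩
  map_one' := by
    apply TP.ext'
    · show dd S (- cc S ω ρ η 1 1) = - dd S (be ω 1 1)
      rw [map_neg, dd_cc, map_one]
    · exact map_one ρ
  map_mul' a b := by
    apply TP.ext'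
    · show dd S (a.b + (SB G A).s (ρ a.x) b.b + cc S ω ρ η a.x b.x) =
        dd S a.b + (S2 S).s (ρ a.x) (dd S b.b) + dd S (be ω (ρ a.x) (ρ b.x))
      rw [map_add, map_add, dd_cc, dd_s]
    · exact map_mul ρ _ _

/-- Automorphisms acting trivially modulo `cker` fix the classes of all fields. -/
theorem field_main {g : ℕ} (hg : 2 ≤ g) [Finite G] [Finite A] (hω : S.IsCoc3 ω)
    (φ : MulAut (SurfaceGroup g))
    (hφ : ∀ x, φ x * x⁻¹ ∈ cker (SurfaceGroup g)
      (dg (Nat.card A ^ Nat.card G) (Nat.card A ^ (Nat.card G * Nat.card G) * Nat.card G)))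
    (ρ : SurfaceGroup g →* G) (η : SurfaceGroup g → SurfaceGroup g → A) (h : IsField S ω ρ η) :
    (∀ x, ρ (φ x) = ρ x) ∧ ∃ l : SurfaceGroup g → A,
      ∀ x y, η (φ x) (φ y) - η x y = (S.comap ρ).bd l x y := by
  have hc := coc_cc S hω h
  have hn : deg (Multiplicative (G → A)) (TP (S2 S) (fun x y => dd S (be ω x y)) (coc_dd S hω)) =
      dg (Nat.card A ^ Nat.card G) (Nat.card A ^ (Nat.card G * Nat.card G) * Nat.card G) := by
    rw [deg_eq, card_TP]
    congr 2
    · rw [Nat.card_congr Multiplicative.toAdd, Nat.card_fun]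
    · rw [Nat.card_fun, Nat.card_fun, ← pow_mul]
  have hfin : Finite (Multiplicative (G → A)) := inferInstanceAs (Finite (G → A))
  obtain ⟨Φ, h1, h2, h3⟩ := lift_main hg (Multiplicative (G → A))
    (TP (S2 S) (fun x y => dd S (be ω x y)) (coc_dd S hω)) φ (by rw [hn]; exact hφ)
    (TP ((SB G A).comap ρ) (cc S ω ρ η) hc) (TP.inc hc) (TP.pr hc) (ka S hω h)
    (TP.inc_inj hc) (TP.pr_surj hc) (TP.range_inc hc)
  -- the values of `Φ`
  have h4 : ∀ x, (Φ ⟨0, x⟩).x = φ x := fun x => h2 ⟨0, x⟩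
  have h5 : ∀ x, ρ (φ x) = ρ x := by
    intro x
    have h6 := congrArg TP.x (h3 ⟨0, x⟩)
    have h7 : ρ (Φ ⟨0, x⟩).x = ρ x := h6
    rwa [h4] at h7
  refine ⟨h5, ?_⟩
  have h6 : ∀ x, dd S (Φ ⟨0, x⟩).b = 0 := by
    intro x
    have h7 := congrArg TP.b (h3 ⟨0, x⟩)
    have h8 : dd S (Φ ⟨0, x⟩).b = dd S 0 := h7
    rw [h8, map_zero]
  choose l hl using fun x => dd_zero S (h6 x)
  have h9 : ∀ x, Φ ⟨0, x⟩ = ⟨io S (l x), φ x⟩ := fun x => TP.ext' (hl x) (h4 x)
  refine ⟨l, fun x y => ?_⟩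
  have h10 : (⟨0, x⟩ : TP ((SB G A).comap ρ) (cc S ω ρ η) hc) * ⟨0, y⟩ =
      TP.inc hc (Multiplicative.ofAdd (cc S ω ρ η x y)) * ⟨0, x * y⟩ := by
    rw [TP.inc_mul]
    apply TP.ext'
    · rw [TP.mul_b, Act.zero, add_zero, zero_add]
      rfl
    · rfl
  have h11 := congrArg Φ h10
  rw [map_mul, map_mul, h1, h9, h9, h9] at h11
  have h12 := congrArg TP.b h11
  rw [TP.mul_b, TP.mul_b, TP.inc_b, TP.inc_x, Act.one, toAdd_ofAdd] at h12
  apply io_inj S
  have h13 : ((SB G A).comap ρ).s (φ x) (io S (l y)) = io S ((S.comap ρ).s x (l y)) := by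
    show (SB G A).s (ρ (φ x)) (io S (l y)) = io S (S.s (ρ x) (l y))
    rw [h5, io_s]
  have h14 : cc S ω ρ η (φ x) (φ y) = be ω (ρ x) (ρ y) - io S (η (φ x) (φ y)) := by
    unfold cc
    rw [h5, h5]
  have h15 : cc S ω ρ η x y = be ω (ρ x) (ρ y) - io S (η x y) := rfl
  simp only at h12
  rw [h13, h14, h15, TP.c_one hc (φ (x * y))] at h12
  unfold Act.bd
  rw [map_sub, map_add, map_sub]
  rw [← sub_eq_zero] at h12 ⊢
  rw [← neg_eq_zero, ← h12]
  abel

end Pool.Agent.V8H21.MCG
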