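import Pool.Agent.V8H21.MCG.Cir

set_option autoImplicit false

/-!
# Gauge transformations
-/

namespace Pool.Agent.V8H21.MCG

universe u v w

variable {G : Type u} [Group G] {A : Type v} [AddCommGroup A]

/-- the prism over a pair of elements -/
def prism (ω : G → G → G → A) (h x y : G) : A :=
  ω h x y - ω (h * x * h⁻¹) h y + ω (h * x * h⁻¹) (h * y * h⁻¹) h

theorem bd2_prism (S : Act G A) {ω : G → G → G → A} (hω : S.IsCoc3 ω) (h x y z : G) :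
    S.s (h * x * h⁻¹) (prism ω h y z) - prism ω h (x * y) z + prism ω h x (y * z) -
      prism ω h x y = S.s h (ω x y z) - ω (h * x * h⁻¹) (h * y * h⁻¹) (h * z * h⁻¹) := by
  have e1 := hω h x y z
  have e2 := hω (h * x * h⁻¹) h y z
  have e3 := hω (h * x * h⁻¹) (h * y * h⁻¹) h z
  have e4 := hω (h * x * h⁻¹) (h * y * h⁻¹) (h * z * h⁻¹) h
  have p1 : h * x * h⁻¹ * (h * y * h⁻¹) = h * (x * y) * h⁻¹ := by group
  have p2 : h * y * h⁻¹ * (h * z * h⁻¹) = h * (y * z) * h⁻¹ := by group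
  have p3 : ∀ t, h * t * h⁻¹ * h = h * t := by
    intro t
    group
  rw [p3] at e2
  rw [p1, p3] at e3
  rw [p1, p2, p3] at e4
  unfold prism
  rw [S.add, S.sub]
  rw [← sub_eq_zero]
  calc _ = -((S.s h (ω x y z) - ω (h * x) y z + ω h (x * y) z - ω h x (y * z) + ω h x y) -
      (S.s (h * x * h⁻¹) (ω h y z) - ω (h * x) y z + ω (h * x * h⁻¹) (h * y) z -
        ω (h * x * h⁻¹) h (y * z) + ω (h * x * h⁻¹) h y) +
      (S.s (h * x * h⁻¹) (ω (h * y * h⁻¹) h z) - ω (h * (x * y) * h⁻¹) h z +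
        ω (h * x * h⁻¹) (h * y) z - ω (h * x * h⁻¹) (h * y * h⁻¹) (h * z) +
        ω (h * x * h⁻¹) (h * y * h⁻¹) h) -
      (S.s (h * x * h⁻¹) (ω (h * y * h⁻¹) (h * z * h⁻¹) h) -
        ω (h * (x * y) * h⁻¹) (h * z * h⁻¹) h + ω (h * x * h⁻¹) (h * (y * z) * h⁻¹) h -
        ω (h * x * h⁻¹) (h * y * h⁻¹) (h * z) +
        ω (h * x * h⁻¹) (h * y * h⁻¹) (h * z * h⁻¹))) := by abel
    _ = 0 := by
      rw [e1, e2, e3, e4]
      simp

variable {K : Type w} [Group K]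

/-- inner automorphisms are gauge transformations -/
theorem inner_gauge (S : Act G A) {ω : G → G → G → A} {ρ : K →* G} {η : K → K → A}
    (hη : IsField S ω ρ η) (y0 x y : K) :
    η (y0 * x * y0⁻¹) (y0 * y * y0⁻¹) = S.s (ρ y0) (η x y) - prism ω (ρ y0) (ρ x) (ρ y) -
      (S.s (ρ (y0 * x * y0⁻¹)) (η y0 y - η (y0 * y * y0⁻¹) y0) -
        (η y0 (x * y) - η (y0 * (x * y) * y0⁻¹) y0) + (η y0 x - η (y0 * x * y0⁻¹) y0)) := by
  have e1 := hη y0 x y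
  have e2 := hη (y0 * x * y0⁻¹) y0 y
  have e3 := hη (y0 * x * y0⁻¹) (y0 * y * y0⁻¹) y0
  change S.s (ρ y0) (η x y) - η (y0 * x) y + η y0 (x * y) - η y0 x = ω (ρ y0) (ρ x) (ρ y) at e1
  change S.s (ρ (y0 * x * y0⁻¹)) (η y0 y) - η (y0 * x * y0⁻¹ * y0) y +
    η (y0 * x * y0⁻¹) (y0 * y) - η (y0 * x * y0⁻¹) y0 = ω (ρ (y0 * x * y0⁻¹)) (ρ y0) (ρ y) at e2
  change S.s (ρ (y0 * x * y0⁻¹)) (η (y0 * y * y0⁻¹) y0) -
    η (y0 * x * y0⁻¹ * (y0 * y * y0⁻¹)) y0 + η (y0 * x * y0⁻¹) (y0 * y * y0⁻¹ * y0) -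
    η (y0 * x * y0⁻¹) (y0 * y * y0⁻¹) =
    ω (ρ (y0 * x * y0⁻¹)) (ρ (y0 * y * y0⁻¹)) (ρ y0) at e3
  have p1 : y0 * x * y0⁻¹ * (y0 * y * y0⁻¹) = y0 * (x * y) * y0⁻¹ := by group
  have p3 : ∀ t, y0 * t * y0⁻¹ * y0 = y0 * t := by
    intro t
    group
  rw [p3] at e2
  rw [p1, p3] at e3
  have hρ : ∀ t, ρ (y0 * t * y0⁻¹) = ρ y0 * ρ t * (ρ y0)⁻¹ := by
    intro t
    rw [map_mul, map_mul, map_inv]
  unfold prism
  rw [← hρ, ← hρ, ← e1, ← e2, ← e3, S.sub]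
  abel

/-- gauge equivalence -/
def GE (S : Act G A) (ω : G → G → G → A) (ρ : K →* G) (η : K → K → A) (ρ' : K →* G)
    (η' : K → K → A) : Prop :=
  ∃ (h : G) (l : K → A), (∀ x, ρ' x = h * ρ x * h⁻¹) ∧
    ∀ x y, η' x y = S.s h (η x y) - prism ω h (ρ x) (ρ y) +
      (S.s (ρ' x) (l y) - l (x * y) + l x)

theorem ge_of (S : Act G A) {ω : G → G → G → A} {ρ : K →* G} {η : K → K → A}
    (hη : IsField S ω ρ η) (φ ψ : MulAut K) (y0 : K) (hφ : ∀ x, φ x = y0 * ψ x * y0⁻¹)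
    (h1 : ∀ x, ρ (ψ x) = ρ x) (l : K → A)
    (hl : ∀ x y, η (ψ x) (ψ y) - η x y = (S.comap ρ).bd l x y) :
    GE S ω ρ η (ρ.comp φ.toMonoidHom) (fun x y => η (φ x) (φ y)) := by
  refine ⟨ρ y0, fun x => S.s (ρ y0) (l x) - (η y0 (ψ x) - η (y0 * ψ x * y0⁻¹) y0), ?_, ?_⟩
  · intro x
    show ρ (φ x) = _
    rw [hφ, map_mul, map_mul, map_inv, h1]
  · intro x y
    show η (φ x) (φ y) = S.s (ρ y0) (η x y) - prism ω (ρ y0) (ρ x) (ρ y) +
      (S.s (ρ (φ x)) (S.s (ρ y0) (l y) - (η y0 (ψ y) - η (y0 * ψ y * y0⁻¹) y0)) -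
        (S.s (ρ y0) (l (x * y)) - (η y0 (ψ (x * y)) - η (y0 * ψ (x * y) * y0⁻¹) y0)) +
        (S.s (ρ y0) (l x) - (η y0 (ψ x) - η (y0 * ψ x * y0⁻¹) y0)))
    have h2 : η (ψ x) (ψ y) = η x y + (S.s (ρ x) (l y) - l (x * y) + l x) :=
      (sub_eq_iff_eq_add'.1 (hl x y))
    have h3 : S.s (ρ (φ x)) (S.s (ρ y0) (l y)) = S.s (ρ y0) (S.s (ρ x) (l y)) := by
      rw [← S.mul, ← S.mul, hφ, map_mul, map_mul, map_inv, h1, inv_mul_cancel_right]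
    rw [S.sub, h3, hφ x, hφ y, inner_gauge S hη, h1, h1, h2, S.add, S.add, S.sub, map_mul ψ]
    abel

/-- gauge transformations transform fields to fields -/
theorem ge_field (S : Act G A) {ω : G → G → G → A} (hω : S.IsCoc3 ω) {ρ : K →* G} {η : K → K → A}
    (hη : IsField S ω ρ η) {ρ' : K →* G} {η' : K → K → A} (h : GE S ω ρ η ρ' η') :
    IsField S ω ρ' η' := by
  obtain ⟨h, l, h1, h2⟩ := h
  intro x y z
  have e1 := bd2_prism S hω h (ρ x) (ρ y) (ρ z)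
  have e2 := hη x y z
  have e3 := (S.comap ρ').bd2_bd l x y z
  simp only [Act.bd2, Act.bd, Act.comap] at e2 e3
  rw [← map_mul, ← map_mul, ← h1, ← h1, ← h1] at e1
  show S.s (ρ' x) (η' y z) - η' (x * y) z + η' x (y * z) - η' x y = _
  rw [h2, h2, h2, h2, S.add, S.sub, ← S.mul]
  have h4 : ρ' x * h = h * ρ x := by
    rw [h1, inv_mul_cancel_right]
  rw [h4, S.mul]
  have e4 := congrArg (S.s h) e2
  rw [S.sub, S.add, S.sub] at e4
  calc _ = (S.s h (S.s (ρ x) (η y z)) - S.s h (η (x * y) z) + S.s h (η x (y * z)) -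
        S.s h (η x y)) -
      (S.s (ρ' x) (prism ω h (ρ y) (ρ z)) - prism ω h (ρ (x * y)) (ρ z) +
        prism ω h (ρ x) (ρ (y * z)) - prism ω h (ρ x) (ρ y)) +
      (S.s (ρ' x) (S.s (ρ' y) (l z) - l (y * z) + l y) -
        (S.s (ρ' (x * y)) (l z) - l (x * y * z) + l (x * y)) +
        (S.s (ρ' x) (l (y * z)) - l (x * (y * z)) + l x) -
        (S.s (ρ' x) (l y) - l (x * y) + l x)) := by abel
    _ = _ := by
      rw [e1, e4, e3]
      abel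

end Pool.Agent.V8H21.MCG
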