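import Pool.Agent.V8H21.MCG.Cen2

set_option autoImplicit false

/-!
# Finite covers which need not be regular
-/

namespace Pool.Agent.V8H21.MCG

/-- Comparison of the congruence topologies for a subgroup of finite index whose subgroups have
trivial centralizers in a strong sense. -/
theorem topology_gen3 {G S : Type} [Group G] [Group S] [Group.FG G] [Group.FG S] (ι : S →* G)
    (hf : ι.range.FiniteIndex)
    (hcen : ∀ N : Subgroup G, N.Normal → N.FiniteIndex → N ≤ ι.range →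
      ∃ k, ∀ y, (∀ p ∈ N, y * p * y⁻¹ * p⁻¹ ∈ cker G k) → y ∈ N)
    (L : Subgroup G) (hL1 : L.Normal) (hL2 : L.FiniteIndex) :
    ∃ K : Subgroup S, K.Characteristic ∧ K.FiniteIndex ∧
      ∀ (φ : MulAut G) (φ' : MulAut S), (∀ a, φ (ι a) = ι (φ' a)) →
        ∀ z, (∀ a, φ' a * (z * a * z⁻¹)⁻¹ ∈ K) → ∀ y, φ y * (ι z * y * (ι z)⁻¹)⁻¹ ∈ L := by
  let N := L ⊓ ι.range.normalCore
  have hN1 : N.Normal := inferInstance
  have hN2 : N.FiniteIndex := inferInstance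
  have hNP : N ≤ ι.range := inf_le_right.trans ι.range.normalCore_le
  obtain ⟨k, hk⟩ := hcen N hN1 hN2 hNP
  let C := cker G k
  have hC1 : C.Characteristic := inferInstance
  have hC2 : C.FiniteIndex := inferInstance
  have hC3 : C.Normal := inferInstance
  have hcom : (C.comap ι).FiniteIndex := comap_fin ι C
  refine ⟨cker S (C.comap ι).index, inferInstance, inferInstance, ?_⟩
  intro φ φ' hφ z hz y
  have hK : cker S (C.comap ι).index ≤ C.comap ι := cker_le _ hcom.index_ne_zero le_rfl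
  let π := QuotientGroup.mk' C
  have hπ : ∀ a, π (φ (ι a)) = π (ι z) * π (ι a) * (π (ι z))⁻¹ := by
    intro a
    have h1 : φ' a * (z * a * z⁻¹)⁻¹ ∈ C.comap ι := hK (hz a)
    have h2 : π (ι (φ' a * (z * a * z⁻¹)⁻¹)) = 1 := (QuotientGroup.eq_one_iff _).2 h1
    rw [map_mul, map_mul, map_inv, map_inv, mul_inv_eq_one, ← hφ] at h2
    rw [h2, map_mul, map_mul, map_inv, map_mul, map_mul, map_inv]
  let u := y⁻¹ * ((ι z)⁻¹ * φ y * ι z)
  have hu : u ∈ N := by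
    apply hk
    intro p hp
    obtain ⟨a, rfl⟩ := hNP hp
    obtain ⟨b, hb⟩ := hNP (hN1.conj_mem (ι a) hp y)
    have h1 := hπ a
    have h2 := hπ b
    rw [hb] at h2
    simp only [map_mul, map_inv] at h2
    rw [h1] at h2
    have h3 : π (u * ι a * u⁻¹ * (ι a)⁻¹) = 1 := by
      simp only [u, map_mul, map_inv]
      generalize π (φ y) = A at *
      generalize π (ι z) = B at *
      generalize π (ι a) = X at *
      generalize π y = Y at *
      have h4 : A * (B * X * B⁻¹) * A⁻¹ = B * (Y * X * Y⁻¹) * B⁻¹ := h2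
      have h5 : Y⁻¹ * (B⁻¹ * A * B) * X * (Y⁻¹ * (B⁻¹ * A * B))⁻¹ * X⁻¹ =
          Y⁻¹ * B⁻¹ * (A * (B * X * B⁻¹) * A⁻¹) * B * Y * X⁻¹ := by group
      rw [h5, h4]
      group
    exact (QuotientGroup.eq_one_iff _).1 h3
  have hu2 : u ∈ L := hu.1
  have h6 := hL1.conj_mem u hu2 (ι z * y)
  have h7 : ι z * y * u * (ι z * y)⁻¹ = φ y * (ι z * y * (ι z)⁻¹)⁻¹ := by
    simp only [u]
    group
  rwa [h7] at h6

section general

variable {G : Type} [Group G] {S : Type} [Group S] (ι : S →* G)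

/-- The transfer of the congruence subgroup property. -/
theorem transfer_general3 [hfg : Group.FG G] (hf : ι.range.FiniteIndex)
    (hι : Function.Injective ι)
    (htop : ∀ L : Subgroup G, L.Normal → L.FiniteIndex →
      ∃ K : Subgroup S, K.Characteristic ∧ K.FiniteIndex ∧
        ∀ (φ : MulAut G) (φ' : MulAut S), (∀ a, φ (ι a) = ι (φ' a)) →
          ∀ z, (∀ a, φ' a * (z * a * z⁻¹)⁻¹ ∈ K) → ∀ y, φ y * (ι z * y * (ι z)⁻¹)⁻¹ ∈ L)
    (C : Subgroup G) [C.Characteristic] [C.FiniteIndex]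
    (hcen : ∀ y, (∀ p, y * p * y⁻¹ * p⁻¹ ∈ C) → y ∈ ι.range)
    (hcsp : CSP G) (H : Subgroup (MulAut S)) (hH : (H.subgroupOf (SymP ι)).FiniteIndex)
    (hinn : ∀ x : S, MulAut.conj x ∈ H) :
    ∃ K : Subgroup S, K.Characteristic ∧ K.FiniteIndex ∧
      ∀ (φ : MulAut G) (φ' : MulAut S), (∀ a, φ (ι a) = ι (φ' a)) →
        (∃ z, ∀ a, φ' a * (z * a * z⁻¹)⁻¹ ∈ K) → φ' ∈ H := by
  have hA := autP_fin ι hι hf
  let W : Subgroup (MulAut G) := (H.comap (resP ι hι)).map (AutP ι).subtype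
  have hW : W.FiniteIndex := by
    have h1 : (H.comap (resP ι hι)).FiniteIndex := by
      refine ⟨?_⟩
      rw [Subgroup.index_comap, resP_range]
      exact hH.index_ne_zero
    refine ⟨?_⟩
    rw [Subgroup.index_map_subtype]
    exact mul_ne_zero h1.index_ne_zero hA.index_ne_zero
  have hWmem : ∀ (φ : MulAut G) (φ' : MulAut S), (∀ a, φ (ι a) = ι (φ' a)) →
      (φ ∈ W ↔ φ' ∈ H) := by
    intro φ φ' hφ
    have huniq : ∀ x : AutP ι, x.1 = φ → resP ι hι x = φ' := by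
      rintro x rfl
      ext a
      apply hι
      rw [← resP_spec, hφ]
    constructor
    · rintro ⟨x, hx, hxφ⟩
      have h1 := huniq x hxφ
      have h2 : resP ι hι x ∈ H := hx
      rwa [h1] at h2
    · intro h
      refine ⟨⟨φ, φ', hφ⟩, ?_, rfl⟩
      show resP ι hι _ ∈ H
      rw [huniq _ rfl]
      exact h
  have hC := qact_ker_fin C
  let W₁ : Subgroup (MulAut G) := W.normalCore ⊓ (qact C).ker
  have hW₁n : W₁.Normal := inferInstance
  have hW₁f : W₁.FiniteIndex := inferInstance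
  let U : Subgroup (MulAut G) := W₁ ⊔ (MulAut.conj : G →* MulAut G).range
  have hU : U.FiniteIndex := Subgroup.finiteIndex_of_le (H := W₁) le_sup_left
  obtain ⟨Γ, hΓ1, hΓ2, hΓ⟩ := hcsp U hU (fun x => Subgroup.mem_sup_right ⟨x, rfl⟩)
  obtain ⟨K, hK1, hK2, hK⟩ := htop (Γ ⊓ C) inferInstance inferInstance
  refine ⟨K, hK1, hK2, ?_⟩
  rintro φ φ' hφ ⟨z, hz⟩
  have h1 := hK φ φ' hφ z hz
  have h2 : φ ∈ U := hΓ φ ⟨ι z, fun x => (h1 x).1⟩
  rw [Subgroup.mem_sup_of_normal_left] at h2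
  obtain ⟨w, hw, _, ⟨c, rfl⟩, hwc⟩ := h2
  -- `c` lies in the range
  have h3 := (mem_qact_ker C w).1 hw.2
  have h4 : c⁻¹ * ι z ∈ ι.range := by
    apply hcen
    intro p
    let π := QuotientGroup.mk' C
    have e1 : ∀ p, π (φ p) = π (ι z) * π p * (π (ι z))⁻¹ := by
      intro p
      have : π (φ p * (ι z * p * (ι z)⁻¹)⁻¹) = 1 := (QuotientGroup.eq_one_iff _).2 (h1 p).2
      rw [map_mul, map_inv, mul_inv_eq_one] at this
      rw [this, map_mul, map_mul, map_inv]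
    have e2 : ∀ p, π (φ p) = π c * π p * (π c)⁻¹ := by
      intro p
      have : π (w (c * p * c⁻¹) * (c * p * c⁻¹)⁻¹) = 1 := (QuotientGroup.eq_one_iff _).2 (h3 _)
      rw [map_mul, map_inv π, mul_inv_eq_one] at this
      rw [← hwc, MulAut.mul_apply, MulAut.conj_apply, this, map_mul, map_mul, map_inv]
    have e3 : π (c⁻¹ * ι z * p * (c⁻¹ * ι z)⁻¹ * p⁻¹) = 1 := by
      have e4 := (e1 p).symm.trans (e2 p)
      simp only [map_mul, map_inv]
      have e5 : (π c)⁻¹ * π (ι z) * π p * ((π c)⁻¹ * π (ι z))⁻¹ * (π p)⁻¹ =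
          (π c)⁻¹ * (π (ι z) * π p * (π (ι z))⁻¹) * π c * (π p)⁻¹ := by group
      rw [e5, e4]
      group
    exact (QuotientGroup.eq_one_iff _).1 e3
  obtain ⟨b, hb⟩ := h4
  have h5 : c = ι (z * b⁻¹) := by
    rw [map_mul, map_inv, hb]
    group
  have h6 : φ ∈ W := by
    rw [← hwc]
    apply Subgroup.mul_mem
    · exact W.normalCore_le hw.1
    · rw [hWmem (MulAut.conj c) (MulAut.conj (z * b⁻¹)) (by
        intro a
        rw [MulAut.conj_apply, MulAut.conj_apply, map_mul ι, map_mul ι, map_inv ι, h5])]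
      exact hinn _
  exact (hWmem φ φ' hφ).1 h6

end general

section conv

variable {G S : Type} [Group G] [Group S] (ι : S →* G) (hι : Function.Injective ι)

include hι in
/-- From the subgroup to the group. -/
theorem transfer_conv3 [hfgG : Group.FG G] (hf : ι.range.FiniteIndex)
    (heff : ∀ y, (∀ p ∈ ι.range.normalCore, y * p = p * y) → y = 1)
    (hsym : ∀ H : Subgroup (MulAut S), (H.subgroupOf (SymP ι)).FiniteIndex →
      (∀ x, MulAut.conj x ∈ H) → ∃ K : Subgroup S, K.Characteristic ∧ K.FiniteIndex ∧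
        ∀ φ' ∈ SymP ι, (∃ z, ∀ a, φ' a * (z * a * z⁻¹)⁻¹ ∈ K) → φ' ∈ H) : CSP G := by
  intro H hH hinn
  let f := resP ι hι
  have hA := autP_fin ι hι hf
  -- an automorphism is determined by its restriction
  have hdet : ∀ (φ ψ : MulAut G) (φ' : MulAut S), (∀ a, φ (ι a) = ι (φ' a)) →
      (∀ a, ψ (ι a) = ι (φ' a)) → φ = ψ := by
    intro φ ψ φ' h1 h2
    have hP : ι.range.normalCore.Normal := inferInstance
    have hinv : ∀ q ∈ ι.range.normalCore, φ⁻¹ q ∈ ι.range.normalCore := by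
      intro q hq g
      obtain ⟨a, ha⟩ := ι.range.normalCore_le (hP.conj_mem q hq (φ g))
      refine ⟨φ'⁻¹ a, ?_⟩
      apply φ.injective
      rw [h1, MulAut.apply_inv_self, ha, map_mul, map_mul, map_inv, MulAut.apply_inv_self]
    have hagree : ∀ p ∈ ι.range.normalCore, φ p = ψ p := by
      intro p hp
      obtain ⟨a, rfl⟩ := ι.range.normalCore_le hp
      rw [h1, h2]
    ext y
    rw [← inv_mul_eq_one]
    apply heff
    intro q hq
    obtain ⟨p, hp, rfl⟩ : ∃ p, p ∈ ι.range.normalCore ∧ φ p = q :=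
      ⟨φ⁻¹ q, hinv q hq, MulAut.apply_inv_self _ _ _⟩
    have e1 := hagree (y * p * y⁻¹) (hP.conj_mem p hp y)
    rw [map_mul, map_mul, map_inv, map_mul, map_mul, map_inv, ← hagree p hp] at e1
    calc (φ y)⁻¹ * ψ y * φ p = (φ y)⁻¹ * (ψ y * φ p * (ψ y)⁻¹) * ψ y := by group
      _ = (φ y)⁻¹ * (φ y * φ p * (φ y)⁻¹) * ψ y := by rw [e1]
      _ = _ := by group
  let H' : Subgroup (MulAut S) := (H.subgroupOf (AutP ι)).map f
  have hmem : ∀ (φ : MulAut G) (φ' : MulAut S), (∀ a, φ (ι a) = ι (φ' a)) →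
      (φ' ∈ H' ↔ φ ∈ H) := by
    intro φ φ' hφ
    constructor
    · rintro ⟨x, hx, hxφ⟩
      have h1 : x.1 = φ := hdet x.1 φ φ' (fun a => by rw [resP_spec ι hι x a]; rw [← hxφ]) hφ
      rw [← h1]
      exact hx
    · intro h
      refine ⟨⟨φ, φ', hφ⟩, h, ?_⟩
      ext a
      apply hι
      rw [← resP_spec, ← hφ]
  have hfin : (H'.subgroupOf (SymP ι)).FiniteIndex := by
    rw [← resP_range ι hι]
    have h1 : ((H.subgroupOf (AutP ι)).map f.rangeRestrict).FiniteIndex := by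
      refine ⟨?_⟩
      have h2 : ((H.subgroupOf (AutP ι)).map f.rangeRestrict).index ∣
          (H.subgroupOf (AutP ι)).index :=
        Subgroup.index_map_dvd _ f.rangeRestrict_surjective
      have h3 : (H.subgroupOf (AutP ι)).index ≠ 0 := Subgroup.FiniteIndex.index_ne_zero
      intro h4
      rw [h4, zero_dvd_iff] at h2
      exact h3 h2
    refine Subgroup.finiteIndex_of_le (H := (H.subgroupOf (AutP ι)).map f.rangeRestrict) ?_
    rintro _ ⟨x, hx, rfl⟩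
    exact ⟨x, hx, rfl⟩
  obtain ⟨K, hK1, hK2, hK⟩ := hsym H' hfin (by
    intro z
    rw [hmem (MulAut.conj (ι z)) (MulAut.conj z) (by
      intro a
      rw [MulAut.conj_apply, MulAut.conj_apply, map_mul ι, map_mul ι, map_inv ι])]
    exact hinn _)
  -- a characteristic subgroup inside `ι K`
  have hK0 : K.index ≠ 0 := hK2.index_ne_zero
  have hKi : (K.map ι).index ≠ 0 := by
    have h3 : (K.map ι).index = (K ⊔ ι.ker).index * ι.range.index := Subgroup.index_map K ι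
    rw [h3, (MonoidHom.ker_eq_bot_iff ι).2 hι, sup_bot_eq]
    exact mul_ne_zero hK0 hf.index_ne_zero
  refine ⟨cker G (K.map ι).index, inferInstance, inferInstance, ?_⟩
  rintro φ ⟨c, hc⟩
  have hle : cker G (K.map ι).index ≤ K.map ι := cker_le _ hKi le_rfl
  let C := cker G (K.map ι).index
  have hC : C.Normal := inferInstance
  have hCc : C.Characteristic := inferInstance
  let ψ := MulAut.conj c⁻¹ * φ
  have hψ : ∀ y, ψ y * y⁻¹ ∈ C := by
    intro y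
    have h1 := hC.conj_mem _ (hc y) c⁻¹
    have h2 : c⁻¹ * (φ y * (c * y * c⁻¹)⁻¹) * c⁻¹⁻¹ = ψ y * y⁻¹ := by
      show _ = MulAut.conj c⁻¹ (φ y) * y⁻¹
      rw [MulAut.conj_apply]
      group
    rwa [h2] at h1
  have hψP : ∀ p ∈ ι.range, ψ p ∈ ι.range := by
    intro p hp
    obtain ⟨k, hk, hk2⟩ := hle (hψ p)
    have h3 : ψ p = ι k * p := by rw [hk2, inv_mul_cancel_right]
    rw [h3]
    exact Subgroup.mul_mem _ ⟨k, rfl⟩ hp
  have hψ' : ∀ y, ψ⁻¹ y * y⁻¹ ∈ C := by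
    intro y
    have h1 := hψ (ψ⁻¹ y)
    rw [MulAut.apply_inv_self] at h1
    have h2 := Subgroup.inv_mem _ h1
    rwa [mul_inv_rev, inv_inv] at h2
  have hψP' : ∀ p ∈ ι.range, ψ⁻¹ p ∈ ι.range := by
    intro p hp
    obtain ⟨k, hk, hk2⟩ := hle (hψ' p)
    have h3 : ψ⁻¹ p = ι k * p := by rw [hk2, inv_mul_cancel_right]
    rw [h3]
    exact Subgroup.mul_mem _ ⟨k, rfl⟩ hp
  obtain ⟨ψ₀, hψ₀⟩ := exists_res ι hι ψ hψP hψP'
  have h4 : ψ₀ ∈ H' := by
    apply hK ψ₀ ⟨ψ, hψ₀⟩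
    refine ⟨1, fun a => ?_⟩
    obtain ⟨k, hk, hk2⟩ := hle (hψ (ι a))
    have h5 : k = ψ₀ a * (1 * a * 1⁻¹)⁻¹ := by
      apply hι
      rw [hk2, hψ₀]
      simp
    rw [← h5]
    exact hk
  have h5 : ψ ∈ H := (hmem ψ ψ₀ hψ₀).1 h4
  have h6 : φ = MulAut.conj c * ψ := by
    show φ = MulAut.conj c * (MulAut.conj c⁻¹ * φ)
    rw [← mul_assoc, ← map_mul, mul_inv_cancel, map_one, one_mul]
  rw [h6]
  exact Subgroup.mul_mem _ (hinn c) h5

end conv

section main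

variable {h n : ℕ} {m : Fin n → ℕ}

theorem topology3 {g' : ℕ} (ι : SurfaceGroup g' →* Orb h n m) (hm : ∀ j, m j ≠ 0)
    (hyp : (∑ j, (1 : ℚ) / (m j)) < ((2 * h + n : ℕ) : ℚ) - 2)
    (hf : ι.range.FiniteIndex) (hc : ∀ j k, cone h n m j ^ k ∈ ι.range → m j ∣ k)
    (L : Subgroup (Orb h n m)) (hL1 : L.Normal) (hL2 : L.FiniteIndex) :
    ∃ K : Subgroup (SurfaceGroup g'), K.Characteristic ∧ K.FiniteIndex ∧
      ∀ (φ : MulAut (Orb h n m)) (φ' : MulAut (SurfaceGroup g')), (∀ a, φ (ι a) = ι (φ' a)) →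
        ∀ z, (∀ a, φ' a * (z * a * z⁻¹)⁻¹ ∈ K) → ∀ y, φ y * (ι z * y * (ι z)⁻¹)⁻¹ ∈ L := by
  have hfgO := orb_fg h n m
  have hfgS := surface_fg g'
  exact topology_gen3 ι hf (fun N h1 h2 h3 => centr3 hm hyp N h1 h2
    (fun j k hjk => hc j k (h3 hjk))) L hL1 hL2

theorem transfer3 {g' : ℕ} (ι : SurfaceGroup g' →* Orb h n m) (hm : ∀ j, m j ≠ 0)
    (hyp : (∑ j, (1 : ℚ) / (m j)) < ((2 * h + n : ℕ) : ℚ) - 2) (hι : Function.Injective ι)
    (hf : ι.range.FiniteIndex)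
    (hc : ∀ j k, cone h n m j ^ k ∈ ι.range → m j ∣ k)
    (hcsp : CSP (Orb h n m)) (H : Subgroup (MulAut (SurfaceGroup g')))
    (hH : (H.subgroupOf (SymP ι)).FiniteIndex) (hinn : ∀ x, MulAut.conj x ∈ H) :
    ∃ K : Subgroup (SurfaceGroup g'), K.Characteristic ∧ K.FiniteIndex ∧
      ∀ (φ : MulAut (Orb h n m)) (φ' : MulAut (SurfaceGroup g')), (∀ a, φ (ι a) = ι (φ' a)) →
        (∃ z, ∀ a, φ' a * (z * a * z⁻¹)⁻¹ ∈ K) → φ' ∈ H := by
  have hfgO := orb_fg h n m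
  obtain ⟨k, hk⟩ := centr3 hm hyp ι.range.normalCore inferInstance inferInstance
    (fun j k hjk => hc j k (ι.range.normalCore_le hjk))
  exact transfer_general3 ι hf hι (fun L h1 h2 => topology3 ι hm hyp hf hc L h1 h2)
    (cker (Orb h n m) k) (fun y hy => ι.range.normalCore_le (hk y (fun p _ => hy p))) hcsp H hH
      hinn

variable {m' : Fin n → ℕ} {g' : ℕ} (ι : SurfaceGroup g' →* Orb h n m)
  (f : Orb h n m →* Orb h n m')

/-- The pointed mapping classes. -/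
theorem pointed4 (hf' : ∀ u, f (PresentedGroup.of u) = PresentedGroup.of u) (hm : ∀ j, 2 ≤ m j)
    (hd : ∀ j, m' j ∣ m j)
    (hyp : (∑ j, (1 : ℚ) / (m j)) < ((2 * h + n : ℕ) : ℚ) - 2)
    (hyp' : (∑ j, (1 : ℚ) / (m' j)) < ((2 * h + n : ℕ) : ℚ) - 2) 
    (hf : ι.range.FiniteIndex) (hc : ∀ j k, cone h n m j ^ k ∈ ι.range → m j ∣ k)
    (j : Fin n) (hj : m' j = 1) (Γ : Subgroup (Orb h n m')) [hΓ1 : Γ.Normal] [hΓ2 : Γ.FiniteIndex]
    (hΓ : ∀ j k, cone h n m' j ^ k ∈ Γ → m' j ∣ k) :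
    ∃ K : Subgroup (SurfaceGroup g'), K.Characteristic ∧ K.FiniteIndex ∧
      ∀ (φ : MulAut (Orb h n m)) (φ' : MulAut (SurfaceGroup g')), (∀ a, φ (ι a) = ι (φ' a)) →
        (∃ z, ∀ a, φ' a * (z * a * z⁻¹)⁻¹ ∈ K) →
          ∀ i w, φ (cone h n m j) = w * cone h n m i * w⁻¹ → i = j ∧
            ∀ y, f (φ y) * (f w * f y * (f w)⁻¹)⁻¹ ∈ Γ := by
  have hm' : ∀ j, m' j ≠ 0 := by
    intro j h1
    have h2 := hd j
    rw [h1, zero_dvd_iff] at h2
    have := hm j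
    omega
  obtain ⟨Γ₂, hle, hΓ₂1, hΓ₂2, hidx⟩ := exists_deep hm' hyp' Γ hΓ
  obtain ⟨k, hk⟩ := sep_cone3 f hf' j hj (hm j) Γ₂ hidx
  have hcf : (Γ.comap f).FiniteIndex := by
    refine ⟨?_⟩
    rw [Subgroup.index_comap]
    exact Subgroup.FiniteIndex.index_ne_zero (H := Γ.subgroupOf f.range)
  have hcn : (Γ.comap f).Normal := inferInstance
  have hfgO := orb_fg h n m
  have hLf : (Γ.comap f ⊓ cker (Orb h n m) k).FiniteIndex := inferInstance
  obtain ⟨K, hK1, hK2, hK⟩ := topology3 ι (fun j => by have := hm j; omega) hyp hf hc (Γ.comap f ⊓ cker (Orb h n m) k)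
    inferInstance inferInstance
  refine ⟨K, hK1, hK2, ?_⟩
  rintro φ φ' hφ ⟨z, hz⟩ i w hw
  have h1 := hK φ φ' hφ z hz
  have h2 : i = j ∧ f ((ι z)⁻¹ * w) ∈ Γ₂ := by
    apply hk
    have h3 := h1 (cone h n m j)
    rw [hw] at h3
    have h4 : w * cone h n m i * w⁻¹ * (ι z * cone h n m j * (ι z)⁻¹)⁻¹ ∈
        cker (Orb h n m) k := h3.2
    have h5 := (inferInstance : (cker (Orb h n m) k).Normal).conj_mem _ h4 (ι z)⁻¹
    have h6 : (ι z)⁻¹ * (w * cone h n m i * w⁻¹ * (ι z * cone h n m j * (ι z)⁻¹)⁻¹) * (ι z)⁻¹⁻¹ =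
        (ι z)⁻¹ * w * cone h n m i * ((ι z)⁻¹ * w)⁻¹ * (cone h n m j)⁻¹ := by group
    rwa [h6] at h5
  obtain ⟨hij, h2⟩ := h2
  refine ⟨hij, fun y => ?_⟩
  have h3 : f (φ y * (ι z * y * (ι z)⁻¹)⁻¹) ∈ Γ := (h1 y).1
  -- in the quotient
  let π := QuotientGroup.mk' Γ
  have e1 : π (f w) = π (f (ι z)) := by
    have : π (f ((ι z)⁻¹ * w)) = 1 := (QuotientGroup.eq_one_iff _).2 (hle h2)
    rw [map_mul, map_inv, map_mul, map_inv, inv_mul_eq_one] at this
    exact this.symm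
  have e2 : π (f (φ y)) = π (f (ι z)) * π (f y) * (π (f (ι z)))⁻¹ := by
    have : π (f (φ y * (ι z * y * (ι z)⁻¹)⁻¹)) = 1 := (QuotientGroup.eq_one_iff _).2 h3
    rw [map_mul, map_inv, map_mul, map_inv, mul_inv_eq_one] at this
    rw [this]
    simp only [map_mul, map_inv]
  apply (QuotientGroup.eq_one_iff _).1
  show π _ = 1
  simp only [map_mul, map_inv]
  rw [e1, e2, mul_inv_cancel]

/-- Point pushing. -/
theorem pushing4 (hf' : ∀ u, f (PresentedGroup.of u) = PresentedGroup.of u) (hm : ∀ j, 2 ≤ m j)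
    (hd : ∀ j, m' j ∣ m j)
    (hyp : (∑ j, (1 : ℚ) / (m j)) < ((2 * h + n : ℕ) : ℚ) - 2)
    (hyp' : (∑ j, (1 : ℚ) / (m' j)) < ((2 * h + n : ℕ) : ℚ) - 2) 
    (hf : ι.range.FiniteIndex) (hc : ∀ j k, cone h n m j ^ k ∈ ι.range → m j ∣ k)
    (j : Fin n) (hj : m' j = 1) (Γ : Subgroup (Orb h n m')) [hΓ1 : Γ.Normal] [hΓ2 : Γ.FiniteIndex]
    (hΓ : ∀ j k, cone h n m' j ^ k ∈ Γ → m' j ∣ k) :
    ∃ K : Subgroup (SurfaceGroup g'), K.Characteristic ∧ K.FiniteIndex ∧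
      ∀ (φ : MulAut (Orb h n m)) (φ' : MulAut (SurfaceGroup g')), (∀ a, φ (ι a) = ι (φ' a)) →
        (∃ z, ∀ a, φ' a * (z * a * z⁻¹)⁻¹ ∈ K) →
          ∀ w, φ (cone h n m j) = w * cone h n m j * w⁻¹ →
            ∀ γ, (∀ y, f (φ y) = f w * (γ * f y * γ⁻¹) * (f w)⁻¹) → γ ∈ Γ := by
  have hm' : ∀ j, m' j ≠ 0 := by
    intro j h1
    have h2 := hd j
    rw [h1, zero_dvd_iff] at h2
    have := hm j
    omega
  have hfgO := orb_fg h n m'
  obtain ⟨k, hk⟩ := centr3 hm' hyp' Γ hΓ1 hΓ2 hΓ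
  obtain ⟨K, hK1, hK2, hK⟩ := pointed4 ι f hf' hm hd hyp hyp' hf hc j hj
    (Γ ⊓ cker (Orb h n m') k) (fun j k hjk => hΓ j k hjk.1)
  refine ⟨K, hK1, hK2, ?_⟩
  intro φ φ' hφ hz w hw γ hγ
  have h1 := (hK φ φ' hφ hz j w hw).2
  apply hk
  intro p hp
  have hfs : Function.Surjective f := by
    intro q
    obtain ⟨u, rfl⟩ := QuotientGroup.mk_surjective q
    exact ⟨PresentedGroup.mk _ u, red_mk f hf' u⟩
  obtain ⟨y, rfl⟩ := hfs p
  have h2 := (h1 y).2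
  rw [hγ] at h2
  have h3 := (inferInstance : (cker (Orb h n m') k).Normal).conj_mem _ h2 (f w)⁻¹
  have h4 : (f w)⁻¹ * (f w * (γ * f y * γ⁻¹) * (f w)⁻¹ *
      (f w * f y * (f w)⁻¹)⁻¹) * (f w)⁻¹⁻¹ = γ * f y * γ⁻¹ * (f y)⁻¹ := by group
  rwa [h4] at h3

end main

/-- the natural homomorphism -/
theorem exists_red {h n : ℕ} {m m' : Fin n → ℕ} (hd : ∀ i, m' i ∣ m i) :
    ∃ f : Orb h n m →* Orb h n m', ∀ u, f (PresentedGroup.of u) = PresentedGroup.of u := by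
  have h0 : FreeGroup.lift (PresentedGroup.of : OGen h n → Orb h n m') =
      PresentedGroup.mk (orels h n m') := by
    ext u
    rw [FreeGroup.lift_apply_of]
    rfl
  refine ⟨PresentedGroup.toGroup (f := PresentedGroup.of) ?_, fun u => ?_⟩
  · intro x hx
    rw [h0]
    rcases hx with rfl | ⟨k, rfl⟩
    · exact PresentedGroup.one_of_mem (Or.inl rfl)
    · have h1 : (PresentedGroup.mk (orels h n m')) (og h n k ^ m' k) = 1 :=
        PresentedGroup.one_of_mem (Or.inr ⟨k, rfl⟩)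
      obtain ⟨c, hc⟩ := hd k
      rw [hc, pow_mul, map_pow, h1, one_pow]
  · rw [PresentedGroup.toGroup.of]

end Pool.Agent.V8H21.MCG
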