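import Mathlib

set_option autoImplicit false

/-!
# Permutations realising an extension of a closed surface group by a finite group
-/

namespace Pool.Agent.V8H21.MCG

open Equiv

/-- the commutator of the `i`-th pair of generators -/
def cm (g : ℕ) (i : Fin g) : FreeGroup (Fin g ⊕ Fin g) :=
  FreeGroup.of (Sum.inl i) * FreeGroup.of (Sum.inr i) *
    (FreeGroup.of (Sum.inl i))⁻¹ * (FreeGroup.of (Sum.inr i))⁻¹

/-- The relator `[a_1, b_1] ⋯ [a_g, b_g]` of the surface group. -/
def rel (g : ℕ) : FreeGroup (Fin g ⊕ Fin g) := (List.ofFn (cm g)).prod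

section perms

variable (m : ℕ)

/-- `(p, s) ↦ (p, s + p)` -/
def pX : Perm (ZMod m × ZMod m) where
  toFun u := (u.1, u.2 + u.1)
  invFun u := (u.1, u.2 - u.1)
  left_inv u := by simp
  right_inv u := by simp

/-- `(p, s) ↦ (p + 1, s)` -/
def pY : Perm (ZMod m × ZMod m) where
  toFun u := (u.1 + 1, u.2)
  invFun u := (u.1 - 1, u.2)
  left_inv u := by simp
  right_inv u := by simp

theorem comm_XY (u : ZMod m × ZMod m) : (pX m * pY m * (pX m)⁻¹ * (pY m)⁻¹) u = (u.1, u.2 + 1) := by
  show ((u.1 - 1 + 1, (u.2 - (u.1 - 1)) + (u.1 - 1 + 1)) : ZMod m × ZMod m) = _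
  ext
  · simp
  · simp only
    ring

theorem comm_YX (u : ZMod m × ZMod m) : (pY m * pX m * (pY m)⁻¹ * (pX m)⁻¹) u = (u.1, u.2 - 1) := by
  show ((u.1 - 1 + 1, (u.2 - u.1) + (u.1 - 1)) : ZMod m × ZMod m) = _
  ext
  · simp
  · simp only
    ring

variable {m}

/-- values of the action on the second factor -/
def tg (g : ℕ) (m : ℕ) : Fin (g + 2) ⊕ Fin (g + 2) → Perm (ZMod m × ZMod m)
  | Sum.inl i => if i = 0 then pX m else if i = 1 then pY m else 1
  | Sum.inr i => if i = 0 then pY m else if i = 1 then pX m else 1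

def th (g : ℕ) (m : ℕ) : FreeGroup (Fin (g + 2) ⊕ Fin (g + 2)) →* Perm (ZMod m × ZMod m) :=
  FreeGroup.lift (tg g m)

theorem th_cm0 (g m : ℕ) (u : ZMod m × ZMod m) : th g m (cm (g + 2) 0) u = (u.1, u.2 + 1) := by
  have h : th g m (cm (g + 2) 0) = pX m * pY m * (pX m)⁻¹ * (pY m)⁻¹ := by
    unfold th cm
    simp [tg]
  rw [h, comm_XY]

theorem th_cm1 (g m : ℕ) (u : ZMod m × ZMod m) : th g m (cm (g + 2) 1) u = (u.1, u.2 - 1) := by
  have h : th g m (cm (g + 2) 1) = pY m * pX m * (pY m)⁻¹ * (pX m)⁻¹ := by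
    unfold th cm
    simp [tg]
  rw [h, comm_YX]

theorem th_cm2 (g m : ℕ) (i : Fin g) : th g m (cm (g + 2) i.succ.succ) = 1 := by
  unfold th cm
  have h1 : (i.succ.succ : Fin (g + 2)) ≠ 0 := Fin.succ_ne_zero _
  have h2 : (i.succ.succ : Fin (g + 2)) ≠ 1 := by
    intro h
    have := congrArg Fin.val h
    simp at this
  simp [tg, h1, h2]

/-- the product of the commutators but the first one -/
def z2 (g : ℕ) : FreeGroup (Fin (g + 2) ⊕ Fin (g + 2)) :=
  (List.ofFn fun i : Fin (g + 1) => cm (g + 2) i.succ).prod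

theorem rel_eq (g : ℕ) : rel (g + 2) = cm (g + 2) 0 * z2 g := by
  unfold rel z2
  rw [List.ofFn_succ, List.prod_cons]

theorem th_z2 (g m : ℕ) (u : ZMod m × ZMod m) : th g m (z2 g) u = (u.1, u.2 - 1) := by
  have h : th g m (z2 g) = th g m (cm (g + 2) 1) := by
    unfold z2
    rw [List.ofFn_succ, List.prod_cons, map_mul]
    have h1 : th g m (List.ofFn fun i : Fin g => cm (g + 2) i.succ.succ).prod = 1 := by
      rw [map_list_prod]
      apply List.prod_eq_one
      intro x hx
      rw [List.mem_map] at hx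
      obtain ⟨y, hy, rfl⟩ := hx
      rw [List.mem_ofFn] at hy
      obtain ⟨i, rfl⟩ := hy
      exact th_cm2 g m i
    rw [h1, mul_one]
    rfl
  rw [h, th_cm1]

end perms

section main

variable {N : Type*} [Group N] (g : ℕ)

variable (α : FreeGroup (Fin (g + 2) ⊕ Fin (g + 2)) →* MulAut N) (r : N)

/-- the permutation `y ↦ α(z₂)(y r)` -/
def pT : Perm N := (Equiv.mulRight r).trans (α (z2 g)).toEquiv

theorem pT_apply (y : N) : pT g α r y = α (z2 g) (y * r) := rfl

/-- its order divides `m` -/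
theorem pT_pow {m : ℕ} (hm : m = Nat.card (Perm N)) : (pT g α r) ^ m = 1 := by
  rw [hm]
  exact pow_card_eq_one'

/-- the orbit of one under `pT` -/
def pS (m : ℕ) (k : ZMod m) : N := ((pT g α r) ^ k.val) 1

theorem pS_succ [Finite N] {m : ℕ} (hm : m = Nat.card (Perm N)) (k : ZMod m) :
    pS g α r m (k + 1) = α (z2 g) (pS g α r m k * r) := by
  have hm0 : NeZero m := ⟨by
    rw [hm]
    exact Nat.card_pos.ne'⟩
  unfold pS
  rw [← pT_apply g α r, ← Perm.mul_apply, ← pow_succ']
  congr 1
  have h1 : (k + 1).val = (k.val + 1) % m := by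
    rw [ZMod.val_add, ZMod.val_one_eq_one_mod, Nat.add_mod_mod]
  rw [h1]
  have h2 := pT_pow g α r hm
  conv_rhs => rw [← Nat.div_add_mod (k.val + 1) m, pow_add, pow_mul, h2, one_pow, one_mul]

/-- left multiplication -/
def pj (m : ℕ) : N →* Perm (N × ZMod m × ZMod m) where
  toFun n := 
    { toFun := fun u => (n * u.1, u.2)
      invFun := fun u => (n⁻¹ * u.1, u.2)
      left_inv := fun u => by simp
      right_inv := fun u => by simp }
  map_one' := by
    ext u <;> simp
  map_mul' a b := by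
    ext u <;> simp [mul_assoc]

theorem pj_apply (m : ℕ) (n : N) (u : N × ZMod m × ZMod m) : pj m n u = (n * u.1, u.2) := rfl

theorem pj_inj (m : ℕ) : Function.Injective (pj (N := N) m) := by
  intro a b h
  have h1 := congrArg (fun f : Perm (N × ZMod m × ZMod m) => (f (1, 0)).1) h
  simpa [pj_apply] using h1

/-- the diagonal action -/
def f0 (m : ℕ) : FreeGroup (Fin (g + 2) ⊕ Fin (g + 2)) →* Perm (N × ZMod m × ZMod m) where
  toFun w := Equiv.prodCongr (α w).toEquiv (th g m w)
  map_one' := by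
    ext u <;> simp
  map_mul' a b := by
    ext u <;> simp

theorem f0_apply (m : ℕ) (w : FreeGroup (Fin (g + 2) ⊕ Fin (g + 2))) (u : N × ZMod m × ZMod m) :
    f0 g α m w u = (α w u.1, th g m w u.2) := rfl

/-- right multiplication by `pS` -/
def pt (m : ℕ) : Perm (N × ZMod m × ZMod m) where
  toFun u := (u.1 * pS g α r m (- u.2.2), u.2)
  invFun u := (u.1 * (pS g α r m (- u.2.2))⁻¹, u.2)
  left_inv u := by simp
  right_inv u := by simp

theorem pt_apply (m : ℕ) (u : N × ZMod m × ZMod m) :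
    pt g α r m u = (u.1 * pS g α r m (- u.2.2), u.2) := rfl

theorem pt_inv_apply (m : ℕ) (u : N × ZMod m × ZMod m) :
    (pt g α r m)⁻¹ u = (u.1 * (pS g α r m (- u.2.2))⁻¹, u.2) := rfl

/-- the action of the generators -/
def fg (m : ℕ) : Fin (g + 2) ⊕ Fin (g + 2) → Perm (N × ZMod m × ZMod m)
  | Sum.inl i => if i = 0 then f0 g α m (FreeGroup.of (Sum.inl i)) else
      MulAut.conj (pt g α r m) (f0 g α m (FreeGroup.of (Sum.inl i)))
  | Sum.inr i => if i = 0 then f0 g α m (FreeGroup.of (Sum.inr i)) else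
      MulAut.conj (pt g α r m) (f0 g α m (FreeGroup.of (Sum.inr i)))

/-- the representation -/
def ff (m : ℕ) : FreeGroup (Fin (g + 2) ⊕ Fin (g + 2)) →* Perm (N × ZMod m × ZMod m) :=
  FreeGroup.lift (fg g α r m)

theorem ff_cm0 (m : ℕ) : ff g α r m (cm (g + 2) 0) = f0 g α m (cm (g + 2) 0) := by
  unfold ff cm
  simp [fg]

theorem ff_cm (m : ℕ) (i : Fin (g + 1)) :
    ff g α r m (cm (g + 2) i.succ) = MulAut.conj (pt g α r m) (f0 g α m (cm (g + 2) i.succ)) := by
  have h1 : (i.succ : Fin (g + 2)) ≠ 0 := Fin.succ_ne_zero _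
  unfold ff cm
  simp only [map_mul, map_inv, FreeGroup.lift_apply_of, fg, h1, if_false]

theorem ff_z2 (m : ℕ) : ff g α r m (z2 g) = MulAut.conj (pt g α r m) (f0 g α m (z2 g)) := by
  unfold z2
  rw [map_list_prod, map_list_prod, map_list_prod]
  congr 1
  rw [List.map_ofFn, List.map_ofFn, List.map_ofFn]
  congr 1
  funext i
  exact ff_cm g α r m i

/-- the relator acts as the left multiplication by `r` -/
theorem ff_rel [Finite N] {m : ℕ} (hm : m = Nat.card (Perm N)) (hr : α (rel (g + 2)) = MulAut.conj r) :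
    ff g α r m (rel (g + 2)) = pj m r := by
  ext1 u
  rw [rel_eq, map_mul, ff_cm0, ff_z2, MulAut.conj_apply, Perm.mul_apply, Perm.mul_apply,
    Perm.mul_apply, pt_inv_apply, f0_apply, pt_apply, f0_apply, pj_apply, th_z2, th_cm0]
  ext1
  · show α (cm (g + 2) 0) (α (z2 g) (u.1 * (pS g α r m (- u.2.2))⁻¹) *
        pS g α r m (-(u.2.2 - 1))) = r * u.1
    have h1 : -(u.2.2 - 1) = - u.2.2 + 1 := by ring
    rw [h1, pS_succ g α r hm, ← map_mul]
    have h2 : u.1 * (pS g α r m (- u.2.2))⁻¹ * (pS g α r m (- u.2.2) * r) = u.1 * r := by group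
    rw [h2, ← MulAut.mul_apply, ← map_mul, ← rel_eq, hr, MulAut.conj_apply]
    group
  · show (u.2.1, u.2.2 - 1 + 1) = u.2
    rw [sub_add_cancel]

/-- equivariance -/
theorem ff_conj (m : ℕ) (w : FreeGroup (Fin (g + 2) ⊕ Fin (g + 2))) (n : N) :
    ff g α r m w * pj m n = pj m (α w n) * ff g α r m w := by
  have key0 : ∀ (w : FreeGroup (Fin (g + 2) ⊕ Fin (g + 2))) (n : N),
      f0 g α m w * pj m n = pj m (α w n) * f0 g α m w := by
    intro w n
    ext1 u
    rw [Perm.mul_apply, Perm.mul_apply, f0_apply, pj_apply, pj_apply, f0_apply, map_mul]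
  have keyt : ∀ n : N, pt g α r m * pj m n = pj m n * pt g α r m := by
    intro n
    ext1 u
    rw [Perm.mul_apply, Perm.mul_apply, pt_apply, pj_apply, pj_apply, pt_apply, mul_assoc]
  have key1 : ∀ (w : FreeGroup (Fin (g + 2) ⊕ Fin (g + 2))) (n : N),
      MulAut.conj (pt g α r m) (f0 g α m w) * pj m n =
        pj m (α w n) * MulAut.conj (pt g α r m) (f0 g α m w) := by
    intro w n
    rw [MulAut.conj_apply]
    have h1 : (pt g α r m)⁻¹ * pj m n = pj m n * (pt g α r m)⁻¹ := by
      rw [inv_mul_eq_iff_eq_mul, ← mul_assoc, keyt, mul_assoc, mul_inv_cancel, mul_one]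
    rw [mul_assoc, h1, ← mul_assoc, mul_assoc (pt g α r m), key0, ← mul_assoc, keyt]
    simp only [mul_assoc]
  let Kw : Subgroup (FreeGroup (Fin (g + 2) ⊕ Fin (g + 2))) :=
    { carrier := {w | ∀ n, ff g α r m w * pj m n = pj m (α w n) * ff g α r m w}
      one_mem' := by
        intro n
        simp
      mul_mem' := by
        intro a b ha hb n
        rw [map_mul, mul_assoc, hb, ← mul_assoc, ha, mul_assoc, map_mul, MulAut.mul_apply]
      inv_mem' := by
        intro a ha n
        have h := ha ((α a)⁻¹ n)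
        rw [MulAut.apply_inv_self] at h
        rw [map_inv, map_inv, inv_mul_eq_iff_eq_mul, ← mul_assoc, h, mul_assoc, mul_inv_cancel,
          mul_one] }
  have h : w ∈ Kw := by
    have h2 : Kw = ⊤ := by
      rw [eq_top_iff, ← FreeGroup.closure_range_of, Subgroup.closure_le]
      rintro _ ⟨i, rfl⟩
      intro n
      have h3 : ff g α r m (FreeGroup.of i) = fg g α r m i := by
        unfold ff
        rw [FreeGroup.lift_apply_of]
      rw [h3]
      rcases i with i | i
      · by_cases hi : i = 0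
        · simp only [fg, hi, if_true]
          exact key0 _ _
        · simp only [fg, hi, if_false]
          exact key1 _ _
      · by_cases hi : i = 0
        · simp only [fg, hi, if_true]
          exact key0 _ _
        · simp only [fg, hi, if_false]
          exact key1 _ _
    rw [h2]
    exact Subgroup.mem_top _
  exact h n

end main

end Pool.Agent.V8H21.MCG
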