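import Pool.Agent.V8H21.MCG.Cyc
import Pool.Agent.V8H21.MCG.Perm

set_option autoImplicit false

/-!
# Labels with a prescribed sum along the surface relator
-/

namespace Pool.Agent.V8H21.MCG

section list

theorem split_prod {G : Type*} [Group G] {k : ℕ} (f : Fin k → G) (i : Fin k) :
    ∃ pre suf, (List.ofFn f).prod = pre * f i * suf ∧
      pre ∈ Subgroup.closure (f '' {j | j < i}) ∧ suf ∈ Subgroup.closure (f '' {j | i < j}) := by
  induction k with
  | zero => exact i.elim0
  | succ k ih =>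
    rw [List.ofFn_succ, List.prod_cons]
    refine Fin.cases ?_ (fun i => ?_) i
    · refine ⟨1, (List.ofFn fun j : Fin k => f j.succ).prod, by rw [one_mul], Subgroup.one_mem _, ?_⟩
      apply Subgroup.list_prod_mem
      intro x hx
      rw [List.mem_ofFn] at hx
      obtain ⟨j, rfl⟩ := hx
      exact Subgroup.subset_closure ⟨j.succ, Fin.succ_pos j, rfl⟩
    · obtain ⟨pre, suf, h1, h2, h3⟩ := ih (fun j => f j.succ) i
      refine ⟨f 0 * pre, suf, by rw [h1]; group, ?_, ?_⟩
      · apply Subgroup.mul_mem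
        · exact Subgroup.subset_closure ⟨0, Fin.succ_pos i, rfl⟩
        · refine Subgroup.closure_mono ?_ h2
          rintro x ⟨j, hj, rfl⟩
          exact ⟨j.succ, Fin.succ_lt_succ_iff.2 hj, rfl⟩
      · refine Subgroup.closure_mono ?_ h3
        rintro x ⟨j, hj, rfl⟩
        exact ⟨j.succ, Fin.succ_lt_succ_iff.2 hj, rfl⟩

end list

section labels

open Classical in
/-- the delta function -/
noncomputable def dl {Q : Type} (A : Type) [AddCommGroup A] [One A] (y q : Q) : A :=
  if q = y then 1 else 0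

theorem dl_mul {Q : Type} [Group Q] (A : Type) [AddCommGroup A] [One A] (y g q : Q) :
    dl A y (g * q) = dl A (g⁻¹ * y) q := by
  unfold dl
  congr 1
  rw [eq_inv_mul_iff_mul_eq]

variable {Q A : Type} [Group Q] [AddCommGroup A] [One A] {h : ℕ}
  (ρ : FreeGroup (Fin h ⊕ Fin h) →* Q)

theorem cyc_cm (t : Fin h ⊕ Fin h → Q → A) (i : Fin h) (q : Q) :
    cyc ρ t (cm h i) q =
      - t (Sum.inr i) ((ρ (FreeGroup.of (Sum.inr i)))⁻¹ * q)
      - t (Sum.inl i) ((ρ (FreeGroup.of (Sum.inl i)))⁻¹ * ((ρ (FreeGroup.of (Sum.inr i)))⁻¹ * q))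
      + t (Sum.inr i) ((ρ (FreeGroup.of (Sum.inl i)))⁻¹ * ((ρ (FreeGroup.of (Sum.inr i)))⁻¹ * q))
      + t (Sum.inl i) (ρ (FreeGroup.of (Sum.inr i)) * ((ρ (FreeGroup.of (Sum.inl i)))⁻¹ *
          ((ρ (FreeGroup.of (Sum.inr i)))⁻¹ * q))) := by
  unfold cm
  rw [cyc_mul, cyc_mul, cyc_mul, cyc_inv, cyc_inv, cyc_of, cyc_of, cyc_of, cyc_of, map_inv, map_inv]
  abel

/-- the sums along the relator -/
def relHom : (Fin h ⊕ Fin h → Q → A) →+ (Q → A) :=
  AddMonoidHom.mk' (fun t q => cyc ρ t (rel h) q) (fun t t' => by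
    funext q
    exact cyc_add ρ t t' (rel h) q)

/-- the differences of delta functions which are sums along the relator -/
def dsub : Subgroup Q where
  carrier := {g | ∀ q, (fun x => dl A q x - dl A (g * q) x) ∈ (relHom (A := A) ρ).range}
  one_mem' := by
    intro q
    have : (fun x => dl A q x - dl A (1 * q) x) = 0 := by
      funext x
      rw [one_mul, sub_self]
      rfl
    rw [this]
    exact AddSubgroup.zero_mem _
  mul_mem' := by
    intro a b ha hb q
    have h1 := AddSubgroup.add_mem _ (hb q) (ha (b * q))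
    have h2 : (fun x => dl A q x - dl A (a * b * q) x) =
        (fun x => dl A q x - dl A (b * q) x) + fun x => dl A (b * q) x - dl A (a * (b * q)) x := by
      funext x
      show _ = (dl A q x - dl A (b * q) x) + (dl A (b * q) x - dl A (a * (b * q)) x)
      rw [mul_assoc]
      abel
    rw [h2]
    exact h1
  inv_mem' := by
    intro a ha q
    have h1 := AddSubgroup.neg_mem _ (ha (a⁻¹ * q))
    have h2 : (fun x => dl A q x - dl A (a⁻¹ * q) x) =
        - fun x => dl A (a⁻¹ * q) x - dl A (a * (a⁻¹ * q)) x := by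
      funext x
      show _ = - (dl A (a⁻¹ * q) x - dl A (a * (a⁻¹ * q)) x)
      rw [mul_inv_cancel_left]
      abel
    rw [h2]
    exact h1

theorem cyc_rel (t : Fin h ⊕ Fin h → Q → A) (i : Fin h)
    (ht : ∀ j, j ≠ i → t (Sum.inl j) = 0 ∧ t (Sum.inr j) = 0) (pre suf : FreeGroup (Fin h ⊕ Fin h))
    (hr : rel h = pre * cm h i * suf)
    (hpre : pre ∈ Subgroup.closure (cm h '' {j | j < i}))
    (hsuf : suf ∈ Subgroup.closure (cm h '' {j | i < j})) (q : Q) :
    cyc ρ t (rel h) q = cyc ρ t (cm h i) (ρ suf * q) := by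
  have hcl : ∀ j, j ≠ i → cm h j ∈ Subgroup.closure
      (FreeGroup.of '' {u : Fin h ⊕ Fin h | t u = 0}) := by
    intro j hj
    have h1 : FreeGroup.of (Sum.inl j) ∈ Subgroup.closure
        (FreeGroup.of '' {u : Fin h ⊕ Fin h | t u = 0}) :=
      Subgroup.subset_closure ⟨Sum.inl j, (ht j hj).1, rfl⟩
    have h2 : FreeGroup.of (Sum.inr j) ∈ Subgroup.closure
        (FreeGroup.of '' {u : Fin h ⊕ Fin h | t u = 0}) :=
      Subgroup.subset_closure ⟨Sum.inr j, (ht j hj).2, rfl⟩
    exact Subgroup.mul_mem _ (Subgroup.mul_mem _ (Subgroup.mul_mem _ h1 h2)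
      (Subgroup.inv_mem _ h1)) (Subgroup.inv_mem _ h2)
  have h1 : ∀ q, cyc ρ t pre q = 0 := by
    apply cyc_zero_of ρ t {u | t u = 0} (fun i hi => hi)
    refine (Subgroup.closure_le _).2 ?_ hpre
    rintro x ⟨j, hj, rfl⟩
    exact hcl j (ne_of_lt hj)
  have h2 : ∀ q, cyc ρ t suf q = 0 := by
    apply cyc_zero_of ρ t {u | t u = 0} (fun i hi => hi)
    refine (Subgroup.closure_le _).2 ?_ hsuf
    rintro x ⟨j, hj, rfl⟩
    exact hcl j (ne_of_gt hj)
  rw [hr, cyc_mul, cyc_mul, h1, h2]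
  abel

theorem gens_mem (i : Fin h) : ρ (FreeGroup.of (Sum.inl i)) ∈ dsub (A := A) ρ ∧
    ρ (FreeGroup.of (Sum.inr i)) ∈ dsub (A := A) ρ := by
  classical
  induction i using WellFoundedGT.induction with
  | ind i ih =>
    obtain ⟨pre, suf, hr, hpre, hsuf⟩ := split_prod (cm h) i
    have hs : ρ suf ∈ dsub (A := A) ρ := by
      have h1 : Subgroup.closure (cm h '' {j | i < j}) ≤ (dsub (A := A) ρ).comap ρ := by
        rw [Subgroup.closure_le]
        rintro x ⟨j, hj, rfl⟩
        obtain ⟨ha, hb⟩ := ih j hj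
        show ρ (cm h j) ∈ dsub (A := A) ρ
        unfold cm
        rw [map_mul, map_mul, map_mul, map_inv, map_inv]
        exact Subgroup.mul_mem _ (Subgroup.mul_mem _ (Subgroup.mul_mem _ ha hb)
          (Subgroup.inv_mem _ ha)) (Subgroup.inv_mem _ hb)
      exact h1 hsuf
    set s := ρ suf with hs0
    set a := ρ (FreeGroup.of (Sum.inl i)) with ha0
    set b := ρ (FreeGroup.of (Sum.inr i)) with hb0
    -- the first family of labels
    have h1 : s⁻¹ * (b * a * b * a⁻¹ * b⁻¹) * s ∈ dsub (A := A) ρ := by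
      intro q
      let y := b * a⁻¹ * b⁻¹ * s * q
      let t : Fin h ⊕ Fin h → Q → A := fun u => if u = Sum.inl i then dl A y else 0
      refine ⟨t, ?_⟩
      funext x
      show cyc ρ t (rel h) x = _
      rw [cyc_rel ρ t i (by
        intro j hj
        constructor
        · simp [t, hj]
        · simp [t]) pre suf hr hpre hsuf, cyc_cm]
      have e1 : t (Sum.inl i) = dl A y := by simp [t]
      have e2 : t (Sum.inr i) = 0 := by simp [t]
      rw [e1, e2, ← hs0, ← ha0, ← hb0]
      have e3 : dl A y (a⁻¹ * (b⁻¹ * (s * x))) =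
          dl A (s⁻¹ * (b * a * b * a⁻¹ * b⁻¹) * s * q) x := by
        rw [dl_mul, dl_mul, dl_mul]
        congr 1
        simp only [y]
        group
      have e4 : dl A y (b * (a⁻¹ * (b⁻¹ * (s * x)))) = dl A q x := by
        rw [dl_mul, dl_mul, dl_mul, dl_mul]
        congr 1
        simp only [y]
        group
      rw [e3, e4]
      simp only [Pi.zero_apply]
      abel
    have h2 : s⁻¹ * (b * a⁻¹ * b⁻¹) * s ∈ dsub (A := A) ρ := by
      intro q
      let y := a⁻¹ * b⁻¹ * s * q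
      let t : Fin h ⊕ Fin h → Q → A := fun u => if u = Sum.inr i then dl A y else 0
      refine ⟨t, ?_⟩
      funext x
      show cyc ρ t (rel h) x = _
      rw [cyc_rel ρ t i (by
        intro j hj
        constructor
        · simp [t]
        · simp [t, hj]) pre suf hr hpre hsuf, cyc_cm]
      have e1 : t (Sum.inl i) = 0 := by simp [t]
      have e2 : t (Sum.inr i) = dl A y := by simp [t]
      rw [e1, e2, ← hs0, ← ha0, ← hb0]
      have e3 : dl A y (b⁻¹ * (s * x)) =
          dl A (s⁻¹ * (b * a⁻¹ * b⁻¹) * s * q) x := by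
        rw [dl_mul, dl_mul]
        congr 1
        simp only [y]
        group
      have e4 : dl A y (a⁻¹ * (b⁻¹ * (s * x))) = dl A q x := by
        rw [dl_mul, dl_mul, dl_mul]
        congr 1
        simp only [y]
        group
      rw [e3, e4]
      simp only [Pi.zero_apply]
      abel
    -- conjugation by `s`
    have h3 : b * a * b * a⁻¹ * b⁻¹ ∈ dsub (A := A) ρ := by
      have := Subgroup.mul_mem _ (Subgroup.mul_mem _ hs h1) (Subgroup.inv_mem _ hs)
      have e : s * (s⁻¹ * (b * a * b * a⁻¹ * b⁻¹) * s) * s⁻¹ = b * a * b * a⁻¹ * b⁻¹ := by group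
      rwa [e] at this
    have h4 : b * a⁻¹ * b⁻¹ ∈ dsub (A := A) ρ := by
      have := Subgroup.mul_mem _ (Subgroup.mul_mem _ hs h2) (Subgroup.inv_mem _ hs)
      have e : s * (s⁻¹ * (b * a⁻¹ * b⁻¹) * s) * s⁻¹ = b * a⁻¹ * b⁻¹ := by group
      rwa [e] at this
    have h5 : b ∈ dsub (A := A) ρ := by
      have := Subgroup.mul_mem _ (Subgroup.mul_mem _ h4 h3) (Subgroup.inv_mem _ h4)
      have e : b * a⁻¹ * b⁻¹ * (b * a * b * a⁻¹ * b⁻¹) * (b * a⁻¹ * b⁻¹)⁻¹ = b := by group
      rwa [e] at this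
    refine ⟨?_, h5⟩
    have := Subgroup.mul_mem _ (Subgroup.mul_mem _ (Subgroup.inv_mem _ h5)
      (Subgroup.inv_mem _ h4)) h5
    have e : b⁻¹ * (b * a⁻¹ * b⁻¹)⁻¹ * b = a := by group
    rwa [e] at this

/-- Labels with prescribed sums along the relator. -/
theorem exists_labels (hρ : Function.Surjective ρ) (q₁ q₂ : Q) :
    ∃ t : Fin h ⊕ Fin h → Q → A, ∀ x, cyc ρ t (rel h) x = dl A q₁ x - dl A q₂ x := by
  have htop : ∀ g : Q, g ∈ dsub (A := A) ρ := by
    intro g
    obtain ⟨u, rfl⟩ := hρ g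
    have h1 : (⊤ : Subgroup (FreeGroup (Fin h ⊕ Fin h))) ≤ (dsub (A := A) ρ).comap ρ := by
      rw [← FreeGroup.closure_range_of, Subgroup.closure_le]
      rintro x ⟨i | i, rfl⟩
      · exact (gens_mem (A := A) ρ i).1
      · exact (gens_mem (A := A) ρ i).2
    exact h1 (Subgroup.mem_top u)
  obtain ⟨t, ht⟩ := htop (q₂ * q₁⁻¹) q₁
  refine ⟨t, fun x => ?_⟩
  have := congrFun ht x
  rw [inv_mul_cancel_right] at this
  exact this

/-- sums of labels along words in a part of the generators -/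
theorem cyc_map {ι κ : Type} (f : ι → κ) (R : FreeGroup κ →* Q) (t : κ → Q → A) (u : FreeGroup ι)
    (q : Q) : cyc R t (FreeGroup.map f u) q = cyc (R.comp (FreeGroup.map f)) (fun i => t (f i)) u q := by
  induction u using FreeGroup.induction_on generalizing q with
  | C1 => rw [map_one, cyc_one, cyc_one]
  | of i => rw [FreeGroup.map.of, cyc_of, cyc_of]
  | inv_of i _ =>
    rw [map_inv, FreeGroup.map.of, cyc_inv, cyc_inv, cyc_of, cyc_of, MonoidHom.comp_apply,
      FreeGroup.map.of]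
  | mul u v hu hv =>
    rw [map_mul, cyc_mul, cyc_mul, hu, hv, MonoidHom.comp_apply]

end labels

end Pool.Agent.V8H21.MCG
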