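import Pool.Agent.V8H21.MCG.Lab2

set_option autoImplicit false

/-!
# Invariant labels which vanish at the cone points without monodromy
-/

namespace Pool.Agent.V8H21.MCG

open Equiv

section lab

variable {Q A : Type} [Group Q] [AddCommGroup A] [One A] {h n : ℕ}
  (R : FreeGroup (OGen h n) →* Q) (m : Fin n → ℕ) (C : Subgroup Q)

/-- invariant labels without sums around the cone points -/
def GoodZ (t : OGen h n → Q → A) : Prop :=
  (∀ i x, ∀ c ∈ C, t i (x * c) = t i x) ∧ (∀ j x, cyc R t (og h n j ^ m j) x = 0) ∧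
    ∀ j, R (og h n j) = 1 → t (Sum.inr j) = 0

variable (A) in
/-- the sums along the relator -/
def rsubZ : AddSubgroup (Q → A) where
  carrier := {f | ∃ t, GoodZ R m C t ∧ ∀ x, cyc R t (orel h n) x = f x}
  zero_mem' := ⟨0, ⟨fun _ _ _ _ => rfl, fun j x => cyc_zero R _ x, fun _ _ => rfl⟩,
    fun x => cyc_zero R _ x⟩
  add_mem' := by
    rintro f g ⟨t, ⟨h1, h2, h4⟩, h3⟩ ⟨t', ⟨h1', h2', h4'⟩, h3'⟩
    refine ⟨t + t', ⟨fun i x c hc => ?_, fun j x => ?_, fun j hj => ?_⟩, fun x => ?_⟩
    · show t i (x * c) + t' i (x * c) = t i x + t' i x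
      rw [h1 i x c hc, h1' i x c hc]
    · rw [cyc_add, h2, h2', add_zero]
    · show t (Sum.inr j) + t' (Sum.inr j) = 0
      rw [h4 j hj, h4' j hj, add_zero]
    · rw [cyc_add, h3, h3']
      rfl
  neg_mem' := by
    rintro f ⟨t, ⟨h1, h2, h4⟩, h3⟩
    refine ⟨-t, ⟨fun i x c hc => ?_, fun j x => ?_, fun j hj => ?_⟩, fun x => ?_⟩
    · show - t i (x * c) = - t i x
      rw [h1 i x c hc]
    · rw [cyc_neg, h2, neg_zero]
    · show - t (Sum.inr j) = 0
      rw [h4 j hj, neg_zero]
    · rw [cyc_neg, h3]
      rfl

variable (A) in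
/-- the differences of indicator functions which are sums along the relator -/
def dsubZ : Subgroup Q where
  carrier := {g | ∀ q, (fun x => dc A C q x - dc A C (g * q) x) ∈ rsubZ A R m C}
  one_mem' := by
    intro q
    have : (fun x => dc A C q x - dc A C (1 * q) x) = 0 := by
      funext x
      rw [one_mul, sub_self]
      rfl
    rw [this]
    exact AddSubgroup.zero_mem _
  mul_mem' := by
    intro a b ha hb q
    have h1 := AddSubgroup.add_mem _ (hb q) (ha (b * q))
    have h2 : (fun x => dc A C q x - dc A C (a * b * q) x) =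
        (fun x => dc A C q x - dc A C (b * q) x) +
          fun x => dc A C (b * q) x - dc A C (a * (b * q)) x := by
      funext x
      show _ = (dc A C q x - dc A C (b * q) x) + (dc A C (b * q) x - dc A C (a * (b * q)) x)
      rw [mul_assoc]
      abel
    rw [h2]
    exact h1
  inv_mem' := by
    intro a ha q
    have h1 := AddSubgroup.neg_mem _ (ha (a⁻¹ * q))
    have h2 : (fun x => dc A C q x - dc A C (a⁻¹ * q) x) =
        - fun x => dc A C (a⁻¹ * q) x - dc A C (a * (a⁻¹ * q)) x := by
      funext x
      show _ = - (dc A C (a⁻¹ * q) x - dc A C (a * (a⁻¹ * q)) x)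
      rw [mul_inv_cancel_left]
      abel
    rw [h2]
    exact h1

theorem cyc_orelZ (t : OGen h n → Q → A) (x : Q) :
    cyc R t (orel h n) x = - cyc R t (List.ofFn (og h n)).prod ((R (List.ofFn (og h n)).prod)⁻¹ * x)
      + cyc (R.comp (FreeGroup.map Sum.inl)) (fun u => t (Sum.inl u)) (rel h)
          ((R (List.ofFn (og h n)).prod)⁻¹ * x) := by
  unfold orel
  rw [cyc_mul, cyc_inv, map_inv, cyc_map]

theorem cone_memZ (hm : ∀ j, R (og h n j) ^ m j = 1) (j : Fin n) :
    R (og h n j) ∈ dsubZ A R m C := by
  classical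
  induction j using WellFoundedLT.induction with
  | ind j ih =>
    by_cases hR1 : R (og h n j) = 1
    · rw [hR1]
      exact Subgroup.one_mem _
    obtain ⟨pre, suf, hr, hpre, hsuf⟩ := split_prod (og h n) j
    have hs : R pre ∈ dsubZ A R m C := by
      have h1 : Subgroup.closure (og h n '' {k | k < j}) ≤ (dsubZ A R m C).comap R := by
        rw [Subgroup.closure_le]
        rintro _ ⟨k, hk, rfl⟩
        exact ih k hk
      exact h1 hpre
    have key : R pre * R (og h n j) * (R pre)⁻¹ ∈ dsubZ A R m C := by
      intro q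
      let y := (R (og h n j))⁻¹ * (R pre)⁻¹ * q
      let t : OGen h n → Q → A := fun u x =>
        if u = Sum.inr j then dc A C (R (og h n j) * y) x - dc A C y x else 0
      have ht : ∀ u, u ≠ Sum.inr j → t u = 0 := by
        intro u hu
        funext x
        show (if u = Sum.inr j then _ else _) = _
        rw [if_neg hu]
        rfl
      have htj : ∀ x, t (Sum.inr j) x = dc A C (R (og h n j) * y) x - dc A C y x := by
        intro x
        show (if (Sum.inr j : OGen h n) = Sum.inr j then _ else _) = _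
        rw [if_pos rfl]
      have htj' : ∀ x, t (Sum.inr j) x =
          dc A C (R (og h n j) * y) x - dc A C (R (og h n j) * y) (R (og h n j) * x) := by
        intro x
        rw [htj, dc_mul _ _ (R (og h n j)) x, inv_mul_cancel_left]
      have hog : ∀ k x, cyc R t (og h n k) x = t (Sum.inr k) x := fun k x => cyc_of R t _ x
      refine ⟨t, ⟨fun i x c hc => ?_, fun k x => ?_, fun k hk => ?_⟩, fun x => ?_⟩
      · by_cases hi : i = Sum.inr j
        · subst hi
          rw [htj, htj, dc_right _ _ _ _ hc, dc_right _ _ _ _ hc]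
        · rw [ht i hi]
          rfl
      · rw [cyc_pow_sum]
        by_cases hk : k = j
        · subst hk
          have h1 : ∀ i, cyc R t (og h n k) (R (og h n k) ^ i * x) =
              dc A C (R (og h n k) * y) (R (og h n k) ^ i * x) -
                dc A C (R (og h n k) * y) (R (og h n k) ^ (i + 1) * x) := by
            intro i
            rw [hog, htj', pow_succ', mul_assoc]
          rw [Finset.sum_congr rfl (fun i _ => h1 i), Finset.sum_range_sub', hm, pow_zero, sub_self]
        · apply Finset.sum_eq_zero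
          intro i _
          rw [hog, ht _ (fun h1 => hk (Sum.inr_injective h1))]
          rfl
      · apply ht
        intro h1
        rw [Sum.inr_injective h1] at hk
        exact hR1 hk
      · rw [cyc_orelZ]
        have h0 : (fun u : Fin h ⊕ Fin h => t (Sum.inl u)) = 0 := by
          funext u
          exact ht _ (by simp)
        have hcl : ∀ (S : Set (Fin n)), (∀ k ∈ S, k ≠ j) → ∀ u ∈ Subgroup.closure (og h n '' S),
            ∀ x, cyc R t u x = 0 := by
          intro S hS u hu x
          apply cyc_zero_of R t (Sum.inr '' S)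
          · rintro _ ⟨k, hk, rfl⟩
            exact ht _ (fun h1 => hS k hk (Sum.inr_injective h1))
          · rw [← Set.image_comp]
            exact hu
        rw [h0, cyc_zero, add_zero, hr, cyc_mul, cyc_mul,
          hcl _ (fun k hk => (ne_of_lt hk)) pre hpre, hcl _ (fun k hk => (ne_of_gt hk)) suf hsuf,
          hog, htj, zero_add, add_zero, map_mul, map_mul]
        have e1 : dc A C (R (og h n j) * y) (R suf * ((R pre * R (og h n j) * R suf)⁻¹ * x)) =
            dc A C (R pre * R (og h n j) * (R pre)⁻¹ * q) x := by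
          rw [dc_mul, dc_mul]
          congr 1
          simp only [y]
          group
        have e2 : dc A C y (R suf * ((R pre * R (og h n j) * R suf)⁻¹ * x)) = dc A C q x := by
          rw [dc_mul, dc_mul]
          congr 1
          simp only [y]
          group
        rw [e1, e2]
        abel
    have := Subgroup.mul_mem _ (Subgroup.mul_mem _ (Subgroup.inv_mem _ hs) key) hs
    have e : (R pre)⁻¹ * (R pre * R (og h n j) * (R pre)⁻¹) * R pre = R (og h n j) := by group
    rwa [e] at this

theorem ab_memZ (hm : ∀ j, R (og h n j) ^ m j = 1) (i : Fin h) :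
    R (FreeGroup.of (Sum.inl (Sum.inl i))) ∈ dsubZ A R m C ∧
      R (FreeGroup.of (Sum.inl (Sum.inr i))) ∈ dsubZ A R m C := by
  classical
  induction i using WellFoundedGT.induction with
  | ind i ih =>
    obtain ⟨pre, suf, hr, hpre, hsuf⟩ := split_prod (cm h) i
    let R₀ := R.comp (FreeGroup.map (Sum.inl : Fin h ⊕ Fin h → OGen h n))
    have hR₀ : ∀ u, R₀ (FreeGroup.of u) = R (FreeGroup.of (Sum.inl u)) := by
      intro u
      show R (FreeGroup.map Sum.inl (FreeGroup.of u)) = _
      rw [FreeGroup.map.of]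
    have hs : R₀ suf ∈ dsubZ A R m C := by
      have h1 : Subgroup.closure (cm h '' {j | i < j}) ≤ (dsubZ A R m C).comap R₀ := by
        rw [Subgroup.closure_le]
        rintro x ⟨j, hj, rfl⟩
        obtain ⟨ha, hb⟩ := ih j hj
        show R₀ (cm h j) ∈ dsubZ A R m C
        unfold cm
        rw [map_mul, map_mul, map_mul, map_inv, map_inv, hR₀, hR₀]
        exact Subgroup.mul_mem _ (Subgroup.mul_mem _ (Subgroup.mul_mem _ ha hb)
          (Subgroup.inv_mem _ ha)) (Subgroup.inv_mem _ hb)
      exact h1 hsuf
    have hπ : R (List.ofFn (og h n)).prod ∈ dsubZ A R m C := by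
      rw [map_list_prod]
      apply Subgroup.list_prod_mem
      intro x hx
      rw [List.mem_map] at hx
      obtain ⟨y, hy, rfl⟩ := hx
      rw [List.mem_ofFn] at hy
      obtain ⟨j, rfl⟩ := hy
      exact cone_memZ R m C hm j
    set a := R (FreeGroup.of (Sum.inl (Sum.inl i))) with ha0
    set b := R (FreeGroup.of (Sum.inl (Sum.inr i))) with hb0
    let s := R₀ suf * (R (List.ofFn (og h n)).prod)⁻¹
    have hs' : s ∈ dsubZ A R m C := Subgroup.mul_mem _ hs (Subgroup.inv_mem _ hπ)
    -- the general computation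
    have hgen : ∀ (t₀ : Fin h ⊕ Fin h → Q → A),
        (∀ j, j ≠ i → t₀ (Sum.inl j) = 0 ∧ t₀ (Sum.inr j) = 0) →
        (∀ u x, ∀ c ∈ C, t₀ u (x * c) = t₀ u x) →
        (fun x => - t₀ (Sum.inr i) (b⁻¹ * (s * x)) - t₀ (Sum.inl i) (a⁻¹ * (b⁻¹ * (s * x)))
          + t₀ (Sum.inr i) (a⁻¹ * (b⁻¹ * (s * x)))
          + t₀ (Sum.inl i) (b * (a⁻¹ * (b⁻¹ * (s * x))))) ∈ rsubZ A R m C := by
      intro t₀ h0 hinv
      have hz : ∀ (u : FreeGroup (OGen h n)), u ∈ Subgroup.closure (Set.range (og h n)) →
          ∀ x, cyc R (Sum.elim t₀ (fun _ : Fin n => (0 : Q → A))) u x = 0 := by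
        intro u hu x
        apply cyc_zero_of R _ (Set.range (Sum.inr : Fin n → OGen h n))
        · rintro _ ⟨k, rfl⟩
          rfl
        · rw [← Set.range_comp]
          exact hu
      refine ⟨Sum.elim t₀ (fun _ => 0), ⟨fun u x c hc => ?_, fun k x => ?_, fun _ _ => rfl⟩,
        fun x => ?_⟩
      · cases u with
        | inl u => exact hinv u x c hc
        | inr k => rfl
      · have hk : og h n k ∈ Subgroup.closure (Set.range (og h n)) :=
          Subgroup.subset_closure ⟨k, rfl⟩
        exact hz _ (Subgroup.pow_mem _ hk _) x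
      · have hpm : (List.ofFn (og h n)).prod ∈ Subgroup.closure (Set.range (og h n)) := by
          apply Subgroup.list_prod_mem
          intro y hy
          rw [List.mem_ofFn] at hy
          obtain ⟨k, rfl⟩ := hy
          exact Subgroup.subset_closure ⟨k, rfl⟩
        rw [cyc_orelZ, hz _ hpm, neg_zero, zero_add]
        have e : (fun u : Fin h ⊕ Fin h => (Sum.elim t₀ (fun _ : Fin n => (0 : Q → A)))
            (Sum.inl u)) = t₀ := rfl
        rw [e, cyc_rel R₀ t₀ i h0 pre suf hr hpre hsuf, cyc_cm, hR₀, hR₀, ← ha0, ← hb0]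
        simp only [s, mul_assoc]
    have h1 : s⁻¹ * (b * a * b * a⁻¹ * b⁻¹) * s ∈ dsubZ A R m C := by
      intro q
      let y := b * a⁻¹ * b⁻¹ * s * q
      have h3 := hgen (fun u => if u = Sum.inl i then dc A C y else 0) (by
        intro j hj
        constructor
        · simp [hj]
        · simp) (by
        intro u x c hc
        by_cases hu : u = Sum.inl i
        · simp only [hu, if_true]
          exact dc_right _ _ _ _ hc
        · simp only [hu, if_false]
          rfl)
      convert h3 using 1
      funext x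
      have e3 : dc A C y (a⁻¹ * (b⁻¹ * (s * x))) =
          dc A C (s⁻¹ * (b * a * b * a⁻¹ * b⁻¹) * s * q) x := by
        rw [dc_mul, dc_mul, dc_mul]
        congr 1
        simp only [y]
        group
      have e4 : dc A C y (b * (a⁻¹ * (b⁻¹ * (s * x)))) = dc A C q x := by
        rw [dc_mul, dc_mul, dc_mul, dc_mul]
        congr 1
        simp only [y]
        group
      simp only [reduceCtorEq, if_false, if_true, Pi.zero_apply]
      rw [e3, e4]
      abel
    have h2 : s⁻¹ * (b * a⁻¹ * b⁻¹) * s ∈ dsubZ A R m C := by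
      intro q
      let y := a⁻¹ * b⁻¹ * s * q
      have h3 := hgen (fun u => if u = Sum.inr i then dc A C y else 0) (by
        intro j hj
        constructor
        · simp
        · simp [hj]) (by
        intro u x c hc
        by_cases hu : u = Sum.inr i
        · simp only [hu, if_true]
          exact dc_right _ _ _ _ hc
        · simp only [hu, if_false]
          rfl)
      convert h3 using 1
      funext x
      have e3 : dc A C y (b⁻¹ * (s * x)) =
          dc A C (s⁻¹ * (b * a⁻¹ * b⁻¹) * s * q) x := by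
        rw [dc_mul, dc_mul]
        congr 1
        simp only [y]
        group
      have e4 : dc A C y (a⁻¹ * (b⁻¹ * (s * x))) = dc A C q x := by
        rw [dc_mul, dc_mul, dc_mul]
        congr 1
        simp only [y]
        group
      simp only [reduceCtorEq, if_false, if_true, Pi.zero_apply]
      rw [e3, e4]
      abel
    -- conjugation by `s`
    have h3 : b * a * b * a⁻¹ * b⁻¹ ∈ dsubZ A R m C := by
      have := Subgroup.mul_mem _ (Subgroup.mul_mem _ hs' h1) (Subgroup.inv_mem _ hs')
      have e : s * (s⁻¹ * (b * a * b * a⁻¹ * b⁻¹) * s) * s⁻¹ = b * a * b * a⁻¹ * b⁻¹ := by group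
      rwa [e] at this
    have h4 : b * a⁻¹ * b⁻¹ ∈ dsubZ A R m C := by
      have := Subgroup.mul_mem _ (Subgroup.mul_mem _ hs' h2) (Subgroup.inv_mem _ hs')
      have e : s * (s⁻¹ * (b * a⁻¹ * b⁻¹) * s) * s⁻¹ = b * a⁻¹ * b⁻¹ := by group
      rwa [e] at this
    have h5 : b ∈ dsubZ A R m C := by
      have := Subgroup.mul_mem _ (Subgroup.mul_mem _ h4 h3) (Subgroup.inv_mem _ h4)
      have e : b * a⁻¹ * b⁻¹ * (b * a * b * a⁻¹ * b⁻¹) * (b * a⁻¹ * b⁻¹)⁻¹ = b := by group
      rwa [e] at this
    refine ⟨?_, h5⟩
    have := Subgroup.mul_mem _ (Subgroup.mul_mem _ (Subgroup.inv_mem _ h5)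
      (Subgroup.inv_mem _ h4)) h5
    have e : b⁻¹ * (b * a⁻¹ * b⁻¹)⁻¹ * b = a := by group
    rwa [e] at this

/-- All differences of indicator functions of cosets are sums along the relator. -/
theorem diff_memZ (hm : ∀ j, R (og h n j) ^ m j = 1) (hR : Function.Surjective R) (q₁ q₂ : Q) :
    (fun x => dc A C q₁ x - dc A C q₂ x) ∈ rsubZ A R m C := by
  have htop : ∀ g : Q, g ∈ dsubZ A R m C := by
    intro g
    obtain ⟨u, rfl⟩ := hR g
    have h1 : (⊤ : Subgroup (FreeGroup (OGen h n))) ≤ (dsubZ A R m C).comap R := by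
      rw [← FreeGroup.closure_range_of, Subgroup.closure_le]
      rintro x ⟨(i | i) | j, rfl⟩
      · exact (ab_memZ R m C hm i).1
      · exact (ab_memZ R m C hm i).2
      · exact cone_memZ R m C hm j
    exact h1 (Subgroup.mem_top u)
  have h1 := htop (q₂ * q₁⁻¹) q₁
  rwa [inv_mul_cancel_right] at h1

end lab

end Pool.Agent.V8H21.MCG
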