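import Pool.Agent.V8H21.MCG.Cyc

set_option autoImplicit false

/-!
# Finite quotients of orbifold groups act faithfully on the homology of the kernel
-/

namespace Pool.Agent.V8H21.MCG

open Equiv

section sep

variable {ι J : Type} [Finite ι] [Finite J]

/-- the representation of the presented group given by labels -/
def lpG {A Q : Type} [Group Q] [AddCommGroup A] (rels : Set (FreeGroup ι))
    (ρ : PresentedGroup rels →* Q) (t : ι → Q → A)
    (ht : ∀ x ∈ rels, ∀ q, cyc (ρ.comp (PresentedGroup.mk rels)) t x q = 0) :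
    PresentedGroup rels →* Perm (Q × A) :=
  QuotientGroup.lift _ (lp (ρ.comp (PresentedGroup.mk rels)) t) (by
    intro x hx
    have h1 : Subgroup.normalClosure rels ≤ (lp (ρ.comp (PresentedGroup.mk rels)) t).ker := by
      apply Subgroup.normalClosure_le_normal
      intro x hx
      rw [SetLike.mem_coe, MonoidHom.mem_ker]
      ext1 ⟨q, s⟩
      rw [lp_apply, ht x hx]
      have h2 : PresentedGroup.mk rels x = 1 := PresentedGroup.one_of_mem hx
      show (ρ (PresentedGroup.mk rels x) * q, s + 0) = (q, s)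
      rw [h2, map_one, one_mul, add_zero]
    exact h1 hx)

theorem lpG_mk {A Q : Type} [Group Q] [AddCommGroup A] (rels : Set (FreeGroup ι))
    (ρ : PresentedGroup rels →* Q) (t : ι → Q → A)
    (ht : ∀ x ∈ rels, ∀ q, cyc (ρ.comp (PresentedGroup.mk rels)) t x q = 0) (u : FreeGroup ι) :
    lpG rels ρ t ht (PresentedGroup.mk rels u) = lp (ρ.comp (PresentedGroup.mk rels)) t u := rfl

/-- the homomorphism from the kernel to `A` given by labels -/
def fN {A Q : Type} [Group Q] [AddCommGroup A] (rels : Set (FreeGroup ι))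
    (ρ : PresentedGroup rels →* Q) (t : ι → Q → A)
    (ht : ∀ x ∈ rels, ∀ q, cyc (ρ.comp (PresentedGroup.mk rels)) t x q = 0) :
    ρ.ker →* Multiplicative A :=
  MonoidHom.mk' (fun n => Multiplicative.ofAdd (lpG rels ρ t ht n.1 (1, 0)).2) (by
    rintro ⟨a, ha⟩ ⟨b, hb⟩
    obtain ⟨u, rfl⟩ := QuotientGroup.mk_surjective a
    obtain ⟨v, rfl⟩ := QuotientGroup.mk_surjective b
    rw [← ofAdd_add]
    congr 1
    show (lpG rels ρ t ht (PresentedGroup.mk rels (u * v)) (1, 0)).2 =
      (lpG rels ρ t ht (PresentedGroup.mk rels u) (1, 0)).2 +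
      (lpG rels ρ t ht (PresentedGroup.mk rels v) (1, 0)).2
    rw [lpG_mk, lpG_mk, lpG_mk, lp_apply, lp_apply, lp_apply]
    simp only [zero_add]
    rw [cyc_mul, add_comm]
    have h1 : (ρ.comp (PresentedGroup.mk rels)) v = 1 := hb
    rw [h1, one_mul])

theorem fN_mk {A Q : Type} [Group Q] [AddCommGroup A] (rels : Set (FreeGroup ι))
    (ρ : PresentedGroup rels →* Q) (t : ι → Q → A)
    (ht : ∀ x ∈ rels, ∀ q, cyc (ρ.comp (PresentedGroup.mk rels)) t x q = 0) (u : FreeGroup ι)
    (hu : PresentedGroup.mk rels u ∈ ρ.ker) :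
    fN rels ρ t ht ⟨PresentedGroup.mk rels u, hu⟩ =
      Multiplicative.ofAdd (cyc (ρ.comp (PresentedGroup.mk rels)) t u 1) := by
  show Multiplicative.ofAdd (lpG rels ρ t ht (PresentedGroup.mk rels u) (1, 0)).2 = _
  rw [lpG_mk, lp_apply, zero_add]

theorem exists_hom (rels : Set (FreeGroup ι)) (w : FreeGroup ι) (v : J → FreeGroup ι) (m : J → ℕ)
    (hrels : ∀ x ∈ rels, x = w ∨ ∃ j, x = v j ^ m j) (hvm : ∀ j, v j ^ m j ∈ rels)
    (hd : Nat.card J + 4 ≤ Nat.card ι) (p : ℕ) (hp : 2 ≤ p)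
    (N : Subgroup (PresentedGroup rels)) [hN : N.Normal] [N.FiniteIndex]
    (hv : ∀ j, PresentedGroup.mk rels (v j) ∉ N) (y : PresentedGroup rels) (hy : y ∉ N) :
    ∃ (f : N →* Multiplicative (ZMod p)) (n : N),
      f ⟨y * n * y⁻¹, hN.conj_mem n n.2 y⟩ ≠ f n := by
  classical
  by_contra hcon
  push Not at hcon
  have hpz : NeZero p := ⟨by omega⟩
  let Q := PresentedGroup rels ⧸ N
  have hQ : Finite Q := Subgroup.finite_quotient_of_finiteIndex
  let ρ' : PresentedGroup rels →* Q := QuotientGroup.mk' N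
  let ρ : FreeGroup ι →* Q := ρ'.comp (PresentedGroup.mk rels)
  have hρ : Function.Surjective ρ :=
    (QuotientGroup.mk'_surjective N).comp (QuotientGroup.mk_surjective)
  have hker : ∀ g, ρ' g = 1 ↔ g ∈ N := fun g => QuotientGroup.eq_one_iff g
  have hkerN : ρ'.ker = N := QuotientGroup.ker_mk' N
  obtain ⟨uy, huy⟩ := QuotientGroup.mk_surjective y
  have huy' : PresentedGroup.mk rels uy = y := huy
  let q : Q := (ρ uy)⁻¹
  have hq : q ≠ 1 := by
    intro h
    apply hy
    rw [← hker, ← huy']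
    exact inv_eq_one.1 h
  have hrel1 : ∀ x ∈ rels, ρ x = 1 := by
    intro x hx
    show ρ' (PresentedGroup.mk rels x) = 1
    rw [PresentedGroup.one_of_mem hx, map_one]
  -- the relations
  let Φ : (ι → Q → ZMod p) →+ ((Q → ZMod p) × (J → Q → ZMod p)) :=
    AddMonoidHom.mk' (fun t => (fun x => cyc ρ t w x, fun j x => cyc ρ t (v j ^ m j) x)) (by
      intro t t'
      apply Prod.ext
      · funext x
        exact cyc_add ρ t t' w x
      · funext j x
        exact cyc_add ρ t t' (v j ^ m j) x)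
  let C := (Q → ZMod p) × (∀ j : J, (Q ⧸ Subgroup.zpowers (ρ (v j))) → ZMod p)
  let c : (ι → Q → ZMod p) → C := fun t => (fun x => cyc ρ t w x,
    fun j x => cyc ρ t (v j ^ m j) (x.out)⁻¹)
  have hinv : ∀ (t : ι → Q → ZMod p) j (x : Q), ∀ h ∈ Subgroup.zpowers (ρ (v j)),
      cyc ρ t (v j ^ m j) (h * x) = cyc ρ t (v j ^ m j) x := by
    intro t j x h hh
    have h1 : ρ (v j) ^ m j = 1 := by
      rw [← map_pow]
      exact hrel1 _ (hvm j)
    obtain ⟨k, rfl⟩ := Subgroup.mem_zpowers_iff.1 hh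
    induction k with
    | zero => simp
    | succ k ih =>
      rw [add_comm (k : ℤ) 1, zpow_one_add, mul_assoc, cyc_pow_inv ρ t _ _ h1,
        ih (Subgroup.zpow_mem_zpowers _ _)]
    | pred k ih =>
      rw [← cyc_pow_inv ρ t _ _ h1, ← mul_assoc, ← zpow_one_add]
      have h2 : (1 : ℤ) + (-(k : ℤ) - 1) = -(k : ℤ) := by ring
      rw [h2]
      exact ih (Subgroup.zpow_mem_zpowers _ _)
  have hlow := card_range_le Φ c (by
    intro t t' htt
    have h1 : (fun x => cyc ρ t w x) = fun x => cyc ρ t' w x := congrArg Prod.fst htt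
    have h2 : (fun j (x : Q ⧸ Subgroup.zpowers (ρ (v j))) => cyc ρ t (v j ^ m j) (x.out)⁻¹) =
      fun j (x : Q ⧸ Subgroup.zpowers (ρ (v j))) => cyc ρ t' (v j ^ m j) (x.out)⁻¹ :=
        congrArg Prod.snd htt
    apply Prod.ext
    · exact h1
    · funext j x
      show cyc ρ t (v j ^ m j) x = cyc ρ t' (v j ^ m j) x
      have h3 : ∃ h ∈ Subgroup.zpowers (ρ (v j)),
          (QuotientGroup.mk x⁻¹ : Q ⧸ Subgroup.zpowers (ρ (v j))).out = x⁻¹ * h := by
        refine ⟨x * (QuotientGroup.mk x⁻¹ : Q ⧸ Subgroup.zpowers (ρ (v j))).out, ?_, by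
          rw [inv_mul_cancel_left]⟩
        have h4 : (QuotientGroup.mk x⁻¹ : Q ⧸ Subgroup.zpowers (ρ (v j))) =
            QuotientGroup.mk (QuotientGroup.mk x⁻¹ : Q ⧸ Subgroup.zpowers (ρ (v j))).out := by
          rw [QuotientGroup.out_eq']
        rw [QuotientGroup.eq, inv_inv] at h4
        exact h4
      obtain ⟨h, hh, hxh⟩ := h3
      have h5 := congrFun (congrFun h2 j) (QuotientGroup.mk x⁻¹ : Q ⧸ Subgroup.zpowers (ρ (v j)))
      rw [hxh, mul_inv_rev, inv_inv, hinv t j x _ (Subgroup.inv_mem _ hh),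
        hinv t' j x _ (Subgroup.inv_mem _ hh)] at h5
      exact h5)
  -- the upper bound
  have hZrel : ∀ t ∈ Φ.ker, ∀ x ∈ rels, ∀ z, cyc ρ t x z = 0 := by
    intro t ht x hx z
    have ht' : Φ t = 0 := ht
    rcases hrels x hx with rfl | ⟨j, rfl⟩
    · exact congrFun (congrArg Prod.fst ht') z
    · exact congrFun (congrFun (congrArg Prod.snd ht') j) z
  have hup := upper ρ p hρ Φ.ker (q := q) (by
    intro t ht u hu
    have hmem : PresentedGroup.mk rels u ∈ ρ'.ker := hu
    have hmemN : PresentedGroup.mk rels u ∈ N := (hker _).1 hu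
    let e : N →* ρ'.ker := Subgroup.inclusion hkerN.ge
    have h1 := hcon ((fN rels ρ' t (hZrel t ht)).comp e) ⟨PresentedGroup.mk rels u, hmemN⟩
    have h2 : (fN rels ρ' t (hZrel t ht)).comp e ⟨PresentedGroup.mk rels u, hmemN⟩ =
        Multiplicative.ofAdd (cyc ρ t u 1) := fN_mk rels ρ' t (hZrel t ht) u hmem
    have hconj : y * PresentedGroup.mk rels u * y⁻¹ = PresentedGroup.mk rels (uy * u * uy⁻¹) := by
      rw [map_mul, map_mul, map_inv, huy']
    have h3 : (fN rels ρ' t (hZrel t ht)).comp e ⟨y * PresentedGroup.mk rels u * y⁻¹,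
        hN.conj_mem _ hmemN y⟩ = Multiplicative.ofAdd (cyc ρ t (uy * u * uy⁻¹) 1) := by
      have h4 : PresentedGroup.mk rels (uy * u * uy⁻¹) ∈ ρ'.ker := by
        rw [← hconj, hkerN]
        exact hN.conj_mem _ hmemN y
      rw [← fN_mk rels ρ' t (hZrel t ht) (uy * u * uy⁻¹) h4]
      show fN rels ρ' t (hZrel t ht) _ = _
      congr 1
      exact Subtype.ext hconj
    have h5 : Multiplicative.ofAdd (cyc ρ t (uy * u * uy⁻¹) 1) =
        Multiplicative.ofAdd (cyc ρ t u 1) := by
      rw [← h2, ← h3]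
      exact h1
    have h6 := Multiplicative.ofAdd.injective h5
    rw [cyc_conj ρ t u uy hu] at h6
    exact h6.symm)
  -- comparison
  have e1 : Nat.card (ι → Q → ZMod p) = p ^ (Nat.card ι * Nat.card Q) := by
    rw [Nat.card_fun, Nat.card_fun, Nat.card_zmod, ← pow_mul, mul_comm]
  have hk : ∀ g : Q, g ≠ 1 → Nat.card (Q ⧸ Subgroup.zpowers g) ≤ Nat.card Q / 2 := by
    intro g hg
    have := two_mul_card hg
    omega
  have e2 : Nat.card C ≤ p ^ (Nat.card Q + Nat.card J * (Nat.card Q / 2)) := by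
    have : Fintype J := Fintype.ofFinite J
    rw [Nat.card_prod, Nat.card_fun, Nat.card_zmod, pow_add]
    apply Nat.mul_le_mul_left
    rw [Nat.card_pi]
    calc ∏ j : J, Nat.card ((Q ⧸ Subgroup.zpowers (ρ (v j))) → ZMod p)
        ≤ ∏ _j : J, p ^ (Nat.card Q / 2) := by
          apply Finset.prod_le_prod'
          intro j _
          rw [Nat.card_fun, Nat.card_zmod]
          apply Nat.pow_le_pow_right (by omega)
          apply hk
          intro h
          exact hv j ((hker _).1 h)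
      _ = p ^ (Nat.card J * (Nat.card Q / 2)) := by
          rw [Finset.prod_const, Finset.card_univ, ← pow_mul, Nat.card_eq_fintype_card (α := J),
            mul_comm]
  have e3 : Nat.card ι * Nat.card (Q ⧸ Subgroup.zpowers q) ≤ Nat.card ι * (Nat.card Q / 2) :=
    Nat.mul_le_mul_left _ (hk q hq)
  have e4 : p ^ (Nat.card ι * Nat.card Q) ≤
      p ^ (Nat.card Q - 1 + Nat.card ι * (Nat.card Q / 2)) *
        p ^ (Nat.card Q + Nat.card J * (Nat.card Q / 2)) := by
    rw [← e1]
    refine hlow.trans (Nat.mul_le_mul ?_ e2)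
    exact hup.trans (Nat.pow_le_pow_right (by omega) (by omega))
  rw [← pow_add] at e4
  have e5 := (Nat.pow_le_pow_iff_right (by omega : 1 < p)).1 e4
  have hQ1 : 1 ≤ Nat.card Q := Nat.card_pos
  have e6 : 2 * (Nat.card Q / 2) ≤ Nat.card Q := Nat.mul_div_le _ _
  -- arithmetic
  obtain ⟨d, hd'⟩ := Nat.exists_eq_add_of_le hd
  rw [hd'] at e5
  have e7 : Nat.card J * (2 * (Nat.card Q / 2)) ≤ Nat.card J * Nat.card Q :=
    Nat.mul_le_mul_left _ e6
  have e8 : d * (2 * (Nat.card Q / 2)) ≤ d * Nat.card Q := Nat.mul_le_mul_left _ e6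
  generalize Nat.card Q / 2 = k at *
  generalize Nat.card Q = n at *
  generalize Nat.card J = j at *
  have e9 : 0 ≤ d * n := Nat.zero_le _
  zify [hQ1] at e5 e6 e7 e8 hQ1 e9
  nlinarith

end sep

end Pool.Agent.V8H21.MCG
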