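import Pool.Agent.V8H21.MCG.Lab
import Pool.Agent.V8H21.MCG.Sep
import Pool.Agent.V8H21.MCG.Quot

set_option autoImplicit false

/-!
# Groups of two-dimensional orbifolds of genus at least two
-/

namespace Pool.Agent.V8H21.MCG

open Equiv

/-- the generators of the orbifold group -/
abbrev OGen (h n : ℕ) : Type := (Fin h ⊕ Fin h) ⊕ Fin n

/-- the generator around the `j`-th cone point -/
def og (h n : ℕ) (j : Fin n) : FreeGroup (OGen h n) := FreeGroup.of (Sum.inr j)

/-- the word `[a_1, b_1] ⋯ [a_h, b_h] (x_1 ⋯ x_n)⁻¹` -/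
def orel (h n : ℕ) : FreeGroup (OGen h n) :=
  FreeGroup.map Sum.inl (rel h) * ((List.ofFn (og h n)).prod)⁻¹

/-- the relators -/
def orels (h n : ℕ) (m : Fin n → ℕ) : Set (FreeGroup (OGen h n)) :=
  {x | x = orel h n ∨ ∃ j, x = og h n j ^ m j}

/-- the fundamental group of the orbifold of genus `h` with `n` cone points of orders `m j` -/
abbrev Orb (h n : ℕ) (m : Fin n → ℕ) : Type := PresentedGroup (orels h n m)

/-- the loop around the `j`-th cone point -/
def cone (h n : ℕ) (m : Fin n → ℕ) (j : Fin n) : Orb h n m := PresentedGroup.of (Sum.inr j)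

/-- the homomorphism killing the loops around the cone points -/
def fill (h n : ℕ) (m : Fin n → ℕ) : Orb h n m →* SurfaceGroup h :=
  PresentedGroup.toGroup (f := Sum.elim (fun u => PresentedGroup.of u) (fun _ => 1)) (by
    have hog : ∀ j, FreeGroup.lift (Sum.elim (fun u => (PresentedGroup.of u : SurfaceGroup h))
        (fun _ : Fin n => 1)) (og h n j) = 1 := by
      intro j
      unfold og
      rw [FreeGroup.lift_apply_of]
      rfl
    intro x hx
    rcases hx with rfl | ⟨j, rfl⟩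
    · unfold orel
      rw [map_mul, map_inv, map_list_prod]
      have h1 : (List.map (FreeGroup.lift (Sum.elim
          (fun u => (PresentedGroup.of u : SurfaceGroup h)) (fun _ : Fin n => 1)))
          (List.ofFn (og h n))).prod = 1 := by
        apply List.prod_eq_one
        intro y hy
        rw [List.mem_map] at hy
        obtain ⟨z, hz, rfl⟩ := hy
        rw [List.mem_ofFn] at hz
        obtain ⟨j, rfl⟩ := hz
        exact hog j
      rw [h1, inv_one, mul_one]
      have h2 : ∀ w : FreeGroup (Fin h ⊕ Fin h), FreeGroup.lift (Sum.elim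
          (fun u => (PresentedGroup.of u : SurfaceGroup h)) (fun _ : Fin n => 1))
          (FreeGroup.map Sum.inl w) = PresentedGroup.mk _ w := by
        intro w
        have : (FreeGroup.lift (Sum.elim (fun u => (PresentedGroup.of u : SurfaceGroup h))
            (fun _ : Fin n => 1))).comp (FreeGroup.map Sum.inl) = PresentedGroup.mk _ := by
          ext u
          simp
          rfl
        exact DFunLike.congr_fun this w
      rw [h2]
      exact PresentedGroup.one_of_mem (Set.mem_singleton _)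
    · rw [map_pow, hog, one_pow])

theorem fill_cone (h n : ℕ) (m : Fin n → ℕ) (j : Fin n) : fill h n m (cone h n m j) = 1 := by
  unfold fill cone
  rw [PresentedGroup.toGroup.of]
  rfl

theorem fill_mk (h n : ℕ) (m : Fin n → ℕ) (w : FreeGroup (Fin h ⊕ Fin h)) :
    fill h n m (PresentedGroup.mk _ (FreeGroup.map Sum.inl w)) = PresentedGroup.mk _ w := by
  have : ((fill h n m).comp (PresentedGroup.mk _)).comp (FreeGroup.map Sum.inl) =
      PresentedGroup.mk _ := by
    ext u
    show fill h n m (PresentedGroup.mk _ (FreeGroup.map Sum.inl (FreeGroup.of u))) = _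
    rw [FreeGroup.map.of]
    show fill h n m (PresentedGroup.of (Sum.inl u)) = _
    unfold fill
    rw [PresentedGroup.toGroup.of]
    rfl
  exact DFunLike.congr_fun this w

theorem fill_surj (h n : ℕ) (m : Fin n → ℕ) : Function.Surjective (fill h n m) := by
  intro x
  obtain ⟨w, rfl⟩ := QuotientGroup.mk_surjective x
  exact ⟨_, fill_mk h n m w⟩

theorem orb_fg (h n : ℕ) (m : Fin n → ℕ) : Group.FG (Orb h n m) := QuotientGroup.fg _

/-- elements of the intersection of the kernels are killed by homomorphisms from subgroups -/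
theorem cker_hom {G A : Type} [Group G] [Group A] [Finite A] (N : Subgroup G) [hN : N.FiniteIndex]
    (f : N →* A) {k : ℕ} (hk : Nat.card A * N.index ≤ k) {x : G} (hx : x ∈ cker G k) :
    ∃ hxN : x ∈ N, f ⟨x, hxN⟩ = 1 := by
  have h1 : (f.ker.map N.subtype).index = f.ker.index * N.index := Subgroup.index_map_subtype _
  have h2 : f.ker.index = Nat.card f.range := Subgroup.index_ker f
  have h3 : Nat.card f.range ≤ Nat.card A := Nat.card_le_card_of_injective _ Subtype.val_injective
  have h4 : (f.ker.map N.subtype).index ≠ 0 := by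
    rw [h1, h2]
    exact mul_ne_zero Nat.card_pos.ne' hN.index_ne_zero
  have h5 : (f.ker.map N.subtype).index ≤ k := by
    rw [h1, h2]
    exact (Nat.mul_le_mul_right _ h3).trans hk
  obtain ⟨y, hy, hyx⟩ := cker_le _ h4 h5 hx
  subst hyx
  exact ⟨y.2, hy⟩

theorem cm_comm {h : ℕ} {A : Type} [CommGroup A] (F : FreeGroup (Fin h ⊕ Fin h) →* A)
    (i : Fin h) : F (cm h i) = 1 := by
  unfold cm
  rw [map_mul, map_mul, map_mul, map_inv, map_inv,
    mul_comm (F (FreeGroup.of (Sum.inl i))) (F (FreeGroup.of (Sum.inr i))),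
    mul_inv_cancel_right, mul_inv_cancel]

/-- a character of order three -/
def chi (h : ℕ) (i₀ : Fin h) : SurfaceGroup h →* Multiplicative (ZMod 3) :=
  PresentedGroup.toGroup (f := fun u => if u = Sum.inl i₀ then Multiplicative.ofAdd 1 else 1) (by
    intro x hx
    rw [Set.mem_singleton_iff] at hx
    subst hx
    unfold rel
    rw [map_list_prod]
    apply List.prod_eq_one
    intro y hy
    rw [List.mem_map] at hy
    obtain ⟨z, hz, rfl⟩ := hy
    rw [List.mem_ofFn] at hz
    obtain ⟨i, rfl⟩ := hz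
    exact cm_comm _ i)

theorem chi_of (h : ℕ) (i₀ : Fin h) :
    chi h i₀ (PresentedGroup.of (Sum.inl i₀)) = Multiplicative.ofAdd 1 := by
  unfold chi
  rw [PresentedGroup.toGroup.of, if_pos rfl]

section main

variable {h n : ℕ} {m : Fin n → ℕ}

theorem sep_cone (hm : ∀ j, 2 ≤ m j) (Γ : Subgroup (SurfaceGroup h)) [Γ.Normal] [Γ.FiniteIndex]
    (hh : 2 ≤ h) (j : Fin n) :
    ∃ k : ℕ, ∀ (i : Fin n) (z : Orb h n m),
      z * cone h n m i * z⁻¹ * (cone h n m j)⁻¹ ∈ cker (Orb h n m) k →
        i = j ∧ fill h n m z ∈ Γ := by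
  classical
  let χ := chi h ⟨0, by omega⟩
  let Γ₂ := Γ ⊓ χ.ker
  have hΓ₂ : Γ₂.FiniteIndex := inferInstance
  let Q := SurfaceGroup h ⧸ Γ₂
  have hQ : Finite Q := Subgroup.finite_quotient_of_finiteIndex
  let ρ' : Orb h n m →* Q := (QuotientGroup.mk' Γ₂).comp (fill h n m)
  let R : FreeGroup (OGen h n) →* Q := ρ'.comp (PresentedGroup.mk _)
  let R₀ : FreeGroup (Fin h ⊕ Fin h) →* Q := (QuotientGroup.mk' Γ₂).comp (PresentedGroup.mk _)
  have hR₀ : Function.Surjective R₀ :=
    (QuotientGroup.mk'_surjective Γ₂).comp QuotientGroup.mk_surjective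
  have hR : R.comp (FreeGroup.map Sum.inl) = R₀ := by
    ext u
    show QuotientGroup.mk' Γ₂ (fill h n m (PresentedGroup.mk _
      (FreeGroup.map Sum.inl (FreeGroup.of u)))) = _
    rw [fill_mk]
    rfl
  have hRog : ∀ j, R (og h n j) = 1 := by
    intro j
    show QuotientGroup.mk' Γ₂ (fill h n m (cone h n m j)) = 1
    rw [fill_cone, map_one]
  have hρker : ρ'.ker.FiniteIndex := by infer_instance
  refine ⟨m j * ρ'.ker.index, fun i z hz => ?_⟩
  by_contra hcon
  let q₀ : Q := ρ' z
  have hq₀ : i = j → q₀⁻¹ ≠ 1 := by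
    intro hij h1
    apply hcon
    have h2 : (QuotientGroup.mk' Γ₂) (fill h n m z) = 1 := inv_eq_one.1 h1
    exact ⟨hij, ((QuotientGroup.eq_one_iff _).1 h2).1⟩
  have hq' : ∃ q' : Q, q' ≠ 1 ∧ q' ≠ q₀⁻¹ := by
    let α : SurfaceGroup h := PresentedGroup.of (Sum.inl ⟨0, by omega⟩)
    have hχ : χ α = Multiplicative.ofAdd 1 := chi_of h _
    have h1 : (QuotientGroup.mk' Γ₂) α ≠ 1 := by
      intro h2
      have h3 : χ α = 1 := ((QuotientGroup.eq_one_iff _).1 h2).2
      rw [hχ] at h3
      exact absurd h3 (by decide)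
    have h2 : (QuotientGroup.mk' Γ₂) (α * α) ≠ 1 := by
      intro h2
      have h3 : χ (α * α) = 1 := ((QuotientGroup.eq_one_iff _).1 h2).2
      rw [map_mul, hχ] at h3
      exact absurd h3 (by decide)
    by_cases h3 : (QuotientGroup.mk' Γ₂) α = q₀⁻¹
    · refine ⟨_, h2, ?_⟩
      rw [← h3, map_mul]
      intro h4
      exact h1 (mul_eq_left.1 h4)
    · exact ⟨_, h1, h3⟩
  obtain ⟨q', hq1, hq2⟩ := hq'
  obtain ⟨t₀, ht₀⟩ := exists_labels (A := ZMod (m j)) R₀ hR₀ 1 q'
  have hmj := hm j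
  have hfact : NeZero (m j) := ⟨by omega⟩
  let t : OGen h n → Q → ZMod (m j) := Sum.elim t₀ (fun k x =>
    if k = j then dl (ZMod (m j)) 1 x - dl (ZMod (m j)) q' x else 0)
  have hcone : ∀ k x, cyc R t (og h n k) x =
      if k = j then dl (ZMod (m j)) 1 x - dl (ZMod (m j)) q' x else 0 := by
    intro k x
    unfold og
    rw [cyc_of]
    rfl
  have hprod : ∀ x, cyc R t ((List.ofFn (og h n)).prod) x =
      dl (ZMod (m j)) 1 x - dl (ZMod (m j)) q' x := by
    intro x
    obtain ⟨pre, suf, h1, h2, h3⟩ := split_prod (og h n) j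
    have hz : ∀ k, k ≠ j → ∀ x, cyc R t (og h n k) x = 0 := by
      intro k hk x
      rw [hcone, if_neg hk]
    have hcl : ∀ (S : Set (Fin n)), (∀ k ∈ S, k ≠ j) → ∀ u ∈ Subgroup.closure (og h n '' S),
        ∀ x, cyc R t u x = 0 := by
      intro S hS u hu x
      apply cyc_zero_of R t (Sum.inr '' S)
      · rintro _ ⟨k, hk, rfl⟩
        funext x
        show (if k = j then _ else _) = _
        rw [if_neg (hS k hk)]
        rfl
      · rw [← Set.image_comp]
        exact hu
    rw [h1, cyc_mul, cyc_mul, hcl _ (fun k hk => (ne_of_lt hk)) pre h2,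
      hcl _ (fun k hk => (ne_of_gt hk)) suf h3, hcone, if_pos rfl, zero_add, add_zero]
    have h4 : R suf = 1 := by
      have : Subgroup.closure (og h n '' {k | j < k}) ≤ R.ker := by
        rw [Subgroup.closure_le]
        rintro _ ⟨k, _, rfl⟩
        exact hRog k
      exact this h3
    rw [h4, one_mul]
  have hRprod : R ((List.ofFn (og h n)).prod) = 1 := by
    rw [map_list_prod]
    apply List.prod_eq_one
    intro y hy
    rw [List.mem_map] at hy
    obtain ⟨z, hz, rfl⟩ := hy
    rw [List.mem_ofFn] at hz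
    obtain ⟨k, rfl⟩ := hz
    exact hRog k
  have ht : ∀ x ∈ orels h n m, ∀ q, cyc R t x q = 0 := by
    intro x hx q
    rcases hx with rfl | ⟨k, rfl⟩
    · unfold orel
      rw [cyc_mul, cyc_inv, map_inv, hRprod, inv_one, one_mul, hprod, cyc_map, hR]
      have := ht₀ q
      show _ + cyc R₀ t₀ (rel h) q = 0
      rw [this]
      abel
    · rw [cyc_pow R t _ (hRog k), hcone]
      split_ifs with hk
      · subst hk
        rw [nsmul_eq_mul, ZMod.natCast_self, zero_mul]
      · exact smul_zero _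
  -- the homomorphism
  let f := fN (orels h n m) ρ' t ht
  obtain ⟨uz, huz⟩ := QuotientGroup.mk_surjective z
  have huz' : PresentedGroup.mk _ uz = z := huz
  have hcard : Nat.card (Multiplicative (ZMod (m j))) = m j := Nat.card_zmod _
  obtain ⟨hmem, hf⟩ := cker_hom ρ'.ker f (k := m j * ρ'.ker.index) (by rw [hcard]) hz
  have hcmem : cone h n m j ∈ ρ'.ker := hRog j
  have hcmem' : cone h n m i ∈ ρ'.ker := hRog i
  have hzmem : z * cone h n m i * z⁻¹ ∈ ρ'.ker := (MonoidHom.normal_ker ρ').conj_mem _ hcmem' z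
  have h1 : f ⟨z * cone h n m i * z⁻¹, hzmem⟩ = f ⟨cone h n m j, hcmem⟩ := by
    have h2 : (⟨z * cone h n m i * z⁻¹ * (cone h n m j)⁻¹, hmem⟩ : ρ'.ker) =
        ⟨z * cone h n m i * z⁻¹, hzmem⟩ * ⟨cone h n m j, hcmem⟩⁻¹ := rfl
    rw [h2, map_mul, map_inv, mul_inv_eq_one] at hf
    exact hf
  have h2 : f ⟨cone h n m j, hcmem⟩ = Multiplicative.ofAdd (cyc R t (og h n j) 1) :=
    fN_mk (orels h n m) ρ' t ht (og h n j) hcmem
  have h3 : f ⟨z * cone h n m i * z⁻¹, hzmem⟩ =
      Multiplicative.ofAdd (cyc R t (uz * og h n i * uz⁻¹) 1) := by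
    have e : z * cone h n m i * z⁻¹ = PresentedGroup.mk _ (uz * og h n i * uz⁻¹) := by
      rw [map_mul, map_mul, map_inv, huz']
      rfl
    have hm2 : PresentedGroup.mk (orels h n m) (uz * og h n i * uz⁻¹) ∈ ρ'.ker := by
      rw [← e]
      exact hzmem
    rw [← fN_mk (orels h n m) ρ' t ht _ hm2]
    exact congrArg f (Subtype.ext e)
  rw [h2, h3, cyc_conj R t _ _ (hRog i), hcone, hcone, if_pos rfl] at h1
  have h4 := Multiplicative.ofAdd.injective h1
  have h5 : (R uz)⁻¹ = q₀⁻¹ := by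
    show (ρ' (PresentedGroup.mk _ uz))⁻¹ = (ρ' z)⁻¹
    rw [huz']
  rw [h5] at h4
  have : Nontrivial (ZMod (m j)) := ZMod.nontrivial_iff.2 (by omega)
  have h6 : dl (ZMod (m j)) (1 : Q) 1 - dl (ZMod (m j)) q' (1 : Q) = 1 := by
    unfold dl
    rw [if_pos rfl, if_neg (Ne.symm hq1), sub_zero]
  replace h4 := h4.trans h6
  by_cases hij : i = j
  · rw [if_pos hij] at h4
    unfold dl at h4
    rw [if_neg (hq₀ hij), if_neg (Ne.symm hq2), sub_zero] at h4
    exact zero_ne_one h4
  · rw [if_neg hij] at h4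
    exact zero_ne_one h4

/-- the centralizer of a torsion-free normal subgroup, modulo a characteristic subgroup -/
theorem centr (hh : 2 ≤ h) (P N : Subgroup (Orb h n m)) [N.Normal] [N.FiniteIndex] (hNP : N ≤ P)
    (hP : ∀ j, cone h n m j ∉ P) (y : Orb h n m)
    (hy : ∀ p ∈ P, y * p * y⁻¹ * p⁻¹ ∈ cker (Orb h n m) (2 * N.index)) : y ∈ N := by
  by_contra hcon
  obtain ⟨f, x, hf⟩ := exists_hom (ι := OGen h n) (J := Fin n) (orels h n m) (orel h n) (og h n) m
    (fun x hx => hx) (fun j => Or.inr ⟨j, rfl⟩) (by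
      rw [Nat.card_eq_fintype_card, Nat.card_eq_fintype_card, Fintype.card_sum, Fintype.card_sum,
        Fintype.card_fin, Fintype.card_fin]
      omega) 2 le_rfl N (fun j hj => hP j (hNP hj)) y hcon
  apply hf
  have hN : N.Normal := inferInstance
  obtain ⟨hmem, h1⟩ := cker_hom N f (k := 2 * N.index) (by
    have : Nat.card (Multiplicative (ZMod 2)) = 2 := Nat.card_zmod _
    rw [this]) (hy x (hNP x.2))
  have h2 : (⟨y * x * y⁻¹ * (x : Orb h n m)⁻¹, hmem⟩ : N) =
      ⟨y * x * y⁻¹, hN.conj_mem x x.2 y⟩ * x⁻¹ := rfl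
  rw [h2, map_mul, map_inv, mul_inv_eq_one] at h1
  exact h1

end main

/-- the center modulo a characteristic subgroup -/
theorem center_mod {h : ℕ} (hh : 2 ≤ h) (V : Subgroup (SurfaceGroup h)) [V.Normal] [V.FiniteIndex]
    (y : SurfaceGroup h)
    (hy : ∀ p, y * p * y⁻¹ * p⁻¹ ∈ cker (SurfaceGroup h) (2 * V.index)) : y ∈ V := by
  by_contra hcon
  obtain ⟨f, x, hf⟩ := exists_hom (ι := Fin h ⊕ Fin h) (J := Fin 0)
    ({rel h} : Set (FreeGroup (Fin h ⊕ Fin h))) (rel h) (fun j => j.elim0) (fun j => j.elim0)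
    (fun x hx => Or.inl hx) (fun j => j.elim0) (by
      rw [Nat.card_eq_fintype_card, Nat.card_eq_fintype_card, Fintype.card_sum,
        Fintype.card_fin, Fintype.card_fin]
      omega) 2 le_rfl V (fun j => j.elim0) y hcon
  apply hf
  have hV : V.Normal := inferInstance
  obtain ⟨hmem, h1⟩ := cker_hom V f (k := 2 * V.index) (by
    have : Nat.card (Multiplicative (ZMod 2)) = 2 := Nat.card_zmod _
    rw [this]) (hy x)
  have h2 : (⟨y * x * y⁻¹ * (x : SurfaceGroup h)⁻¹, hmem⟩ : V) =
      ⟨y * x * y⁻¹, hV.conj_mem x x.2 y⟩ * x⁻¹ := rfl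
  rw [h2, map_mul, map_inv, mul_inv_eq_one] at h1
  exact h1

end Pool.Agent.V8H21.MCG
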