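import Pool.Agent.V8H21.MCG.Exi

set_option autoImplicit false

/-!
# Automorphisms of surface groups and the second cohomology with trivial coefficients
-/

namespace Pool.Agent.V8H21.MCG

universe u v w

/-- the trivial action -/
def triv (K : Type u) (D : Type v) [Group K] [AddCommGroup D] : Act K D where
  s _ b := b
  one _ := rfl
  mul _ _ _ := rfl
  add _ _ _ := rfl

section nu

variable {g : ℕ} {D : Type v} [AddCommGroup D]

/-- the lift with zero values at the generators -/
def hh (c : SurfaceGroup g → SurfaceGroup g → D) (hc : (triv (SurfaceGroup g) D).IsCoc c) :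
    FreeGroup (Fin g ⊕ Fin g) →* TP (triv (SurfaceGroup g) D) c hc :=
  FreeGroup.lift fun i => ⟨0, PresentedGroup.of i⟩

theorem hh_of (c : SurfaceGroup g → SurfaceGroup g → D) (hc : (triv (SurfaceGroup g) D).IsCoc c)
    (i : Fin g ⊕ Fin g) : hh c hc (FreeGroup.of i) = ⟨0, PresentedGroup.of i⟩ :=
  FreeGroup.lift_apply_of

theorem hh_x (c : SurfaceGroup g → SurfaceGroup g → D) (hc : (triv (SurfaceGroup g) D).IsCoc c)
    (w : FreeGroup (Fin g ⊕ Fin g)) : (hh c hc w).x = PresentedGroup.mk {rel g} w := by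
  have h1 : (TP.pr hc).comp (hh c hc) = PresentedGroup.mk {rel g} := by
    apply FreeGroup.ext_hom
    intro i
    show (hh c hc (FreeGroup.of i)).x = _
    rw [hh_of]
    rfl
  exact DFunLike.congr_fun h1 w

/-- the value at the relator -/
def nu (c : SurfaceGroup g → SurfaceGroup g → D) (hc : (triv (SurfaceGroup g) D).IsCoc c) : D :=
  (hh c hc (rel g)).b + c 1 1

theorem mk_rel (g : ℕ) : PresentedGroup.mk {rel g} (rel g) = 1 :=
  PresentedGroup.one_of_mem (Set.mem_singleton _)

theorem hh_rel (c : SurfaceGroup g → SurfaceGroup g → D)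
    (hc : (triv (SurfaceGroup g) D).IsCoc c) :
    hh c hc (rel g) = TP.inc hc (Multiplicative.ofAdd (nu c hc)) := by
  apply TP.ext'
  · rw [TP.inc_b]
    show _ = (hh c hc (rel g)).b + c 1 1 - c 1 1
    rw [add_sub_cancel_right]
  · rw [hh_x, mk_rel]
    rfl

theorem coc_sub {c c' : SurfaceGroup g → SurfaceGroup g → D}
    (hc : (triv (SurfaceGroup g) D).IsCoc c) (hc' : (triv (SurfaceGroup g) D).IsCoc c') :
    (triv (SurfaceGroup g) D).IsCoc fun x y => c x y - c' x y := by
  intro x y z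
  have h1 := (triv (SurfaceGroup g) D).bd2_sub c c' x y z
  have h2 : (triv (SurfaceGroup g) D).bd2 c x y z = 0 := hc x y z
  have h3 : (triv (SurfaceGroup g) D).bd2 c' x y z = 0 := hc' x y z
  rw [h2, h3, sub_zero] at h1
  exact h1

theorem nu_sub {c c' : SurfaceGroup g → SurfaceGroup g → D}
    (hc : (triv (SurfaceGroup g) D).IsCoc c) (hc' : (triv (SurfaceGroup g) D).IsCoc c') :
    nu _ (coc_sub hc hc') = nu c hc - nu c' hc' := by
  have h1 : ∀ w, (hh _ (coc_sub hc hc') w).b = (hh c hc w).b - (hh c' hc' w).b := by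
    intro w
    let h2 : FreeGroup (Fin g ⊕ Fin g) →* TP (triv (SurfaceGroup g) D) _ (coc_sub hc hc') :=
      MonoidHom.mk' (fun w => ⟨(hh c hc w).b - (hh c' hc' w).b, PresentedGroup.mk {rel g} w⟩) (by
        intro w v
        apply TP.ext'
        · rw [TP.mul_b, map_mul, map_mul, TP.mul_b, TP.mul_b, hh_x, hh_x, hh_x, hh_x]
          show _ + (hh c hc v).b + _ - (_ + (hh c' hc' v).b + _) =
            _ - _ + ((hh c hc v).b - (hh c' hc' v).b) + (_ - _)
          abel
        · exact map_mul _ _ _)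
    have h3 : h2 = hh _ (coc_sub hc hc') := by
      apply FreeGroup.ext_hom
      intro i
      rw [hh_of]
      apply TP.ext'
      · show (hh c hc (FreeGroup.of i)).b - (hh c' hc' (FreeGroup.of i)).b = 0
        rw [hh_of, hh_of]
        exact sub_zero 0
      · rfl
    rw [← h3]
    rfl
  unfold nu
  rw [h1]
  abel

theorem bd_of_nu {c : SurfaceGroup g → SurfaceGroup g → D}
    (hc : (triv (SurfaceGroup g) D).IsCoc c) (h0 : nu c hc = 0) :
    ∃ l, ∀ x y, c x y = (triv (SurfaceGroup g) D).bd l x y := by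
  have hr : hh c hc (rel g) = 1 := by
    rw [hh_rel, h0]
    exact map_one _
  have hrels : ∀ r ∈ ({rel g} : Set (FreeGroup (Fin g ⊕ Fin g))),
      FreeGroup.lift (fun i => hh c hc (FreeGroup.of i)) r = 1 := by
    intro r hr'
    rw [Set.mem_singleton_iff] at hr'
    rw [hr']
    have h3 : FreeGroup.lift (fun i => hh c hc (FreeGroup.of i)) = hh c hc := by
      ext i
      simp
    rw [h3, hr]
  let s : SurfaceGroup g →* TP (triv (SurfaceGroup g) D) c hc := PresentedGroup.toGroup hrels
  have hs : ∀ w, s (PresentedGroup.mk {rel g} w) = hh c hc w := by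
    intro w
    have h3 : s.comp (PresentedGroup.mk {rel g}) = hh c hc := by
      apply FreeGroup.ext_hom
      intro i
      exact PresentedGroup.toGroup.of hrels
    exact DFunLike.congr_fun h3 w
  have hsx : ∀ x, (s x).x = x := by
    intro x
    obtain ⟨w, rfl⟩ := QuotientGroup.mk_surjective x
    exact (congrArg TP.x (hs w)).trans (hh_x c hc w)
  refine ⟨fun x => - (s x).b, fun x y => ?_⟩
  have h3 := congrArg TP.b (map_mul s x y)
  rw [TP.mul_b, hsx, hsx] at h3
  show c x y = - (s y).b - - (s (x * y)).b + - (s x).b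
  rw [h3]
  show c x y = - (s y).b - - ((s x).b + (s y).b + c x y) + - (s x).b
  abel

end nu

section auto

variable {g : ℕ}

theorem coc_pull {D : Type v} [AddCommGroup D] {c : SurfaceGroup g → SurfaceGroup g → D}
    (hc : (triv (SurfaceGroup g) D).IsCoc c) (φ : MulAut (SurfaceGroup g)) :
    (triv (SurfaceGroup g) D).IsCoc fun x y => c (φ x) (φ y) := by
  intro x y z
  have h := hc (φ x) (φ y) (φ z)
  show c (φ y) (φ z) - c (φ (x * y)) (φ z) + c (φ x) (φ (y * z)) - c (φ x) (φ y) = 0
  rw [map_mul, map_mul]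
  exact h

/-- commutators do not see central factors -/
theorem central_comm {H : Type v} [Group H] {a b s t : H} (hs : ∀ x, s * x = x * s)
    (ht : ∀ x, t * x = x * t) :
    (s * a) * (t * b) * (s * a)⁻¹ * (t * b)⁻¹ = a * b * a⁻¹ * b⁻¹ := by
  have h1 : (s * a)⁻¹ = s⁻¹ * a⁻¹ := by
    rw [hs, mul_inv_rev]
  have h2 : (t * b)⁻¹ = t⁻¹ * b⁻¹ := by
    rw [ht, mul_inv_rev]
  rw [h1, h2]
  have hs' : ∀ x, s⁻¹ * x = x * s⁻¹ := by
    intro x
    rw [inv_mul_eq_iff_eq_mul, ← mul_assoc, hs, mul_assoc, mul_inv_cancel, mul_one]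
  have ht' : ∀ x, t⁻¹ * x = x * t⁻¹ := by
    intro x
    rw [inv_mul_eq_iff_eq_mul, ← mul_assoc, ht, mul_assoc, mul_inv_cancel, mul_one]
  calc s * a * (t * b) * (s⁻¹ * a⁻¹) * (t⁻¹ * b⁻¹)
      = s * (a * (t * (b * (s⁻¹ * (a⁻¹ * (t⁻¹ * b⁻¹)))))) := by simp only [mul_assoc]
    _ = s * (a * (t * (s⁻¹ * (b * (a⁻¹ * (t⁻¹ * b⁻¹)))))) := by
        rw [← mul_assoc b s⁻¹, ← hs' b, mul_assoc s⁻¹ b]
    _ = s * (a * (s⁻¹ * (t * (b * (a⁻¹ * (t⁻¹ * b⁻¹)))))) := by
        rw [← mul_assoc t s⁻¹, ← hs' t, mul_assoc s⁻¹ t]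
    _ = s * (s⁻¹ * (a * (t * (b * (a⁻¹ * (t⁻¹ * b⁻¹)))))) := by
        rw [← mul_assoc a s⁻¹, ← hs' a, mul_assoc s⁻¹ a]
    _ = a * (t * (b * (a⁻¹ * (t⁻¹ * b⁻¹)))) := by rw [mul_inv_cancel_left]
    _ = a * (t * (b * (t⁻¹ * (a⁻¹ * b⁻¹)))) := by
        rw [← mul_assoc a⁻¹ t⁻¹, ← ht' a⁻¹, mul_assoc t⁻¹ a⁻¹]
    _ = a * (t * (t⁻¹ * (b * (a⁻¹ * b⁻¹)))) := by
        rw [← mul_assoc b t⁻¹, ← ht' b, mul_assoc t⁻¹ b]
    _ = a * (b * (a⁻¹ * b⁻¹)) := by rw [mul_inv_cancel_left]
    _ = _ := by simp only [mul_assoc]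

theorem inc_central {D : Type v} [AddCommGroup D] {c : SurfaceGroup g → SurfaceGroup g → D}
    (hc : (triv (SurfaceGroup g) D).IsCoc c) (d : Multiplicative D)
    (e : TP (triv (SurfaceGroup g) D) c hc) : TP.inc hc d * e = e * TP.inc hc d := by
  apply TP.ext'
  · rw [TP.mul_b, TP.mul_b, TP.inc_b, TP.inc_x, TP.c_one hc e.x, TP.c_one' hc e.x]
    show d.toAdd - c 1 1 + e.b + c 1 1 = e.b + (d.toAdd - c 1 1) + c 1 1
    abel
  · rw [TP.mul_x, TP.mul_x, TP.inc_x, one_mul, mul_one]

/-- the degree of an element of the normal closure of the relator -/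
theorem exists_deg (v : FreeGroup (Fin g ⊕ Fin g)) (hv : PresentedGroup.mk {rel g} v = 1) :
    ∃ k : ℤ, ∀ (D : Type v) [AddCommGroup D] (c : SurfaceGroup g → SurfaceGroup g → D)
      (hc : (triv (SurfaceGroup g) D).IsCoc c),
      hh c hc v = TP.inc hc (Multiplicative.ofAdd (k • nu c hc)) := by
  let K : Subgroup (FreeGroup (Fin g ⊕ Fin g)) :=
    { carrier := {v | ∃ k : ℤ, ∀ (D : Type v) [AddCommGroup D]
        (c : SurfaceGroup g → SurfaceGroup g → D) (hc : (triv (SurfaceGroup g) D).IsCoc c),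
        hh c hc v = TP.inc hc (Multiplicative.ofAdd (k • nu c hc))}
      one_mem' := ⟨0, fun D _ c hc => by
        rw [zero_smul, map_one]
        exact (map_one _).symm⟩
      mul_mem' := by
        rintro a b ⟨k, hk⟩ ⟨l, hl⟩
        refine ⟨k + l, fun D _ c hc => ?_⟩
        rw [map_mul, hk, hl, ← map_mul, add_smul]
        rfl
      inv_mem' := by
        rintro a ⟨k, hk⟩
        refine ⟨-k, fun D _ c hc => ?_⟩
        rw [map_inv, hk, ← map_inv, neg_smul]
        rfl }
  have hK : K.Normal := by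
    constructor
    rintro a ⟨k, hk⟩ w
    refine ⟨k, fun D _ c hc => ?_⟩
    rw [map_mul, map_mul, map_inv, hk, ← inc_central, mul_inv_cancel_right]
  have h1 : Subgroup.normalClosure ({rel g} : Set (FreeGroup (Fin g ⊕ Fin g))) ≤ K := by
    apply Subgroup.normalClosure_le_normal
    intro x hx
    rw [Set.mem_singleton_iff] at hx
    rw [hx]
    refine ⟨1, fun D _ c hc => ?_⟩
    rw [one_smul, hh_rel]
  exact h1 ((QuotientGroup.eq_one_iff _).1 hv)

/-- the degree of an automorphism -/
theorem exists_degree (φ : MulAut (SurfaceGroup g)) :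
    ∃ k : ℤ, ∀ (D : Type v) [AddCommGroup D] (c : SurfaceGroup g → SurfaceGroup g → D)
      (hc : (triv (SurfaceGroup g) D).IsCoc c), nu _ (coc_pull hc φ) = k • nu c hc := by
  have hsurj : ∀ x : SurfaceGroup g, ∃ w, PresentedGroup.mk {rel g} w = x :=
    fun x => QuotientGroup.mk_surjective x
  choose wx hwx using hsurj
  let φ' : FreeGroup (Fin g ⊕ Fin g) →* FreeGroup (Fin g ⊕ Fin g) :=
    FreeGroup.lift fun i => wx (φ (PresentedGroup.of i))
  have hφ' : ∀ w, PresentedGroup.mk {rel g} (φ' w) = φ (PresentedGroup.mk {rel g} w) := by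
    intro w
    have h1 : (PresentedGroup.mk {rel g}).comp φ' =
        φ.toMonoidHom.comp (PresentedGroup.mk {rel g}) := by
      apply FreeGroup.ext_hom
      intro i
      show PresentedGroup.mk {rel g} (φ' (FreeGroup.of i)) = _
      have : φ' (FreeGroup.of i) = wx (φ (PresentedGroup.of i)) := FreeGroup.lift_apply_of
      rw [this, hwx]
      rfl
    exact DFunLike.congr_fun h1 w
  obtain ⟨k, hk⟩ := exists_deg.{v} (φ' (rel g)) (by rw [hφ', mk_rel, map_one])
  refine ⟨k, fun D _ c hc => ?_⟩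
  -- the pullback of the extension
  let P : TP (triv (SurfaceGroup g) D) (fun x y => c (φ x) (φ y)) (coc_pull hc φ) →*
      TP (triv (SurfaceGroup g) D) c hc :=
    { toFun := fun e => ⟨e.b, φ e.x⟩
      map_one' := by
        apply TP.ext'
        · show - c (φ 1) (φ 1) = - c 1 1
          rw [map_one]
        · exact map_one φ
      map_mul' := fun a b => by
        apply TP.ext'
        · rfl
        · exact map_mul φ _ _ }
  let H1 := P.comp (hh _ (coc_pull hc φ))
  let H2 := (hh c hc).comp φ'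
  have hgen : ∀ i, H2 (FreeGroup.of i) =
      TP.inc hc (Multiplicative.ofAdd (H2 (FreeGroup.of i)).b) * H1 (FreeGroup.of i) := by
    intro i
    have h1 : H1 (FreeGroup.of i) = ⟨0, φ (PresentedGroup.of i)⟩ := by
      show P (hh _ (coc_pull hc φ) (FreeGroup.of i)) = _
      rw [hh_of]
      rfl
    rw [h1, TP.inc_mul]
    apply TP.ext'
    · rfl
    · show (hh c hc (φ' (FreeGroup.of i))).x = _
      rw [hh_x, hφ']
      rfl
  have hcm : ∀ i, H2 (cm g i) = H1 (cm g i) := by
    intro i
    unfold cm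
    simp only [map_mul, map_inv]
    rw [hgen (Sum.inl i), hgen (Sum.inr i)]
    exact central_comm (fun x => inc_central hc _ x) (fun x => inc_central hc _ x)
  have hrel : H2 (rel g) = H1 (rel g) := by
    unfold rel
    rw [map_list_prod, map_list_prod, List.map_ofFn, List.map_ofFn]
    congr 2
    funext i
    exact hcm i
  have h2 : H2 (rel g) = TP.inc hc (Multiplicative.ofAdd (k • nu c hc)) := hk D c hc
  rw [h2] at hrel
  have h3 := congrArg TP.b hrel
  have h4 : k • nu c hc - c 1 1 = (hh _ (coc_pull hc φ) (rel g)).b := h3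
  show (hh _ (coc_pull hc φ) (rel g)).b + c (φ 1) (φ 1) = k • nu c hc
  rw [← h4, map_one, sub_add_cancel]

end auto

section unit

variable {g : ℕ}

/-- a homomorphism to an abelian group with given values at the generators -/
theorem exists_hom {H : Type v} [CommGroup H] (f : Fin g ⊕ Fin g → H) :
    ∃ F : SurfaceGroup g →* H, ∀ i, F (PresentedGroup.of i) = f i := by
  have hrels : ∀ r ∈ ({rel g} : Set (FreeGroup (Fin g ⊕ Fin g))), FreeGroup.lift f r = 1 := by
    intro r hr'
    rw [Set.mem_singleton_iff] at hr'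
    rw [hr']
    unfold rel
    rw [map_list_prod]
    apply List.prod_eq_one
    intro x hx
    rw [List.mem_map] at hx
    obtain ⟨y, hy, rfl⟩ := hx
    rw [List.mem_ofFn] at hy
    obtain ⟨i, rfl⟩ := hy
    unfold cm
    simp only [map_mul, map_inv]
    rw [mul_inv_eq_one, mul_inv_eq_iff_eq_mul, mul_comm]
  exact ⟨PresentedGroup.toGroup hrels, fun i => PresentedGroup.toGroup.of hrels⟩

theorem rel_succ (g : ℕ) :
    rel (g + 1) = cm (g + 1) 0 * (List.ofFn fun i : Fin g => cm (g + 1) i.succ).prod := by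
  unfold rel
  rw [List.ofFn_succ, List.prod_cons]

/-- the product of the first two coordinates is a cocycle with value one at the relator -/
theorem exists_unit (R : Type v) [CommRing R] :
    ∃ a b : SurfaceGroup (g + 1) →* Multiplicative R,
      ∃ hc : (triv (SurfaceGroup (g + 1)) R).IsCoc fun x y => (a x).toAdd * (b y).toAdd,
        nu _ hc = 1 := by
  classical
  obtain ⟨a, ha⟩ := exists_hom (g := g + 1) (H := Multiplicative R)
    (fun i => if i = Sum.inl 0 then Multiplicative.ofAdd 1 else 1)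
  obtain ⟨b, hb⟩ := exists_hom (g := g + 1) (H := Multiplicative R)
    (fun i => if i = Sum.inr 0 then Multiplicative.ofAdd 1 else 1)
  have hc : (triv (SurfaceGroup (g + 1)) R).IsCoc fun x y => (a x).toAdd * (b y).toAdd := by
    intro x y z
    show (a y).toAdd * (b z).toAdd - (a (x * y)).toAdd * (b z).toAdd +
      (a x).toAdd * (b (y * z)).toAdd - (a x).toAdd * (b y).toAdd = 0
    rw [map_mul a, map_mul b, toAdd_mul, toAdd_mul]
    ring
  refine ⟨a, b, hc, ?_⟩
  -- the Heisenberg group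
  let c' : Multiplicative (R × R) → Multiplicative (R × R) → R :=
    fun x y => x.toAdd.1 * y.toAdd.2
  have hc' : (triv (Multiplicative (R × R)) R).IsCoc c' := by
    intro x y z
    show y.toAdd.1 * z.toAdd.2 - (x * y).toAdd.1 * z.toAdd.2 +
      x.toAdd.1 * (y * z).toAdd.2 - x.toAdd.1 * y.toAdd.2 = 0
    rw [toAdd_mul, toAdd_mul, Prod.fst_add, Prod.snd_add]
    ring
  let T : TP (triv (SurfaceGroup (g + 1)) R) _ hc →* TP (triv (Multiplicative (R × R)) R) c' hc' :=
    { toFun := fun e => ⟨e.b, Multiplicative.ofAdd ((a e.x).toAdd, (b e.x).toAdd)⟩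
      map_one' := by
        apply TP.ext'
        · show - ((a 1).toAdd * (b 1).toAdd) = - ((0 : R) * 0)
          rw [map_one a, toAdd_one, zero_mul, zero_mul]
        · show Multiplicative.ofAdd ((a 1).toAdd, (b 1).toAdd) = 1
          rw [map_one a, map_one b]
          rfl
      map_mul' := fun e e' => by
        apply TP.ext'
        · rfl
        · show Multiplicative.ofAdd ((a (e.x * e'.x)).toAdd, (b (e.x * e'.x)).toAdd) = _
          rw [map_mul a, map_mul b]
          rfl }
  have hT : ∀ e, (T e).b = e.b := fun e => rfl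
  have h0 : T (hh _ hc (rel (g + 1))) = ⟨1, 1⟩ := by
    refine (congrArg (fun w => T (hh _ hc w)) (rel_succ g)).trans ?_
    show T (hh _ hc (_ * _)) = _
    rw [map_mul, map_mul]
    have h1 : T (hh _ hc (List.ofFn fun i : Fin g => cm (g + 1) i.succ).prod) = 1 := by
      rw [map_list_prod, map_list_prod]
      apply List.prod_eq_one
      intro x hx
      rw [List.map_map, List.mem_map] at hx
      obtain ⟨y, hy, rfl⟩ := hx
      rw [List.mem_ofFn] at hy
      obtain ⟨i, rfl⟩ := hy
      have h2 : ∀ j : Fin (g + 1) ⊕ Fin (g + 1), j ≠ Sum.inl 0 → j ≠ Sum.inr 0 →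
          T (hh _ hc (FreeGroup.of j)) = 1 := by
        intro j hj1 hj2
        rw [hh_of]
        apply TP.ext'
        · show (0 : R) = - ((0 : R) * 0)
          rw [zero_mul, neg_zero]
        · show Multiplicative.ofAdd ((a (PresentedGroup.of j)).toAdd, (b (PresentedGroup.of j)).toAdd)
            = 1
          rw [ha, hb, if_neg hj1, if_neg hj2]
          rfl
      have h3 : (i.succ : Fin (g + 1)) ≠ 0 := Fin.succ_ne_zero _
      show T (hh _ hc (cm (g + 1) i.succ)) = 1
      unfold cm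
      simp only [map_mul, map_inv]
      rw [h2 _ (by simp) (by simp), h2 _ (by simp) (by simp)]
      simp
    rw [h1, mul_one]
    unfold cm
    simp only [map_mul, map_inv]
    rw [hh_of, hh_of]
    have h4 : T ⟨0, PresentedGroup.of (Sum.inl 0)⟩ = ⟨0, Multiplicative.ofAdd (1, 0)⟩ := by
      apply TP.ext'
      · rfl
      · show Multiplicative.ofAdd ((a (PresentedGroup.of (Sum.inl 0))).toAdd,
          (b (PresentedGroup.of (Sum.inl 0))).toAdd) = _
        rw [ha, hb]
        simp
    have h5 : T ⟨0, PresentedGroup.of (Sum.inr 0)⟩ = ⟨0, Multiplicative.ofAdd (0, 1)⟩ := by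
      apply TP.ext'
      · rfl
      · show Multiplicative.ofAdd ((a (PresentedGroup.of (Sum.inr 0))).toAdd,
          (b (PresentedGroup.of (Sum.inr 0))).toAdd) = _
        rw [ha, hb]
        simp
    rw [h4, h5, mul_inv_eq_iff_eq_mul, mul_inv_eq_iff_eq_mul, mul_assoc]
    apply TP.ext'
    · show (0 : R) + 0 + 1 * 1 = 1 + (0 + 0 + 0 * 0) + 0 * (1 + 0)
      ring
    · show Multiplicative.ofAdd ((1 : R) + 0, (0 : R) + 1) =
        Multiplicative.ofAdd ((0 : R) + (0 + 1), (0 : R) + (1 + 0))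
      congr 2
      · ring
      · ring
  have h6 : (hh _ hc (rel (g + 1))).b = 1 := by
    rw [← hT, h0]
  show (hh _ hc (rel (g + 1))).b + (a 1).toAdd * (b 1).toAdd = 1
  rw [h6, map_one a, toAdd_one, zero_mul, add_zero]

end unit

end Pool.Agent.V8H21.MCG
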