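import Pool.Agent.V8H21.MCG.Ptd

set_option autoImplicit false

/-!
# Pointed classes and point pushing for all hyperbolic quotients
-/

namespace Pool.Agent.V8H21.MCG

open Equiv

/-- an element of prime order modulo `N` -/
theorem exists_prime_pow {G : Type} [Group G] (N : Subgroup G) [N.Normal] [N.FiniteIndex] (y : G)
    (hcon : y ∉ N) : ∃ (i l : ℕ), l.Prime ∧ y ^ i ∉ N ∧ (y ^ i) ^ l ∈ N := by
  have hQ : Finite (G ⧸ N) := Subgroup.finite_quotient_of_finiteIndex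
  have hy1 : (QuotientGroup.mk' N) y ≠ 1 := fun h1 => hcon ((QuotientGroup.eq_one_iff _).1 h1)
  have ho : orderOf ((QuotientGroup.mk' N) y) ≠ 1 := fun h1 => hy1 (orderOf_eq_one_iff.1 h1)
  obtain ⟨l, hl, hlo⟩ := Nat.exists_prime_and_dvd ho
  obtain ⟨i, hi⟩ := hlo
  have hpos : 0 < orderOf ((QuotientGroup.mk' N) y) := orderOf_pos _
  refine ⟨i, l, hl, ?_, ?_⟩
  · intro h1
    have h2 : (QuotientGroup.mk' N) y ^ i = 1 := by
      rw [← map_pow]
      exact (QuotientGroup.eq_one_iff _).2 h1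
    have h3 := orderOf_dvd_of_pow_eq_one h2
    have hi0 : 0 < i := by
      rcases Nat.eq_zero_or_pos i with h4 | h4
      · rw [h4, mul_zero] at hi
        omega
      · exact h4
    have h4 := Nat.le_of_dvd hi0 h3
    rw [hi] at h4
    have := hl.two_le
    nlinarith
  · rw [← pow_mul, mul_comm, ← hi]
    apply (QuotientGroup.eq_one_iff _).1
    show (QuotientGroup.mk' N) (y ^ _) = 1
    rw [map_pow]
    exact pow_orderOf_eq_one _

section main

variable {h n : ℕ} {m : Fin n → ℕ}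

/-- homomorphisms which are not invariant -/
theorem exists_hom3 (hm : ∀ j, m j ≠ 0)
    (hyp : (∑ j, (1 : ℚ) / (m j)) < ((2 * h + n : ℕ) : ℚ) - 2) (N : Subgroup (Orb h n m))
    [hN1 : N.Normal] [hN2 : N.FiniteIndex] (hP : ∀ j k, cone h n m j ^ k ∈ N → m j ∣ k)
    (y : Orb h n m) (hy : y ∉ N) : ∃ (p i : ℕ) (f : N →* Multiplicative (ZMod p)) (x : N),
      p.Prime ∧ p ≤ (N.index + 1).factorial + 1 ∧
      f ⟨y ^ i * x * (y ^ i)⁻¹, hN1.conj_mem x x.2 (y ^ i)⟩ ≠ f x := by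
  have hprime : ((N.index + 1).factorial + 1).minFac.Prime :=
    Nat.minFac_prime (by
      have := Nat.factorial_pos (N.index + 1)
      omega)
  set p := ((N.index + 1).factorial + 1).minFac with hpdef
  have hpN : N.index + 1 < p := by
    by_contra hle
    push Not at hle
    have h1 : p ∣ (N.index + 1).factorial := (Nat.Prime.dvd_factorial hprime).2 hle
    have h2 : p ∣ (N.index + 1).factorial + 1 := Nat.minFac_dvd _
    have h3 := (Nat.dvd_add_right h1).1 h2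
    exact hprime.one_lt.ne' (Nat.dvd_one.1 h3)
  have hpQ : ¬ p ∣ N.index := by
    intro h1
    have := Nat.le_of_dvd (Nat.pos_of_ne_zero hN2.index_ne_zero) h1
    omega
  obtain ⟨i, l, hl, hi1, hi2⟩ := exists_prime_pow N y hy
  obtain ⟨f, x, hf⟩ := exists_hom2 p hprime N hpQ hm hP hyp (y ^ i) hi1 hl hi2
  exact ⟨p, i, f, x, hprime, Nat.minFac_le (by omega), hf⟩

/-- the centralizer of a torsion-free normal subgroup, modulo a characteristic subgroup -/
theorem centr3 (hm : ∀ j, m j ≠ 0)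
    (hyp : (∑ j, (1 : ℚ) / (m j)) < ((2 * h + n : ℕ) : ℚ) - 2) (N : Subgroup (Orb h n m))
    (hN1 : N.Normal) (hN2 : N.FiniteIndex) (hP : ∀ j k, cone h n m j ^ k ∈ N → m j ∣ k) :
    ∃ k, ∀ y, (∀ p ∈ N, y * p * y⁻¹ * p⁻¹ ∈ cker (Orb h n m) k) → y ∈ N := by
  refine ⟨((N.index + 1).factorial + 1) * N.index, fun y hy => ?_⟩
  by_contra hcon
  obtain ⟨p, i, f, x, hp, hple, hf⟩ := exists_hom3 hm hyp N hP y hcon
  have hpz : NeZero p := ⟨hp.ne_zero⟩
  have hy4 : ∀ q ∈ N, y ^ i * q * (y ^ i)⁻¹ * q⁻¹ ∈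
      cker (Orb h n m) (((N.index + 1).factorial + 1) * N.index) := by
    intro q hq
    have h1 := hy q hq
    rw [← QuotientGroup.eq_one_iff] at h1 ⊢
    have h2 : Commute ((QuotientGroup.mk' (cker (Orb h n m)
        (((N.index + 1).factorial + 1) * N.index))) y)
        ((QuotientGroup.mk' (cker (Orb h n m) (((N.index + 1).factorial + 1) * N.index))) q) := by
      have h3 : (QuotientGroup.mk' (cker (Orb h n m) (((N.index + 1).factorial + 1) * N.index)))
        (y * q * y⁻¹ * q⁻¹) = 1 := h1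
      rw [map_mul, map_inv _ q, mul_inv_eq_one, map_mul, map_mul, map_inv,
        mul_inv_eq_iff_eq_mul] at h3
      exact h3
    have h4 := h2.pow_left i
    show (QuotientGroup.mk' (cker (Orb h n m) (((N.index + 1).factorial + 1) * N.index)))
        (y ^ i * q * (y ^ i)⁻¹ * q⁻¹) = 1
    rw [map_mul, map_inv _ q, mul_inv_eq_one, map_mul, map_mul, map_inv, mul_inv_eq_iff_eq_mul,
      map_pow]
    exact h4
  apply hf
  obtain ⟨hmem, h1⟩ := cker_hom N f (k := ((N.index + 1).factorial + 1) * N.index) (by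
    have : Nat.card (Multiplicative (ZMod p)) = p := Nat.card_zmod _
    rw [this]
    exact Nat.mul_le_mul_right _ hple) (hy4 x x.2)
  have h2 : (⟨y ^ i * x * (y ^ i)⁻¹ * (x : Orb h n m)⁻¹, hmem⟩ : N) =
      ⟨y ^ i * x * (y ^ i)⁻¹, hN1.conj_mem x x.2 (y ^ i)⟩ * x⁻¹ := rfl
  rw [h2, map_mul, map_inv, mul_inv_eq_one] at h1
  exact h1

/-- torsion-free subgroups of index at least three -/
theorem exists_deep (hm : ∀ j, m j ≠ 0)
    (hyp : (∑ j, (1 : ℚ) / (m j)) < ((2 * h + n : ℕ) : ℚ) - 2) (N : Subgroup (Orb h n m))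
    [hN1 : N.Normal] [hN2 : N.FiniteIndex] (hP : ∀ j k, cone h n m j ^ k ∈ N → m j ∣ k) :
    ∃ N₂ ≤ N, N₂.Normal ∧ N₂.FiniteIndex ∧ 3 ≤ N₂.index := by
  by_cases htop : N = ⊤
  · -- a closed surface
    have hm1 : ∀ j, m j = 1 := by
      intro j
      have h1 := hP j 1 (by rw [htop]; trivial)
      exact Nat.dvd_one.1 h1
    have hh : 2 ≤ h := by
      have h1 : (∑ j : Fin n, (1 : ℚ) / (m j)) = n := by
        rw [Finset.sum_congr rfl (fun j _ => by rw [hm1 j, Nat.cast_one, div_one])]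
        simp
      rw [h1] at hyp
      push_cast at hyp
      have h2 : (1 : ℚ) < h := by linarith
      have h3 : 1 < h := by exact_mod_cast h2
      omega
    let χ : Orb h n m →* Multiplicative (ZMod 3) := (chi h ⟨0, by omega⟩).comp (fill h n m)
    have hχ : χ (PresentedGroup.of (Sum.inl (Sum.inl ⟨0, by omega⟩))) = Multiplicative.ofAdd 1 := by
      have h0 : fill h n m (PresentedGroup.of (Sum.inl (Sum.inl ⟨0, by omega⟩))) =
          PresentedGroup.of (Sum.inl ⟨0, by omega⟩) := by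
        unfold fill
        rw [PresentedGroup.toGroup.of]
        rfl
      have h00 : χ (PresentedGroup.of (Sum.inl (Sum.inl ⟨0, by omega⟩))) =
        chi h ⟨0, by omega⟩ (fill h n m
          (PresentedGroup.of (Sum.inl (Sum.inl ⟨0, by omega⟩)))) := rfl
      rw [h00, h0]
      exact chi_of h _
    have h1 : χ.ker.index = Nat.card χ.range := Subgroup.index_ker χ
    have h2 : Nat.card χ.range ∣ 3 := by
      have h3 : Nat.card (Multiplicative (ZMod 3)) = 3 := Nat.card_zmod _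
      have h4 := Subgroup.card_subgroup_dvd_card χ.range
      rwa [h3] at h4
    have h3 : Nat.card χ.range ≠ 1 := by
      intro h4
      have h5 : χ.range = ⊥ := Subgroup.eq_bot_of_card_eq _ h4
      have h6 : χ (PresentedGroup.of (Sum.inl (Sum.inl ⟨0, by omega⟩))) ∈ χ.range := ⟨_, rfl⟩
      rw [h5, hχ, Subgroup.mem_bot] at h6
      exact absurd h6 (by decide)
    refine ⟨χ.ker, ?_, inferInstance, ?_, ?_⟩
    · rw [htop]
      exact le_top
    · infer_instance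
    · rw [h1]
      rcases (Nat.dvd_prime Nat.prime_three).1 h2 with h4 | h4
      · exact absurd h4 h3
      · rw [h4]
  · obtain ⟨y, hy⟩ : ∃ y, y ∉ N := by
      by_contra h1
      push Not at h1
      exact htop (Subgroup.eq_top_iff' N |>.2 h1)
    obtain ⟨p, i, f, x, hp, -, hf⟩ := exists_hom3 hm hyp N hP y hy
    have hpz : NeZero p := ⟨hp.ne_zero⟩
    have hfin : f.ker.index ≠ 0 := by
      have h1 : f.ker.index = Nat.card f.range := Subgroup.index_ker f
      rw [h1]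
      exact Nat.card_pos.ne'
    have hne : f.ker.index ≠ 1 := by
      intro h1
      have h2 : f.ker = ⊤ := Subgroup.index_eq_one.1 h1
      apply hf
      have h3 : ∀ u, f u = 1 := by
        intro u
        have : u ∈ f.ker := by
          rw [h2]
          trivial
        exact this
      rw [h3, h3]
    have h1 : (f.ker.map N.subtype).index = f.ker.index * N.index := Subgroup.index_map_subtype _
    have hN0 : N.index ≠ 0 := hN2.index_ne_zero
    have hN01 : N.index ≠ 1 := fun h2 => htop (Subgroup.index_eq_one.1 h2)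
    have hfi : (f.ker.map N.subtype).FiniteIndex := ⟨by
      rw [h1]
      exact mul_ne_zero hfin hN0⟩
    refine ⟨(f.ker.map N.subtype).normalCore, ?_, inferInstance, inferInstance, ?_⟩
    · refine (Subgroup.normalCore_le _).trans ?_
      rintro _ ⟨u, _, rfl⟩
      exact u.2
    · have h2 : (f.ker.map N.subtype).index ≤ (f.ker.map N.subtype).normalCore.index := by
        apply Nat.le_of_dvd
        · exact Nat.pos_of_ne_zero (Subgroup.FiniteIndex.index_ne_zero)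
        · exact Subgroup.index_dvd_of_le (Subgroup.normalCore_le _)
      rw [h1] at h2
      have h3 : 2 ≤ f.ker.index := by omega
      have h4 : 2 ≤ N.index := by omega
      nlinarith

variable {m' : Fin n → ℕ} {g' : ℕ} (ι : SurfaceGroup g' →* Orb h n m)
  (f : Orb h n m →* Orb h n m')

/-- The pointed mapping classes. -/
theorem pointed3 (hf' : ∀ u, f (PresentedGroup.of u) = PresentedGroup.of u) (hm : ∀ j, 2 ≤ m j)
    (hd : ∀ j, m' j ∣ m j)
    (hyp : (∑ j, (1 : ℚ) / (m j)) < ((2 * h + n : ℕ) : ℚ) - 2)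
    (hyp' : (∑ j, (1 : ℚ) / (m' j)) < ((2 * h + n : ℕ) : ℚ) - 2) (hn : ι.range.Normal)
    (hf : ι.range.FiniteIndex) (hc : ∀ j k, cone h n m j ^ k ∈ ι.range → m j ∣ k)
    (j : Fin n) (hj : m' j = 1) (Γ : Subgroup (Orb h n m')) [hΓ1 : Γ.Normal] [hΓ2 : Γ.FiniteIndex]
    (hΓ : ∀ j k, cone h n m' j ^ k ∈ Γ → m' j ∣ k) :
    ∃ K : Subgroup (SurfaceGroup g'), K.Characteristic ∧ K.FiniteIndex ∧
      ∀ (φ : MulAut (Orb h n m)) (φ' : MulAut (SurfaceGroup g')), (∀ a, φ (ι a) = ι (φ' a)) →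
        (∃ z, ∀ a, φ' a * (z * a * z⁻¹)⁻¹ ∈ K) →
          ∀ i w, φ (cone h n m j) = w * cone h n m i * w⁻¹ → i = j ∧
            ∀ y, f (φ y) * (f w * f y * (f w)⁻¹)⁻¹ ∈ Γ := by
  have hm' : ∀ j, m' j ≠ 0 := by
    intro j h1
    have h2 := hd j
    rw [h1, zero_dvd_iff] at h2
    have := hm j
    omega
  obtain ⟨Γ₂, hle, hΓ₂1, hΓ₂2, hidx⟩ := exists_deep hm' hyp' Γ hΓ
  obtain ⟨k, hk⟩ := sep_cone3 f hf' j hj (hm j) Γ₂ hidx
  have hcf : (Γ.comap f).FiniteIndex := by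
    refine ⟨?_⟩
    rw [Subgroup.index_comap]
    exact Subgroup.FiniteIndex.index_ne_zero (H := Γ.subgroupOf f.range)
  have hcn : (Γ.comap f).Normal := inferInstance
  have hfgO := orb_fg h n m
  have hLf : (Γ.comap f ⊓ cker (Orb h n m) k).FiniteIndex := inferInstance
  obtain ⟨K, hK1, hK2, hK⟩ := topology2 ι hm hyp hn hf hc (Γ.comap f ⊓ cker (Orb h n m) k)
    inferInstance inferInstance
  refine ⟨K, hK1, hK2, ?_⟩
  rintro φ φ' hφ ⟨z, hz⟩ i w hw
  have h1 := hK φ φ' hφ z hz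
  have h2 : i = j ∧ f ((ι z)⁻¹ * w) ∈ Γ₂ := by
    apply hk
    have h3 := h1 (cone h n m j)
    rw [hw] at h3
    have h4 : w * cone h n m i * w⁻¹ * (ι z * cone h n m j * (ι z)⁻¹)⁻¹ ∈
        cker (Orb h n m) k := h3.2
    have h5 := (inferInstance : (cker (Orb h n m) k).Normal).conj_mem _ h4 (ι z)⁻¹
    have h6 : (ι z)⁻¹ * (w * cone h n m i * w⁻¹ * (ι z * cone h n m j * (ι z)⁻¹)⁻¹) * (ι z)⁻¹⁻¹ =
        (ι z)⁻¹ * w * cone h n m i * ((ι z)⁻¹ * w)⁻¹ * (cone h n m j)⁻¹ := by group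
    rwa [h6] at h5
  obtain ⟨hij, h2⟩ := h2
  refine ⟨hij, fun y => ?_⟩
  have h3 : f (φ y * (ι z * y * (ι z)⁻¹)⁻¹) ∈ Γ := (h1 y).1
  -- in the quotient
  let π := QuotientGroup.mk' Γ
  have e1 : π (f w) = π (f (ι z)) := by
    have : π (f ((ι z)⁻¹ * w)) = 1 := (QuotientGroup.eq_one_iff _).2 (hle h2)
    rw [map_mul, map_inv, map_mul, map_inv, inv_mul_eq_one] at this
    exact this.symm
  have e2 : π (f (φ y)) = π (f (ι z)) * π (f y) * (π (f (ι z)))⁻¹ := by
    have : π (f (φ y * (ι z * y * (ι z)⁻¹)⁻¹)) = 1 := (QuotientGroup.eq_one_iff _).2 h3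
    rw [map_mul, map_inv, map_mul, map_inv, mul_inv_eq_one] at this
    rw [this]
    simp only [map_mul, map_inv]
  apply (QuotientGroup.eq_one_iff _).1
  show π _ = 1
  simp only [map_mul, map_inv]
  rw [e1, e2, mul_inv_cancel]

/-- Point pushing. -/
theorem pushing3 (hf' : ∀ u, f (PresentedGroup.of u) = PresentedGroup.of u) (hm : ∀ j, 2 ≤ m j)
    (hd : ∀ j, m' j ∣ m j)
    (hyp : (∑ j, (1 : ℚ) / (m j)) < ((2 * h + n : ℕ) : ℚ) - 2)
    (hyp' : (∑ j, (1 : ℚ) / (m' j)) < ((2 * h + n : ℕ) : ℚ) - 2) (hn : ι.range.Normal)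
    (hf : ι.range.FiniteIndex) (hc : ∀ j k, cone h n m j ^ k ∈ ι.range → m j ∣ k)
    (j : Fin n) (hj : m' j = 1) (Γ : Subgroup (Orb h n m')) [hΓ1 : Γ.Normal] [hΓ2 : Γ.FiniteIndex]
    (hΓ : ∀ j k, cone h n m' j ^ k ∈ Γ → m' j ∣ k) :
    ∃ K : Subgroup (SurfaceGroup g'), K.Characteristic ∧ K.FiniteIndex ∧
      ∀ (φ : MulAut (Orb h n m)) (φ' : MulAut (SurfaceGroup g')), (∀ a, φ (ι a) = ι (φ' a)) →
        (∃ z, ∀ a, φ' a * (z * a * z⁻¹)⁻¹ ∈ K) →
          ∀ w, φ (cone h n m j) = w * cone h n m j * w⁻¹ →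
            ∀ γ, (∀ y, f (φ y) = f w * (γ * f y * γ⁻¹) * (f w)⁻¹) → γ ∈ Γ := by
  have hm' : ∀ j, m' j ≠ 0 := by
    intro j h1
    have h2 := hd j
    rw [h1, zero_dvd_iff] at h2
    have := hm j
    omega
  have hfgO := orb_fg h n m'
  obtain ⟨k, hk⟩ := centr3 hm' hyp' Γ hΓ1 hΓ2 hΓ
  obtain ⟨K, hK1, hK2, hK⟩ := pointed3 ι f hf' hm hd hyp hyp' hn hf hc j hj
    (Γ ⊓ cker (Orb h n m') k) (fun j k hjk => hΓ j k hjk.1)
  refine ⟨K, hK1, hK2, ?_⟩
  intro φ φ' hφ hz w hw γ hγ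
  have h1 := (hK φ φ' hφ hz j w hw).2
  apply hk
  intro p hp
  have hfs : Function.Surjective f := by
    intro q
    obtain ⟨u, rfl⟩ := QuotientGroup.mk_surjective q
    exact ⟨PresentedGroup.mk _ u, red_mk f hf' u⟩
  obtain ⟨y, rfl⟩ := hfs p
  have h2 := (h1 y).2
  rw [hγ] at h2
  have h3 := (inferInstance : (cker (Orb h n m') k).Normal).conj_mem _ h2 (f w)⁻¹
  have h4 : (f w)⁻¹ * (f w * (γ * f y * γ⁻¹) * (f w)⁻¹ *
      (f w * f y * (f w)⁻¹)⁻¹) * (f w)⁻¹⁻¹ = γ * f y * γ⁻¹ * (f y)⁻¹ := by group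
  rwa [h4] at h3

end main

end Pool.Agent.V8H21.MCG
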