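import Pool.Agent.V8H21.MCG.Lab3
import Pool.Agent.V8H21.MCG.Eff

set_option autoImplicit false

/-!
# Pointed classes: filling one cone point
-/

namespace Pool.Agent.V8H21.MCG

open Equiv

section sep

variable {h n : ℕ} {m m' : Fin n → ℕ} (f : Orb h n m →* Orb h n m')
  (hf : ∀ u, f (PresentedGroup.of u) = PresentedGroup.of u)

include hf in
theorem red_mk (u : FreeGroup (OGen h n)) :
    f (PresentedGroup.mk _ u) = PresentedGroup.mk _ u := by
  have : f.comp (PresentedGroup.mk _) = PresentedGroup.mk _ := by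
    ext u
    exact hf u
  exact DFunLike.congr_fun this u

include hf in
theorem sep_cone3 (j : Fin n) (hj : m' j = 1) (hmj : 2 ≤ m j) (Γ : Subgroup (Orb h n m'))
    [Γ.Normal] [Γ.FiniteIndex] (hidx : 3 ≤ Γ.index) :
    ∃ k : ℕ, ∀ (i : Fin n) (z : Orb h n m),
      z * cone h n m i * z⁻¹ * (cone h n m j)⁻¹ ∈ cker (Orb h n m) k →
        i = j ∧ f z ∈ Γ := by
  classical
  let Q := Orb h n m' ⧸ Γ
  have hQ : Finite Q := Subgroup.finite_quotient_of_finiteIndex
  let ρ' : Orb h n m →* Q := (QuotientGroup.mk' Γ).comp f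
  let R : FreeGroup (OGen h n) →* Q := ρ'.comp (PresentedGroup.mk _)
  have hRs : Function.Surjective R := by
    intro q
    obtain ⟨y, rfl⟩ := QuotientGroup.mk'_surjective Γ q
    obtain ⟨u, rfl⟩ := QuotientGroup.mk_surjective y
    refine ⟨u, ?_⟩
    show QuotientGroup.mk' Γ (f (PresentedGroup.mk _ u)) = _
    rw [red_mk f hf]
    rfl
  have hRm : ∀ k, R (og h n k) ^ m k = 1 := by
    intro k
    rw [← map_pow]
    show ρ' (PresentedGroup.mk _ (og h n k ^ m k)) = 1
    have h1 : (PresentedGroup.mk (orels h n m)) (og h n k ^ m k) = 1 :=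
      PresentedGroup.one_of_mem (Or.inr ⟨k, rfl⟩)
    rw [h1, map_one]
  have hRj : R (og h n j) = 1 := by
    have h1 : (PresentedGroup.mk (orels h n m')) (og h n j ^ m' j) = 1 :=
      PresentedGroup.one_of_mem (Or.inr ⟨j, rfl⟩)
    rw [hj, pow_one] at h1
    show QuotientGroup.mk' Γ (f (PresentedGroup.mk _ (og h n j))) = 1
    rw [red_mk f hf, h1, map_one]
  have hρker : ρ'.ker.FiniteIndex := by infer_instance
  refine ⟨m j * ρ'.ker.index, fun i z hz => ?_⟩
  by_contra hcon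
  let q₀ : Q := ρ' z
  have hq₀ : i = j → q₀ ≠ 1 := by
    intro hij h1
    exact hcon ⟨hij, (QuotientGroup.eq_one_iff _).1 h1⟩
  have hq' : ∃ q' : Q, q' ≠ 1 ∧ q' ≠ q₀⁻¹ := by
    by_contra h1
    push Not at h1
    have h2 : (Set.univ : Set Q) ⊆ {1, q₀⁻¹} := by
      intro q _
      by_cases h3 : q = 1
      · exact Or.inl h3
      · exact Or.inr (h1 q h3)
    have h3 := Set.ncard_le_ncard h2 (Set.toFinite _)
    rw [Set.ncard_univ] at h3
    have h4 := Set.ncard_insert_le (1 : Q) {q₀⁻¹}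
    rw [Set.ncard_singleton] at h4
    have h5 : Nat.card Q = Γ.index := rfl
    omega
  obtain ⟨q', hq1, hq2⟩ := hq'
  obtain ⟨pre, suf, hprod, hpre, hsuf⟩ := split_prod (og h n) j
  obtain ⟨t₁, ⟨-, ht2, ht3⟩, ht1⟩ := diff_memZ (A := ZMod (m j)) R m (⊥ : Subgroup Q) hRm hRs
    (R pre) (R pre * q')
  have hfact : NeZero (m j) := ⟨by omega⟩
  let s : OGen h n → Q → ZMod (m j) := fun u x =>
    if u = Sum.inr j then dc (ZMod (m j)) ⊥ 1 x - dc (ZMod (m j)) ⊥ q' x else 0
  have hs0 : ∀ u, u ≠ Sum.inr j → s u = 0 := by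
    intro u hu
    funext x
    show (if u = Sum.inr j then _ else _) = _
    rw [if_neg hu]
    rfl
  have hsj : ∀ x, s (Sum.inr j) x = dc (ZMod (m j)) ⊥ 1 x - dc (ZMod (m j)) ⊥ q' x := by
    intro x
    show (if (Sum.inr j : OGen h n) = Sum.inr j then _ else _) = _
    rw [if_pos rfl]
  have hsog : ∀ k x, cyc R s (og h n k) x = s (Sum.inr k) x := fun k x => cyc_of R s _ x
  have hcl : ∀ (S : Set (Fin n)), (∀ k ∈ S, k ≠ j) → ∀ u ∈ Subgroup.closure (og h n '' S),
      ∀ x, cyc R s u x = 0 := by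
    intro S hS u hu x
    apply cyc_zero_of R s (Sum.inr '' S)
    · rintro _ ⟨k, hk, rfl⟩
      exact hs0 _ (fun h1 => hS k hk (Sum.inr_injective h1))
    · rw [← Set.image_comp]
      exact hu
  have hsorel : ∀ x, cyc R s (orel h n) x =
      -(dc (ZMod (m j)) ⊥ (R pre) x - dc (ZMod (m j)) ⊥ (R pre * q') x) := by
    intro x
    have h0 : (fun u : Fin h ⊕ Fin h => s (Sum.inl u)) = 0 := by
      funext u
      exact hs0 _ (by simp)
    rw [cyc_orel, h0, cyc_zero, add_zero, hprod, cyc_mul, cyc_mul,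
      hcl _ (fun k hk => (ne_of_lt hk)) pre hpre, hcl _ (fun k hk => (ne_of_gt hk)) suf hsuf,
      hsog, hsj, zero_add, add_zero, map_mul, map_mul, hRj, mul_one]
    congr 1
    congr 1
    · rw [dc_mul, dc_mul]
      congr 1
      group
    · rw [dc_mul, dc_mul]
      congr 1
      group
  let t := t₁ + s
  have ht : ∀ x ∈ orels h n m, ∀ q, cyc R t x q = 0 := by
    intro x hx q
    rcases hx with rfl | ⟨k, rfl⟩
    · rw [cyc_add, ht1, hsorel, add_neg_cancel]
    · rw [cyc_add, ht2, zero_add]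
      by_cases hk : k = j
      · subst hk
        rw [cyc_pow R s _ hRj, nsmul_eq_mul, ZMod.natCast_self, zero_mul]
      · rw [cyc_pow_sum]
        apply Finset.sum_eq_zero
        intro i _
        rw [hsog, hs0 _ (fun h1 => hk (Sum.inr_injective h1))]
        rfl
  -- the homomorphism
  let F := fN (orels h n m) ρ' t ht
  obtain ⟨uz, huz⟩ := QuotientGroup.mk_surjective z
  have huz' : PresentedGroup.mk _ uz = z := huz
  have hcard : Nat.card (Multiplicative (ZMod (m j))) = m j := Nat.card_zmod _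
  obtain ⟨hmem, hF⟩ := cker_hom ρ'.ker F (k := m j * ρ'.ker.index) (by rw [hcard]) hz
  have hcmem : cone h n m j ∈ ρ'.ker := hRj
  have hRi : R (og h n i) = 1 := by
    have h1 : ρ' (z * cone h n m i * z⁻¹ * (cone h n m j)⁻¹) = 1 := hmem
    have h2 : ρ' (cone h n m j) = 1 := hcmem
    rw [map_mul, map_inv _ (cone h n m j), h2, inv_one, mul_one, map_mul, map_mul, map_inv,
      conj_eq_one_iff] at h1
    exact h1
  have hcmem' : cone h n m i ∈ ρ'.ker := hRi
  have hzmem : z * cone h n m i * z⁻¹ ∈ ρ'.ker := (MonoidHom.normal_ker ρ').conj_mem _ hcmem' z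
  have h1 : F ⟨z * cone h n m i * z⁻¹, hzmem⟩ = F ⟨cone h n m j, hcmem⟩ := by
    have h2 : (⟨z * cone h n m i * z⁻¹ * (cone h n m j)⁻¹, hmem⟩ : ρ'.ker) =
        ⟨z * cone h n m i * z⁻¹, hzmem⟩ * ⟨cone h n m j, hcmem⟩⁻¹ := rfl
    rw [h2, map_mul, map_inv, mul_inv_eq_one] at hF
    exact hF
  have h2 : F ⟨cone h n m j, hcmem⟩ = Multiplicative.ofAdd (cyc R t (og h n j) 1) :=
    fN_mk (orels h n m) ρ' t ht (og h n j) hcmem
  have h3 : F ⟨z * cone h n m i * z⁻¹, hzmem⟩ =
      Multiplicative.ofAdd (cyc R t (uz * og h n i * uz⁻¹) 1) := by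
    have e : z * cone h n m i * z⁻¹ = PresentedGroup.mk _ (uz * og h n i * uz⁻¹) := by
      rw [map_mul, map_mul, map_inv, huz']
      rfl
    have hm2 : PresentedGroup.mk (orels h n m) (uz * og h n i * uz⁻¹) ∈ ρ'.ker := by
      rw [← e]
      exact hzmem
    rw [← fN_mk (orels h n m) ρ' t ht _ hm2]
    exact congrArg F (Subtype.ext e)
  have htv : ∀ k, R (og h n k) = 1 → ∀ x, cyc R t (og h n k) x = s (Sum.inr k) x := by
    intro k hk x
    have h4 : cyc R t₁ (og h n k) x = t₁ (Sum.inr k) x := cyc_of R t₁ _ x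
    rw [cyc_add, hsog, h4, ht3 k hk, Pi.zero_apply, zero_add]
  rw [h2, h3, cyc_conj R t _ _ hRi, htv i hRi, htv j hRj, hsj] at h1
  have h4 := Multiplicative.ofAdd.injective h1
  have h5 : (R uz)⁻¹ = q₀⁻¹ := by
    show (ρ' (PresentedGroup.mk _ uz))⁻¹ = (ρ' z)⁻¹
    rw [huz']
  rw [h5] at h4
  have : Nontrivial (ZMod (m j)) := ZMod.nontrivial_iff.2 (by omega)
  have h6 : dc (ZMod (m j)) (⊥ : Subgroup Q) 1 1 - dc (ZMod (m j)) ⊥ q' (1 : Q) = 1 := by
    unfold dc
    rw [if_pos (by rw [Subgroup.mem_bot, inv_one, one_mul]),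
      if_neg (by rw [Subgroup.mem_bot, inv_one, one_mul]; exact hq1), sub_zero]
  replace h4 := h4.trans h6
  by_cases hij : i = j
  · rw [hij, hsj] at h4
    unfold dc at h4
    rw [if_neg (by
        rw [Subgroup.mem_bot, inv_inv, mul_one]
        exact hq₀ hij), if_neg (by
        rw [Subgroup.mem_bot, inv_inv]
        intro h7
        exact hq2 (eq_inv_of_mul_eq_one_right h7)), sub_zero] at h4
    exact zero_ne_one h4
  · rw [hs0 _ (fun h7 => hij (Sum.inr_injective h7))] at h4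
    exact zero_ne_one h4

end sep

end Pool.Agent.V8H21.MCG
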