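import Pool.Agent.V8H21.MCG.Bir2

set_option autoImplicit false

/-!
# Point pushing automorphisms of orbifold groups
-/

namespace Pool.Agent.V8H21.MCG

open Equiv

section cp

variable {G H : Type} [Group G] [Group H] {n : ℕ}

/-- partial products -/
def cp (F : Fin n → G) : ℕ → G
  | 0 => 1
  | i + 1 => cp F i * (if h : i < n then F ⟨i, h⟩ else 1)

theorem cp_succ (F : Fin n → G) (i : Fin n) : cp F (i + 1) = cp F i * F i := by
  show cp F i * (if h : (i : ℕ) < n then F ⟨i, h⟩ else 1) = _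
  rw [dif_pos i.2]

theorem cp_prod (F : Fin n → G) : (List.ofFn F).prod = cp F n :=
  prod_ofFn_eq F (cp F) rfl (fun k hk => cp_succ F ⟨k, hk⟩)

theorem cp_map (f : G →* H) (F : Fin n → G) (i : ℕ) : f (cp F i) = cp (fun l => f (F l)) i := by
  induction i with
  | zero => exact map_one f
  | succ i ih =>
    show f (cp F i * (if h : i < n then F ⟨i, h⟩ else 1)) =
      cp (fun l => f (F l)) i * (if h : i < n then f (F ⟨i, h⟩) else 1)
    rw [map_mul, ih]
    by_cases hi : i < n
    · rw [dif_pos hi, dif_pos hi]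
    · rw [dif_neg hi, dif_neg hi, map_one]

theorem cp_congr (F F' : Fin n → G) (i : ℕ) (h : ∀ l : Fin n, (l : ℕ) < i → F' l = F l) :
    cp F' i = cp F i := by
  induction i with
  | zero => rfl
  | succ i ih =>
    show cp F' i * (if h : i < n then F' ⟨i, h⟩ else 1) =
      cp F i * (if h : i < n then F ⟨i, h⟩ else 1)
    rw [ih (fun l hl => h l (by omega))]
    by_cases hi : i < n
    · rw [dif_pos hi, dif_pos hi, h ⟨i, hi⟩ (Nat.lt_succ_self i)]
    · rw [dif_neg hi, dif_neg hi]

theorem cp_upd (F F' : Fin n → G) (j : Fin n) (i : ℕ) (hji : (j : ℕ) < i)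
    (h : ∀ l : Fin n, (l : ℕ) < i → l ≠ j → F' l = F l) :
    cp F' i = cp F j * F' j * (cp F (j + 1))⁻¹ * cp F i := by
  induction i with
  | zero => omega
  | succ i ih =>
    rcases Nat.lt_or_ge (j : ℕ) i with hj | hj
    · show cp F' i * (if h : i < n then F' ⟨i, h⟩ else 1) =
        cp F j * F' j * (cp F (j + 1))⁻¹ * (cp F i * (if h : i < n then F ⟨i, h⟩ else 1))
      rw [ih hj (fun l hl => h l (by omega))]
      by_cases hi : i < n
      · rw [dif_pos hi, dif_pos hi, h ⟨i, hi⟩ (Nat.lt_succ_self i) (by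
          intro e
          rw [← e] at hj
          exact lt_irrefl _ hj)]
        group
      · rw [dif_neg hi, dif_neg hi]
        group
    · have hij : i = j := by omega
      subst hij
      rw [cp_succ F' j, cp_congr F F' j (fun l hl => h l (by omega) (by
        intro e
        rw [e] at hl
        exact lt_irrefl _ hl))]
      group

theorem cp_mem (L : Subgroup G) (F : Fin n → G) (j i : ℕ) (hji : j ≤ i)
    (h : ∀ l : Fin n, j ≤ (l : ℕ) → (l : ℕ) < i → F l ∈ L) : (cp F j)⁻¹ * cp F i ∈ L := by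
  induction i with
  | zero =>
    have : j = 0 := by omega
    subst this
    rw [inv_mul_cancel]
    exact L.one_mem
  | succ i ih =>
    rcases Nat.lt_or_ge i j with hj | hj
    · have : j = i + 1 := by omega
      subst this
      rw [inv_mul_cancel]
      exact L.one_mem
    · show (cp F j)⁻¹ * (cp F i * (if h : i < n then F ⟨i, h⟩ else 1)) ∈ L
      rw [← mul_assoc]
      apply L.mul_mem (ih hj (fun l h1 h2 => h l h1 (by omega)))
      by_cases hi : i < n
      · rw [dif_pos hi]
        exact h ⟨i, hi⟩ hj (Nat.lt_succ_self i)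
      · rw [dif_neg hi]
        exact L.one_mem

end cp

variable {h n : ℕ} {m : Fin n → ℕ}

/-- the generator `a_i` -/
def ga (h n : ℕ) (m : Fin n → ℕ) (i : Fin h) : Orb h n m := PresentedGroup.of (Sum.inl (Sum.inl i))

/-- the generator `b_i` -/
def gb (h n : ℕ) (m : Fin n → ℕ) (i : Fin h) : Orb h n m := PresentedGroup.of (Sum.inl (Sum.inr i))

/-- the commutators -/
def gk {G : Type} [Group G] {h : ℕ} (a b : Fin h → G) (i : Fin h) : G :=
  a i * b i * (a i)⁻¹ * (b i)⁻¹

theorem hom_all {G : Type} [Group G] (a b : Fin h → G) (x : Fin n → G)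
    (h1 : cp (gk a b) h = cp x n) (h2 : ∀ j, x j ^ m j = 1) :
    ∃ f : Orb h n m →* G, (∀ i, f (ga h n m i) = a i) ∧ (∀ i, f (gb h n m i) = b i) ∧
      ∀ j, f (cone h n m j) = x j := by
  let F : OGen h n → G := Sum.elim (Sum.elim a b) x
  have hog : ∀ j, FreeGroup.lift F (og h n j) = x j := by
    intro j
    unfold og
    rw [FreeGroup.lift_apply_of]
    rfl
  have hF : ∀ y ∈ orels h n m, FreeGroup.lift F y = 1 := by
    intro y hy
    rcases hy with rfl | ⟨j, rfl⟩
    · unfold orel rel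
      rw [map_mul, map_inv, map_list_prod, map_list_prod, map_list_prod, List.map_map,
        List.map_ofFn, List.map_ofFn, mul_inv_eq_one]
      have e1 : (⇑(FreeGroup.lift F) ∘ og h n) = x := funext hog
      rw [e1, cp_prod x, ← h1, ← cp_prod]
      congr 2
      funext i
      simp [F, cm, gk]
    · rw [map_pow, hog, h2]
  refine ⟨PresentedGroup.toGroup hF, fun i => ?_, fun i => ?_, fun j => ?_⟩
  · unfold ga
    rw [PresentedGroup.toGroup.of]
    rfl
  · unfold gb
    rw [PresentedGroup.toGroup.of]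
    rfl
  · unfold cone
    rw [PresentedGroup.toGroup.of]
    rfl

theorem orb_rel : cp (gk (ga h n m) (gb h n m)) h = cp (cone h n m) n := by
  have h1 : (PresentedGroup.mk (orels h n m)) (orel h n) = 1 :=
    PresentedGroup.one_of_mem (Or.inl rfl)
  unfold orel rel at h1
  rw [map_mul, map_inv, map_list_prod, map_list_prod, map_list_prod, List.map_map,
    List.map_ofFn, List.map_ofFn, mul_inv_eq_one] at h1
  rw [← cp_prod, ← cp_prod]
  have e1 : (⇑(PresentedGroup.mk (orels h n m)) ∘ og h n) = cone h n m := rfl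
  rw [e1] at h1
  rw [← h1]
  congr 2

theorem cone_pow (j : Fin n) : cone h n m j ^ m j = 1 := by
  have h4 : (PresentedGroup.mk (orels h n m)) (og h n j ^ m j) = 1 :=
    PresentedGroup.one_of_mem (Or.inr ⟨j, rfl⟩)
  rwa [map_pow] at h4

theorem orb_ext {G : Type} [Group G] (f g : Orb h n m →* G)
    (h1 : ∀ i, f (ga h n m i) = g (ga h n m i)) (h2 : ∀ i, f (gb h n m i) = g (gb h n m i))
    (h3 : ∀ j, f (cone h n m j) = g (cone h n m j)) : f = g := by
  ext u
  rcases u with (i | i) | j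
  · exact h1 i
  · exact h2 i
  · exact h3 j

theorem mk_aut (a b a' b' : Fin h → Orb h n m) (x x' : Fin n → Orb h n m)
    (h1 : cp (gk a b) h = cp x n) (h2 : ∀ j, x j ^ m j = 1)
    (h1' : cp (gk a' b') h = cp x' n) (h2' : ∀ j, x' j ^ m j = 1)
    (hinv : ∀ f g : Orb h n m →* Orb h n m, (∀ i, f (ga h n m i) = a i) →
      (∀ i, f (gb h n m i) = b i) → (∀ j, f (cone h n m j) = x j) →
      (∀ i, g (ga h n m i) = a' i) → (∀ i, g (gb h n m i) = b' i) →
      (∀ j, g (cone h n m j) = x' j) →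
      ((∀ i, g (a i) = ga h n m i) ∧ (∀ i, g (b i) = gb h n m i) ∧
        (∀ j, g (x j) = cone h n m j)) ∧
      ((∀ i, f (a' i) = ga h n m i) ∧ (∀ i, f (b' i) = gb h n m i) ∧
        (∀ j, f (x' j) = cone h n m j))) :
    ∃ φ : MulAut (Orb h n m), (∀ i, φ (ga h n m i) = a i) ∧ (∀ i, φ (gb h n m i) = b i) ∧
      ∀ j, φ (cone h n m j) = x j := by
  obtain ⟨f, f1, f2, f3⟩ := hom_all a b x h1 h2
  obtain ⟨g, g1, g2, g3⟩ := hom_all a' b' x' h1' h2'
  obtain ⟨⟨e1, e2, e3⟩, e4, e5, e6⟩ := hinv f g f1 f2 f3 g1 g2 g3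
  refine ⟨MonoidHom.toMulEquiv f g ?_ ?_, f1, f2, f3⟩
  · refine orb_ext _ _ (fun i => ?_) (fun i => ?_) (fun j => ?_)
    · rw [MonoidHom.comp_apply, f1, e1, MonoidHom.id_apply]
    · rw [MonoidHom.comp_apply, f2, e2, MonoidHom.id_apply]
    · rw [MonoidHom.comp_apply, f3, e3, MonoidHom.id_apply]
  · refine orb_ext _ _ (fun i => ?_) (fun i => ?_) (fun j => ?_)
    · rw [MonoidHom.comp_apply, g1, e4, MonoidHom.id_apply]
    · rw [MonoidHom.comp_apply, g2, e5, MonoidHom.id_apply]
    · rw [MonoidHom.comp_apply, g3, e6, MonoidHom.id_apply]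

end Pool.Agent.V8H21.MCG
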