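import Pool.Agent.V8H21.MCG.Orb

set_option autoImplicit false

/-!
# The automorphisms of the orbifold group which fix the conjugacy classes of the cone generators
-/

namespace Pool.Agent.V8H21.MCG

/-- the automorphisms which map all cone generators to conjugates -/
def pureAll (h n : ℕ) (m : Fin n → ℕ) : Subgroup (MulAut (Orb h n m)) where
  carrier := {φ | ∀ i, ∃ w, φ (cone h n m i) = w * cone h n m i * w⁻¹}
  mul_mem' := by
    intro φ₁ φ₂ h1 h2 i
    obtain ⟨w₁, hw₁⟩ := h1 i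
    obtain ⟨w₂, hw₂⟩ := h2 i
    refine ⟨φ₁ w₂ * w₁, ?_⟩
    rw [MulAut.mul_apply, hw₂, map_mul, map_mul, map_inv, hw₁]
    group
  one_mem' := fun i => ⟨1, by simp⟩
  inv_mem' := by
    intro φ hφ i
    obtain ⟨w, hw⟩ := hφ i
    refine ⟨(φ⁻¹ w)⁻¹, ?_⟩
    have h1 := congrArg (fun y => φ⁻¹ y) hw
    simp only [map_mul, map_inv] at h1
    rw [MulAut.inv_apply_self] at h1
    rw [inv_inv]
    calc φ⁻¹ (cone h n m i) = (φ⁻¹ w)⁻¹ * (φ⁻¹ w * φ⁻¹ (cone h n m i) * (φ⁻¹ w)⁻¹) * φ⁻¹ w := by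
          group
      _ = _ := by rw [← h1]

end Pool.Agent.V8H21.MCG
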