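import Pool.Agent.V8H21.MCG.Pul

set_option autoImplicit false

/-!
# Point pushing automorphisms of orbifold groups, part 2
-/

namespace Pool.Agent.V8H21.MCG

open Equiv

theorem cp_mid {G : Type} [Group G] {n : ℕ} (F F' : Fin n → G) (j i : ℕ) (hji : j ≤ i)
    (h : ∀ l : Fin n, j ≤ (l : ℕ) → (l : ℕ) < i → F' l = F l) :
    (cp F' j)⁻¹ * cp F' i = (cp F j)⁻¹ * cp F i := by
  induction i with
  | zero =>
    have : j = 0 := by omega
    subst this
    rw [inv_mul_cancel, inv_mul_cancel]
  | succ i ih =>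
    rcases Nat.lt_or_ge i j with hj | hj
    · have : j = i + 1 := by omega
      subst this
      rw [inv_mul_cancel, inv_mul_cancel]
    · show (cp F' j)⁻¹ * (cp F' i * (if h : i < n then F' ⟨i, h⟩ else 1)) =
        (cp F j)⁻¹ * (cp F i * (if h : i < n then F ⟨i, h⟩ else 1))
      rw [← mul_assoc, ← mul_assoc, ih hj (fun l h1 h2 => h l h1 (by omega))]
      by_cases hi : i < n
      · rw [dif_pos hi, dif_pos hi, h ⟨i, hi⟩ hj (Nat.lt_succ_self i)]
      · rw [dif_neg hi, dif_neg hi]

variable {h n : ℕ} {m : Fin n → ℕ}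

theorem aut_tv (i : Fin h) : ∃ φ : MulAut (Orb h n m),
    (∀ l, φ (ga h n m l) = if l = i then ga h n m l * gb h n m l else ga h n m l) ∧
      (∀ l, φ (gb h n m l) = gb h n m l) ∧ ∀ j, φ (cone h n m j) = cone h n m j := by
  refine mk_aut (fun l => if l = i then ga h n m l * gb h n m l else ga h n m l) (gb h n m)
    (fun l => if l = i then ga h n m l * (gb h n m l)⁻¹ else ga h n m l) (gb h n m)
    (cone h n m) (cone h n m) ?_ cone_pow ?_ cone_pow ?_
  · rw [← orb_rel]
    apply cp_congr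
    intro l _
    unfold gk
    by_cases hl : l = i
    · simp only [if_pos hl]
      group
    · simp only [if_neg hl]
  · rw [← orb_rel]
    apply cp_congr
    intro l _
    unfold gk
    by_cases hl : l = i
    · simp only [if_pos hl]
      group
    · simp only [if_neg hl]
  · intro f g f1 f2 f3 g1 g2 g3
    refine ⟨⟨fun l => ?_, g2, g3⟩, fun l => ?_, f2, f3⟩
    · by_cases hl : l = i
      · simp only [if_pos hl, map_mul, g1, g2]
        group
      · simp only [if_neg hl, g1]
    · by_cases hl : l = i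
      · simp only [if_pos hl, map_mul, map_inv, f1, f2]
        group
      · simp only [if_neg hl, f1]

/-- the full twist of two letters -/
def tw {G : Type} [Group G] (M x z : G) : G := x * M * z * M⁻¹

theorem tw_rel {G : Type} [Group G] (P C N x z M : G) (e : ℤ) (he : e = 1 ∨ e = -1)
    (hM : M = (P * x)⁻¹ * C) :
    (P * (tw M x z ^ e * x * (tw M x z ^ e)⁻¹) * (P * x)⁻¹ * C) *
      (M⁻¹ * tw M x z ^ e * M * z * (M⁻¹ * tw M x z ^ e * M)⁻¹) *
      (P * (tw M x z ^ e * x * (tw M x z ^ e)⁻¹) * (P * x)⁻¹ * (C * z))⁻¹ *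
      (P * (tw M x z ^ e * x * (tw M x z ^ e)⁻¹) * (P * x)⁻¹ * N) = N := by
  unfold tw
  rcases he with rfl | rfl
  · subst hM
    group
  · subst hM
    group

theorem aut_tw (p q : Fin n) (hpq : p < q) (M : Orb h n m)
    (hM : M = (cp (cone h n m) (p + 1))⁻¹ * cp (cone h n m) q) (u : Orb h n m)
    (hu : u = tw M (cone h n m p) (cone h n m q)) : ∃ φ : MulAut (Orb h n m),
    (∀ l, φ (ga h n m l) = ga h n m l) ∧ (∀ l, φ (gb h n m l) = gb h n m l) ∧
      ∀ j, φ (cone h n m j) = if j = p then u * cone h n m j * u⁻¹ else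
        if j = q then M⁻¹ * u * M * cone h n m j * (M⁻¹ * u * M)⁻¹ else cone h n m j := by
  have hpq' : (p : ℕ) < q := hpq
  have hqp : q ≠ p := hpq.ne'
  have hM' : M = (cp (cone h n m) p * cone h n m p)⁻¹ * cp (cone h n m) q := by
    rw [hM, cp_succ]
  -- the relation
  have key : ∀ (e : ℤ), e = 1 ∨ e = -1 → cp (gk (ga h n m) (gb h n m)) h =
      cp (fun j => if j = p then u ^ e * cone h n m j * (u ^ e)⁻¹ else
        if j = q then M⁻¹ * u ^ e * M * cone h n m j * (M⁻¹ * u ^ e * M)⁻¹ else cone h n m j)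
        n := by
    intro e he
    rw [orb_rel]
    have h1 := fun (i : ℕ) (hi : (p : ℕ) < i) => cp_upd (cone h n m)
      (fun j => if j = p then u ^ e * cone h n m j * (u ^ e)⁻¹ else cone h n m j) p i hi
      (fun l _ hl => by simp only [if_neg hl])
    simp only [if_true] at h1
    have h2 := cp_upd (fun j => if j = p then u ^ e * cone h n m j * (u ^ e)⁻¹ else cone h n m j)
      (fun j => if j = p then u ^ e * cone h n m j * (u ^ e)⁻¹ else
        if j = q then M⁻¹ * u ^ e * M * cone h n m j * (M⁻¹ * u ^ e * M)⁻¹ else cone h n m j)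
      q n q.2 (fun l _ hl => by simp only [if_neg hl])
    simp only [if_neg hqp, if_true] at h2
    rw [h2, h1 q hpq', h1 (q + 1) (by omega), h1 n p.2, cp_succ, cp_succ, hu]
    exact (tw_rel _ _ _ _ _ M e he hM').symm
  -- the twist and its inverse
  have main : ∀ (e e' : ℤ), (e = 1 ∧ e' = -1) ∨ (e = -1 ∧ e' = 1) →
      ∀ f g : Orb h n m →* Orb h n m, (∀ j, f (cone h n m j) =
        if j = p then u ^ e * cone h n m j * (u ^ e)⁻¹ else
        if j = q then M⁻¹ * u ^ e * M * cone h n m j * (M⁻¹ * u ^ e * M)⁻¹ else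
          cone h n m j) → ∀ j, f (if j = p then u ^ e' * cone h n m j * (u ^ e')⁻¹ else
        if j = q then M⁻¹ * u ^ e' * M * cone h n m j * (M⁻¹ * u ^ e' * M)⁻¹ else
          cone h n m j) = cone h n m j := by
    intro e e' he f _ hf
    have hfM : f M = M := by
      rw [hM, map_mul, map_inv, cp_map, cp_map]
      apply cp_mid
      · omega
      · intro l h1 h2
        have e1 : l ≠ p := fun e => by rw [e] at h1; omega
        have e2 : l ≠ q := fun e => by rw [e] at h2; omega
        rw [hf, if_neg e1, if_neg e2]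
    have hp : f (cone h n m p) = u ^ e * cone h n m p * (u ^ e)⁻¹ := by rw [hf, if_pos rfl]
    have hq : f (cone h n m q) = M⁻¹ * u ^ e * M * cone h n m q * (M⁻¹ * u ^ e * M)⁻¹ := by
      rw [hf, if_neg hqp, if_pos rfl]
    have hfu : f u = u := by
      rw [hu]
      show f (tw M (cone h n m p) (cone h n m q)) = _
      conv_lhs => unfold tw
      rw [map_mul, map_mul, map_mul, map_inv, hfM, hp, hq, hu]
      unfold tw
      rcases he with ⟨rfl, rfl⟩ | ⟨rfl, rfl⟩
      · group
      · group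
    intro j
    by_cases e1 : j = p
    · subst e1
      rw [if_pos rfl, map_mul, map_mul, map_inv, map_zpow, hfu, hp]
      rcases he with ⟨rfl, rfl⟩ | ⟨rfl, rfl⟩ <;> group
    by_cases e2 : j = q
    · subst e2
      rw [if_neg e1, if_pos rfl]
      simp only [map_mul, map_inv, map_zpow, hfu, hfM, hq]
      rcases he with ⟨rfl, rfl⟩ | ⟨rfl, rfl⟩ <;> group
    · rw [if_neg e1, if_neg e2, hf, if_neg e1, if_neg e2]
  have hpow : ∀ (e : ℤ) (j : Fin n), (if j = p then u ^ e * cone h n m j * (u ^ e)⁻¹ else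
        if j = q then M⁻¹ * u ^ e * M * cone h n m j * (M⁻¹ * u ^ e * M)⁻¹ else
          cone h n m j) ^ m j = 1 := by
    intro e j
    by_cases e1 : j = p
    · rw [if_pos e1, conj_pow, cone_pow]
      group
    by_cases e2 : j = q
    · rw [if_neg e1, if_pos e2, conj_pow, cone_pow]
      group
    · rw [if_neg e1, if_neg e2, cone_pow]
  obtain ⟨φ, h1, h2, h3⟩ := mk_aut (ga h n m) (gb h n m) (ga h n m) (gb h n m) _ _
    (key 1 (Or.inl rfl)) (hpow 1) (key (-1) (Or.inr rfl)) (hpow (-1)) (by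
      intro f g f1 f2 f3 g1 g2 g3
      exact ⟨⟨g1, g2, main (-1) 1 (Or.inr ⟨rfl, rfl⟩) g f g3⟩, f1, f2,
        main 1 (-1) (Or.inl ⟨rfl, rfl⟩) f g f3⟩)
  refine ⟨φ, h1, h2, fun j => ?_⟩
  rw [h3]
  simp only [zpow_one]

end Pool.Agent.V8H21.MCG
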