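import Pool.Agent.V8H21.MCG.Pul2

set_option autoImplicit false

/-!
# Point pushing automorphisms of orbifold groups, part 3
-/

namespace Pool.Agent.V8H21.MCG

open Equiv

variable {h n : ℕ} {m : Fin n → ℕ}

/-- Pushing the cone point `j` along `a_i`. -/
theorem aut_push (i : Fin h) (j : Fin n) (E : Orb h n m)
    (hE : E = (cp (gk (ga h n m) (gb h n m)) i)⁻¹ * cp (cone h n m) j) (y : Orb h n m)
    (hy : y = E * cone h n m j * E⁻¹) : ∃ φ : MulAut (Orb h n m),
    (∀ l, φ (ga h n m l) = if l = i then y⁻¹ * ga h n m l * y else ga h n m l) ∧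
      (∀ l, φ (gb h n m l) = if l = i then gb h n m l * y else gb h n m l) ∧
      ∀ l, φ (cone h n m l) = if l = j then
        E⁻¹ * (y⁻¹ * ga h n m i) * y * (y⁻¹ * ga h n m i)⁻¹ * E else cone h n m l := by
  have hE' : cp (cone h n m) j = cp (gk (ga h n m) (gb h n m)) i * E := by
    rw [hE, mul_inv_cancel_left]
  -- the general relation
  have hrel : ∀ (A B X : Orb h n m),
      cp (gk (ga h n m) (gb h n m)) i * (A * B * A⁻¹ * B⁻¹) *
        (cp (gk (ga h n m) (gb h n m)) i * (ga h n m i * gb h n m i * (ga h n m i)⁻¹ *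
          (gb h n m i)⁻¹))⁻¹ = cp (gk (ga h n m) (gb h n m)) i * E * X *
        (cp (gk (ga h n m) (gb h n m)) i * E * cone h n m j)⁻¹ →
      cp (gk (fun l => if l = i then A else ga h n m l) (fun l => if l = i then B else gb h n m l))
        h = cp (fun l => if l = j then X else cone h n m l) n := by
    intro A B X hABX
    have h1 := cp_upd (gk (ga h n m) (gb h n m)) (gk (fun l => if l = i then A else ga h n m l)
      (fun l => if l = i then B else gb h n m l)) i h i.2 (fun l _ hl => by
        unfold gk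
        simp only [if_neg hl])
    have h2 := cp_upd (cone h n m) (fun l => if l = j then X else cone h n m l) j n j.2
      (fun l _ hl => by simp only [if_neg hl])
    simp only [if_true] at h2
    have h3 : gk (fun l => if l = i then A else ga h n m l)
        (fun l => if l = i then B else gb h n m l) i = A * B * A⁻¹ * B⁻¹ := by
      unfold gk
      simp only [if_true]
    rw [h1, h2, h3, cp_succ, cp_succ, hE', orb_rel, ← hABX]
    rfl
  have hX : ∀ (X : Orb h n m), (∃ c, X = c * cone h n m j * c⁻¹) →
      ∀ l, (if l = j then X else cone h n m l) ^ m l = 1 := by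
    rintro X ⟨c, rfl⟩ l
    by_cases hl : l = j
    · subst hl
      rw [if_pos rfl, conj_pow, cone_pow]
      group
    · rw [if_neg hl, cone_pow]
  have hyc : ∀ c : Orb h n m, ∃ c', c * y * c⁻¹ = c' * cone h n m j * c'⁻¹ := fun c =>
    ⟨c * E, by rw [hy]; group⟩
  -- f fixes E
  have hfE : ∀ (f : Orb h n m →* Orb h n m) (A B X : Orb h n m),
      (∀ l, f (ga h n m l) = if l = i then A else ga h n m l) →
      (∀ l, f (gb h n m l) = if l = i then B else gb h n m l) →
      (∀ l, f (cone h n m l) = if l = j then X else cone h n m l) → f E = E := by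
    intro f A B X f1 f2 f3
    rw [hE, map_mul, map_inv, cp_map, cp_map]
    congr 1
    · congr 1
      apply cp_congr
      intro l hl
      have hli : l ≠ i := fun e => by rw [e] at hl; exact lt_irrefl _ hl
      unfold gk
      rw [map_mul, map_mul, map_mul, map_inv, map_inv, f1, f2, if_neg hli, if_neg hli]
    · apply cp_congr
      intro l hl
      have hlj : l ≠ j := fun e => by rw [e] at hl; exact lt_irrefl _ hl
      rw [f3, if_neg hlj]
  obtain ⟨φ, h1, h2, h3⟩ := mk_aut
    (fun l => if l = i then y⁻¹ * ga h n m i * y else ga h n m l)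
    (fun l => if l = i then gb h n m i * y else gb h n m l)
    (fun l => if l = i then (y⁻¹ * ga h n m i)⁻¹ * y * (y⁻¹ * ga h n m i) * (y⁻¹ * ga h n m i)
      else ga h n m l)
    (fun l => if l = i then gb h n m i * ((y⁻¹ * ga h n m i)⁻¹ * y⁻¹ * (y⁻¹ * ga h n m i))
      else gb h n m l)
    (fun l => if l = j then E⁻¹ * (y⁻¹ * ga h n m i) * y * (y⁻¹ * ga h n m i)⁻¹ * E
      else cone h n m l)
    (fun l => if l = j then E⁻¹ * (y⁻¹ * ga h n m i)⁻¹ * y * (y⁻¹ * ga h n m i) * E
      else cone h n m l)
    (hrel _ _ _ (by rw [hy]; group))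
    (hX _ ⟨E⁻¹ * (y⁻¹ * ga h n m i) * E, by
      conv_lhs => rw [show E⁻¹ * (y⁻¹ * ga h n m i) * y * (y⁻¹ * ga h n m i)⁻¹ * E =
        E⁻¹ * (y⁻¹ * ga h n m i) * (E * cone h n m j * E⁻¹) * (y⁻¹ * ga h n m i)⁻¹ * E by
          rw [← hy]]
      group⟩)
    (hrel _ _ _ (by rw [hy]; group))
    (hX _ ⟨E⁻¹ * (y⁻¹ * ga h n m i)⁻¹ * E, by
      conv_lhs => rw [show E⁻¹ * (y⁻¹ * ga h n m i)⁻¹ * y * (y⁻¹ * ga h n m i) * E =
        E⁻¹ * (y⁻¹ * ga h n m i)⁻¹ * (E * cone h n m j * E⁻¹) * (y⁻¹ * ga h n m i) * E by
          rw [← hy]]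
      group⟩) (by
      intro f g f1 f2 f3 g1 g2 g3
      have fE := hfE f _ _ _ f1 f2 f3
      have gE := hfE g _ _ _ g1 g2 g3
      have fa : f (ga h n m i) = y⁻¹ * ga h n m i * y := by rw [f1, if_pos rfl]
      have fb : f (gb h n m i) = gb h n m i * y := by rw [f2, if_pos rfl]
      have ga' : g (ga h n m i) = (y⁻¹ * ga h n m i)⁻¹ * y * (y⁻¹ * ga h n m i) *
        (y⁻¹ * ga h n m i) := by rw [g1, if_pos rfl]
      have gb' : g (gb h n m i) = gb h n m i * ((y⁻¹ * ga h n m i)⁻¹ * y⁻¹ *
        (y⁻¹ * ga h n m i)) := by rw [g2, if_pos rfl]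
      have fy : f y = (y⁻¹ * ga h n m i) * y * (y⁻¹ * ga h n m i)⁻¹ := by
        conv_lhs => rw [hy]
        rw [map_mul, map_mul, map_inv, fE, f3, if_pos rfl]
        group
      have gy : g y = (y⁻¹ * ga h n m i)⁻¹ * y * (y⁻¹ * ga h n m i) := by
        conv_lhs => rw [hy]
        rw [map_mul, map_mul, map_inv, gE, g3, if_pos rfl]
        group
      have hxj : E⁻¹ * y * E = cone h n m j := by rw [hy]; group
      refine ⟨⟨fun l => ?_, fun l => ?_, fun l => ?_⟩, fun l => ?_, fun l => ?_, fun l => ?_⟩
      · by_cases hl : l = i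
        · subst hl
          simp only [if_true, map_mul, map_inv, gy, ga']
          group
        · simp only [if_neg hl, g1]
      · by_cases hl : l = i
        · subst hl
          simp only [if_true, map_mul, map_inv, gy, gb']
          group
        · simp only [if_neg hl, g2]
      · by_cases hl : l = j
        · subst hl
          simp only [if_true, map_mul, map_inv, gy, ga', gE]
          rw [← hxj]
          group
        · simp only [if_neg hl, g3]
      · by_cases hl : l = i
        · subst hl
          simp only [if_true, map_mul, map_inv, fy, fa]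
          group
        · simp only [if_neg hl, f1]
      · by_cases hl : l = i
        · subst hl
          simp only [if_true, map_mul, map_inv, fy, fa, fb]
          group
        · simp only [if_neg hl, f2]
      · by_cases hl : l = j
        · subst hl
          simp only [if_true, map_mul, map_inv, fy, fa, fE]
          rw [← hxj]
          group
        · simp only [if_neg hl, f3])
  refine ⟨φ, fun l => ?_, fun l => ?_, h3⟩
  · rw [h1]
    by_cases hl : l = i
    · rw [if_pos hl, if_pos hl, hl]
    · rw [if_neg hl, if_neg hl]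
  · rw [h2]
    by_cases hl : l = i
    · rw [if_pos hl, if_pos hl, hl]
    · rw [if_neg hl, if_neg hl]

end Pool.Agent.V8H21.MCG
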