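import Pool.Agent.V8H21.MCG.Pul3
import Pool.Agent.V8H21.MCG.Pul0

set_option autoImplicit false

/-!
# Point pushing automorphisms of orbifold groups: all loops
-/

namespace Pool.Agent.V8H21.MCG

open Equiv

variable {h n : ℕ} {m m' : Fin n → ℕ}

theorem conj_pureAll (y : Orb h n m) : MulAut.conj y ∈ pureAll h n m :=
  fun i => ⟨y, by rw [MulAut.conj_apply]⟩

theorem loop_mem (f : Orb h n m →* Orb h n m') (j : Fin n) (φ : MulAut (Orb h n m))
    (hφ : φ ∈ pureAll h n m) (v : Orb h n m)
    (hv : φ (cone h n m j) = v * cone h n m j * v⁻¹) (hf : ∀ y, f (φ y) = f y) :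
    f v ∈ push f (cone h n m j) (pureAll h n m) := by
  rw [← inv_mem_iff]
  refine ⟨MulAut.conj v⁻¹ * φ, Subgroup.mul_mem _ (conj_pureAll _) hφ, ?_, fun y => ?_⟩
  · rw [MulAut.mul_apply, hv, MulAut.conj_apply]
    group
  · rw [MulAut.mul_apply, MulAut.conj_apply, map_mul, map_mul, hf, map_inv, map_inv, map_inv]

theorem push_top (hd : ∀ i, m' i ∣ m i) (f : Orb h n m →* Orb h n m')
    (hf' : ∀ u, f (PresentedGroup.of u) = PresentedGroup.of u) (j : Fin n) (hj : m' j = 1) :
    push f (cone h n m j) (pureAll h n m) = ⊤ := by
  have hfs : Function.Surjective f := by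
    intro q
    obtain ⟨u, rfl⟩ := QuotientGroup.mk_surjective q
    exact ⟨PresentedGroup.mk _ u, red_mk f hf' u⟩
  have hfx : f (cone h n m j) = 1 := by
    have h1 : f (cone h n m j) = cone h n m' j := hf' _
    have h2 := cone_pow (h := h) (m := m') j
    rw [hj, pow_one] at h2
    rw [h1, h2]
  set L := push f (cone h n m j) (pureAll h n m) with hL
  have hxj : f (cone h n m j) ∈ L := by rw [hfx]; exact L.one_mem
  -- the twist of two cone points
  have htw : ∀ p q : Fin n, p < q → ∃ (φ : MulAut (Orb h n m)) (M u : Orb h n m),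
      f M = (cp (fun l => f (cone h n m l)) (p + 1))⁻¹ * cp (fun l => f (cone h n m l)) q ∧
      u = cone h n m p * M * cone h n m q * M⁻¹ ∧ φ ∈ pureAll h n m ∧
      (∀ i, φ (ga h n m i) = ga h n m i) ∧ (∀ i, φ (gb h n m i) = gb h n m i) ∧
      ∀ l, φ (cone h n m l) = if l = p then u * cone h n m l * u⁻¹ else
        if l = q then M⁻¹ * u * M * cone h n m l * (M⁻¹ * u * M)⁻¹ else cone h n m l := by
    intro p q hpq
    obtain ⟨φ, h1, h2, h3⟩ := aut_tw (m := m) p q hpq _ rfl _ rfl
    refine ⟨φ, _, _, ?_, rfl, ?_, h1, h2, h3⟩
    · rw [map_mul, map_inv, cp_map, cp_map]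
    · intro l
      rw [h3]
      by_cases e1 : l = p
      · exact ⟨_, by rw [if_pos e1]⟩
      by_cases e2 : l = q
      · exact ⟨_, by rw [if_neg e1, if_pos e2]⟩
      · exact ⟨1, by rw [if_neg e1, if_neg e2]; group⟩
  -- the cone points after `j`
  have hafter : ∀ k : ℕ, ∀ l : Fin n, (l : ℕ) = j + k → f (cone h n m l) ∈ L := by
    intro k
    induction k using Nat.strong_induction_on with
    | _ k ih =>
      intro q hq
      rcases Nat.eq_zero_or_pos k with hk | hk
      · have : q = j := Fin.ext (by omega)
        rw [this]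
        exact hxj
      have hjq : j < q := by
        show (j : ℕ) < q
        omega
      obtain ⟨φ, M, u, hM, hu, hp, h1, h2, h3⟩ := htw j q hjq
      have hfM : f M ∈ L := by
        rw [hM]
        apply cp_mem
        · omega
        · intro l hl1 hl2
          exact ih (l - j) (by omega) l (by omega)
      have hfu : f u = f M * f (cone h n m q) * (f M)⁻¹ := by
        rw [hu, map_mul, map_mul, map_mul, map_inv, hfx, one_mul]
      have hid : f.comp φ.toMonoidHom = f := by
        refine orb_ext _ _ (fun i => ?_) (fun i => ?_) (fun l => ?_)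
        · show f (φ (ga h n m i)) = _
          rw [h1]
        · show f (φ (gb h n m i)) = _
          rw [h2]
        · show f (φ (cone h n m l)) = _
          rw [h3]
          by_cases e1 : l = j
          · rw [if_pos e1, e1, map_mul, map_mul, map_inv, hfx]
            group
          by_cases e2 : l = q
          · rw [if_neg e1, if_pos e2, e2]
            simp only [map_mul, map_inv, hfu]
            group
          · rw [if_neg e1, if_neg e2]
      have h4 := loop_mem f j φ hp u (by rw [h3, if_pos rfl])
        (fun y => DFunLike.congr_fun hid y)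
      rw [hfu] at h4
      have h5 := L.mul_mem (L.mul_mem (L.inv_mem hfM) h4) hfM
      have h6 : (f M)⁻¹ * (f M * f (cone h n m q) * (f M)⁻¹) * f M = f (cone h n m q) := by
        group
      rwa [h6] at h5
  have hbefore : ∀ k : ℕ, ∀ l : Fin n, (l : ℕ) + k = j → f (cone h n m l) ∈ L := by
    intro k
    induction k using Nat.strong_induction_on with
    | _ k ih =>
      intro p hq
      rcases Nat.eq_zero_or_pos k with hk | hk
      · have : p = j := Fin.ext (by omega)
        rw [this]
        exact hxj
      have hpj : p < j := by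
        show (p : ℕ) < j
        omega
      have hjp : j ≠ p := hpj.ne'
      obtain ⟨φ, M, u, hM, hu, hp, h1, h2, h3⟩ := htw p j hpj
      have hfM : f M ∈ L := by
        rw [hM]
        apply cp_mem
        · omega
        · intro l hl1 hl2
          exact ih (j - l) (by omega) l (by omega)
      have hfu : f u = f (cone h n m p) := by
        rw [hu, map_mul, map_mul, map_mul, map_inv, hfx]
        group
      have hid : f.comp φ.toMonoidHom = f := by
        refine orb_ext _ _ (fun i => ?_) (fun i => ?_) (fun l => ?_)
        · show f (φ (ga h n m i)) = _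
          rw [h1]
        · show f (φ (gb h n m i)) = _
          rw [h2]
        · show f (φ (cone h n m l)) = _
          rw [h3]
          by_cases e1 : l = p
          · rw [if_pos e1, e1, map_mul, map_mul, map_inv, hfu]
            group
          by_cases e2 : l = j
          · rw [if_neg e1, if_pos e2, e2]
            simp only [map_mul, map_inv, hfx]
            group
          · rw [if_neg e1, if_neg e2]
      have h4 := loop_mem f j φ hp (M⁻¹ * u * M) (by rw [h3, if_neg hjp, if_pos rfl])
        (fun y => DFunLike.congr_fun hid y)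
      rw [map_mul, map_mul, map_inv, hfu] at h4
      have h5 := L.mul_mem (L.mul_mem hfM h4) (L.inv_mem hfM)
      have h6 : f M * ((f M)⁻¹ * f (cone h n m p) * f M) * (f M)⁻¹ = f (cone h n m p) := by
        group
      rwa [h6] at h5
  have hcone : ∀ l, f (cone h n m l) ∈ L := by
    intro l
    rcases Nat.lt_or_ge (l : ℕ) j with hl | hl
    · exact hbefore (j - l) l (by omega)
    · exact hafter (l - j) l (by omega)
  -- the handles
  have hhandle : ∀ k : ℕ, ∀ i : Fin h, (i : ℕ) = k → f (ga h n m i) ∈ L ∧ f (gb h n m i) ∈ L := by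
    intro k
    induction k using Nat.strong_induction_on with
    | _ k ih =>
      intro i hi
      obtain ⟨φ, h1, h2, h3⟩ := aut_push (m := m) i j _ rfl _ rfl
      set E := (cp (gk (ga h n m) (gb h n m)) i)⁻¹ * cp (cone h n m) j with hE
      set y := E * cone h n m j * E⁻¹ with hy
      have hfE : f E ∈ L := by
        rw [hE, map_mul, map_inv, cp_map, cp_map]
        apply L.mul_mem (L.inv_mem _) _
        · have h5 := cp_mem L (fun l => f (gk (ga h n m) (gb h n m) l)) 0 i (Nat.zero_le _)
            (fun l _ hl => by
              obtain ⟨e1, e2⟩ := ih l (by omega) l rfl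
              unfold gk
              rw [map_mul, map_mul, map_mul, map_inv, map_inv]
              exact L.mul_mem (L.mul_mem (L.mul_mem e1 e2) (L.inv_mem e1)) (L.inv_mem e2))
          have h6 : cp (fun l => f (gk (ga h n m) (gb h n m) l)) 0 = 1 := rfl
          rwa [h6, inv_one, one_mul] at h5
        · have h5 := cp_mem L (fun l => f (cone h n m l)) 0 j (Nat.zero_le _)
            (fun l _ _ => hcone l)
          have h6 : cp (fun l => f (cone h n m l)) 0 = 1 := rfl
          rwa [h6, inv_one, one_mul] at h5
      have hfy : f y = 1 := by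
        rw [hy, map_mul, map_mul, map_inv, hfx]
        group
      have hp : φ ∈ pureAll h n m := by
        intro l
        rw [h3]
        by_cases e1 : l = j
        · refine ⟨E⁻¹ * (y⁻¹ * ga h n m i) * E, ?_⟩
          rw [if_pos e1, e1]
          have h5 : cone h n m j = E⁻¹ * y * E := by rw [hy]; group
          rw [h5]
          group
        · exact ⟨1, by rw [if_neg e1]; group⟩
      have hid : f.comp φ.toMonoidHom = f := by
        refine orb_ext _ _ (fun l => ?_) (fun l => ?_) (fun l => ?_)
        · show f (φ (ga h n m l)) = _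
          rw [h1]
          by_cases e1 : l = i
          · rw [if_pos e1, map_mul, map_mul, map_inv, hfy]
            group
          · rw [if_neg e1]
        · show f (φ (gb h n m l)) = _
          rw [h2]
          by_cases e1 : l = i
          · rw [if_pos e1, map_mul, hfy, mul_one]
          · rw [if_neg e1]
        · show f (φ (cone h n m l)) = _
          rw [h3]
          by_cases e1 : l = j
          · rw [if_pos e1, e1, hfx]
            simp only [map_mul, map_inv, hfy]
            group
          · rw [if_neg e1]
      have h4 := loop_mem f j φ hp (E⁻¹ * (y⁻¹ * ga h n m i) * E) (by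
        rw [h3, if_pos rfl]
        have h5 : cone h n m j = E⁻¹ * y * E := by rw [hy]; group
        rw [h5]
        group) (fun z => DFunLike.congr_fun hid z)
      rw [map_mul, map_mul, map_mul, map_inv, map_inv, hfy, inv_one, one_mul] at h4
      have hga : f (ga h n m i) ∈ L := by
        have h5 := L.mul_mem (L.mul_mem hfE h4) (L.inv_mem hfE)
        have h6 : f E * ((f E)⁻¹ * f (ga h n m i) * f E) * (f E)⁻¹ = f (ga h n m i) := by group
        rwa [h6] at h5
      refine ⟨hga, ?_⟩
      obtain ⟨θ, t1, t2, t3⟩ := aut_tv (m := m) (n := n) i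
      have ht : θ ∈ pureAll h n m := fun l => ⟨1, by rw [t3]; group⟩
      obtain ⟨ψ, hψ⟩ := red_aut hd f hf' hfs θ ht
      obtain ⟨χ, c1, c2, c3⟩ := hga
      have h7 : ψ (f (ga h n m i)) ∈ L := by
        refine ⟨θ * χ * θ⁻¹, Subgroup.mul_mem _ (Subgroup.mul_mem _ ht c1)
          (Subgroup.inv_mem _ ht), ?_, fun z => ?_⟩
        · have h8 : θ⁻¹ (cone h n m j) = cone h n m j := by
            rw [MulAut.inv_def, MulEquiv.symm_apply_eq, t3]
          rw [MulAut.mul_apply, MulAut.mul_apply, h8, c2, t3]
        · have h9 : ψ (f (θ⁻¹ z)) = f z := by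
            rw [← hψ, MulAut.apply_inv_self]
          rw [MulAut.mul_apply, MulAut.mul_apply, hψ, c3, map_mul, map_mul, map_inv, h9]
      rw [← hψ, t1, if_pos rfl, map_mul] at h7
      have h8 := L.mul_mem (L.inv_mem (show f (ga h n m i) ∈ L from ⟨χ, c1, c2, c3⟩)) h7
      rwa [inv_mul_cancel_left] at h8
  -- all elements
  rw [eq_top_iff]
  rintro q -
  obtain ⟨z, rfl⟩ := hfs q
  have htop : (⊤ : Subgroup (Orb h n m)) ≤ L.comap f := by
    rw [← PresentedGroup.closure_range_of, Subgroup.closure_le]
    rintro _ ⟨u, rfl⟩
    rcases u with (i | i) | l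
    · exact (hhandle i i rfl).1
    · exact (hhandle i i rfl).2
    · exact hcone l
  exact htop (Subgroup.mem_top z)

end Pool.Agent.V8H21.MCG
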