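import Pool.Agent.V8H21.MCG.Lab4
import Pool.Agent.V8H21.MCG.Gen

set_option autoImplicit false

/-!
# Conjugates of the cone generators modulo subgroups of finite index
-/

namespace Pool.Agent.V8H21.MCG

open Equiv

section gen

variable {ι Q A : Type} [Finite ι] [Group Q] [AddCommGroup A]

/-- the homomorphism on the preimage of a subgroup given by invariant labels -/
def fM (rels : Set (FreeGroup ι)) (ρ : PresentedGroup rels →* Q) (t : ι → Q → A)
    (ht : ∀ x ∈ rels, ∀ q, cyc (ρ.comp (PresentedGroup.mk rels)) t x q = 0) (C : Subgroup Q)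
    (hC : ∀ i x, ∀ c ∈ C, t i (x * c) = t i x) : C.comap ρ →* Multiplicative A :=
  MonoidHom.mk' (fun n => Multiplicative.ofAdd (lpG rels ρ t ht n.1 (1, 0)).2) (by
    rintro ⟨a, ha⟩ ⟨b, hb⟩
    obtain ⟨u, rfl⟩ := QuotientGroup.mk_surjective a
    obtain ⟨v, rfl⟩ := QuotientGroup.mk_surjective b
    rw [← ofAdd_add]
    congr 1
    show (lpG rels ρ t ht (PresentedGroup.mk rels (u * v)) (1, 0)).2 =
      (lpG rels ρ t ht (PresentedGroup.mk rels u) (1, 0)).2 +
      (lpG rels ρ t ht (PresentedGroup.mk rels v) (1, 0)).2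
    rw [lpG_mk, lpG_mk, lpG_mk, lp_apply, lp_apply, lp_apply]
    simp only [zero_add]
    rw [cyc_mul, add_comm]
    have h1 : (ρ.comp (PresentedGroup.mk rels)) v ∈ C := hb
    rw [mul_one, ← one_mul ((ρ.comp (PresentedGroup.mk rels)) v),
      cyc_right _ t _ (fun i x => hC i x _ h1)])

theorem fM_mk (rels : Set (FreeGroup ι)) (ρ : PresentedGroup rels →* Q) (t : ι → Q → A)
    (ht : ∀ x ∈ rels, ∀ q, cyc (ρ.comp (PresentedGroup.mk rels)) t x q = 0) (C : Subgroup Q)
    (hC : ∀ i x, ∀ c ∈ C, t i (x * c) = t i x) (u : FreeGroup ι)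
    (hu : PresentedGroup.mk rels u ∈ C.comap ρ) :
    fM rels ρ t ht C hC ⟨PresentedGroup.mk rels u, hu⟩ =
      Multiplicative.ofAdd (cyc (ρ.comp (PresentedGroup.mk rels)) t u 1) := by
  show Multiplicative.ofAdd (lpG rels ρ t ht (PresentedGroup.mk rels u) (1, 0)).2 = _
  rw [lpG_mk, lp_apply, zero_add]

theorem cyc_conjC (ρ : FreeGroup ι →* Q) (t : ι → Q → A) (C : Subgroup Q)
    (hC : ∀ i x, ∀ c ∈ C, t i (x * c) = t i x) (u y : FreeGroup ι) (hu : ρ (y * u * y⁻¹) ∈ C) :
    cyc ρ t (y * u * y⁻¹) 1 = cyc ρ t u (ρ y)⁻¹ := by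
  have h1 : ρ u * (ρ y)⁻¹ = (ρ y)⁻¹ * ρ (y * u * y⁻¹) := by
    rw [map_mul, map_mul, map_inv]
    group
  rw [cyc_mul, cyc_mul, cyc_inv, map_inv, mul_one, h1, cyc_right _ t _ (fun i x => hC i x _ hu)]
  abel

end gen

section rot

variable {h n : ℕ} {m : Fin n → ℕ}

theorem dc_arg {Q A : Type} [Group Q] [AddCommGroup A] [One A] (C : Subgroup Q) (y x c : Q)
    (hc : c ∈ C) : dc A C (y * c) x = dc A C y x := by
  unfold dc
  congr 1
  rw [← mul_assoc]
  exact propext (Subgroup.mul_mem_cancel_right C hc)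

theorem sep_rot (j : Fin n) (hmj : 2 ≤ m j) (N : Subgroup (Orb h n m)) [hN : N.Normal]
    [N.FiniteIndex] (v : Orb h n m)
    (hcomm : (QuotientGroup.mk' N) v * (QuotientGroup.mk' N) (cone h n m j) =
      (QuotientGroup.mk' N) (cone h n m j) * (QuotientGroup.mk' N) v)
    (hv1 : (QuotientGroup.mk' N) v ∉ Subgroup.zpowers ((QuotientGroup.mk' N) (cone h n m j)))
    (hv2 : (QuotientGroup.mk' N) v * (QuotientGroup.mk' N) v ∉
      Subgroup.zpowers ((QuotientGroup.mk' N) (cone h n m j))) :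
    ∃ k : ℕ, ∀ (i : Fin n) (e : ℕ) (z : Orb h n m), Nat.Coprime e (m i) →
      z * cone h n m i ^ e * z⁻¹ * (cone h n m j)⁻¹ ∈ cker (Orb h n m) k →
        i = j ∧ e ≡ 1 [MOD m j] ∧ (QuotientGroup.mk' N) z ∈
          Subgroup.zpowers ((QuotientGroup.mk' N) (cone h n m j)) := by
  classical
  let Q := Orb h n m ⧸ N
  have hQ : Finite Q := Subgroup.finite_quotient_of_finiteIndex
  let ρ' : Orb h n m →* Q := QuotientGroup.mk' N
  let R : FreeGroup (OGen h n) →* Q := ρ'.comp (PresentedGroup.mk (orels h n m))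
  have hRs : Function.Surjective R :=
    (QuotientGroup.mk'_surjective N).comp (QuotientGroup.mk_surjective)
  have hRm : ∀ k, R (og h n k) ^ m k = 1 := by
    intro k
    rw [← map_pow]
    show ρ' (PresentedGroup.mk _ (og h n k ^ m k)) = 1
    have h1 : (PresentedGroup.mk (orels h n m)) (og h n k ^ m k) = 1 :=
      PresentedGroup.one_of_mem (Or.inr ⟨k, rfl⟩)
    rw [h1, map_one]
  let C : Subgroup Q := Subgroup.zpowers (R (og h n j))
  have hCj : R (og h n j) ∈ C := Subgroup.mem_zpowers _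
  have hfi : (C.comap ρ').FiniteIndex := by
    refine ⟨?_⟩
    rw [Subgroup.index_comap]
    exact Subgroup.FiniteIndex.index_ne_zero (H := C.subgroupOf ρ'.range)
  refine ⟨m j * (C.comap ρ').index, fun i e z he hz => ?_⟩
  let q₀ : Q := ρ' z
  -- the third fixed coset
  obtain ⟨y, hyc, hy1, hy2⟩ : ∃ y : Q, y * R (og h n j) = R (og h n j) * y ∧ y ∉ C ∧
      q₀ * y ∉ C := by
    by_cases h1 : q₀ * ρ' v ∈ C
    · refine ⟨ρ' v * ρ' v, ?_, hv2, ?_⟩
      · have h2 : ρ' v * R (og h n j) = R (og h n j) * ρ' v := hcomm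
        rw [mul_assoc, h2, ← mul_assoc, h2, mul_assoc]
      · intro h2
        apply hv1
        have h3 := C.mul_mem (C.inv_mem h1) h2
        have h4 : (q₀ * ρ' v)⁻¹ * (q₀ * (ρ' v * ρ' v)) = ρ' v := by group
        rw [h4] at h3
        exact h3
    · exact ⟨ρ' v, hcomm, hv1, h1⟩
  obtain ⟨pre, suf, hprod, hpre, hsuf⟩ := split_prod (og h n) j
  obtain ⟨t₁, ⟨ht0, ht2, ht3⟩, ht1⟩ := diff_memF (A := ZMod (m j)) R m C hRm hRs
    (R pre) (R pre * y)
  have hfact : NeZero (m j) := ⟨by omega⟩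
  let s : OGen h n → Q → ZMod (m j) := fun u x =>
    if u = Sum.inr j then dc (ZMod (m j)) C 1 x - dc (ZMod (m j)) C y x else 0
  have hs0 : ∀ u, u ≠ Sum.inr j → s u = 0 := by
    intro u hu
    funext x
    show (if u = Sum.inr j then _ else _) = _
    rw [if_neg hu]
    rfl
  have hsj : ∀ x, s (Sum.inr j) x = dc (ZMod (m j)) C 1 x - dc (ZMod (m j)) C y x := by
    intro x
    show (if (Sum.inr j : OGen h n) = Sum.inr j then _ else _) = _
    rw [if_pos rfl]
  have hsC : ∀ u x, ∀ c ∈ C, s u (x * c) = s u x := by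
    intro u x c hc
    by_cases hu : u = Sum.inr j
    · subst hu
      rw [hsj, hsj, dc_right _ _ _ _ hc, dc_right _ _ _ _ hc]
    · rw [hs0 u hu]
      rfl
  have hsog : ∀ k x, cyc R s (og h n k) x = s (Sum.inr k) x := fun k x => cyc_of R s _ x
  have hcl : ∀ (S : Set (Fin n)), (∀ k ∈ S, k ≠ j) → ∀ u ∈ Subgroup.closure (og h n '' S),
      ∀ x, cyc R s u x = 0 := by
    intro S hS u hu x
    apply cyc_zero_of R s (Sum.inr '' S)
    · rintro _ ⟨k, hk, rfl⟩
      exact hs0 _ (fun h1 => hS k hk (Sum.inr_injective h1))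
    · rw [← Set.image_comp]
      exact hu
  -- left invariance
  have hsl : ∀ x, s (Sum.inr j) (R (og h n j) * x) = s (Sum.inr j) x := by
    intro x
    rw [hsj, hsj, dc_mul, dc_mul, mul_one]
    congr 1
    · have := dc_arg (A := ZMod (m j)) C 1 x _ (C.inv_mem hCj)
      rwa [one_mul] at this
    · have h1 : (R (og h n j))⁻¹ * y = y * (R (og h n j))⁻¹ := by
        rw [eq_mul_inv_iff_mul_eq, mul_assoc, hyc, inv_mul_cancel_left]
      rw [h1]
      exact dc_arg C y x _ (C.inv_mem hCj)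
  have hsl2 : ∀ (i : ℕ) x, s (Sum.inr j) (R (og h n j) ^ i * x) = s (Sum.inr j) x := by
    intro i x
    induction i with
    | zero => rw [pow_zero, one_mul]
    | succ i ih => rw [pow_succ', mul_assoc, hsl, ih]
  have hsorel : ∀ x, cyc R s (orel h n) x =
      -(dc (ZMod (m j)) C (R pre) x - dc (ZMod (m j)) C (R pre * y) x) := by
    intro x
    have h0 : (fun u : Fin h ⊕ Fin h => s (Sum.inl u)) = 0 := by
      funext u
      exact hs0 _ (by simp)
    have h1 : R suf * ((R pre * R (og h n j) * R suf)⁻¹ * x) =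
        (R (og h n j))⁻¹ * ((R pre)⁻¹ * x) := by group
    have h2 : ∀ w, s (Sum.inr j) ((R (og h n j))⁻¹ * w) = s (Sum.inr j) w := by
      intro w
      rw [← hsl, mul_inv_cancel_left]
    rw [cyc_orel, h0, cyc_zero, add_zero, hprod, cyc_mul, cyc_mul,
      hcl _ (fun k hk => (ne_of_lt hk)) pre hpre, hcl _ (fun k hk => (ne_of_gt hk)) suf hsuf,
      hsog, zero_add, add_zero, map_mul, map_mul, h1, h2, hsj, dc_mul, dc_mul, inv_inv, mul_one]
  let t := t₁ + s
  have htC : ∀ u x, ∀ c ∈ C, t u (x * c) = t u x := by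
    intro u x c hc
    show t₁ u (x * c) + s u (x * c) = t₁ u x + s u x
    rw [ht0 u x c hc, hsC u x c hc]
  have ht : ∀ x ∈ orels h n m, ∀ q, cyc R t x q = 0 := by
    intro x hx q
    rcases hx with rfl | ⟨k, rfl⟩
    · rw [cyc_add, ht1, hsorel, add_neg_cancel]
    · rw [cyc_add, ht2, zero_add, cyc_pow_sum]
      by_cases hk : k = j
      · subst hk
        have h1 : ∀ i ∈ Finset.range (m k), cyc R s (og h n k) (R (og h n k) ^ i * q) =
            s (Sum.inr k) q := by
          intro i _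
          rw [hsog, hsl2]
        rw [Finset.sum_congr rfl h1, Finset.sum_const, Finset.card_range, nsmul_eq_mul,
          ZMod.natCast_self, zero_mul]
      · apply Finset.sum_eq_zero
        intro i _
        rw [hsog, hs0 _ (fun h1 => hk (Sum.inr_injective h1))]
        rfl
  -- the homomorphism
  let F := fM (orels h n m) ρ' t ht C htC
  obtain ⟨uz, huz⟩ := QuotientGroup.mk_surjective z
  have huz' : PresentedGroup.mk _ uz = z := huz
  have hcard : Nat.card (Multiplicative (ZMod (m j))) = m j := Nat.card_zmod _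
  obtain ⟨hmem, hF⟩ := cker_hom (C.comap ρ') F (k := m j * (C.comap ρ').index)
    (by rw [hcard]) hz
  have hcmem : cone h n m j ∈ C.comap ρ' := hCj
  have hzmem' : z * cone h n m i ^ e * z⁻¹ ∈ C.comap ρ' := by
    have h1 := (C.comap ρ').mul_mem hmem hcmem
    rwa [inv_mul_cancel_right] at h1
  -- the conjugate of the generator
  have hzmem : z * cone h n m i * z⁻¹ ∈ C.comap ρ' := by
    have hx : (z * cone h n m i * z⁻¹) ^ m i = 1 := by
      have h1 : (PresentedGroup.mk (orels h n m)) (og h n i ^ m i) = 1 :=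
        PresentedGroup.one_of_mem (Or.inr ⟨i, rfl⟩)
      rw [map_pow] at h1
      have h2 : cone h n m i ^ m i = 1 := h1
      rw [conj_pow, h2, mul_one, mul_inv_cancel]
    have h1 : (z * cone h n m i * z⁻¹) ^ e ∈ C.comap ρ' := by
      rw [conj_pow]
      exact hzmem'
    have h2 : (z * cone h n m i * z⁻¹) ^ (m i) ∈ C.comap ρ' := by
      rw [hx]
      exact one_mem _
    have h3 := Nat.gcd_eq_gcd_ab e (m i)
    rw [he] at h3
    have h4 : z * cone h n m i * z⁻¹ = ((z * cone h n m i * z⁻¹) ^ e) ^ (Nat.gcdA e (m i)) *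
        ((z * cone h n m i * z⁻¹) ^ (m i)) ^ (Nat.gcdB e (m i)) := by
      rw [← zpow_natCast, ← zpow_natCast, ← zpow_mul, ← zpow_mul, ← zpow_add, ← h3]
      simp
    rw [h4]
    exact (C.comap ρ').mul_mem ((C.comap ρ').zpow_mem h1 _) ((C.comap ρ').zpow_mem h2 _)
  have h1 : F ⟨z * cone h n m i * z⁻¹, hzmem⟩ ^ e = F ⟨cone h n m j, hcmem⟩ := by
    have h2 : (⟨z * cone h n m i ^ e * z⁻¹ * (cone h n m j)⁻¹, hmem⟩ : C.comap ρ') =
        ⟨z * cone h n m i * z⁻¹, hzmem⟩ ^ e * ⟨cone h n m j, hcmem⟩⁻¹ := by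
      apply Subtype.ext
      show z * cone h n m i ^ e * z⁻¹ * (cone h n m j)⁻¹ =
        (z * cone h n m i * z⁻¹) ^ e * (cone h n m j)⁻¹
      rw [conj_pow]
    rw [h2, map_mul, map_inv, map_pow, mul_inv_eq_one] at hF
    exact hF
  have h2 : F ⟨cone h n m j, hcmem⟩ = Multiplicative.ofAdd (cyc R t (og h n j) 1) :=
    fM_mk (orels h n m) ρ' t ht C htC (og h n j) hcmem
  have hez : z * cone h n m i * z⁻¹ = PresentedGroup.mk _ (uz * og h n i * uz⁻¹) := by
    rw [map_mul, map_mul, map_inv, huz']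
    rfl
  have hm2 : PresentedGroup.mk (orels h n m) (uz * og h n i * uz⁻¹) ∈ C.comap ρ' := by
    rw [← hez]
    exact hzmem
  have h3 : F ⟨z * cone h n m i * z⁻¹, hzmem⟩ =
      Multiplicative.ofAdd (cyc R t (uz * og h n i * uz⁻¹) 1) := by
    rw [← fM_mk (orels h n m) ρ' t ht C htC _ hm2]
    exact congrArg F (Subtype.ext hez)
  have hRuz : R uz = q₀ := congrArg ρ' huz'
  have hmC : R (uz * og h n i * uz⁻¹) ∈ C := hm2
  have hmC2 : (q₀⁻¹)⁻¹ * R (og h n i) * q₀⁻¹ ∈ C := by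
    rw [map_mul, map_mul, map_inv, hRuz] at hmC
    rwa [inv_inv]
  have htv : ∀ k x, x⁻¹ * R (og h n k) * x ∈ C → cyc R t (og h n k) x = s (Sum.inr k) x := by
    intro k x hk
    have h4 : cyc R t₁ (og h n k) x = t₁ (Sum.inr k) x := cyc_of R t₁ _ x
    rw [cyc_add, hsog, h4, ht3 k x hk, zero_add]
  rw [h2, h3, cyc_conjC R t C htC _ _ hmC, hRuz, htv i _ hmC2,
    htv j 1 (by rw [inv_one, one_mul, mul_one]; exact hCj), hsj, ← ofAdd_nsmul] at h1
  have h4 := Multiplicative.ofAdd.injective h1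
  have : Nontrivial (ZMod (m j)) := ZMod.nontrivial_iff.2 (by omega)
  have h6 : dc (ZMod (m j)) C 1 1 - dc (ZMod (m j)) C y (1 : Q) = 1 := by
    unfold dc
    rw [if_pos (by rw [inv_one, one_mul]; exact C.one_mem),
      if_neg (by rw [inv_one, one_mul]; exact hy1), sub_zero]
  replace h4 := h4.trans h6
  by_cases hij : i = j
  · rw [hij, hsj] at h4
    unfold dc at h4
    have hyneg : ¬ ((q₀⁻¹)⁻¹ * y ∈ C) := by
      rw [inv_inv]
      exact hy2
    rw [if_neg hyneg, sub_zero] at h4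
    by_cases hq : q₀ ∈ C
    · rw [if_pos (by
        rw [inv_inv, mul_one]
        exact hq), nsmul_eq_mul, mul_one] at h4
      refine ⟨hij, ?_, hq⟩
      rw [← ZMod.natCast_eq_natCast_iff]
      rw [h4, Nat.cast_one]
    · rw [if_neg (by
        rw [inv_inv, mul_one]
        exact hq), smul_zero] at h4
      exact absurd h4 zero_ne_one
  · rw [hs0 _ (fun h7 => hij (Sum.inr_injective h7)), Pi.zero_apply, smul_zero] at h4
    exact absurd h4 zero_ne_one

end rot

end Pool.Agent.V8H21.MCG
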