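import Pool.Agent.V8H21.MCG.Rot

set_option autoImplicit false

/-!
# Elements commuting with a cone generator modulo a subgroup of finite index
-/

namespace Pool.Agent.V8H21.MCG

open Equiv

section gen

variable {G : Type} [Group G]

theorem exists_rot (x : G) (mj : ℕ) (hx : x ^ mj = 1) (N₁ : Subgroup G) [hN1 : N₁.Normal]
    [hN1f : N₁.FiniteIndex] (hP : ∀ k : ℕ, x ^ k ∈ N₁ → mj ∣ k) (l : ℕ) (hl : l.Prime)
    (hl3 : 3 ≤ l) (hlm : ¬ l ∣ mj) (f : N₁ →* Multiplicative (ZMod l))
    (hf : ∀ y : N₁, f ⟨x * y * x⁻¹, hN1.conj_mem y y.2 x⟩ = f y) (u : N₁) (hu : f u ≠ 1) :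
    ∃ N₂ : Subgroup G, N₂ ≤ N₁ ∧ N₂.Normal ∧ N₂.FiniteIndex ∧ ∃ v : G,
      v * x * v⁻¹ * x⁻¹ ∈ N₂ ∧ (∀ a : ℤ, v * x ^ a ∉ N₂) ∧ ∀ a : ℤ, v * v * x ^ a ∉ N₂ := by
  have hfact : Fact l.Prime := ⟨hl⟩
  let cs : ℕ → N₁ := fun s => ⟨x ^ s * u * (x ^ s)⁻¹, hN1.conj_mem u u.2 (x ^ s)⟩
  have hcs : ∀ s, f (cs s) = f u := by
    intro s
    induction s with
    | zero =>
      congr 1
      apply Subtype.ext
      show x ^ 0 * u * (x ^ 0)⁻¹ = u
      group
    | succ s ih =>
      rw [← ih, ← hf (cs s)]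
      congr 1
      apply Subtype.ext
      show x ^ (s + 1) * u * (x ^ (s + 1))⁻¹ = x * (x ^ s * u * (x ^ s)⁻¹) * x⁻¹
      rw [pow_succ', mul_inv_rev]
      group
  let v : N₁ := ((List.range mj).map cs).prod
  have hfv : f v = f u ^ mj := by
    show f ((List.range mj).map cs).prod = _
    rw [map_list_prod, List.map_map]
    have : (⇑f ∘ cs) = fun _ => f u := by
      funext s
      exact hcs s
    rw [this, List.map_const', List.prod_replicate, List.length_range]
  have hker0 : f.ker.index ≠ 0 := by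
    have h1 : f.ker.index = Nat.card f.range := Subgroup.index_ker f
    rw [h1]
    exact Nat.card_pos.ne'
  have hmf : (f.ker.map N₁.subtype).FiniteIndex := ⟨by
    have h1 : (f.ker.map N₁.subtype).index = f.ker.index * N₁.index :=
      Subgroup.index_map_subtype _
    rw [h1]
    exact mul_ne_zero hker0 hN1f.index_ne_zero⟩
  let N₂ := (f.ker.map N₁.subtype).normalCore
  have hN2n : N₂.Normal := inferInstance
  have hN2le : N₂ ≤ f.ker.map N₁.subtype := Subgroup.normalCore_le _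
  have hN21 : N₂ ≤ N₁ := by
    intro y hy
    obtain ⟨w, _, rfl⟩ := hN2le hy
    exact w.2
  have hfN2 : ∀ w : N₁, (w : G) ∈ N₂ → f w = 1 := by
    intro w hw
    obtain ⟨w', hw', he⟩ := hN2le hw
    have : w' = w := Subtype.ext he
    rw [← this]
    exact hw'
  have hab : ∀ a b : N₁, (a * b * a⁻¹ * b⁻¹ : G) ∈ N₂ := by
    intro a b g
    refine ⟨⟨g * a * g⁻¹, hN1.conj_mem a a.2 g⟩ * ⟨g * b * g⁻¹, hN1.conj_mem b b.2 g⟩ *
      (⟨g * a * g⁻¹, hN1.conj_mem a a.2 g⟩)⁻¹ * (⟨g * b * g⁻¹, hN1.conj_mem b b.2 g⟩)⁻¹, ?_, ?_⟩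
    · show f _ = 1
      rw [map_mul, map_mul, map_mul, map_inv, map_inv, mul_comm (f ⟨g * a * g⁻¹, _⟩),
        mul_inv_cancel_right, mul_inv_cancel]
    · show g * a * g⁻¹ * (g * b * g⁻¹) * (g * a * g⁻¹)⁻¹ * (g * b * g⁻¹)⁻¹ =
        g * ((a : G) * b * (a : G)⁻¹ * (b : G)⁻¹) * g⁻¹
      group
  -- the commutation
  have hshift : (u : G) * (x * v * x⁻¹) = v * u := by
    have h1 : cs 0 * ((List.range mj).map (fun s => cs (s + 1))).prod = v * cs mj := by
      have e1 : ((List.range (mj + 1)).map cs).prod = v * cs mj := by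
        rw [List.range_succ, List.map_append, List.prod_append, List.map_singleton,
          List.prod_singleton]
      have e2 : ((List.range (mj + 1)).map cs).prod =
          cs 0 * ((List.range mj).map (fun s => cs (s + 1))).prod := by
        rw [List.range_succ_eq_map, List.map_cons, List.prod_cons, List.map_map]
        rfl
      rw [← e2, e1]
    have h2 : (((List.range mj).map (fun s => cs (s + 1))).prod : G) = x * v * x⁻¹ := by
      have h3 : ∀ L : List ℕ, ((L.map (fun s => cs (s + 1))).prod : G) =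
          x * ((L.map cs).prod : N₁) * x⁻¹ := by
        intro L
        induction L with
        | nil => simp
        | cons s L ih =>
          rw [List.map_cons, List.prod_cons, List.map_cons, List.prod_cons, Subgroup.coe_mul,
            Subgroup.coe_mul, ih]
          have h4 : (cs (s + 1) : G) = x * cs s * x⁻¹ := by
            show x ^ (s + 1) * u * (x ^ (s + 1))⁻¹ = x * (x ^ s * u * (x ^ s)⁻¹) * x⁻¹
            rw [pow_succ', mul_inv_rev]
            group
          rw [h4]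
          group
      exact h3 _
    have h3 := congrArg (fun w : N₁ => (w : G)) h1
    have e0 : (cs 0 : G) = u := by
      show x ^ 0 * u * (x ^ 0)⁻¹ = u
      group
    have em : (cs mj : G) = u := by
      show x ^ mj * u * (x ^ mj)⁻¹ = u
      rw [hx]
      group
    simp only [Subgroup.coe_mul] at h3
    rw [h2, e0, em] at h3
    exact h3
  have hxv : x * v * x⁻¹ = (u : G)⁻¹ * v * u := by
    rw [mul_assoc (u : G)⁻¹, ← hshift, inv_mul_cancel_left]
  -- powers of `x`
  have hpowx : ∀ a : ℤ, x ^ a ∈ N₁ → x ^ a = 1 := by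
    intro a ha
    obtain ⟨k, rfl | rfl⟩ := a.eq_nat_or_neg
    · rw [zpow_natCast] at ha ⊢
      obtain ⟨c, rfl⟩ := hP k ha
      rw [pow_mul, hx, one_pow]
    · rw [zpow_neg, zpow_natCast] at ha ⊢
      obtain ⟨c, rfl⟩ := hP k (inv_mem_iff.1 ha)
      rw [pow_mul, hx, one_pow, inv_one]
  have hfu : (Multiplicative.toAdd (f u) : ZMod l) ≠ 0 := fun h1 => hu h1
  refine ⟨N₂, hN21, hN2n, inferInstance, v, ?_, ?_, ?_⟩
  · have h1 : (v : G) * x * (v : G)⁻¹ * x⁻¹ = v * (x * v * x⁻¹)⁻¹ := by group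
    have h2 : (v : G) * ((u : G)⁻¹ * v * u)⁻¹ = (v * ((u⁻¹ : N₁) : G) * (v : G)⁻¹ *
        ((u⁻¹ : N₁) : G)⁻¹) := by
      rw [Subgroup.coe_inv]
      group
    rw [h1, hxv, h2]
    exact hab v u⁻¹
  · intro a ha
    have h1 : x ^ a ∈ N₁ := by
      have h2 := N₁.mul_mem (N₁.inv_mem v.2) (hN21 ha)
      rwa [inv_mul_cancel_left] at h2
    rw [hpowx a h1, mul_one] at ha
    have h2 := hfN2 v ha
    rw [hfv] at h2
    have h3 : (mj : ZMod l) * Multiplicative.toAdd (f u) = 0 := by
      have := congrArg Multiplicative.toAdd h2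
      rw [toAdd_pow, toAdd_one, nsmul_eq_mul] at this
      exact this
    rcases mul_eq_zero.1 h3 with h4 | h4
    · exact hlm ((ZMod.natCast_eq_zero_iff _ _).1 h4)
    · exact hfu h4
  · intro a ha
    have h1 : x ^ a ∈ N₁ := by
      have h2 := N₁.mul_mem (N₁.inv_mem (N₁.mul_mem v.2 v.2)) (hN21 ha)
      rwa [inv_mul_cancel_left] at h2
    rw [hpowx a h1, mul_one] at ha
    have h2 := hfN2 (v * v) ha
    rw [map_mul, hfv] at h2
    have h3 : ((2 * mj : ℕ) : ZMod l) * Multiplicative.toAdd (f u) = 0 := by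
      have := congrArg Multiplicative.toAdd h2
      rw [toAdd_mul, toAdd_pow, toAdd_one, nsmul_eq_mul] at this
      push_cast
      linear_combination this
    rcases mul_eq_zero.1 h3 with h4 | h4
    · rcases (hl.dvd_mul).1 ((ZMod.natCast_eq_zero_iff _ _).1 h4) with h5 | h5
      · have := Nat.le_of_dvd (by norm_num) h5
        omega
      · exact hlm h5
    · exact hfu h4

end gen

end Pool.Agent.V8H21.MCG
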