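import Pool.Agent.V8H21.MCG.Rot2
import Pool.Agent.V8H21.MCG.Cnt3

set_option autoImplicit false

/-!
# The centralizer of a cone generator modulo a subgroup of finite index
-/

namespace Pool.Agent.V8H21.MCG

open Equiv

variable {h n : ℕ} {m : Fin n → ℕ}

theorem cent_bound (hm : ∀ j, m j ≠ 0)
    (hyp : (∑ j, (1 : ℚ) / (m j)) < ((2 * h + n : ℕ) : ℚ) - 2) (N : Subgroup (Orb h n m))
    [hN1 : N.Normal] [hN2 : N.FiniteIndex] (hP : ∀ j k, cone h n m j ^ k ∈ N → m j ∣ k)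
    (p : ℕ) (hp : p.Prime) (hpN : ¬ p ∣ N.index)
    (N₁ : Subgroup (Orb h n m)) [hN₁1 : N₁.Normal] [hN₁2 : N₁.FiniteIndex]
    (hN₁ : N₁ ≤ cker (Orb h n m) (p * N.index)) (j : Fin n) (a : ℕ) (ha : ¬ m j ∣ a) :
    p * Nat.card (Subgroup.centralizer {(QuotientGroup.mk' N₁) (cone h n m j ^ a)}) ≤
      Nat.card (Orb h n m ⧸ N₁) := by
  have hpz : NeZero p := ⟨hp.ne_zero⟩
  have hpf : Fact p.Prime := ⟨hp⟩
  have hQ : Finite (Orb h n m ⧸ N₁) := Subgroup.finite_quotient_of_finiteIndex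
  set c := cone h n m j ^ a with hc
  have hcN : c ∉ N := fun h1 => ha (hP j a h1)
  obtain ⟨i, l, hl, hi1, hi2⟩ := exists_prime_pow N c hcN
  obtain ⟨f, x, hf⟩ := exists_hom2 p hp N hpN hm hP hyp (c ^ i) hi1 hl hi2
  obtain ⟨u, hu⟩ : ∃ u : N, f ⟨c * u * c⁻¹, hN1.conj_mem u u.2 c⟩ ≠ f u := by
    by_contra hcon
    push Not at hcon
    apply hf
    have h1 : ∀ (k : ℕ) (x : N), f ⟨c ^ k * x * (c ^ k)⁻¹, hN1.conj_mem x x.2 (c ^ k)⟩ = f x := by
      intro k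
      induction k with
      | zero =>
        intro x
        congr 1
        apply Subtype.ext
        show c ^ 0 * (x : Orb h n m) * (c ^ 0)⁻¹ = x
        group
      | succ k ih =>
        intro x
        rw [← ih x, ← hcon ⟨c ^ k * x * (c ^ k)⁻¹, hN1.conj_mem x x.2 (c ^ k)⟩]
        congr 1
        apply Subtype.ext
        show c ^ (k + 1) * (x : Orb h n m) * (c ^ (k + 1))⁻¹ =
          c * (c ^ k * x * (c ^ k)⁻¹) * c⁻¹
        rw [pow_succ', mul_inv_rev]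
        group
    exact h1 i x
  let π := QuotientGroup.mk' N₁
  let cu : N := ⟨c * u * c⁻¹, hN1.conj_mem u u.2 c⟩
  have hδ : Multiplicative.toAdd (f u) - Multiplicative.toAdd (f cu) ≠ 0 := by
    intro h1
    exact hu (sub_eq_zero.1 h1).symm
  have key : ∀ t t' : ℕ, t < p → t' < p →
      π (u ^ t) * π c * (π (u ^ t))⁻¹ = π (u ^ t') * π c * (π (u ^ t'))⁻¹ → t = t' := by
    intro t t' ht ht' h1
    let W : N := u ^ t * (cu ^ t)⁻¹ * (u ^ t' * (cu ^ t')⁻¹)⁻¹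
    have hcu : ∀ s : ℕ, ((cu ^ s : N) : Orb h n m) = c * (u : Orb h n m) ^ s * c⁻¹ := by
      intro s
      rw [Subgroup.coe_pow]
      exact conj_pow
    have hW : (W : Orb h n m) ∈ N₁ := by
      apply (QuotientGroup.eq_one_iff _).1
      show π (W : Orb h n m) = 1
      have h2 : (W : Orb h n m) = (u : Orb h n m) ^ t * c * ((u : Orb h n m) ^ t)⁻¹ *
          ((u : Orb h n m) ^ t' * c * ((u : Orb h n m) ^ t')⁻¹)⁻¹ := by
        show ((u ^ t * (cu ^ t)⁻¹ * (u ^ t' * (cu ^ t')⁻¹)⁻¹ : N) : Orb h n m) = _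
        simp only [Subgroup.coe_mul, Subgroup.coe_inv, hcu, Subgroup.coe_pow]
        group
      rw [h2, map_mul, map_inv, mul_inv_eq_one]
      simp only [map_mul, map_inv]
      exact h1
    obtain ⟨hWN, hfW⟩ := cker_hom N f (k := p * N.index) (by
      have : Nat.card (Multiplicative (ZMod p)) = p := Nat.card_zmod _
      rw [this]) (hN₁ hW)
    have hfW' : f W = 1 := hfW
    have h3 : ((t : ZMod p) - t') * (Multiplicative.toAdd (f u) -
        Multiplicative.toAdd (f cu)) = 0 := by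
      have h4 := congrArg Multiplicative.toAdd hfW'
      have h5 : f W = f u ^ t * (f cu ^ t)⁻¹ * (f u ^ t' * (f cu ^ t')⁻¹)⁻¹ := by
        show f (u ^ t * (cu ^ t)⁻¹ * (u ^ t' * (cu ^ t')⁻¹)⁻¹) = _
        simp only [map_mul, map_inv, map_pow]
      rw [h5] at h4
      simp only [toAdd_mul, toAdd_inv, toAdd_pow, toAdd_one, nsmul_eq_mul] at h4
      linear_combination h4
    have h4 : (t : ZMod p) - t' = 0 := (mul_eq_zero.1 h3).resolve_right hδ
    have h5 : (t : ZMod p) = t' := sub_eq_zero.1 h4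
    have h6 := (ZMod.natCast_eq_natCast_iff' t t' p).1 h5
    rwa [Nat.mod_eq_of_lt ht, Nat.mod_eq_of_lt ht'] at h6
  have hcardF : p = Nat.card (Fin p) := by rw [Nat.card_eq_fintype_card, Fintype.card_fin]
  conv_lhs => rw [hcardF]
  rw [← Nat.card_prod]
  apply Nat.card_le_card_of_injective (fun w : Fin p × Subgroup.centralizer
    {(QuotientGroup.mk' N₁) c} => π (u ^ (w.1 : ℕ)) * (w.2 : Orb h n m ⧸ N₁))
  rintro ⟨t, g⟩ ⟨t', g'⟩ hw
  have hw' : π (u ^ (t : ℕ)) * (g : Orb h n m ⧸ N₁) = π (u ^ (t' : ℕ)) * g' := hw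
  have hg : (g : Orb h n m ⧸ N₁) * π c = π c * g := Subgroup.mem_centralizer_singleton_iff.1 g.2
  have hg' : (g' : Orb h n m ⧸ N₁) * π c = π c * g' :=
    Subgroup.mem_centralizer_singleton_iff.1 g'.2
  have h1 : (t : ℕ) = t' := by
    apply key _ _ t.2 t'.2
    have e1 : π (u ^ (t : ℕ)) * π c * (π (u ^ (t : ℕ)))⁻¹ =
        (π (u ^ (t : ℕ)) * g) * π c * (π (u ^ (t : ℕ)) * g)⁻¹ := by
      rw [mul_inv_rev, mul_assoc (π (u ^ (t : ℕ))) (g : Orb h n m ⧸ N₁), hg]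
      group
    have e2 : π (u ^ (t' : ℕ)) * π c * (π (u ^ (t' : ℕ)))⁻¹ =
        (π (u ^ (t' : ℕ)) * g') * π c * (π (u ^ (t' : ℕ)) * g')⁻¹ := by
      rw [mul_inv_rev, mul_assoc (π (u ^ (t' : ℕ))) (g' : Orb h n m ⧸ N₁), hg']
      group
    rw [e1, e2, hw']
  have h2 : t = t' := Fin.ext h1
  subst h2
  have h3 : g = g' := Subtype.ext (mul_left_cancel hw')
  rw [h3]

/-- The centralizer of a cone generator modulo a subgroup of finite index. -/
theorem rot_main (hm : ∀ j, 2 ≤ m j)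
    (hyp : (∑ j, (1 : ℚ) / (m j)) < ((2 * h + n : ℕ) : ℚ) - 2) (N : Subgroup (Orb h n m))
    [hN1 : N.Normal] [hN2 : N.FiniteIndex] (hP : ∀ j k, cone h n m j ^ k ∈ N → m j ∣ k)
    (j : Fin n) :
    ∃ k : ℕ, ∀ (i : Fin n) (e : ℕ) (z : Orb h n m), Nat.Coprime e (m i) →
      z * cone h n m i ^ e * z⁻¹ * (cone h n m j)⁻¹ ∈ cker (Orb h n m) k →
        i = j ∧ e ≡ 1 [MOD m j] ∧ ∃ a : ℤ, z * cone h n m j ^ a ∈ N := by
  have hm0 : ∀ j, m j ≠ 0 := fun j => by have := hm j; omega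
  have hfgO := orb_fg h n m
  -- the primes
  set ε : ℚ := (((2 * h + n : ℕ) : ℚ) - 2) - ∑ j, (1 : ℚ) / (m j) with hε
  have hεpos : 0 < ε := by rw [hε]; linarith
  set B : ℚ := (m j : ℚ) ^ 2 * (∑ k, (m k : ℚ)) with hB
  obtain ⟨p, hpge, hp⟩ := Nat.exists_infinite_primes (⌈B / ε⌉₊ + N.index + 1)
  obtain ⟨l, hlge, hl⟩ := Nat.exists_infinite_primes (m j + 3)
  have hpN : ¬ p ∣ N.index := by
    intro h1
    have := Nat.le_of_dvd (Nat.pos_of_ne_zero hN2.index_ne_zero) h1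
    omega
  have hlm : ¬ l ∣ m j := by
    intro h1
    have := Nat.le_of_dvd (Nat.pos_of_ne_zero (hm0 j)) h1
    omega
  have hpQ : B / ε < p := by
    have h1 : B / ε ≤ ⌈B / ε⌉₊ := Nat.le_ceil _
    have h2 : ((⌈B / ε⌉₊ + N.index + 1 : ℕ) : ℚ) ≤ p := by exact_mod_cast hpge
    push_cast at h2
    have h3 : (0 : ℚ) ≤ N.index := Nat.cast_nonneg _
    linarith
  have hppos : (0 : ℚ) < p := by exact_mod_cast hp.pos
  have hyp2 : (∑ k, (1 : ℚ) / (m k)) + (m j : ℚ) ^ 2 * (∑ k, (m k : ℚ)) / p <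
      ((2 * h + n : ℕ) : ℚ) - 2 := by
    rw [← hB]
    have h1 : B / p < ε := by
      rw [div_lt_iff₀ hppos]
      rw [div_lt_iff₀ hεpos] at hpQ
      linarith
    rw [hε] at h1
    linarith
  let N₁ := cker (Orb h n m) (p * N.index)
  have hN₁1 : N₁.Normal := inferInstance
  have hN₁2 : N₁.FiniteIndex := inferInstance
  have hN₁N : N₁ ≤ N := cker_le _ hN2.index_ne_zero (Nat.le_mul_of_pos_left _ hp.pos)
  obtain ⟨f, u, hf, hu⟩ := exists_inv_hom hm0 j N₁ (fun j k hjk => hP j k (hN₁N hjk)) p hp.pos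
    (fun a ha => cent_bound hm0 hyp N hP p hp hpN N₁ le_rfl j a ha) hyp2 l hl hlm
  have hx : cone h n m j ^ m j = 1 := by
    have h1 : (PresentedGroup.mk (orels h n m)) (og h n j ^ m j) = 1 :=
      PresentedGroup.one_of_mem (Or.inr ⟨j, rfl⟩)
    rw [map_pow] at h1
    exact h1
  obtain ⟨N₂, hle, hN₂1, hN₂2, v, hv0, hv1, hv2⟩ := exists_rot (cone h n m j) (m j) hx N₁
    (fun k hk => hP j k (hN₁N hk)) l hl (by omega) hlm f hf u hu
  have hzp : ∀ y : Orb h n m, (∀ a : ℤ, y * cone h n m j ^ a ∉ N₂) →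
      (QuotientGroup.mk' N₂) y ∉ Subgroup.zpowers ((QuotientGroup.mk' N₂) (cone h n m j)) := by
    intro y hy h1
    obtain ⟨a, ha⟩ := Subgroup.mem_zpowers_iff.1 h1
    apply hy (-a)
    apply (QuotientGroup.eq_one_iff _).1
    show (QuotientGroup.mk' N₂) (y * cone h n m j ^ (-a)) = 1
    rw [map_mul, ← ha, map_zpow, zpow_neg, mul_inv_cancel]
  obtain ⟨k, hk⟩ := sep_rot j (hm j) N₂ v (by
      have h1 : (QuotientGroup.mk' N₂) (v * cone h n m j * v⁻¹ * (cone h n m j)⁻¹) = 1 :=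
        (QuotientGroup.eq_one_iff _).2 hv0
      rw [map_mul, map_inv _ (cone h n m j), mul_inv_eq_one, map_mul, map_mul, map_inv,
        mul_inv_eq_iff_eq_mul] at h1
      exact h1) (hzp v hv1) (by rw [← map_mul]; exact hzp (v * v) hv2)
  refine ⟨k, fun i e z he hz => ?_⟩
  obtain ⟨hij, he1, h1⟩ := hk i e z he hz
  refine ⟨hij, he1, ?_⟩
  obtain ⟨a, ha⟩ := Subgroup.mem_zpowers_iff.1 h1
  refine ⟨-a, hN₁N (hle ?_)⟩
  apply (QuotientGroup.eq_one_iff _).1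
  show (QuotientGroup.mk' N₂) (z * cone h n m j ^ (-a)) = 1
  rw [map_mul, ← ha, map_zpow, zpow_neg, mul_inv_cancel]

/-- The pointed mapping classes. -/
theorem pointed5 {g' : ℕ} (ι : SurfaceGroup g' →* Orb h n m) (hm : ∀ j, 2 ≤ m j)
    (hyp : (∑ j, (1 : ℚ) / (m j)) < ((2 * h + n : ℕ) : ℚ) - 2)
    (hf : ι.range.FiniteIndex) (hc : ∀ j k, cone h n m j ^ k ∈ ι.range → m j ∣ k)
    (N : Subgroup (Orb h n m)) [hN1 : N.Normal] [hN2 : N.FiniteIndex] (j : Fin n) :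
    ∃ K : Subgroup (SurfaceGroup g'), K.Characteristic ∧ K.FiniteIndex ∧
      ∀ (φ : MulAut (Orb h n m)) (φ' : MulAut (SurfaceGroup g')), (∀ a, φ (ι a) = ι (φ' a)) →
        (∃ z, ∀ a, φ' a * (z * a * z⁻¹)⁻¹ ∈ K) →
          ∀ i e w, Nat.Coprime e (m i) → φ (cone h n m j) = w * cone h n m i ^ e * w⁻¹ →
            i = j ∧ e ≡ 1 [MOD m j] ∧
            ∃ a : ℤ, ∀ y, φ y * (w * cone h n m j ^ a * y * (w * cone h n m j ^ a)⁻¹)⁻¹ ∈ N := by
  have hm0 : ∀ j, m j ≠ 0 := fun j => by have := hm j; omega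
  have hfgO := orb_fg h n m
  obtain ⟨k, hk⟩ := rot_main hm hyp (N ⊓ ι.range.normalCore)
    (fun j k hjk => hc j k (ι.range.normalCore_le hjk.2)) j
  have hLf : (N ⊓ cker (Orb h n m) k).FiniteIndex := inferInstance
  obtain ⟨K, hK1, hK2, hK⟩ := topology3 ι hm0 hyp hf hc (N ⊓ cker (Orb h n m) k)
    inferInstance inferInstance
  refine ⟨K, hK1, hK2, ?_⟩
  rintro φ φ' hφ ⟨z, hz⟩ i e w he hw
  have h1 := hK φ φ' hφ z hz
  obtain ⟨hij, he1, a, ha⟩ : i = j ∧ e ≡ 1 [MOD m j] ∧ ∃ a : ℤ,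
      (ι z)⁻¹ * w * cone h n m j ^ a ∈ N ⊓ ι.range.normalCore := by
    apply hk _ _ _ he
    have h3 := h1 (cone h n m j)
    rw [hw] at h3
    have h4 : w * cone h n m i ^ e * w⁻¹ * (ι z * cone h n m j * (ι z)⁻¹)⁻¹ ∈
        cker (Orb h n m) k := h3.2
    have h5 := (inferInstance : (cker (Orb h n m) k).Normal).conj_mem _ h4 (ι z)⁻¹
    have h6 : (ι z)⁻¹ * (w * cone h n m i ^ e * w⁻¹ * (ι z * cone h n m j * (ι z)⁻¹)⁻¹) *
        (ι z)⁻¹⁻¹ =
        (ι z)⁻¹ * w * cone h n m i ^ e * ((ι z)⁻¹ * w)⁻¹ * (cone h n m j)⁻¹ := by group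
    rwa [h6] at h5
  refine ⟨hij, he1, a, fun y => ?_⟩
  have h3 : φ y * (ι z * y * (ι z)⁻¹)⁻¹ ∈ N := (h1 y).1
  let π := QuotientGroup.mk' N
  have e1 : π (w * cone h n m j ^ a) = π (ι z) := by
    have : π ((ι z)⁻¹ * w * cone h n m j ^ a) = 1 := (QuotientGroup.eq_one_iff _).2 ha.1
    rw [mul_assoc, map_mul, map_inv, inv_mul_eq_one] at this
    exact this.symm
  have e2 : π (φ y) = π (ι z) * π y * (π (ι z))⁻¹ := by
    have : π (φ y * (ι z * y * (ι z)⁻¹)⁻¹) = 1 := (QuotientGroup.eq_one_iff _).2 h3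
    rw [map_mul, map_inv, mul_inv_eq_one] at this
    rw [this]
    simp only [map_mul, map_inv]
  apply (QuotientGroup.eq_one_iff _).1
  show π _ = 1
  rw [map_mul, map_inv, map_mul, map_inv, map_mul, e1, e2, mul_inv_cancel]

end Pool.Agent.V8H21.MCG
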