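import Pool.Agent.V8H21.MCG.Cnt

set_option autoImplicit false

/-!
# Finite quotients of orbifold groups act faithfully on the homology of the kernel
-/

namespace Pool.Agent.V8H21.MCG

open Equiv

section count

variable {Q : Type} [Group Q] [Finite Q] (p : ℕ) [NeZero p] {h n : ℕ}
  (R : FreeGroup (OGen h n) →* Q) (m : Fin n → ℕ)

/-- the labels with vanishing sums along the relators -/
def zsub : AddSubgroup (OGen h n → Q → ZMod p) where
  carrier := {t | (∀ x, cyc R t (orel h n) x = 0) ∧ ∀ j x, cyc R t (og h n j ^ m j) x = 0}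
  zero_mem' := ⟨fun x => cyc_zero R _ x, fun j x => cyc_zero R _ x⟩
  add_mem' := by
    rintro t t' ⟨h1, h2⟩ ⟨h1', h2'⟩
    exact ⟨fun x => by rw [cyc_add, h1, h1', add_zero],
      fun j x => by rw [cyc_add, h2, h2', add_zero]⟩
  neg_mem' := by
    rintro t ⟨h1, h2⟩
    exact ⟨fun x => by rw [cyc_neg, h1, neg_zero], fun j x => by rw [cyc_neg, h2, neg_zero]⟩

theorem lower2 (hp : p.Prime) (hm : ∀ j, R (og h n j) ^ m j = 1) (hpm : ∀ j, ¬ p ∣ m j) :
    p ^ (Nat.card (OGen h n) * Nat.card Q) ≤ Nat.card (zsub p R m) *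
      p ^ (Nat.card Q - 1 + ∑ j, Nat.card (Q ⧸ Subgroup.zpowers (R (og h n j)))) := by
  classical
  have hfact : Fact p.Prime := ⟨hp⟩
  have hQf : Fintype Q := Fintype.ofFinite Q
  let C := ({x : Q // x ≠ 1} → ZMod p) ×
    (∀ j : Fin n, (Q ⧸ Subgroup.zpowers (R (og h n j))) → ZMod p)
  let c : (OGen h n → Q → ZMod p) →+ C :=
    AddMonoidHom.mk' (fun t => (fun x => cyc R t (orel h n) x.1,
      fun j x => cyc R t (og h n j ^ m j) (x.out)⁻¹)) (by
      intro t t'
      apply Prod.ext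
      · funext x
        exact cyc_add R t t' _ _
      · funext j x
        exact cyc_add R t t' _ _)
  have h1 := card_range_le c c (fun a a' h => h)
  have e1 : Nat.card (OGen h n → Q → ZMod p) = p ^ (Nat.card (OGen h n) * Nat.card Q) := by
    rw [Nat.card_fun, Nat.card_fun, Nat.card_zmod, ← pow_mul, mul_comm]
  have e2 : Nat.card C =
      p ^ (Nat.card Q - 1 + ∑ j, Nat.card (Q ⧸ Subgroup.zpowers (R (og h n j)))) := by
    have a1 : Nat.card ({x : Q // x ≠ 1} → ZMod p) = p ^ (Nat.card Q - 1) := by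
      rw [Nat.card_fun, Nat.card_zmod]
      congr 1
      rw [Nat.card_eq_fintype_card, Nat.card_eq_fintype_card, Fintype.card_subtype_compl,
        Fintype.card_subtype_eq]
    have a2 : Nat.card (∀ j : Fin n, (Q ⧸ Subgroup.zpowers (R (og h n j))) → ZMod p) =
        p ^ (∑ j, Nat.card (Q ⧸ Subgroup.zpowers (R (og h n j)))) := by
      rw [Nat.card_pi, ← Finset.prod_pow_eq_pow_sum]
      apply Finset.prod_congr rfl
      intro j _
      rw [Nat.card_fun, Nat.card_zmod]
    rw [Nat.card_prod, a1, a2, pow_add]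
  rw [e1, e2] at h1
  refine h1.trans (Nat.mul_le_mul_right _ ?_)
  have hinv : ∀ (t : OGen h n → Q → ZMod p) j (x : Q), ∀ g ∈ Subgroup.zpowers (R (og h n j)),
      cyc R t (og h n j ^ m j) (g * x) = cyc R t (og h n j ^ m j) x := by
    intro t j x g hg
    have h1 := hm j
    obtain ⟨k, rfl⟩ := Subgroup.mem_zpowers_iff.1 hg
    induction k with
    | zero => simp
    | succ k ih =>
      rw [add_comm (k : ℤ) 1, zpow_one_add, mul_assoc, cyc_pow_inv R t _ _ h1,
        ih (Subgroup.zpow_mem_zpowers _ _)]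
    | pred k ih =>
      rw [← cyc_pow_inv R t _ _ h1, ← mul_assoc, ← zpow_one_add]
      have h2 : (1 : ℤ) + (-(k : ℤ) - 1) = -(k : ℤ) := by ring
      rw [h2]
      exact ih (Subgroup.zpow_mem_zpowers _ _)
  have hle : ∀ t ∈ c.ker, t ∈ zsub p R m := by
    intro t ht
    have ht' : c t = 0 := ht
    have h2 : ∀ x, x ≠ 1 → cyc R t (orel h n) x = 0 := fun x hx =>
      congrFun (congrArg Prod.fst ht') ⟨x, hx⟩
    have h3 : ∀ j x, cyc R t (og h n j ^ m j) x = 0 := by
      intro j x
      have h3 : ∃ g ∈ Subgroup.zpowers (R (og h n j)),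
          (QuotientGroup.mk x⁻¹ : Q ⧸ Subgroup.zpowers (R (og h n j))).out = x⁻¹ * g := by
        refine ⟨x * (QuotientGroup.mk x⁻¹ : Q ⧸ Subgroup.zpowers (R (og h n j))).out, ?_, by
          rw [inv_mul_cancel_left]⟩
        have h4 : (QuotientGroup.mk x⁻¹ : Q ⧸ Subgroup.zpowers (R (og h n j))) =
            QuotientGroup.mk (QuotientGroup.mk x⁻¹ : Q ⧸ Subgroup.zpowers (R (og h n j))).out := by
          rw [QuotientGroup.out_eq']
        rw [QuotientGroup.eq, inv_inv] at h4
        exact h4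
      obtain ⟨g, hg, hxg⟩ := h3
      have h5 : cyc R t (og h n j ^ m j)
          ((QuotientGroup.mk x⁻¹ : Q ⧸ Subgroup.zpowers (R (og h n j))).out)⁻¹ = 0 :=
        congrFun (congrFun (congrArg Prod.snd ht') j)
          (QuotientGroup.mk x⁻¹ : Q ⧸ Subgroup.zpowers (R (og h n j)))
      rw [hxg, mul_inv_rev, inv_inv, hinv t j x _ (Subgroup.inv_mem _ hg)] at h5
      exact h5
    have h4 : ∀ j, tot R t (og h n j) = 1 := by
      intro j
      have h5 : tot R t (og h n j ^ m j) = 1 := by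
        show Multiplicative.ofAdd (∑ x, cyc R t (og h n j ^ m j) x) = 1
        rw [Finset.sum_eq_zero (fun x _ => h3 j x)]
        rfl
      rw [map_pow] at h5
      have h6 : (m j) • (Multiplicative.toAdd (tot R t (og h n j))) = 0 := h5
      rw [nsmul_eq_mul] at h6
      have h7 : ((m j : ℕ) : ZMod p) ≠ 0 := by
        rw [Ne, ZMod.natCast_eq_zero_iff]
        exact hpm j
      exact (mul_eq_zero.1 h6).resolve_left h7
    have h5 : tot R t (orel h n) = 1 := by
      unfold orel
      rw [map_mul, map_inv]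
      have h6 : tot R t (List.ofFn (og h n)).prod = 1 := by
        rw [map_list_prod]
        apply List.prod_eq_one
        intro y hy
        rw [List.mem_map] at hy
        obtain ⟨z, hz, rfl⟩ := hy
        rw [List.mem_ofFn] at hz
        obtain ⟨k, rfl⟩ := hz
        exact h4 k
      have h7 : tot R t (FreeGroup.map Sum.inl (rel h)) = 1 := by
        show ((tot R t).comp (FreeGroup.map Sum.inl)) (rel h) = 1
        unfold rel
        rw [map_list_prod]
        apply List.prod_eq_one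
        intro y hy
        rw [List.mem_map] at hy
        obtain ⟨z, hz, rfl⟩ := hy
        rw [List.mem_ofFn] at hz
        obtain ⟨k, rfl⟩ := hz
        exact cm_comm _ k
      rw [h6, h7, inv_one, mul_one]
    have h6 : cyc R t (orel h n) 1 = 0 := by
      have h7 : ∑ x, cyc R t (orel h n) x = 0 := h5
      rw [Finset.sum_eq_single (1 : Q) (fun x _ hx => h2 x hx)
        (fun h8 => absurd (Finset.mem_univ _) h8)] at h7
      exact h7
    refine ⟨fun x => ?_, h3⟩
    by_cases hx : x = 1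
    · rw [hx, h6]
    · exact h2 x hx
  apply Nat.card_le_card_of_injective (fun t : c.ker => (⟨t.1, hle t.1 t.2⟩ : zsub p R m))
  intro t t' htt
  apply Subtype.ext
  have h3 := congrArg (fun u => u.1) htt
  exact h3

theorem rank2 (hp : p.Prime) (hpm : ∀ j, ¬ p ∣ m j) (C : Subgroup Q) :
    Nat.card (zsub p R m ⊓ lsub p (OGen h n) C : AddSubgroup _) *
      (Nat.card (rsub (ZMod p) R m C) *
        ∏ j, Nat.card (invB p (Subgroup.zpowers (R (og h n j))) C)) ≤
    Nat.card (lsub p (OGen h n) C) := by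
  classical
  have hfact : Fact p.Prime := ⟨hp⟩
  let Φ : lsub p (OGen h n) C →+ ((Q → ZMod p) × (Fin n → Q → ZMod p)) :=
    AddMonoidHom.mk' (fun t => (fun x => cyc R t.1 (orel h n) x,
      fun j x => cyc R t.1 (og h n j ^ m j) x)) (by
      intro t t'
      apply Prod.ext
      · funext x
        exact cyc_add R t.1 t'.1 _ _
      · funext j x
        exact cyc_add R t.1 t'.1 _ _)
  have h1 : Nat.card (lsub p (OGen h n) C) = Nat.card (lsub p (OGen h n) C ⧸ Φ.ker) *
      Nat.card Φ.ker := AddSubgroup.card_eq_card_quotient_mul_card_addSubgroup _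
  have h2 : Nat.card (lsub p (OGen h n) C ⧸ Φ.ker) = Nat.card Φ.range :=
    Nat.card_congr (QuotientAddGroup.quotientKerEquivRange Φ).toEquiv
  rw [h1, h2]
  have hker : Nat.card (zsub p R m ⊓ lsub p (OGen h n) C : AddSubgroup _) ≤ Nat.card Φ.ker := by
    apply Nat.card_le_card_of_injective
      (fun t : (zsub p R m ⊓ lsub p (OGen h n) C : AddSubgroup _) =>
        (⟨⟨t.1, t.2.2⟩, by
          show Φ _ = 0
          apply Prod.ext
          · funext x
            exact t.2.1.1 x
          · funext j x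
            exact t.2.1.2 j x⟩ : Φ.ker))
    intro t t' htt
    apply Subtype.ext
    have h3 := congrArg (fun u => u.1.1) htt
    exact h3
  have hran : Nat.card (rsub (ZMod p) R m C) *
      ∏ j, Nat.card (invB p (Subgroup.zpowers (R (og h n j))) C) ≤ Nat.card Φ.range := by
    rw [← Nat.card_pi, ← Nat.card_prod]
    have hch : ∀ f : rsub (ZMod p) R m C, ∃ t, GoodL R m C t ∧
        ∀ x, cyc R t (orel h n) x = f.1 x := fun f => f.2
    choose T hT1 hT2 using hch
    let G : (∀ j, invB p (Subgroup.zpowers (R (og h n j))) C) → OGen h n → Q → ZMod p :=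
      fun g => Sum.elim (fun _ => 0) (fun j x => ((m j : ℕ) : ZMod p)⁻¹ * (g j).1 x)
    have hG : ∀ g, G g ∈ lsub p (OGen h n) C := by
      intro g u x c hc
      cases u with
      | inl u => rfl
      | inr j =>
        show ((m j : ℕ) : ZMod p)⁻¹ * (g j).1 (x * c) = ((m j : ℕ) : ZMod p)⁻¹ * (g j).1 x
        rw [(g j).2.1 x c hc]
    have hGc : ∀ g j x, cyc R (G g) (og h n j ^ m j) x = (g j).1 x := by
      intro g j x
      rw [cyc_pow_sum]
      have h3 : ∀ i ∈ Finset.range (m j), cyc R (G g) (og h n j) (R (og h n j) ^ i * x) =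
          ((m j : ℕ) : ZMod p)⁻¹ * (g j).1 x := by
        intro i _
        have h4 : cyc R (G g) (og h n j) (R (og h n j) ^ i * x) =
          G g (Sum.inr j) (R (og h n j) ^ i * x) := cyc_of R _ _ _
        rw [h4]
        show ((m j : ℕ) : ZMod p)⁻¹ * (g j).1 (R (og h n j) ^ i * x) = _
        rw [(g j).2.2 x _ (Subgroup.npow_mem_zpowers _ _)]
      rw [Finset.sum_congr rfl h3, Finset.sum_const, Finset.card_range, nsmul_eq_mul, ← mul_assoc]
      have h7 : ((m j : ℕ) : ZMod p) ≠ 0 := by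
        rw [Ne, ZMod.natCast_eq_zero_iff]
        exact hpm j
      rw [mul_inv_cancel₀ h7, one_mul]
    apply Nat.card_le_card_of_injective
      (fun u : rsub (ZMod p) R m C × (∀ j, invB p (Subgroup.zpowers (R (og h n j))) C) =>
        (⟨Φ ⟨T u.1 + G u.2, AddSubgroup.add_mem _ (hT1 u.1).1 (hG u.2)⟩, ⟨_, rfl⟩⟩ : Φ.range))
    rintro ⟨f, g⟩ ⟨f', g'⟩ hfg
    have h3 := congrArg Subtype.val hfg
    have h4 : ∀ j x, cyc R (T f + G g) (og h n j ^ m j) x =
        cyc R (T f' + G g') (og h n j ^ m j) x := fun j x =>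
      congrFun (congrFun (congrArg Prod.snd h3) j) x
    have h5 : ∀ x, cyc R (T f + G g) (orel h n) x = cyc R (T f' + G g') (orel h n) x := fun x =>
      congrFun (congrArg Prod.fst h3) x
    have h6 : g = g' := by
      funext j
      apply Subtype.ext
      funext x
      have h7 := h4 j x
      rw [cyc_add, cyc_add, (hT1 f).2, (hT1 f').2, zero_add, zero_add, hGc, hGc] at h7
      exact h7
    subst h6
    have h7 : f = f' := by
      apply Subtype.ext
      funext x
      have h8 := h5 x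
      rw [cyc_add, cyc_add, hT2, hT2] at h8
      exact add_right_cancel h8
    rw [h7]
  calc _ ≤ Nat.card Φ.ker * Nat.card Φ.range := Nat.mul_le_mul hker hran
    _ = _ := mul_comm _ _

end count

/-- the final comparison -/
theorem compare {n : ℕ} (p : ℕ) (hp : 2 ≤ p) (d a X l Z Zq W L rs PB : ℕ) (nj ω m : Fin n → ℕ)
    (ha : 0 < a) (hl : 2 ≤ l) (haX : a = X * l) (hm : ∀ j, m j ≠ 0)
    (hnj : ∀ j, a = nj j * m j) (hω : ∀ j, a ≤ ω j * (m j * l))
    (hyp : (∑ j, (1 : ℚ) / (m j)) < d - 2)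
    (I1 : p ^ (d * a) ≤ Z * p ^ (a - 1 + ∑ j, nj j)) (I2 : Z ≤ Zq * W)
    (I3 : W * p ^ X ≤ p ^ a) (I4 : Zq * (rs * PB) ≤ L) (I4' : L ≤ p ^ (d * X))
    (I5 : p ^ X ≤ p * rs) (I6 : p ^ (∑ j, ω j) ≤ PB) : False := by
  have h1 : p ^ (d * a + 2 * X + ∑ j, ω j) ≤ p ^ (d * X + 2 * a + ∑ j, nj j) := by
    have ha1 : a - 1 + ∑ j, nj j + 1 = a + ∑ j, nj j := by omega
    calc p ^ (d * a + 2 * X + ∑ j, ω j)
        = p ^ (d * a) * p ^ X * p ^ X * p ^ (∑ j, ω j) := by ring
      _ ≤ (Z * p ^ (a - 1 + ∑ j, nj j)) * p ^ X * (p * rs) * PB :=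
          Nat.mul_le_mul (Nat.mul_le_mul (Nat.mul_le_mul_right _ I1) I5) I6
      _ = Z * (p ^ (a - 1 + ∑ j, nj j + 1) * p ^ X * (rs * PB)) := by ring
      _ ≤ (Zq * W) * (p ^ (a - 1 + ∑ j, nj j + 1) * p ^ X * (rs * PB)) :=
          Nat.mul_le_mul_right _ I2
      _ = (Zq * (rs * PB)) * (W * p ^ X) * p ^ (a + ∑ j, nj j) := by rw [ha1]; ring
      _ ≤ p ^ (d * X) * p ^ a * p ^ (a + ∑ j, nj j) :=
          Nat.mul_le_mul_right _ (Nat.mul_le_mul (I4.trans I4') I3)
      _ = _ := by ring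
  have h2 := (Nat.pow_le_pow_iff_right (by omega : 1 < p)).1 h1
  have h3 : (d : ℚ) * a + 2 * X + ∑ j, (ω j : ℚ) ≤ d * X + 2 * a + ∑ j, (nj j : ℚ) := by
    exact_mod_cast h2
  have hA : (0 : ℚ) < a := by exact_mod_cast ha
  have hL : (2 : ℚ) ≤ l := by exact_mod_cast hl
  have hAX : (a : ℚ) = X * l := by exact_mod_cast haX
  have hmj : ∀ j, (0 : ℚ) < m j := fun j => by
    have := Nat.pos_of_ne_zero (hm j)
    exact_mod_cast this
  have h4 : ∑ j, (nj j : ℚ) = a * ∑ j, (1 : ℚ) / m j := by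
    rw [Finset.mul_sum]
    apply Finset.sum_congr rfl
    intro j _
    have h5 : (a : ℚ) = nj j * m j := by exact_mod_cast hnj j
    rw [h5]
    have := (hmj j).ne'
    field_simp
  have h5 : (a : ℚ) * (∑ j, (1 : ℚ) / m j) ≤ l * ∑ j, (ω j : ℚ) := by
    rw [Finset.mul_sum, Finset.mul_sum]
    apply Finset.sum_le_sum
    intro j _
    have h6 : (a : ℚ) ≤ ω j * (m j * l) := by exact_mod_cast hω j
    rw [mul_one_div, div_le_iff₀ (hmj j)]
    linarith
  rw [h4] at h3
  generalize (∑ j, (1 : ℚ) / m j) = S at *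
  generalize (∑ j, (ω j : ℚ)) = T at *
  have h7 : (l : ℚ) * ((d : ℚ) * a + 2 * X + T) ≤ l * (d * X + 2 * a + a * S) :=
    mul_le_mul_of_nonneg_left h3 (by linarith)
  have h8 : (d : ℚ) * a * (l - 1) ≤ a * (l - 1) * (2 + S) := by
    have e1 : (l : ℚ) * X = a := by rw [hAX, mul_comm]
    have e2 : (l : ℚ) * ((d : ℚ) * a + 2 * X + T) = l * d * a + 2 * (l * X) + l * T := by ring
    have e3 : (l : ℚ) * (d * X + 2 * a + a * S) = d * (l * X) + 2 * l * a + l * a * S := by ring
    rw [e2, e3, e1] at h7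
    linarith
  have h9 : (0 : ℚ) < a * (l - 1) := mul_pos hA (by linarith)
  have h10 : (d : ℚ) * (a * (l - 1)) ≤ (2 + S) * (a * (l - 1)) := by linarith
  have h11 := le_of_mul_le_mul_right h10 h9
  linarith

section main

variable {h n : ℕ} {m : Fin n → ℕ}

theorem exists_hom2 (p : ℕ) (hp : p.Prime) (N : Subgroup (Orb h n m)) [hN : N.Normal]
    [N.FiniteIndex] (hpQ : ¬ p ∣ N.index) (hm2 : ∀ j, m j ≠ 0)
    (hord : ∀ j k, cone h n m j ^ k ∈ N → m j ∣ k)
    (hyp : (∑ j, (1 : ℚ) / (m j)) < ((2 * h + n : ℕ) : ℚ) - 2) (y : Orb h n m) (hy : y ∉ N)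
    {l : ℕ} (hl : l.Prime) (hyl : y ^ l ∈ N) :
    ∃ (f : N →* Multiplicative (ZMod p)) (x : N),
      f ⟨y * x * y⁻¹, hN.conj_mem x x.2 y⟩ ≠ f x := by
  classical
  by_contra hcon
  push Not at hcon
  have hpz : NeZero p := ⟨hp.ne_zero⟩
  have hlf : Fact l.Prime := ⟨hl⟩
  let Q := Orb h n m ⧸ N
  have hQ : Finite Q := Subgroup.finite_quotient_of_finiteIndex
  let ρ' : Orb h n m →* Q := QuotientGroup.mk' N
  let R : FreeGroup (OGen h n) →* Q := ρ'.comp (PresentedGroup.mk (orels h n m))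
  have hR : Function.Surjective R :=
    (QuotientGroup.mk'_surjective N).comp (QuotientGroup.mk_surjective)
  have hker : ∀ g, ρ' g = 1 ↔ g ∈ N := fun g => QuotientGroup.eq_one_iff g
  have hkerN : ρ'.ker = N := QuotientGroup.ker_mk' N
  obtain ⟨uy, huy⟩ := QuotientGroup.mk_surjective y
  have huy' : PresentedGroup.mk (orels h n m) uy = y := huy
  let q : Q := (R uy)⁻¹
  have hRuy : R uy = ρ' y := congrArg ρ' huy'
  have hq : q ≠ 1 := by
    intro h1
    apply hy
    rw [← hker, ← hRuy]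
    exact inv_eq_one.1 h1
  have hql : q ^ l = 1 := by
    show (R uy)⁻¹ ^ l = 1
    rw [inv_pow, hRuy, ← map_pow, (hker _).2 hyl, inv_one]
  have hoq : orderOf q = l := orderOf_eq_prime hql hq
  have hcq : Nat.card (Subgroup.zpowers q) = l := by rw [Nat.card_zpowers, hoq]
  have hindex : N.index = Nat.card Q := rfl
  have hlQ : l ∣ Nat.card Q := by
    rw [← hcq]
    exact Subgroup.card_subgroup_dvd_card _
  have hpl : ¬ p ∣ l := fun h1 => hpQ (h1.trans hlQ)
  have hrel1 : ∀ x ∈ orels h n m, R x = 1 := by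
    intro x hx
    show ρ' (PresentedGroup.mk (orels h n m) x) = 1
    rw [PresentedGroup.one_of_mem hx, map_one]
  have hmR : ∀ j, R (og h n j) ^ m j = 1 := by
    intro j
    rw [← map_pow]
    exact hrel1 _ (Or.inr ⟨j, rfl⟩)
  have hordR : ∀ j, orderOf (R (og h n j)) = m j := by
    intro j
    apply Nat.dvd_antisymm
    · exact orderOf_dvd_of_pow_eq_one (hmR j)
    · apply hord
      rw [← hker, map_pow]
      exact pow_orderOf_eq_one (R (og h n j))
  have hcj : ∀ j, Nat.card (Subgroup.zpowers (R (og h n j))) = m j := by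
    intro j
    rw [Nat.card_zpowers, hordR]
  have hpm : ∀ j, ¬ p ∣ m j := by
    intro j h1
    apply hpQ
    rw [hindex]
    refine h1.trans ?_
    rw [← hcj j]
    exact Subgroup.card_subgroup_dvd_card _
  -- invariance
  have hZ : ∀ t ∈ zsub p R m, ∀ u, R u = 1 → cyc R t u 1 = cyc R t u q := by
    intro t ht u hu
    have htr : ∀ x ∈ orels h n m, ∀ z, cyc R t x z = 0 := by
      intro x hx z
      rcases hx with rfl | ⟨j, rfl⟩
      · exact ht.1 z
      · exact ht.2 j z
    have hmem : PresentedGroup.mk (orels h n m) u ∈ ρ'.ker := hu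
    have hmemN : PresentedGroup.mk (orels h n m) u ∈ N := (hker _).1 hu
    let e : N →* ρ'.ker := Subgroup.inclusion hkerN.ge
    have h1 := hcon ((fN (orels h n m) ρ' t htr).comp e) ⟨PresentedGroup.mk _ u, hmemN⟩
    have h2 : (fN (orels h n m) ρ' t htr).comp e ⟨PresentedGroup.mk _ u, hmemN⟩ =
        Multiplicative.ofAdd (cyc R t u 1) := fN_mk (orels h n m) ρ' t htr u hmem
    have hconj : y * PresentedGroup.mk (orels h n m) u * y⁻¹ =
        PresentedGroup.mk (orels h n m) (uy * u * uy⁻¹) := by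
      rw [map_mul, map_mul, map_inv, huy']
    have h3 : (fN (orels h n m) ρ' t htr).comp e ⟨y * PresentedGroup.mk _ u * y⁻¹,
        hN.conj_mem _ hmemN y⟩ = Multiplicative.ofAdd (cyc R t (uy * u * uy⁻¹) 1) := by
      have h4 : PresentedGroup.mk (orels h n m) (uy * u * uy⁻¹) ∈ ρ'.ker := by
        rw [← hconj, hkerN]
        exact hN.conj_mem _ hmemN y
      rw [← fN_mk (orels h n m) ρ' t htr (uy * u * uy⁻¹) h4]
      show fN (orels h n m) ρ' t htr _ = _
      congr 1
      exact Subtype.ext hconj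
    have h5 : Multiplicative.ofAdd (cyc R t (uy * u * uy⁻¹) 1) =
        Multiplicative.ofAdd (cyc R t u 1) := by
      rw [← h2, ← h3]
      exact h1
    have h6 := Multiplicative.ofAdd.injective h5
    rw [cyc_conj R t u uy hu] at h6
    exact h6.symm
  -- the counts
  choose ω hω1 hω2 using fun j => card_invB (Q := Q) p (Subgroup.zpowers (R (og h n j)))
    (Subgroup.zpowers q)
  have hcι : Nat.card (OGen h n) = 2 * h + n := by
    rw [Nat.card_eq_fintype_card, Fintype.card_sum, Fintype.card_sum, Fintype.card_fin,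
      Fintype.card_fin]
    ring
  refine compare p hp.two_le (2 * h + n) (Nat.card Q) (Nat.card (Q ⧸ Subgroup.zpowers q)) l
    (Nat.card (zsub p R m))
    (Nat.card (zsub p R m ⊓ lsub p (OGen h n) (Subgroup.zpowers q) : AddSubgroup _))
    (Nat.card (wsub p q l)) (Nat.card (lsub p (OGen h n) (Subgroup.zpowers q)))
    (Nat.card (rsub (ZMod p) R m (Subgroup.zpowers q)))
    (∏ j, Nat.card (invB p (Subgroup.zpowers (R (og h n j))) (Subgroup.zpowers q)))
    (fun j => Nat.card (Q ⧸ Subgroup.zpowers (R (og h n j)))) ω m Nat.card_pos hl.two_le ?_ hm2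
    ?_ ?_ hyp ?_ ?_ ?_ ?_ ?_ ?_ ?_
  · have h1 : Nat.card Q = Nat.card (Q ⧸ Subgroup.zpowers q) * Nat.card (Subgroup.zpowers q) :=
      Subgroup.card_eq_card_quotient_mul_card_subgroup _
    rwa [hcq] at h1
  · intro j
    have h1 : Nat.card Q = Nat.card (Q ⧸ Subgroup.zpowers (R (og h n j))) *
      Nat.card (Subgroup.zpowers (R (og h n j))) :=
      Subgroup.card_eq_card_quotient_mul_card_subgroup _
    rwa [hcj] at h1
  · intro j
    have h1 := hω2 j
    rwa [hcj, hcq] at h1
  · have h1 := lower2 p R m hp hmR hpm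
    rwa [hcι] at h1
  · exact upper2 p R hR _ l hql hZ
  · exact card_wsub p hp q l hpl
  · exact rank2 p R m hp hpm _
  · have h1 := card_lsub_le p (OGen h n) (Subgroup.zpowers q)
    rwa [hcι] at h1
  · exact card_rsub_ge p R m _ hmR hR
  · rw [← Finset.prod_pow_eq_pow_sum]
    exact Finset.prod_le_prod' (fun j _ => hω1 j)

end main

end Pool.Agent.V8H21.MCG
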