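import Pool.Agent.V8H21.MCG.Rot3

set_option autoImplicit false

/-!
# Orbifold groups of negative Euler characteristic are virtually torsion-free
-/

namespace Pool.Agent.V8H21.MCG

open Equiv

section mat

variable {K : Type} [Field K]

theorem sq_mat (X : Matrix (Fin 2) (Fin 2) K) (hdet : X.det = 1) :
    X * X = X.trace • X - (1 : Matrix (Fin 2) (Fin 2) K) := by
  have hd : X 0 0 * X 1 1 - X 0 1 * X 1 0 = 1 := by rw [← hdet, Matrix.det_fin_two]
  ext i j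
  rw [Matrix.mul_apply, Fin.sum_univ_two, Matrix.sub_apply, Matrix.smul_apply, Matrix.trace_fin_two,
    smul_eq_mul]
  fin_cases i <;> fin_cases j <;> simp <;> first | linear_combination (-1 : K) * hd | ring

theorem pow_mat (X : Matrix (Fin 2) (Fin 2) K) (hdet : X.det = 1) (z z' : K) (hz : z * z' = 1)
    (htr : X.trace = z + z') (k : ℕ) :
    (z - z') • X ^ (k + 1) = (z ^ (k + 1) - z' ^ (k + 1)) • X -
      (z ^ k - z' ^ k) • (1 : Matrix (Fin 2) (Fin 2) K) := by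
  induction k with
  | zero => simp
  | succ k ih =>
    have h1 : (z - z') • X ^ (k + 1 + 1) = ((z - z') • X ^ (k + 1)) * X := by
      rw [pow_succ _ (k + 1), Matrix.smul_mul]
    rw [h1, ih, sub_mul, Matrix.smul_mul, Matrix.smul_mul, one_mul, sq_mat X hdet, htr, smul_sub,
      smul_smul, sub_right_comm, ← sub_smul]
    congr 2
    linear_combination (z ^ k - z' ^ k) * hz

theorem trace_pow_mat (X : Matrix (Fin 2) (Fin 2) K) (hdet : X.det = 1) (z z' : K)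
    (hz : z * z' = 1) (hne : z ≠ z') (htr : X.trace = z + z') (k : ℕ) :
    (X ^ (k + 1)).trace = z ^ (k + 1) + z' ^ (k + 1) := by
  have h1 := congrArg Matrix.trace (pow_mat X hdet z z' hz htr k)
  rw [Matrix.trace_smul, Matrix.trace_sub, Matrix.trace_smul, Matrix.trace_smul, htr,
    Matrix.trace_one, Fintype.card_fin, smul_eq_mul, smul_eq_mul, smul_eq_mul] at h1
  apply mul_left_cancel₀ (sub_ne_zero.2 hne)
  rw [h1]
  push_cast
  linear_combination (-(z' ^ k) + z ^ k) * hz + (z ^ k - z' ^ k) * hz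

theorem neg_one_mat (X : Matrix (Fin 2) (Fin 2) K) (hdet : X.det = 1) (z z' : K)
    (hz : z * z' = 1) (hne : z ≠ z') (htr : X.trace = z + z') (p : ℕ) (hp : p ≠ 0)
    (h1 : z ^ p = -1) (h2 : z' ^ p = -1) : X ^ p = -1 := by
  obtain ⟨k, rfl⟩ : ∃ k, p = k + 1 := ⟨p - 1, by omega⟩
  have h3 := pow_mat X hdet z z' hz htr k
  have h4 : z ^ k = -z' := by
    have : z ^ k = z ^ (k + 1) * z' := by rw [pow_succ, mul_assoc, hz, mul_one]
    rw [this, h1, neg_one_mul]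
  have h5 : z' ^ k = -z := by
    have : z' ^ k = z' ^ (k + 1) * z := by rw [pow_succ, mul_assoc, mul_comm z' z, hz, mul_one]
    rw [this, h2, neg_one_mul]
  rw [h1, h2, h4, h5, sub_self, zero_smul, zero_sub] at h3
  have h6 : (z - z') • X ^ (k + 1) = (z - z') • (-1 : Matrix (Fin 2) (Fin 2) K) := by
    rw [h3, smul_neg]
    congr 2
    ring
  exact smul_right_injective _ (sub_ne_zero.2 hne) h6

theorem pow_eq_mat (X : Matrix (Fin 2) (Fin 2) K) (hdet : X.det = 1) (z z' : K)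
    (hz : z * z' = 1) (hne : z ≠ z') (htr : X.trace = z + z') (k : ℕ)
    (h : X ^ k = 1 ∨ X ^ k = -1) : z ^ (2 * k) = 1 := by
  rcases k with _ | k
  · simp
  have h1 := trace_pow_mat X hdet z z' hz hne htr k
  have hzz : z ^ (k + 1) * z' ^ (k + 1) = 1 := by rw [← mul_pow, hz, one_pow]
  have h2 : ∃ e : K, e * e = 1 ∧ (X ^ (k + 1)).trace = 2 * e := by
    rcases h with h | h
    · exact ⟨1, by ring, by rw [h, Matrix.trace_one, Fintype.card_fin]; norm_num⟩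
    · exact ⟨-1, by ring, by
        rw [h, Matrix.trace_neg, Matrix.trace_one, Fintype.card_fin]; norm_num⟩
  obtain ⟨e, he, h3⟩ := h2
  have h4 : (z ^ (k + 1) - e) * (z ^ (k + 1) - e) = 0 := by
    rw [h3] at h1
    linear_combination (-z ^ (k + 1)) * h1 + he - hzz
  have h5 : z ^ (k + 1) = e := sub_eq_zero.1 (mul_self_eq_zero.1 h4)
  rw [two_mul, pow_add, h5, he]

end mat

section tri

/-- the subgroup `{1, -1}` of the units -/
def pmOne (R : Type) [Ring R] : Subgroup Rˣ where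
  carrier := {x | x = 1 ∨ x = -1}
  mul_mem' := by rintro a b (rfl | rfl) (rfl | rfl) <;> simp
  one_mem' := Or.inl rfl
  inv_mem' := by rintro a (rfl | rfl) <;> simp

theorem pmOne_normal (R : Type) [Ring R] : (pmOne R).Normal :=
  ⟨by
    rintro x (rfl | rfl) g
    · exact Or.inl (by simp)
    · exact Or.inr (by simp)⟩

theorem exists_root (l m : ℕ) (hl : l.Prime) (hm : 2 ≤ m) (hd : 2 * m ∣ l - 1) :
    ∃ z z' : ZMod l, z * z' = 1 ∧ z ≠ z' ∧ z ^ m = -1 ∧ z' ^ m = -1 ∧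
      ∀ k, z ^ (2 * k) = 1 → m ∣ k := by
  have hfl : Fact l.Prime := ⟨hl⟩
  obtain ⟨g, hg⟩ := IsCyclic.exists_generator (α := (ZMod l)ˣ)
  have hog : orderOf g = l - 1 := by
    rw [orderOf_eq_card_of_forall_mem_zpowers hg, Nat.card_eq_fintype_card, ZMod.card_units]
  have hl1 : l - 1 ≠ 0 := by have := hl.two_le; omega
  obtain ⟨c, hc⟩ := hd
  have hc0 : c ≠ 0 := by
    rintro rfl
    rw [mul_zero] at hc
    exact hl1 hc
  have hu : orderOf (g ^ c) = 2 * m := by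
    rw [orderOf_pow_of_dvd hc0 (by rw [hog, hc]; exact Dvd.intro_left _ rfl), hog, hc]
    exact Nat.mul_div_cancel _ (Nat.pos_of_ne_zero hc0)
  set u := g ^ c with hudef
  have hk : ∀ k, (u : ZMod l) ^ k = 1 → 2 * m ∣ k := by
    intro k hk
    rw [← hu]
    apply orderOf_dvd_of_pow_eq_one
    apply Units.ext
    rw [Units.val_pow_eq_pow_val, hk, Units.val_one]
  have h2m : (u : ZMod l) ^ (2 * m) = 1 := by
    rw [← Units.val_pow_eq_pow_val, ← hu, pow_orderOf_eq_one, Units.val_one]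
  have hm1 : (u : ZMod l) ^ m = -1 := by
    have h1 : ((u : ZMod l) ^ m - 1) * ((u : ZMod l) ^ m + 1) = 0 := by
      have : ((u : ZMod l) ^ m) * ((u : ZMod l) ^ m) = 1 := by
        rw [← pow_add, ← two_mul, h2m]
      linear_combination this
    rcases mul_eq_zero.1 h1 with h1 | h1
    · exfalso
      have := Nat.le_of_dvd (by omega) (hk m (sub_eq_zero.1 h1))
      omega
    · exact eq_neg_of_add_eq_zero_left h1
  have hzz : (u : ZMod l) * ((u⁻¹ : (ZMod l)ˣ) : ZMod l) = 1 := Units.mul_inv u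
  refine ⟨u, ((u⁻¹ : (ZMod l)ˣ) : ZMod l), hzz, ?_, hm1, ?_, ?_⟩
  · intro heq
    rw [← heq] at hzz
    have h1 : (u : ZMod l) ^ 2 = 1 := by rw [pow_two, hzz]
    have := Nat.le_of_dvd (by omega) (hk 2 h1)
    omega
  · have h1 : (u : ZMod l) ^ m * ((u⁻¹ : (ZMod l)ˣ) : ZMod l) ^ m = 1 := by
      rw [← mul_pow, hzz, one_pow]
    rw [hm1] at h1
    linear_combination -h1
  · intro k h1
    exact Nat.dvd_of_mul_dvd_mul_left (by norm_num) (hk _ h1)

theorem tri (p q r : ℕ) (hp : 2 ≤ p) (hq : 2 ≤ q) (hr : 2 ≤ r) :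
    ∃ (G : Type) (_ : Group G) (_ : Finite G) (A B C : G), A * B * C = 1 ∧
      (A ^ p = 1 ∧ B ^ q = 1 ∧ C ^ r = 1) ∧ (∀ k : ℕ, A ^ k = 1 → p ∣ k) ∧
      (∀ k : ℕ, B ^ k = 1 → q ∣ k) ∧ (∀ k : ℕ, C ^ k = 1 → r ∣ k) := by
  obtain ⟨l, hl, hl1, hl2⟩ := Nat.exists_prime_gt_modEq_one (k := 2 * (p * q * r)) 1 (by positivity)
  have hfl : Fact l.Prime := ⟨hl⟩
  have hdvd : 2 * (p * q * r) ∣ l - 1 := by
    rw [← Nat.modEq_iff_dvd' (by omega)]
    exact hl2.symm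
  have d1 : 2 * p ∣ l - 1 := (Nat.mul_dvd_mul_left 2 (by
    rw [mul_assoc]; exact Dvd.intro _ rfl)).trans hdvd
  have d2 : 2 * q ∣ l - 1 := (Nat.mul_dvd_mul_left 2 (by
    rw [mul_comm p q, mul_assoc]; exact Dvd.intro _ rfl)).trans hdvd
  have d3 : 2 * r ∣ l - 1 := (Nat.mul_dvd_mul_left 2 (Dvd.intro_left _ rfl)).trans hdvd
  obtain ⟨a, a', ha1, ha2, ha3, ha4, ha5⟩ := exists_root l p hl hp d1
  obtain ⟨b, b', hb1, hb2, hb3, hb4, hb5⟩ := exists_root l q hl hq d2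
  obtain ⟨s, s', hs1, hs2, hs3, hs4, hs5⟩ := exists_root l r hl hr d3
  let A₀ : Matrix (Fin 2) (Fin 2) (ZMod l) := !![a + a', -1; 1, 0]
  let B₀ : Matrix (Fin 2) (Fin 2) (ZMod l) := !![0, s; -s', b + b']
  have hA1 : A₀.det = 1 := by simp [A₀, Matrix.det_fin_two]
  have hB1 : B₀.det = 1 := by simp [B₀, Matrix.det_fin_two, hs1]
  have hA2 : A₀.trace = a + a' := by simp [A₀, Matrix.trace_fin_two]
  have hB2 : B₀.trace = b + b' := by simp [B₀, Matrix.trace_fin_two]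
  have hC1 : (A₀ * B₀).det = 1 := by rw [Matrix.det_mul, hA1, hB1, mul_one]
  have hC2 : (A₀ * B₀).trace = s + s' := by
    simp [A₀, B₀, Matrix.trace_fin_two, Matrix.mul_apply, Fin.sum_univ_two]
    ring
  let Au : (Matrix (Fin 2) (Fin 2) (ZMod l))ˣ := Matrix.nonsingInvUnit A₀ (by rw [hA1]; exact isUnit_one)
  let Bu : (Matrix (Fin 2) (Fin 2) (ZMod l))ˣ := Matrix.nonsingInvUnit B₀ (by rw [hB1]; exact isUnit_one)
  have hAu : (Au : Matrix (Fin 2) (Fin 2) (ZMod l)) = A₀ := rfl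
  have hBu : (Bu : Matrix (Fin 2) (Fin 2) (ZMod l)) = B₀ := rfl
  have hnorm := pmOne_normal (Matrix (Fin 2) (Fin 2) (ZMod l))
  have key1 : ∀ (U : (Matrix (Fin 2) (Fin 2) (ZMod l))ˣ) (k : ℕ),
      (U : Matrix (Fin 2) (Fin 2) (ZMod l)) ^ k = -1 →
      (QuotientGroup.mk' (pmOne (Matrix (Fin 2) (Fin 2) (ZMod l))) U) ^ k = 1 := by
    intro U k hU
    rw [← map_pow]
    apply (QuotientGroup.eq_one_iff _).2
    exact Or.inr (Units.ext (by rw [Units.val_pow_eq_pow_val, hU]; simp))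
  have key2 : ∀ (U : (Matrix (Fin 2) (Fin 2) (ZMod l))ˣ) (k : ℕ),
      (QuotientGroup.mk' (pmOne (Matrix (Fin 2) (Fin 2) (ZMod l))) U) ^ k = 1 →
      (U : Matrix (Fin 2) (Fin 2) (ZMod l)) ^ k = 1 ∨
        (U : Matrix (Fin 2) (Fin 2) (ZMod l)) ^ k = -1 := by
    intro U k hU
    rw [← map_pow] at hU
    rcases (QuotientGroup.eq_one_iff _).1 hU with h | h
    · exact Or.inl (by rw [← Units.val_pow_eq_pow_val, h, Units.val_one])
    · exact Or.inr (by rw [← Units.val_pow_eq_pow_val, h]; simp)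
  refine ⟨(Matrix (Fin 2) (Fin 2) (ZMod l))ˣ ⧸ pmOne (Matrix (Fin 2) (Fin 2) (ZMod l)),
    inferInstance, inferInstance, QuotientGroup.mk' _ Au, QuotientGroup.mk' _ Bu,
    (QuotientGroup.mk' _ (Au * Bu))⁻¹, ?_, ⟨?_, ?_, ?_⟩, ?_, ?_, ?_⟩
  · rw [← map_mul, mul_inv_cancel]
  · exact key1 Au p (neg_one_mat A₀ hA1 a a' ha1 ha2 hA2 p (by omega) ha3 ha4)
  · exact key1 Bu q (neg_one_mat B₀ hB1 b b' hb1 hb2 hB2 q (by omega) hb3 hb4)
  · rw [inv_pow, inv_eq_one]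
    exact key1 (Au * Bu) r (neg_one_mat (A₀ * B₀) hC1 s s' hs1 hs2 hC2 r (by omega) hs3 hs4)
  · intro k hk
    exact ha5 k (pow_eq_mat A₀ hA1 a a' ha1 ha2 hA2 k (key2 Au k hk))
  · intro k hk
    exact hb5 k (pow_eq_mat B₀ hB1 b b' hb1 hb2 hB2 k (key2 Bu k hk))
  · intro k hk
    rw [inv_pow, inv_eq_one] at hk
    exact hs5 k (pow_eq_mat (A₀ * B₀) hC1 s s' hs1 hs2 hC2 k (key2 (Au * Bu) k hk))

end tri

end Pool.Agent.V8H21.MCG
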