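import Pool.Agent.V8H21.MCG.Tf

set_option autoImplicit false

/-!
# Orbifold groups of negative Euler characteristic are virtually torsion-free, part 2
-/

namespace Pool.Agent.V8H21.MCG

open Equiv

theorem prod_ofFn_eq {G : Type} [Group G] {n : ℕ} (f : Fin n → G) (c : ℕ → G) (h0 : c 0 = 1)
    (hs : ∀ (k : ℕ) (hk : k < n), c (k + 1) = c k * f ⟨k, hk⟩) : (List.ofFn f).prod = c n := by
  have key : ∀ k ≤ n, ((List.ofFn f).take k).prod = c k := by
    intro k
    induction k with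
    | zero => intro _; rw [List.take_zero, List.prod_nil, h0]
    | succ k ih =>
      intro hk
      have hk' : k < (List.ofFn f).length := by rw [List.length_ofFn]; omega
      rw [List.prod_take_succ _ _ hk', ih (by omega), hs k (by omega), List.getElem_ofFn]
  have h1 := key n le_rfl
  rwa [List.take_of_length_le (by rw [List.length_ofFn])] at h1

theorem prod_single {G : Type} [Group G] {n : ℕ} (i₀ : Fin n) (x : G) :
    (List.ofFn (fun i : Fin n => if i = i₀ then x else 1)).prod = x := by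
  rw [prod_ofFn_eq _ (fun k => if (i₀ : ℕ) < k then x else 1) (by simp) ?_, if_pos i₀.2]
  intro k hk
  simp only [Fin.ext_iff]
  rcases lt_trichotomy k (i₀ : ℕ) with h | h | h
  · rw [if_neg (by omega), if_neg (by omega), if_neg (by omega), one_mul]
  · rw [if_pos (by omega), if_neg (by omega), if_pos h, one_mul]
  · rw [if_pos (by omega), if_pos (by omega), if_neg (by omega), mul_one]

theorem prod_triple {G : Type} [Group G] {n : ℕ} (i₁ i₂ i₃ : Fin n) (h12 : i₁ < i₂) (h23 : i₂ < i₃)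
    (x y z : G) :
    (List.ofFn (fun i : Fin n => if i = i₁ then x else if i = i₂ then y else if i = i₃ then z
      else 1)).prod = x * y * z := by
  have h12' : (i₁ : ℕ) < i₂ := h12
  have h23' : (i₂ : ℕ) < i₃ := h23
  have h1n := i₁.2
  have h2n := i₂.2
  have h3n := i₃.2
  rw [prod_ofFn_eq _ (fun k => (if (i₁ : ℕ) < k then x else 1) * (if (i₂ : ℕ) < k then y else 1) *
    (if (i₃ : ℕ) < k then z else 1)) (by simp) ?_, if_pos i₁.2, if_pos i₂.2, if_pos i₃.2]
  intro k hk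
  simp only [Fin.ext_iff]
  by_cases e1 : k = i₁
  · rw [if_pos (by omega), if_neg (by omega), if_neg (by omega), if_neg (by omega),
      if_neg (by omega), if_neg (by omega), if_pos e1]
    simp
  by_cases e2 : k = i₂
  · rw [if_pos (by omega), if_pos (by omega), if_neg (by omega), if_pos (by omega),
      if_neg (by omega), if_neg (by omega), if_neg e1, if_pos e2]
    simp
  by_cases e3 : k = i₃
  · rw [if_pos (by omega), if_pos (by omega), if_pos (by omega), if_pos (by omega),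
      if_pos (by omega), if_neg (by omega), if_neg e1, if_neg e2, if_pos e3]
    simp
  rw [if_neg e1, if_neg e2, if_neg e3, mul_one]
  have a1 : ((i₁ : ℕ) < k + 1) = ((i₁ : ℕ) < k) := propext ⟨fun _ => by omega, fun _ => by omega⟩
  have a2 : ((i₂ : ℕ) < k + 1) = ((i₂ : ℕ) < k) := propext ⟨fun _ => by omega, fun _ => by omega⟩
  have a3 : ((i₃ : ℕ) < k + 1) = ((i₃ : ℕ) < k) := propext ⟨fun _ => by omega, fun _ => by omega⟩
  simp only [a1, a2, a3]

variable {h n : ℕ} {m : Fin n → ℕ}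

theorem exists_orb_hom {G : Type} [Group G] (a b : Fin h → G) (x : Fin n → G)
    (h1 : (List.ofFn (fun i => a i * b i * (a i)⁻¹ * (b i)⁻¹)).prod = (List.ofFn x).prod)
    (h2 : ∀ j, x j ^ m j = 1) : ∃ f : Orb h n m →* G, ∀ j, f (cone h n m j) = x j := by
  let F : OGen h n → G := Sum.elim (Sum.elim a b) x
  have hog : ∀ j, FreeGroup.lift F (og h n j) = x j := by
    intro j
    unfold og
    rw [FreeGroup.lift_apply_of]
    rfl
  have hF : ∀ y ∈ orels h n m, FreeGroup.lift F y = 1 := by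
    intro y hy
    rcases hy with rfl | ⟨j, rfl⟩
    · unfold orel rel
      rw [map_mul, map_inv, map_list_prod, map_list_prod, map_list_prod, List.map_map,
        List.map_ofFn, List.map_ofFn, mul_inv_eq_one]
      have e1 : (⇑(FreeGroup.lift F) ∘ og h n) = x := funext hog
      rw [e1, ← h1]
      congr 2
      funext i
      simp [F, cm]
    · rw [map_pow, hog, h2]
  refine ⟨PresentedGroup.toGroup hF, fun j => ?_⟩
  unfold cone
  rw [PresentedGroup.toGroup.of]
  rfl

theorem tf_ker {G : Type} [Group G] [Finite G] (f : Orb h n m →* G) :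
    f.ker.Normal ∧ f.ker.FiniteIndex := ⟨inferInstance, inferInstance⟩

theorem tf_pos (hh : h ≠ 0) (hm : ∀ j, m j ≠ 0) (j : Fin n) :
    ∃ T : Subgroup (Orb h n m), T.Normal ∧ T.FiniteIndex ∧ ∀ k, cone h n m j ^ k ∈ T → m j ∣ k := by
  have hne : NeZero (2 * m j) := ⟨by have := hm j; omega⟩
  have hor : orderOf (DihedralGroup.r 1 : DihedralGroup (2 * m j)) = 2 * m j :=
    DihedralGroup.orderOf_r_one
  let i₀ : Fin h := ⟨0, Nat.pos_of_ne_zero hh⟩
  let u : DihedralGroup (2 * m j) := DihedralGroup.r 1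
  let v : DihedralGroup (2 * m j) := DihedralGroup.sr 0
  have huv : u * v * u⁻¹ * v⁻¹ = u ^ 2 := by
    simp only [u, v, pow_two]
    simp
  obtain ⟨f, hf⟩ := exists_orb_hom (m := m) (fun i : Fin h => if i = i₀ then u else 1)
    (fun i : Fin h => if i = i₀ then v else 1) (fun i : Fin n => if i = j then u ^ 2 else 1) (by
      rw [prod_single]
      rw [← prod_single i₀ (u ^ 2)]
      congr 2
      funext i
      by_cases hi : i = i₀
      · rw [if_pos hi, if_pos hi, if_pos hi, huv]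
      · rw [if_neg hi, if_neg hi, if_neg hi]; simp) (by
      intro i
      by_cases hi : i = j
      · rw [if_pos hi, hi, ← pow_mul]
        exact orderOf_dvd_iff_pow_eq_one.1 (by rw [hor])
      · rw [if_neg hi, one_pow])
  refine ⟨f.ker, (tf_ker f).1, (tf_ker f).2, fun k hk => ?_⟩
  have h1 : f (cone h n m j ^ k) = 1 := hk
  rw [map_pow, hf, if_pos rfl, ← pow_mul] at h1
  have h2 := orderOf_dvd_of_pow_eq_one h1
  rw [hor] at h2
  exact Nat.dvd_of_mul_dvd_mul_left (by norm_num) h2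

theorem tf_triple (h n : ℕ) (m : Fin n → ℕ) (i₁ i₂ i₃ : Fin n) (h12 : i₁ < i₂) (h23 : i₂ < i₃)
    (hm1 : 2 ≤ m i₁) (hm2 : 2 ≤ m i₂) (hm3 : 2 ≤ m i₃) :
    ∃ T : Subgroup (Orb h n m), (T.Normal ∧ T.FiniteIndex) ∧
      (∀ k, cone h n m i₁ ^ k ∈ T → m i₁ ∣ k) ∧ (∀ k, cone h n m i₂ ^ k ∈ T → m i₂ ∣ k) ∧
      (∀ k, cone h n m i₃ ^ k ∈ T → m i₃ ∣ k) := by
  obtain ⟨G, hG1, hG2, A, B, C, hABC, ⟨hA, hB, hC⟩, hA', hB', hC'⟩ :=
    tri (m i₁) (m i₂) (m i₃) hm1 hm2 hm3
  have n12 : i₁ ≠ i₂ := h12.ne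
  have n23 : i₂ ≠ i₃ := h23.ne
  have n13 : i₁ ≠ i₃ := (h12.trans h23).ne
  obtain ⟨f, hf⟩ := exists_orb_hom (m := m) (fun _ : Fin h => (1 : G)) (fun _ : Fin h => (1 : G))
    (fun i : Fin n => if i = i₁ then A else if i = i₂ then B else if i = i₃ then C else 1) (by
      rw [prod_triple i₁ i₂ i₃ h12 h23, hABC]
      apply List.prod_eq_one
      intro y hy
      rw [List.mem_ofFn] at hy
      obtain ⟨i, rfl⟩ := hy
      simp) (by
      intro i
      by_cases e1 : i = i₁
      · rw [if_pos e1, e1, hA]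
      by_cases e2 : i = i₂
      · rw [if_neg e1, if_pos e2, e2, hB]
      by_cases e3 : i = i₃
      · rw [if_neg e1, if_neg e2, if_pos e3, e3, hC]
      rw [if_neg e1, if_neg e2, if_neg e3, one_pow])
  refine ⟨f.ker, tf_ker f, ?_, ?_, ?_⟩
  · intro k hk
    have h1 : f (cone h n m i₁ ^ k) = 1 := hk
    rw [map_pow, hf, if_pos rfl] at h1
    exact hA' k h1
  · intro k hk
    have h1 : f (cone h n m i₂ ^ k) = 1 := hk
    rw [map_pow, hf, if_neg n12.symm, if_pos rfl] at h1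
    exact hB' k h1
  · intro k hk
    have h1 : f (cone h n m i₃ ^ k) = 1 := hk
    rw [map_pow, hf, if_neg n13.symm, if_neg n23.symm, if_pos rfl] at h1
    exact hC' k h1

theorem tf_zero (hm : ∀ j, m j ≠ 0) (hyp : (∑ j, (1 : ℚ) / (m j)) < ((2 * 0 + n : ℕ) : ℚ) - 2)
    (j : Fin n) :
    ∃ T : Subgroup (Orb 0 n m), T.Normal ∧ T.FiniteIndex ∧ ∀ k, cone 0 n m j ^ k ∈ T → m j ∣ k := by
  by_cases hj : m j = 1
  · exact ⟨⊤, inferInstance, inferInstance, fun k _ => by rw [hj]; exact one_dvd k⟩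
  have hj2 : 2 ≤ m j := by have := hm j; omega
  let S : Finset (Fin n) := Finset.univ.filter (fun i => 2 ≤ m i)
  have hS : 3 ≤ S.card := by
    by_contra hcon
    have hcard : (Finset.univ.filter (fun i => 2 ≤ m i)).card +
        (Finset.univ.filter (fun i => ¬ 2 ≤ m i)).card = n := by
      rw [Finset.card_filter_add_card_filter_not, Finset.card_univ, Fintype.card_fin]
    have h1 : (((Finset.univ.filter (fun i => ¬ 2 ≤ m i)).card : ℕ) : ℚ) ≤
        ∑ j, (1 : ℚ) / (m j) := by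
      rw [← Finset.sum_filter_add_sum_filter_not Finset.univ (fun i => ¬ 2 ≤ m i)]
      have h2 : ∑ i ∈ Finset.univ.filter (fun i => ¬ 2 ≤ m i), (1 : ℚ) / (m i) =
          (((Finset.univ.filter (fun i => ¬ 2 ≤ m i)).card : ℕ) : ℚ) := by
        rw [Finset.sum_congr rfl (g := fun _ => (1 : ℚ)), Finset.sum_const, nsmul_eq_mul, mul_one]
        intro i hi
        have h3 : m i = 1 := by
          have h4 := (Finset.mem_filter.1 hi).2
          have := hm i
          omega
        rw [h3]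
        norm_num
      rw [h2]
      have h5 : (0 : ℚ) ≤ ∑ i ∈ Finset.univ.filter (fun i => ¬ ¬ 2 ≤ m i), (1 : ℚ) / (m i) :=
        Finset.sum_nonneg (fun i _ => by positivity)
      linarith
    have h6 : ((n : ℕ) : ℚ) ≤ (((Finset.univ.filter (fun i => ¬ 2 ≤ m i)).card : ℕ) : ℚ) + 2 := by
      have h7 : n ≤ (Finset.univ.filter (fun i => ¬ 2 ≤ m i)).card + 2 := by
        have h8 : S.card = (Finset.univ.filter (fun i => 2 ≤ m i)).card := rfl
        omega
      exact_mod_cast h7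
    push_cast at hyp
    linarith
  have hjS : j ∈ S := Finset.mem_filter.2 ⟨Finset.mem_univ _, hj2⟩
  have hE : 1 < (S.erase j).card := by
    rw [Finset.card_erase_of_mem hjS]
    omega
  obtain ⟨a, ha, b, hb, hab⟩ := Finset.one_lt_card.1 hE
  have ha1 : a ≠ j := (Finset.mem_erase.1 ha).1
  have hb1 : b ≠ j := (Finset.mem_erase.1 hb).1
  have ha2 : 2 ≤ m a := (Finset.mem_filter.1 (Finset.mem_erase.1 ha).2).2
  have hb2 : 2 ≤ m b := (Finset.mem_filter.1 (Finset.mem_erase.1 hb).2).2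
  rcases lt_or_gt_of_ne hab with hab | hab <;> rcases lt_or_gt_of_ne ha1 with haj | haj <;>
    rcases lt_or_gt_of_ne hb1 with hbj | hbj
  · obtain ⟨T, ⟨t1, t2⟩, t3, t4, t5⟩ := tf_triple 0 n m a b j hab hbj ha2 hb2 hj2
    exact ⟨T, t1, t2, t5⟩
  · obtain ⟨T, ⟨t1, t2⟩, t3, t4, t5⟩ := tf_triple 0 n m a j b haj hbj ha2 hj2 hb2
    exact ⟨T, t1, t2, t4⟩
  · exact absurd (hab.trans hbj) (lt_asymm haj)
  · obtain ⟨T, ⟨t1, t2⟩, t3, t4, t5⟩ := tf_triple 0 n m j a b haj hab hj2 ha2 hb2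
    exact ⟨T, t1, t2, t3⟩
  · obtain ⟨T, ⟨t1, t2⟩, t3, t4, t5⟩ := tf_triple 0 n m b a j hab haj hb2 ha2 hj2
    exact ⟨T, t1, t2, t5⟩
  · exact absurd (hab.trans haj) (lt_asymm hbj)
  · obtain ⟨T, ⟨t1, t2⟩, t3, t4, t5⟩ := tf_triple 0 n m b j a hbj haj hb2 hj2 ha2
    exact ⟨T, t1, t2, t4⟩
  · obtain ⟨T, ⟨t1, t2⟩, t3, t4, t5⟩ := tf_triple 0 n m j b a hbj hab hj2 hb2 ha2
    exact ⟨T, t1, t2, t3⟩

/-- An orbifold group of negative Euler characteristic has a normal subgroup of finite index without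
torsion. -/
theorem exists_tf (hm : ∀ j, m j ≠ 0)
    (hyp : (∑ j, (1 : ℚ) / (m j)) < ((2 * h + n : ℕ) : ℚ) - 2) :
    ∃ T : Subgroup (Orb h n m), T.Normal ∧ T.FiniteIndex ∧
      ∀ i k, cone h n m i ^ k ∈ T → m i ∣ k := by
  have h1 : ∀ j, ∃ T : Subgroup (Orb h n m), T.Normal ∧ T.FiniteIndex ∧
      ∀ k, cone h n m j ^ k ∈ T → m j ∣ k := by
    intro j
    by_cases hh : h = 0
    · subst hh
      exact tf_zero hm hyp j
    · exact tf_pos hh hm j
  choose T hT1 hT2 hT3 using h1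
  have hfi : (⨅ j, T j).FiniteIndex := Subgroup.finiteIndex_iInf hT2
  exact ⟨⨅ j, T j, Subgroup.normal_iInf_normal hT1, hfi, fun i k hk =>
    hT3 i k ((Subgroup.mem_iInf.1 hk) i)⟩

end Pool.Agent.V8H21.MCG
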