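import Pool.Agent.V8H21.MCG.Alg
import Mathlib.Topology.NoetherianSpace

set_option autoImplicit false

/-!
# The Zariski topology of the representation variety
-/

namespace Pool.Agent.V8H21.MCG

open MvPolynomial

section general

variable {G : Type} [Group G] {K : Type} [Field K] {n : ℕ}

/-- All coordinates are polynomials in finitely many of them. -/
theorem exists_poly [hG : Group.FG G] (n : ℕ) (K : Type) [Field K] :
    ∃ (ι : Type) (_ : Finite ι) (c : (G →* Matrix.GeneralLinearGroup (Fin n) K) → ι → K)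
      (Q : G × Fin n × Fin n → MvPolynomial ι K), ∀ x u, eval (c x) (Q u) = crd x u := by
  classical
  obtain ⟨S, hS, hfin⟩ := Group.fg_iff.mp hG
  have hfinS : Finite S := hfin
  let c : (G →* Matrix.GeneralLinearGroup (Fin n) K) → (S × Bool) × (Fin n × Fin n) → K :=
    fun x p => crd x ((if p.1.2 then (p.1.1 : G) else (p.1.1 : G)⁻¹), p.2.1, p.2.2)
  have hent : ∀ w : G,
      (∃ q : Fin n → Fin n → MvPolynomial ((S × Bool) × (Fin n × Fin n)) K,
        ∀ x i j, eval (c x) (q i j) = crd x (w, i, j)) ∧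
      (∃ q : Fin n → Fin n → MvPolynomial ((S × Bool) × (Fin n × Fin n)) K,
        ∀ x i j, eval (c x) (q i j) = crd x (w⁻¹, i, j)) := by
    intro w
    have hw : w ∈ Subgroup.closure S := by
      rw [hS]
      trivial
    have hmul : ∀ a b : G,
        (∃ q : Fin n → Fin n → MvPolynomial ((S × Bool) × (Fin n × Fin n)) K,
          ∀ x i j, eval (c x) (q i j) = crd x (a, i, j)) →
        (∃ q : Fin n → Fin n → MvPolynomial ((S × Bool) × (Fin n × Fin n)) K,
          ∀ x i j, eval (c x) (q i j) = crd x (b, i, j)) →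
        (∃ q : Fin n → Fin n → MvPolynomial ((S × Bool) × (Fin n × Fin n)) K,
          ∀ x i j, eval (c x) (q i j) = crd x (a * b, i, j)) := by
      rintro a b ⟨q, hq⟩ ⟨q', hq'⟩
      refine ⟨fun i j => ∑ k, q i k * q' k j, fun x i j => ?_⟩
      rw [map_sum]
      show _ = (x (a * b) : Matrix (Fin n) (Fin n) K) i j
      rw [map_mul, Units.val_mul, Matrix.mul_apply]
      refine Finset.sum_congr rfl fun k _ => ?_
      rw [map_mul, hq, hq']
      rfl
    induction hw using Subgroup.closure_induction with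
    | mem w hw =>
      refine ⟨⟨fun i j => X ((⟨w, hw⟩, true), (i, j)), fun x i j => ?_⟩,
        ⟨fun i j => X ((⟨w, hw⟩, false), (i, j)), fun x i j => ?_⟩⟩
      · rw [eval_X]
        rfl
      · rw [eval_X]
        rfl
    | one =>
      have h1 : ∃ q : Fin n → Fin n → MvPolynomial ((S × Bool) × (Fin n × Fin n)) K,
          ∀ x i j, eval (c x) (q i j) = crd x (1, i, j) := by
        refine ⟨fun i j => C ((1 : Matrix (Fin n) (Fin n) K) i j), fun x i j => ?_⟩
        rw [eval_C]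
        show _ = (x 1 : Matrix (Fin n) (Fin n) K) i j
        rw [map_one, Units.val_one]
      rw [inv_one]
      exact ⟨h1, h1⟩
    | mul a b _ _ ha hb =>
      rw [mul_inv_rev]
      exact ⟨hmul _ _ ha.1 hb.1, hmul _ _ hb.2 ha.2⟩
    | inv a _ ha =>
      rw [inv_inv]
      exact ⟨ha.2, ha.1⟩
  choose q hq using fun w => (hent w).1
  exact ⟨_, inferInstance, c, fun u => q u.1 u.2.1 u.2.2, fun x u => hq u.1 x u.2.1 u.2.2⟩

theorem isAlg_empty : IsAlg (∅ : Set (G →* Matrix.GeneralLinearGroup (Fin n) K)) := by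
  refine ⟨{1}, fun x => ?_⟩
  simp

theorem isAlg_sInter (A : Set (Set (G →* Matrix.GeneralLinearGroup (Fin n) K)))
    (hA : A ⊆ {Z | IsAlg Z}) : IsAlg (⋂₀ A) := by
  classical
  refine ⟨{P | ∀ x ∈ ⋂₀ A, eval (crd x) P = 0}, fun x => ⟨fun hx P hP => hP x hx, fun hx => ?_⟩⟩
  rw [Set.mem_sInter]
  intro Z hZ
  obtain ⟨F, hF⟩ := hA hZ
  rw [hF]
  intro P hP
  apply hx
  intro y hy
  exact (hF y).1 (Set.mem_sInter.1 hy Z hZ) P hP

theorem isAlg_union {Z Z' : Set (G →* Matrix.GeneralLinearGroup (Fin n) K)}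
    (hZ : IsAlg Z) (hZ' : IsAlg Z') : IsAlg (Z ∪ Z') := by
  obtain ⟨F, hF⟩ := hZ
  obtain ⟨F', hF'⟩ := hZ'
  refine ⟨{P | ∃ a ∈ F, ∃ b ∈ F', P = a * b}, fun x => ⟨?_, fun hx => ?_⟩⟩
  · rintro (h | h) P ⟨a, ha, b, hb, rfl⟩
    · rw [map_mul, (hF x).1 h a ha, zero_mul]
    · rw [map_mul, (hF' x).1 h b hb, mul_zero]
  · by_contra hn
    rw [Set.mem_union, not_or, hF, hF'] at hn
    obtain ⟨h1, h2⟩ := hn
    push Not at h1 h2
    obtain ⟨a, ha, h1⟩ := h1
    obtain ⟨b, hb, h2⟩ := h2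
    have h3 := hx (a * b) ⟨a, ha, b, hb, rfl⟩
    rw [map_mul] at h3
    exact (mul_ne_zero h1 h2) h3

/-- the Zariski topology -/
def zar (G : Type) [Group G] (K : Type) [Field K] (n : ℕ) :
    TopologicalSpace (G →* Matrix.GeneralLinearGroup (Fin n) K) :=
  TopologicalSpace.ofClosed {Z | IsAlg Z} isAlg_empty (fun A hA => isAlg_sInter A hA)
    (fun _ hA _ hB => isAlg_union hA hB)

theorem closed_iff (Z : Set (G →* Matrix.GeneralLinearGroup (Fin n) K)) :
    @IsClosed _ (zar G K n) Z ↔ IsAlg Z := by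
  rw [← @isOpen_compl_iff _ _ (zar G K n)]
  show IsAlg (Zᶜᶜ) ↔ _
  rw [compl_compl]

theorem noetherian [hG : Group.FG G] : @TopologicalSpace.NoetherianSpace _ (zar G K n) := by
  classical
  let _ := zar G K n
  obtain ⟨ι, hι, c, Q, hQ⟩ := exists_poly (G := G) n K
  have h1 : WellFoundedLT (TopologicalSpace.Closeds (G →* Matrix.GeneralLinearGroup (Fin n) K)) := by
    -- the ideal of a closed set
    let I : TopologicalSpace.Closeds (G →* Matrix.GeneralLinearGroup (Fin n) K) →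
        (Ideal (MvPolynomial ι K))ᵒᵈ := fun Z => OrderDual.toDual
      { carrier := {P | ∀ x ∈ (Z : Set _), eval (c x) P = 0}
        zero_mem' := fun x _ => map_zero _
        add_mem' := fun {a b} ha hb x hx => by rw [map_add, ha x hx, hb x hx, add_zero]
        smul_mem' := fun a b hb x hx => by rw [smul_eq_mul, map_mul, hb x hx, mul_zero] }
    have hev : ∀ x P, eval (c x) (bind₁ Q P) = eval (crd x) P := by
      intro x P
      have h1 := aeval_bind₁ (c x) Q P
      have h2 : (fun u => aeval (c x) (Q u)) = crd x := by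
        funext u
        rw [← hQ x u, aeval_eq_eval]
      rw [h2] at h1
      rw [aeval_eq_eval, aeval_eq_eval] at h1
      exact h1
    have hI : StrictMono I := by
      intro Z Z' hlt
      have hle : (Z : Set (G →* Matrix.GeneralLinearGroup (Fin n) K)) ⊆ Z' := hlt.le
      refine lt_of_le_not_ge ?_ ?_
      · intro P hP x hx
        exact hP x (hle hx)
      · intro h
        apply hlt.not_ge
        obtain ⟨F, hF⟩ := (closed_iff _).1 Z.isClosed
        intro x hx
        apply (hF x).2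
        intro P hP
        have h2 : bind₁ Q P ∈ OrderDual.ofDual (I Z) := by
          intro y hy
          rw [hev]
          exact (hF y).1 hy P hP
        have h3 : bind₁ Q P ∈ OrderDual.ofDual (I Z') := h h2
        rw [← hev]
        exact h3 x hx
    exact hI.wellFoundedLT
  exact ((TopologicalSpace.noetherianSpace_TFAE _).out 0 1).2 h1

/-- irreducible algebraic sets -/
def IsIrr (Z : Set (G →* Matrix.GeneralLinearGroup (Fin n) K)) : Prop :=
  IsAlg Z ∧ Z.Nonempty ∧ ∀ Z₁ Z₂, IsAlg Z₁ → IsAlg Z₂ → Z ⊆ Z₁ ∪ Z₂ → Z ⊆ Z₁ ∨ Z ⊆ Z₂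

/-- irreducible components -/
def IsComp (V Z : Set (G →* Matrix.GeneralLinearGroup (Fin n) K)) : Prop :=
  IsIrr Z ∧ Z ⊆ V ∧ ∀ Z', IsIrr Z' → Z' ⊆ V → Z ⊆ Z' → Z' ⊆ Z

theorem finite_comp [hG : Group.FG G] (V : Set (G →* Matrix.GeneralLinearGroup (Fin n) K))
    (hV : IsAlg V) : {Z | IsComp V Z}.Finite := by
  classical
  let _ := zar G K n
  have := noetherian (G := G) (K := K) (n := n)
  obtain ⟨S, hSf, hSc, hSi, hSV⟩ :=
    TopologicalSpace.NoetherianSpace.exists_finite_set_isClosed_irreducible ((closed_iff V).2 hV)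
  refine hSf.subset fun Z hZ => ?_
  obtain ⟨⟨h1, h2, h3⟩, h4, h5⟩ := hZ
  have hirr : IsIrreducible Z := by
    refine ⟨h2, ?_⟩
    rw [isPreirreducible_iff_isClosed_union_isClosed]
    intro z₁ z₂ hz₁ hz₂
    exact h3 z₁ z₂ ((closed_iff _).1 hz₁) ((closed_iff _).1 hz₂)
  lift S to Finset (Set (G →* Matrix.GeneralLinearGroup (Fin n) K)) using hSf
  obtain ⟨t, htS, ht⟩ := isIrreducible_iff_sUnion_isClosed.1 hirr S hSc (hSV ▸ h4)
  have htV : t ⊆ V := by
    rw [hSV]
    exact Set.subset_sUnion_of_mem htS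
  have hti : IsIrr t := by
    refine ⟨(closed_iff _).1 (hSc t htS), (hSi t htS).1, ?_⟩
    intro Z₁ Z₂ hZ₁ hZ₂ hZ
    exact (isPreirreducible_iff_isClosed_union_isClosed.1 (hSi t htS).2) Z₁ Z₂
      ((closed_iff _).2 hZ₁) ((closed_iff _).2 hZ₂) hZ
  have : Z = t := Set.Subset.antisymm ht (h5 t hti htV ht)
  rw [this]
  exact htS

theorem pull_pull (φ ψ : MulAut G) (Z : Set (G →* Matrix.GeneralLinearGroup (Fin n) K)) :
    pull (φ * ψ) Z = pull φ (pull ψ Z) := by
  ext x
  show x.comp (φ * ψ).toMonoidHom ∈ Z ↔ (x.comp φ.toMonoidHom).comp ψ.toMonoidHom ∈ Z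
  rfl

theorem pull_one (Z : Set (G →* Matrix.GeneralLinearGroup (Fin n) K)) : pull 1 Z = Z := by
  ext x
  show x.comp (1 : MulAut G).toMonoidHom ∈ Z ↔ x ∈ Z
  rfl

theorem pull_mono (φ : MulAut G) {Z Z' : Set (G →* Matrix.GeneralLinearGroup (Fin n) K)}
    (h : Z ⊆ Z') : pull φ Z ⊆ pull φ Z' := fun _ hx => h hx

theorem isAlg_pull (φ : MulAut G) {Z : Set (G →* Matrix.GeneralLinearGroup (Fin n) K)}
    (h : IsAlg Z) : IsAlg (pull φ Z) := by
  obtain ⟨F, hF⟩ := h
  refine ⟨(fun P => rename (fun u : G × Fin n × Fin n => (φ u.1, u.2)) P) '' F, fun x => ?_⟩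
  show x.comp φ.toMonoidHom ∈ Z ↔ _
  rw [hF]
  constructor
  · rintro h P ⟨P', hP', rfl⟩
    show eval (crd x) (rename _ P') = 0
    rw [eval_rename]
    exact h P' hP'
  · intro h P hP
    have h1 := h _ ⟨P, hP, rfl⟩
    rw [eval_rename] at h1
    exact h1

theorem isIrr_pull (φ : MulAut G) {Z : Set (G →* Matrix.GeneralLinearGroup (Fin n) K)}
    (h : IsIrr Z) : IsIrr (pull φ Z) := by
  obtain ⟨h1, h2, h3⟩ := h
  have hinv : ∀ W : Set (G →* Matrix.GeneralLinearGroup (Fin n) K),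
      pull φ (pull φ⁻¹ W) = W := fun W => by rw [← pull_pull, mul_inv_cancel, pull_one]
  have hinv2 : ∀ W : Set (G →* Matrix.GeneralLinearGroup (Fin n) K),
      pull φ⁻¹ (pull φ W) = W := fun W => by rw [← pull_pull, inv_mul_cancel, pull_one]
  refine ⟨isAlg_pull φ h1, ?_, ?_⟩
  · obtain ⟨x, hx⟩ := h2
    refine ⟨x.comp φ⁻¹.toMonoidHom, ?_⟩
    show x ∈ pull φ⁻¹ (pull φ Z)
    rw [hinv2]
    exact hx
  · intro Z₁ Z₂ hZ₁ hZ₂ h
    have h4 := pull_mono φ⁻¹ h
    rw [hinv2] at h4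
    rcases h3 (pull φ⁻¹ Z₁) (pull φ⁻¹ Z₂) (isAlg_pull _ hZ₁) (isAlg_pull _ hZ₂) h4 with h5 | h5
    · left
      have := pull_mono φ h5
      rwa [hinv] at this
    · right
      have := pull_mono φ h5
      rwa [hinv] at this

theorem isComp_pull (φ : MulAut G) {V Z : Set (G →* Matrix.GeneralLinearGroup (Fin n) K)}
    (hV : pull φ V = V) (h : IsComp V Z) : IsComp V (pull φ Z) := by
  obtain ⟨h1, h2, h3⟩ := h
  have hinv : ∀ W : Set (G →* Matrix.GeneralLinearGroup (Fin n) K),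
      pull φ (pull φ⁻¹ W) = W := fun W => by rw [← pull_pull, mul_inv_cancel, pull_one]
  have hinv2 : ∀ W : Set (G →* Matrix.GeneralLinearGroup (Fin n) K),
      pull φ⁻¹ (pull φ W) = W := fun W => by rw [← pull_pull, inv_mul_cancel, pull_one]
  have hV2 : pull φ⁻¹ V = V := by
    conv_lhs => rw [← hV]
    rw [hinv2]
  refine ⟨isIrr_pull φ h1, ?_, ?_⟩
  · have := pull_mono φ h2
    rwa [hV] at this
  · intro Z' hZ' hZ'V hZZ'
    have h4 := pull_mono φ⁻¹ hZZ'
    rw [hinv2] at h4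
    have h5 := pull_mono φ⁻¹ hZ'V
    rw [hV2] at h5
    have h6 := pull_mono φ (h3 _ (isIrr_pull φ⁻¹ hZ') h5 h4)
    rwa [hinv] at h6

end general

end Pool.Agent.V8H21.MCG
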